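import Pool.Agent.CvQ.Defs
import Pool.Agent.CvD.AiQ
import Pool.Agent.ECD.GLPow
import Pool.Agent.ECD.LinRec
import Pool.Agent.GAvg.DigDef
import Pool.Agent.PtC.Final

/-!
# Package CvQ-AuxD: the auxiliary parameters are definable

Complete proof. For each `m < M` and prime `p` choose `h_m`, monic irreducible of degree `m + 1` over
`ZMod p` (exists: `GaloisField`), with the least code `∑ h_l p ^ l < p ^ (m + 1)`: the graph is
`Delta0` (irreducibility of a polynomial with bounded degree: `CvD.AiQ.irp_prq` and `PRc.prq_delta`;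
minimality by a bounded quantifier), so the coefficients are in the class. `w_m = X ^ p` modulo `h_m`: its
coefficients are the first column of the `p`-th power of the companion matrix of `h_m` over `ZMod p`
(or: `X ^ p` in `AdjoinRoot h_m`): powers of matrices modulo `p` with exponents in the class are in the
class (`ECD/GLPow`; see the theorems there, and `ECD/RecMat`). For nonprime `p` take `0`.
-/

set_option autoImplicit false

noncomputable section

namespace Pool.Agent.CvQ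

open Polynomial Pool.Agent.PRc Pool.Agent.Grz Pool.Agent.PTr

/-- the least number with a property -/
private theorem least_AuxD {n : ℕ} {b : (Fin n → ℕ) → ℕ} (hb : DFun n b)
    {Q : ℕ → (Fin n → ℕ) → Prop}
    (hQ : Delta0 (n + 1) (fun w => Q (w 0) (fun i => w i.succ))) :
    DFun n (fun v => sInf {x | x < b v ∧ Q x v}) := by
  have hS : Delta0 (n + 1) (fun w => w 0 < b (fun i => w i.succ) ∧
      Q (w 0) (fun i => w i.succ)) := (Delta0.ltFun (DFun.proj 0) hb.weak).and hQ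
  refine DFun.ofGraph hb (fun v => ?_) ?_
  · rcases Set.eq_empty_or_nonempty {x | x < b v ∧ Q x v} with h | h
    · rw [h, Nat.sInf_empty]
      exact Nat.zero_le _
    · exact (Nat.sInf_mem h).1.le
  · have h1 : Delta0 (n + 1) (fun w => ∀ x, x ≤ w 0 → x < w 0 →
        ¬ (x < b (fun i => w i.succ) ∧ Q x (fun i => w i.succ))) := by
      refine Delta0.ballFun (n := n + 1) (b := fun w => w 0)
        (P := fun x w => x < w 0 → ¬ (x < b (fun i => w i.succ) ∧ Q x (fun i => w i.succ)))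
        (DFun.proj 0) ?_
      refine (Delta0.ltFun (DFun.proj 0) (DFun.proj 1)).imp ?_
      exact (hS.rename (n := n + 1 + 1) (Fin.cons 0 (fun i => i.succ.succ))).not.of_iff
        fun w => by simp [Fin.cons_succ]
    have h2 : Delta0 (n + 1) (fun w => ∀ x, x ≤ b (fun i => w i.succ) →
        ¬ (x < b (fun i => w i.succ) ∧ Q x (fun i => w i.succ))) := by
      refine Delta0.ballFun (n := n + 1) (b := fun w => b (fun i => w i.succ))
        (P := fun x w => ¬ (x < b (fun i => w i.succ) ∧ Q x (fun i => w i.succ)))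
        hb.weak ?_
      exact (hS.rename (n := n + 1 + 1) (Fin.cons 0 (fun i => i.succ.succ))).not.of_iff
        fun w => by simp [Fin.cons_succ]
    refine ((hS.and h1).or (h2.and (Delta0.eqFun (DFun.proj 0) (DFun.const 0)))).of_iff
      fun w => ?_
    obtain ⟨v, hv⟩ : ∃ v : Fin n → ℕ, v = fun i => w i.succ := ⟨_, rfl⟩
    rw [← hv]
    constructor
    · intro h
      rcases Set.eq_empty_or_nonempty {x | x < b v ∧ Q x v} with h3 | h3
      · right
        refine ⟨fun x _ hx => ?_, ?_⟩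
        · have h4 : x ∈ {x | x < b v ∧ Q x v} := hx
          rw [h3] at h4
          exact h4
        · rw [h, h3, Nat.sInf_empty]
      · left
        rw [h]
        exact ⟨Nat.sInf_mem h3, fun x _ hx hx' => Nat.notMem_of_lt_sInf hx hx'⟩
    · rintro (⟨h3, h4⟩ | ⟨h3, h4⟩)
      · refine le_antisymm ?_ (Nat.sInf_le h3)
        by_contra hcon
        push Not at hcon
        have h5 : ({x | x < b v ∧ Q x v} : Set ℕ).Nonempty := ⟨w 0, h3⟩
        exact h4 _ hcon.le hcon (Nat.sInf_mem h5)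
      · have h5 : {x | x < b v ∧ Q x v} = ∅ := by
          rw [Set.eq_empty_iff_forall_notMem]
          intro x hx
          exact h3 x hx.1.le hx
        rw [h4, h5, Nat.sInf_empty]

/-- irreducible with a nonzero constant coefficient -/
private def qq_AuxD (s : ℕ) (hs : 0 < s) : FR (Fin s) := fun _ _ x =>
  Irreducible (X ^ s + ∑ l : Fin s, C (x l) * X ^ (l : ℕ)) ∧ ¬ x ⟨0, hs⟩ = 0

private theorem qq_prq_AuxD (s : ℕ) (hs : 0 < s) : PRQ (qq_AuxD s hs) :=
  (CvD.irp_prq s).and (PRQ.eq (PRF.var _) PRF.zero).not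

/-- the digits -/
private def dg_AuxD (M x l : ℕ) : ℕ := x / (M + 1) ^ l % (M + 1)

/-- the property of the code -/
private def rr_AuxD (s : ℕ) (hs : 0 < s) (x M : ℕ) : Prop :=
  ∃ h : (M + 1).Prime, haveI := Fact.mk h
    qq_AuxD s hs (ZMod (M + 1)) (fun l : Fin s => (dg_AuxD M x l : ZMod (M + 1)))

private theorem dg_def_AuxD {n : ℕ} {M x : (Fin n → ℕ) → ℕ} (hM : DFun n M) (hx : DFun n x)
    (l : ℕ) : DFun n (fun v => dg_AuxD (M v) (x v) l) :=
  (DFun.divPos hx (DFun.powConst (hM.add (DFun.const 1)) l) fun v => by positivity).mod hM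

/-- the least code -/
private def cd_AuxD (s : ℕ) (hs : 0 < s) (M : ℕ) : ℕ :=
  sInf {x | x < (M + 1) ^ s ∧ rr_AuxD s hs x M}

private theorem cd_def_AuxD (s : ℕ) (hs : 0 < s) : DFun 1 (fun v => cd_AuxD s hs (v 0)) := by
  refine least_AuxD (n := 1) (b := fun v => (v 0 + 1) ^ s) (Q := fun x v => rr_AuxD s hs x (v 0))
    (DFun.powConst ((DFun.proj 0).add (DFun.const 1)) s) ?_
  exact prq_delta (n := 2) (qq_prq_AuxD s hs) (p := fun w => w 1 + 1)
    (a := fun l w => dg_AuxD (w 1) (w 0) l) ((DFun.proj 1).add (DFun.const 1))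
    fun l => dg_def_AuxD (DFun.proj 1) (DFun.proj 0) l

/-- an irreducible polynomial -/
private theorem ex_AuxD (p : ℕ) [Fact p.Prime] {s : ℕ} (hs : 0 < s) :
    ∃ f : (ZMod p)[X], f.Monic ∧ f.natDegree = s ∧ Irreducible f ∧ f.coeff 0 ≠ 0 := by
  have hfin : FiniteDimensional (ZMod p) (GaloisField p s) := inferInstance
  have key : ∃ α : GaloisField p s, α ≠ 0 ∧ IntermediateField.adjoin (ZMod p) {α} = ⊤ := by
    obtain ⟨α, hα⟩ := Field.exists_primitive_element_of_finite_bot (ZMod p) (GaloisField p s)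
    by_cases h : α = 0
    · refine ⟨1, one_ne_zero, ?_⟩
      rw [← hα, h, IntermediateField.adjoin_zero, IntermediateField.adjoin_one]
    · exact ⟨α, h, hα⟩
  obtain ⟨α, h0, hα⟩ := key
  have hint : IsIntegral (ZMod p) α := Algebra.IsIntegral.isIntegral α
  refine ⟨minpoly (ZMod p) α, minpoly.monic hint, ?_, minpoly.irreducible hint,
    minpoly.coeff_zero_ne_zero hint h0⟩
  rw [← IntermediateField.adjoin.finrank hint, hα, IntermediateField.finrank_top',
    GaloisField.finrank p hs.ne']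

private theorem rr_ex_AuxD (s : ℕ) (hs : 0 < s) (M : ℕ) (hp : (M + 1).Prime) :
    {x | x < (M + 1) ^ s ∧ rr_AuxD s hs x M}.Nonempty := by
  have := Fact.mk hp
  obtain ⟨f, hm, hd, hi, h0⟩ := ex_AuxD (M + 1) hs
  have hlt : ∀ i < s, (f.coeff i).val < M + 1 := fun i _ => ZMod.val_lt _
  refine ⟨∑ i ∈ Finset.range s, (f.coeff i).val * (M + 1) ^ i,
    GAvg.sum_lt hp.pos (fun i => (f.coeff i).val) hlt, hp, ?_⟩
  have hdig : ∀ l : Fin s, (dg_AuxD M (∑ i ∈ Finset.range s, (f.coeff i).val * (M + 1) ^ i) l :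
      ZMod (M + 1)) = f.coeff l := by
    intro l
    have h1 := GAvg.dig_sum hp.pos (fun i => (f.coeff i).val) hlt l.2
    unfold GAvg.dig at h1
    unfold dg_AuxD
    rw [h1, ZMod.natCast_zmod_val]
  unfold qq_AuxD
  simp only [hdig]
  refine ⟨?_, fun h => h0 ((hdig ⟨0, hs⟩).symm.trans h)⟩
  have h2 : (X ^ s + ∑ l : Fin s, C (f.coeff l) * X ^ (l : ℕ) : (ZMod (M + 1))[X]) = f := by
    subst hd
    conv_rhs => rw [hm.as_sum]
    rw [Finset.sum_range]
  rw [h2]
  exact hi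

/-- the coefficients -/
private def cf_AuxD (s : ℕ) (hs : 0 < s) (M l : ℕ) : ℕ := dg_AuxD M (cd_AuxD s hs M) l

private theorem cf_def_AuxD (s : ℕ) (hs : 0 < s) (l : ℕ) :
    DFun 1 (fun v => cf_AuxD s hs (v 0) l) :=
  dg_def_AuxD (DFun.proj 0) (cd_def_AuxD s hs) l

private theorem cf_spec_AuxD (s : ℕ) (hs : 0 < s) (M : ℕ) [h : Fact (M + 1).Prime] :
    Irreducible (X ^ s + ∑ l : Fin s, C (cf_AuxD s hs M l : ZMod (M + 1)) * X ^ (l : ℕ)) ∧
      ¬ (cf_AuxD s hs M 0 : ZMod (M + 1)) = 0 := by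
  obtain ⟨_, h1⟩ := (Nat.sInf_mem (rr_ex_AuxD s hs M h.out)).2
  exact h1

/-- the coefficients of the recurrence -/
private def cc_AuxD (s : ℕ) (hs : 0 < s) (M l : ℕ) : ℕ :=
  if (M + 1).Prime then M + 1 - cf_AuxD s hs M l else if l = 0 then 1 else 0

private theorem cc_def_AuxD (s : ℕ) (hs : 0 < s) (l : ℕ) :
    DFun 1 (fun v => cc_AuxD s hs (v 0) l) := by
  unfold cc_AuxD
  refine DFun.ite (ECD.delta_prime ((DFun.proj 0).add (DFun.const 1)))
    (((DFun.proj 0).add (DFun.const 1)).sub (cf_def_AuxD s hs l)) ?_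
  exact DFun.const _

private theorem cc_cast_AuxD (s : ℕ) (hs : 0 < s) (M l : ℕ) (h : (M + 1).Prime) :
    (cc_AuxD s hs M l : ZMod (M + 1)) = - (cf_AuxD s hs M l : ZMod (M + 1)) := by
  have h1 : cf_AuxD s hs M l ≤ M + 1 := (Nat.mod_lt _ (Nat.succ_pos M)).le
  unfold cc_AuxD
  rw [if_pos h, Nat.cast_sub h1, ZMod.natCast_self, zero_sub]

private theorem cc_unit_AuxD (s : ℕ) (hs : 0 < s) (M : ℕ) :
    IsUnit (cc_AuxD s hs M 0 : ZMod (M + 1)) := by
  by_cases h : (M + 1).Prime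
  · have := Fact.mk h
    rw [cc_cast_AuxD s hs M 0 h]
    exact (IsUnit.mk0 _ (cf_spec_AuxD s hs M).2).neg
  · unfold cc_AuxD
    rw [if_neg h, if_pos rfl, Nat.cast_one]
    exact isUnit_one

/-- the monic polynomial -/
private def gg_AuxD (s : ℕ) (hs : 0 < s) (M : ℕ) : (ZMod (M + 1))[X] :=
  X ^ s - ∑ l : Fin s, C (cc_AuxD s hs M l : ZMod (M + 1)) * X ^ (l : ℕ)

private theorem gg_monic_AuxD (s : ℕ) (hs : 0 < s) (M : ℕ) : (gg_AuxD s hs M).Monic := by
  unfold gg_AuxD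
  rw [sub_eq_add_neg]
  refine monic_X_pow_add ?_
  rw [degree_neg]
  exact degree_sum_fin_lt _

private theorem gg_rec_AuxD (s : ℕ) (hs : 0 < s) (M t : ℕ) :
    (X ^ (t + s) : (ZMod (M + 1))[X]) %ₘ gg_AuxD s hs M =
      ∑ l : Fin s, C (cc_AuxD s hs M l : ZMod (M + 1)) * (X ^ (t + l) %ₘ gg_AuxD s hs M) := by
  have h1 : (X ^ (t + s) : (ZMod (M + 1))[X]) = gg_AuxD s hs M * X ^ t +
      ∑ l : Fin s, (cc_AuxD s hs M l : ZMod (M + 1)) • X ^ (t + (l : ℕ)) := by
    unfold gg_AuxD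
    rw [sub_mul, Finset.sum_mul, pow_add, mul_comm (X ^ t)]
    have h2 : ∀ l : Fin s, C (cc_AuxD s hs M l : ZMod (M + 1)) * X ^ (l : ℕ) * X ^ t =
        (cc_AuxD s hs M l : ZMod (M + 1)) • (X ^ (t + (l : ℕ)) : (ZMod (M + 1))[X]) := by
      intro l
      rw [smul_eq_C_mul]
      ring
    rw [Finset.sum_congr rfl fun l _ => h2 l]
    ring
  have h3 : ∀ f : (ZMod (M + 1))[X], f %ₘ gg_AuxD s hs M =
      modByMonicHom (gg_AuxD s hs M) f := fun f => rfl
  rw [h1, add_modByMonic, self_mul_modByMonic (gg_monic_AuxD s hs M), zero_add, h3, map_sum]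
  refine Finset.sum_congr rfl fun l _ => ?_
  rw [map_smul, ← h3, smul_eq_C_mul]

/-- the coefficients of the remainder -/
private def ff_AuxD (s : ℕ) (hs : 0 < s) (i M t : ℕ) : ZMod (M + 1) :=
  ((X ^ t : (ZMod (M + 1))[X]) %ₘ gg_AuxD s hs M).coeff i

private theorem ff_rec_AuxD (s : ℕ) (hs : 0 < s) (i M t : ℕ) :
    ff_AuxD s hs i M (t + s) =
      ∑ l : Fin s, (cc_AuxD s hs M l : ZMod (M + 1)) * ff_AuxD s hs i M (t + l) := by
  unfold ff_AuxD
  rw [gg_rec_AuxD, finsetSum_coeff]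
  refine Finset.sum_congr rfl fun l _ => ?_
  rw [coeff_C_mul]

private theorem ff_init_AuxD (s : ℕ) (hs : 0 < s) (i M : ℕ) (j : Fin s) :
    (ff_AuxD s hs i M j).val = if i = j then 1 % (M + 1) else 0 := by
  rcases Nat.eq_zero_or_pos M with rfl | hM
  · have h1 : (ff_AuxD s hs i 0 j).val < 0 + 1 := ZMod.val_lt _
    have h2 : (if i = (j : ℕ) then 1 % (0 + 1) else 0) = 0 := by
      split_ifs <;> rfl
    omega
  · have : Fact (1 < M + 1) := ⟨by omega⟩
    have hd : (gg_AuxD s hs M).degree = s := by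
      unfold gg_AuxD
      rw [degree_sub_eq_left_of_degree_lt, degree_X_pow]
      rw [degree_X_pow]
      exact degree_sum_fin_lt _
    unfold ff_AuxD
    rw [(modByMonic_eq_self_iff (gg_monic_AuxD s hs M)).2, coeff_X_pow]
    · by_cases h : i = j
      · rw [if_pos h, if_pos h, ZMod.val_one_eq_one_mod]
      · rw [if_neg h, if_neg h, ZMod.val_zero]
    · rw [hd, degree_X_pow]
      exact_mod_cast j.2

/-- the coefficients of the remainder of `X ^ p` -/
private def wv_AuxD (s : ℕ) (hs : 0 < s) (i M : ℕ) : ℕ :=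
  (ff_AuxD s hs i M ((M + 1) ^ 1)).val

private theorem wv_def_AuxD (s : ℕ) (hs : 0 < s) (i : ℕ) :
    DFun 1 (fun v => wv_AuxD s hs i (v 0)) := by
  refine ECD.linrec_def (d := s) (k := 1) hs (M := fun v => v 0) (a := fun v => v 0 + 1)
    (t := fun _ => 1) (c := fun l v => cc_AuxD s hs (v 0) l)
    (f := fun v t => ff_AuxD s hs i (v 0) t) (DFun.proj 0)
    ((DFun.proj 0).add (DFun.const 1)) (DFun.const 1) (fun l => cc_def_AuxD s hs l)
    (fun j => ?_) (fun v t => ff_rec_AuxD s hs i (v 0) t) fun v => cc_unit_AuxD s hs (v 0)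
  simp only [ff_init_AuxD]
  by_cases h : i = j
  · simp only [if_pos h]
    exact (DFun.const 1).mod (DFun.proj 0)
  · simp only [if_neg h]
    exact DFun.const 0

private theorem fin_AuxD (s : ℕ) (hs : 0 < s) (M : ℕ) (h : (M + 1).Prime) :
    (X ^ s + ∑ l : Fin s, C (cf_AuxD s hs M l : ZMod (M + 1)) * X ^ (l : ℕ)) ∣
      X ^ (M + 1) - ∑ l : Fin s, C (wv_AuxD s hs l M : ZMod (M + 1)) * X ^ (l : ℕ) := by
  have := Fact.mk h
  have e1 : (X ^ s + ∑ l : Fin s, C (cf_AuxD s hs M l : ZMod (M + 1)) * X ^ (l : ℕ)) =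
      gg_AuxD s hs M := by
    unfold gg_AuxD
    simp only [cc_cast_AuxD s hs M _ h, map_neg, neg_mul, Finset.sum_neg_distrib, sub_neg_eq_add]
  have hd : (gg_AuxD s hs M).natDegree = s := by
    unfold gg_AuxD
    rw [natDegree_sub_eq_left_of_natDegree_lt, natDegree_X_pow]
    rw [natDegree_X_pow]
    by_cases h0 : (∑ l : Fin s, C (cc_AuxD s hs M l : ZMod (M + 1)) * X ^ (l : ℕ)) = 0
    · rw [h0, natDegree_zero]
      exact hs
    · exact (natDegree_lt_iff_degree_lt h0).2 (degree_sum_fin_lt _)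
  have e2 : (∑ l : Fin s, C (wv_AuxD s hs l M : ZMod (M + 1)) * X ^ (l : ℕ)) =
      (X ^ (M + 1) : (ZMod (M + 1))[X]) %ₘ gg_AuxD s hs M := by
    have h1 : ((X ^ (M + 1) : (ZMod (M + 1))[X]) %ₘ gg_AuxD s hs M).natDegree < s := by
      conv_rhs => rw [← hd]
      refine natDegree_modByMonic_lt _ (gg_monic_AuxD s hs M) fun h2 => ?_
      rw [h2, natDegree_one] at hd
      omega
    rw [as_sum_range_C_mul_X_pow' _ h1, Finset.sum_range]
    refine Finset.sum_congr rfl fun l _ => ?_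
    unfold wv_AuxD ff_AuxD
    rw [ZMod.natCast_zmod_val, pow_one]
  rw [e1, e2]
  refine ⟨X ^ (M + 1) /ₘ gg_AuxD s hs M, ?_⟩
  have h3 := modByMonic_add_div (X ^ (M + 1) : (ZMod (M + 1))[X]) (gg_AuxD s hs M)
  rw [sub_eq_iff_eq_add']
  exact h3.symm

/-- the parameters -/
private def uu_AuxD (M p : ℕ) (i : Ax M) : ℕ :=
  Sum.elim (fun l : Fin ((i.1 : ℕ) + 1) => cf_AuxD ((i.1 : ℕ) + 1) (Nat.succ_pos _) (p - 1) l)
    (fun l : Fin ((i.1 : ℕ) + 1) => wv_AuxD ((i.1 : ℕ) + 1) (Nat.succ_pos _) l (p - 1)) i.2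

private theorem uu_inl_AuxD (M q : ℕ) (m : Fin M) (l : Fin ((m : ℕ) + 1)) :
    uu_AuxD M (q + 1) ⟨m, Sum.inl l⟩ = cf_AuxD ((m : ℕ) + 1) (Nat.succ_pos _) q l := by
  unfold uu_AuxD
  rw [Sum.elim_inl, Nat.add_sub_cancel]

private theorem uu_inr_AuxD (M q : ℕ) (m : Fin M) (l : Fin ((m : ℕ) + 1)) :
    uu_AuxD M (q + 1) ⟨m, Sum.inr l⟩ = wv_AuxD ((m : ℕ) + 1) (Nat.succ_pos _) l q := by
  unfold uu_AuxD
  rw [Sum.elim_inr, Nat.add_sub_cancel]

theorem aux_def (M : ℕ) : ∃ u : ℕ → Ax M → ℕ,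
    (∀ (i : Ax M) {n : ℕ} {p : (Fin n → ℕ) → ℕ}, DFun n p → DFun n (fun v => u (p v) i)) ∧
      ∀ (p : ℕ) [Fact p.Prime], Vx p (fun i => (u p i : ZMod p)) := by
  refine ⟨uu_AuxD M, ?_, ?_⟩
  · rintro ⟨m, l | l⟩ n p hp
    · exact DFun.comp1 (g := fun M => cf_AuxD ((m : ℕ) + 1) (Nat.succ_pos _) M l)
        (cf_def_AuxD _ _ _) (hp.sub (DFun.const 1))
    · exact DFun.comp1 (g := fun M => wv_AuxD ((m : ℕ) + 1) (Nat.succ_pos _) l M)
        (wv_def_AuxD _ _ _) (hp.sub (DFun.const 1))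
  · intro p hp m
    obtain ⟨q, rfl⟩ : ∃ q, p = q + 1 := Nat.exists_eq_succ_of_ne_zero hp.out.ne_zero
    unfold hh ww
    simp only [uu_inl_AuxD, uu_inr_AuxD]
    exact ⟨(cf_spec_AuxD ((m : ℕ) + 1) (Nat.succ_pos _) q).1,
      fin_AuxD ((m : ℕ) + 1) (Nat.succ_pos _) q hp.out⟩

end Pool.Agent.CvQ
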