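import Pool.Agent.CvQ.Defs

/-!
# Package CvQ-Clo: closure properties

Complete proofs.

* `bf_congr`, `bf_or`, `bf_any` (finite disjunctions, `Finset` induction), `bf_imp`: Boolean.
* `bf_prd`: `base` with `κ = Empty` (one `t`; the fibre is a subsingleton).
* `bf_map`: induction on `BF S`; `base`: the relation `P` in the coordinates `Sum.map f id` (`PRD` by
  `PRF.comp` with variables).
* `vx_mono`: `incl`: the inclusion `Ax M → Ax M'` for `M ≤ M'`, `⟨m, l⟩ ↦ ⟨Fin.castLE h m, l⟩`; the
  polynomials `hh`, `ww` of the restriction are the ones for `Fin.castLE h m`.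
* `af_mono`: enlarge `M` (`bf_map`) and `C`; `af_prd`, `af_congr`, `af_not`, `af_and` (common `C`, `M`).
-/

set_option autoImplicit false

noncomputable section

namespace Pool.Agent.CvQ

open Polynomial Pool.Agent.PRc

variable {ι : Type}

theorem bf_congr {S S' : GR ι} (h : BF S) (e : ∀ (p : ℕ) [Fact p.Prime] (x : ι → ZMod p),
    S p x ↔ S' p x) : BF S' := by
  obtain rfl : S = S' := by
    funext p _ x
    exact propext (e p x)
  exact h

theorem bf_or {S S' : GR ι} (h : BF S) (h' : BF S') : BF (fun p _ x => S p x ∨ S' p x) := by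
  refine bf_congr (BF.not (BF.and (BF.not h) (BF.not h'))) ?_
  intro p _ x
  constructor
  · intro hh
    by_contra hc
    exact hh ⟨fun a => hc (Or.inl a), fun a => hc (Or.inr a)⟩
  · rintro (a | a) ⟨h1, h2⟩
    · exact h1 a
    · exact h2 a

theorem bf_prd {P : FR ι} (hP : PRD P) : BF (fun p _ x => P (ZMod p) x) := by
  have hP' : PRD (ι := ι ⊕ Empty) (fun k _ x => P k (fun i => x (Sum.inl i))) :=
    hP.comp (fun j => PRF.var (Sum.inl j))
  have hF : FnF (ι := ι) (κ := Empty) (fun k _ x => P k (fun i => x (Sum.inl i))) := by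
    intro K _ _ x
    exact Set.toFinite _
  refine bf_congr (BF.base hP' hF) ?_
  intro p _ x
  constructor
  · rintro ⟨t, ht⟩
    exact ht
  · intro h
    exact ⟨fun e => e.elim, h⟩

theorem bf_any {α : Type} [Finite α] {S : α → GR ι} (h : ∀ a, BF (S a)) :
    BF (fun p _ x => ∃ a, S a p x) := by
  classical
  have key : ∀ s : Finset α, BF (fun p _ x => ∃ a ∈ s, S a p x) := by
    intro s
    induction s using Finset.induction_on with
    | empty =>
      refine bf_congr (bf_prd (ι := ι) PRD.false) ?_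
      intro p _ x
      simp
    | insert a s _ ih =>
      refine bf_congr (bf_or (h a) ih) ?_
      intro p _ x
      simp
  have := Fintype.ofFinite α
  refine bf_congr (key Finset.univ) ?_
  intro p _ x
  simp

theorem bf_bool {α : Type} [Finite α] {S : α → GR ι} (h : ∀ a, BF (S a))
    (Φ : (α → Prop) → Prop) : BF (fun p _ x => Φ (fun a => S a p x)) := by
  classical
  have hT : ∀ T : α → Prop, BF (fun p _ x => (∀ a, (S a p x ↔ T a)) ∧ Φ T) := by
    intro T
    refine BF.and (S := fun p _ x => ∀ a, (S a p x ↔ T a)) (S' := fun p _ x => Φ T) ?_ ?_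
    · refine bf_congr (BF.not (bf_any (S := fun a p _ x => ¬ (S a p x ↔ T a)) ?_)) ?_
      · intro a
        by_cases hTa : T a
        · refine bf_congr (BF.not (h a)) ?_
          intro p _ x
          simp [hTa]
        · refine bf_congr (h a) ?_
          intro p _ x
          simp [hTa]
      · intro p _ x
        exact not_exists_not
    · by_cases hΦ : Φ T
      · refine bf_congr (bf_prd (ι := ι) PRD.true) ?_
        intro p _ x
        simp [hΦ]
      · refine bf_congr (bf_prd (ι := ι) PRD.false) ?_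
        intro p _ x
        simp [hΦ]
  refine bf_congr (bf_any hT) ?_
  intro p _ x
  constructor
  · rintro ⟨T, h1, h2⟩
    have e : (fun a => S a p x) = T := funext fun a => propext (h1 a)
    rw [e]
    exact h2
  · intro h2
    exact ⟨fun a => S a p x, fun a => Iff.rfl, h2⟩

theorem bf_map {ι' : Type} {S : GR ι} (h : BF S) (f : ι → ι') :
    BF (fun p _ (x : ι' → ZMod p) => S p (fun i => x (f i))) := by
  induction h with
  | @base κ _ P hP hF =>
    have hP' : PRD (ι := ι' ⊕ κ) (fun k _ y => P k (fun j => y (Sum.map f id j))) :=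
      hP.comp (fun j => PRF.var (Sum.map f id j))
    have e : ∀ (k : Type) (x : ι' → k) (t : κ → k),
        (fun j => Sum.elim x t (Sum.map f id j)) = Sum.elim (fun i => x (f i)) t := by
      intro k x t
      funext j
      cases j <;> rfl
    have hF' : FnF (ι := ι') (κ := κ) (fun k _ y => P k (fun j => y (Sum.map f id j))) := by
      intro K _ _ x
      refine (hF K (fun i => x (f i))).subset ?_
      intro t ht
      have ht' : P K (fun j => Sum.elim x t (Sum.map f id j)) := ht
      rw [e K x t] at ht'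
      exact ht'
    refine bf_congr (BF.base hP' hF') ?_
    intro p _ x
    refine exists_congr fun t => ?_
    show P (ZMod p) (fun j => Sum.elim x t (Sum.map f id j)) ↔ _
    rw [e (ZMod p) x t]
  | not _ ih => exact BF.not ih
  | and _ _ ih ih' => exact BF.and ih ih'

/-- the inclusion of the auxiliary parameters -/
def incl {M M' : ℕ} (h : M ≤ M') (i : Ax M) : Ax M' := ⟨Fin.castLE h i.1, i.2⟩

theorem vx_mono {M M' : ℕ} (h : M ≤ M') {p : ℕ} [Fact p.Prime] {u : Ax M' → ZMod p}
    (hu : Vx p u) : Vx p (fun i => u (incl h i)) := by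
  intro m
  exact hu (Fin.castLE h m)

theorem af_mono {R : FR ι} (h : AF R) : ∃ C₀ M₀ : ℕ, ∀ C M : ℕ, C₀ ≤ C → M₀ ≤ M →
    ∃ S : GR (ι ⊕ Ax M), BF S ∧ ∀ (p : ℕ) [Fact p.Prime], C < p → ∀ (a : ι → ZMod p)
      (u : Ax M → ZMod p), Vx p u → (R (ZMod p) a ↔ S p (Sum.elim a u)) := by
  obtain ⟨C₀, M₀, S₀, hS, hR⟩ := h
  refine ⟨C₀, M₀, ?_⟩
  intro C M hC hM
  refine ⟨fun p _ x => S₀ p (fun i => x (Sum.map id (incl hM) i)),
    bf_map hS (Sum.map id (incl hM)), ?_⟩
  intro p _ hp a u hu
  have e : (fun i => Sum.elim a u (Sum.map id (incl hM) i))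
      = Sum.elim a (fun i => u (incl hM i)) := by
    funext i
    cases i <;> rfl
  show _ ↔ S₀ p (fun i => Sum.elim a u (Sum.map id (incl hM) i))
  rw [e]
  exact hR p (lt_of_le_of_lt hC hp) a _ (vx_mono hM hu)

theorem af_prd {R : FR ι} (h : PRD R) : AF R := by
  refine ⟨0, 0, fun p _ x => R (ZMod p) (fun i => x (Sum.inl i)), ?_, ?_⟩
  · exact bf_prd (P := fun k _ x => R k (fun i => x (Sum.inl i)))
      (h.comp (fun j => PRF.var (Sum.inl j)))
  · intro p _ _ a u _
    exact Iff.rfl

theorem af_not {R : FR ι} (h : AF R) : AF (fun k _ x => ¬ R k x) := by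
  obtain ⟨C, M, S, hS, hR⟩ := h
  exact ⟨C, M, _, BF.not hS, fun p _ hp a u hu => not_congr (hR p hp a u hu)⟩

theorem af_and {R R' : FR ι} (h : AF R) (h' : AF R') : AF (fun k _ x => R k x ∧ R' k x) := by
  obtain ⟨C₁, M₁, h1⟩ := af_mono h
  obtain ⟨C₂, M₂, h2⟩ := af_mono h'
  obtain ⟨S, hS, hR⟩ := h1 (max C₁ C₂) (max M₁ M₂) (le_max_left _ _) (le_max_left _ _)
  obtain ⟨S', hS', hR'⟩ := h2 (max C₁ C₂) (max M₁ M₂) (le_max_right _ _) (le_max_right _ _)
  exact ⟨max C₁ C₂, max M₁ M₂, _, BF.and hS hS', fun p _ hp a u hu =>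
    and_congr (hR p hp a u hu) (hR' p hp a u hu)⟩

theorem af_map {ι' : Type} {R : FR ι} (h : AF R) (f : ι → ι') :
    AF (fun k _ (x : ι' → k) => R k (fun i => x (f i))) := by
  obtain ⟨C, M, S, hS, hR⟩ := h
  refine ⟨C, M, fun p _ x => S p (fun i => x (Sum.map f id i)), bf_map hS (Sum.map f id), ?_⟩
  intro p _ hp a u hu
  have e : (fun i => Sum.elim a u (Sum.map f id i)) = Sum.elim (fun i => a (f i)) u := by
    funext i
    cases i <;> rfl
  show _ ↔ S p (fun i => Sum.elim a u (Sum.map f id i))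
  rw [e]
  exact hR p hp _ u hu

end Pool.Agent.CvQ
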