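import Pool.Agent.CvQ.FvD

/-!
# Package CvQ-Cmb: functions with prescribed numbers of elements in some fibres

Complete proof. `τ : Fin t → Fin k` has all values in `I` and exactly `c i` elements in the fibre of `i`, `i ∈ I`. Fix an
injective `q : Fin t → ℕ` with values in `P` and call `σ : P → Fin k` compatible with `q` if `σ (q l) = τ l` for all `l` and
`σ p ∉ I` for all `p` not in the range of `q`. The sum of the `∏ p, N (σ p) p` over the compatible `σ` is `∏ p, hv N I τ q p`
(`Finset.prod_univ_sum`: product over `p` of the sum over the allowed values of `σ p`). On the other hand, for fixed `σ`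
the number of the injective `q` with which `σ` is compatible is `∏_{i ∈ I} (c i)!` if the fibre of `i` under `σ` has `c i` elements
for all `i ∈ I`, and `0` otherwise: `q` is given by bijections of the fibres of `τ` to the fibres of `σ` over the `i ∈ I`
(`Fintype.card_equiv`). Exchange the sums.
-/

set_option autoImplicit false

noncomputable section

namespace Pool.Agent.CvQ

open Finset

/-- the values allowed at `p` -/
private def Alw_Cmb {k t : ℕ} (I : Finset (Fin k)) (τ : Fin t → Fin k) (q : Fin t → ℕ) (p : ℕ)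
    (j : Fin k) : Prop :=
  (∀ l, q l = p → j = τ l) ∧ ((∀ l, q l ≠ p) → j ∉ I)

open scoped Classical in
private theorem hv_eq_Cmb {k t : ℕ} (N : Fin k → ℕ → ℕ) (I : Finset (Fin k))
    (τ : Fin t → Fin k) (q : Fin t → ℕ) (hq : Function.Injective q) (p : ℕ) :
    hv N I τ q p = ∑ j with Alw_Cmb I τ q p j, N j p := by
  unfold hv
  by_cases h : ∃ l, q l = p
  · obtain ⟨l, rfl⟩ := h
    have h2 : ¬ ∀ l', q l' ≠ q l := fun h => h l rfl
    have h3 : (univ.filter fun j => Alw_Cmb I τ q (q l) j) = {τ l} := by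
      ext j
      simp only [mem_filter, mem_univ, true_and, mem_singleton]
      constructor
      · intro h
        exact h.1 l rfl
      · intro h
        refine ⟨fun l' hl' => ?_, fun h' => (h2 h').elim⟩
        rw [hq hl', h]
    rw [h3, sum_singleton, if_neg h2, add_zero]
    rw [Finset.sum_eq_single l]
    · rw [if_pos rfl]
    · intro l' _ hl'
      rw [if_neg fun h => hl' (hq h)]
    · intro h
      exact (h (mem_univ _)).elim
  · have h' : ∀ l, q l ≠ p := fun l hl => h ⟨l, hl⟩
    have h3 : (univ.filter fun j => Alw_Cmb I τ q p j) = Iᶜ := by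
      ext j
      simp only [mem_filter, mem_univ, true_and, mem_compl]
      constructor
      · intro h
        exact h.2 h'
      · intro h
        exact ⟨fun l hl => (h' l hl).elim, fun _ => h⟩
    rw [h3, if_pos h', Finset.sum_eq_zero, zero_add]
    intro l _
    rw [if_neg (h' l)]

open scoped Classical in
private theorem prod_hv_Cmb {k t : ℕ} (P : Finset ℕ) (N : Fin k → ℕ → ℕ) (I : Finset (Fin k))
    (τ : Fin t → Fin k) (q : Fin t → ℕ) (hq : Function.Injective q) :
    ∏ p ∈ P, hv N I τ q p =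
      ∑ σ : P → Fin k, if (∀ p : P, Alw_Cmb I τ q p (σ p)) then ∏ p : P, N (σ p) p else 0 := by
  rw [← Finset.prod_coe_sort]
  simp only [hv_eq_Cmb N I τ q hq]
  rw [Finset.prod_univ_sum, ← Finset.sum_filter]
  refine Finset.sum_congr ?_ fun _ _ => rfl
  ext σ
  simp only [Fintype.mem_piFinset, mem_filter, mem_univ, true_and]

private theorem fib_Cmb {k t : ℕ} {P : Finset ℕ} (I : Finset (Fin k)) (τ : Fin t → Fin k)
    (q : Fin t → ℕ) (hq : Function.Injective q) (hP : ∀ l, q l ∈ P)
    (σ : P → Fin k) (hσ : ∀ p : P, Alw_Cmb I τ q p (σ p)) (i : Fin k) (hi : i ∈ I) :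
    #{p : P | σ p = i} = #{l | τ l = i} := by
  symm
  refine Finset.card_bij (fun l _ => (⟨q l, hP l⟩ : P)) ?_ ?_ ?_
  · intro l hl
    simp only [mem_filter, mem_univ, true_and] at hl ⊢
    rw [(hσ ⟨q l, hP l⟩).1 l rfl, hl]
  · intro l _ l' _ h
    exact hq (congrArg Subtype.val h)
  · intro p hp
    simp only [mem_filter, mem_univ, true_and] at hp
    by_contra hne
    refine (hσ p).2 (fun l hl => hne ⟨l, ?_, Subtype.ext hl⟩) (by rw [hp]; exact hi)
    simp only [mem_filter, mem_univ, true_and]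
    rw [← (hσ p).1 l hl, hp]

private theorem exists_q0_Cmb {k t : ℕ} {P : Finset ℕ} (I : Finset (Fin k)) (τ : Fin t → Fin k)
    (h1 : ∀ l, τ l ∈ I) (σ : P → Fin k) (h : ∀ i ∈ I, #{p : P | σ p = i} = #{l | τ l = i}) :
    ∃ q0 : Fin t → P, Function.Injective q0 ∧ (∀ l, σ (q0 l) = τ l) ∧
      ∀ p, σ p ∈ I → ∃ l, q0 l = p := by
  classical
  have he : ∀ i ∈ I, Nonempty ({l // τ l = i} ≃ {p : P // σ p = i}) := by
    intro i hi
    refine ⟨Fintype.equivOfCardEq ?_⟩
    rw [Fintype.card_subtype, Fintype.card_subtype, h i hi]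
  choose e he' using fun (i : Fin k) (hi : i ∈ I) => (⟨Classical.choice (he i hi), trivial⟩ :
    ∃ _ : {l // τ l = i} ≃ {p : P // σ p = i}, True)
  have key : ∀ (i : Fin k) (hi : i ∈ I) (l : Fin t) (hl : τ l = i),
      (e (τ l) (h1 l) ⟨l, rfl⟩ : P) = (e i hi ⟨l, hl⟩ : P) := by
    intro i hi l hl
    subst hl
    rfl
  refine ⟨fun l => (e (τ l) (h1 l) ⟨l, rfl⟩ : P), ?_, ?_, ?_⟩
  · intro l l' hll
    have h3 : τ l = τ l' := by
      rw [← (e (τ l) (h1 l) ⟨l, rfl⟩).2, ← (e (τ l') (h1 l') ⟨l', rfl⟩).2]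
      exact congrArg σ hll
    have h4 : (e (τ l') (h1 l') ⟨l, h3⟩ : P) = (e (τ l') (h1 l') ⟨l', rfl⟩ : P) := by
      rw [← key _ (h1 l') l h3]
      exact hll
    have h5 := (e (τ l') (h1 l')).injective (Subtype.ext h4)
    exact congrArg Subtype.val h5
  · intro l
    exact (e (τ l) (h1 l) ⟨l, rfl⟩).2
  · intro p hp
    refine ⟨((e (σ p) hp).symm ⟨p, rfl⟩ : {l // τ l = σ p}).1, ?_⟩
    refine (key (σ p) hp _ ((e (σ p) hp).symm ⟨p, rfl⟩).2).trans ?_
    simp

open scoped Classical in
private theorem card_Cmb {k t : ℕ} (P : Finset ℕ) (I : Finset (Fin k))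
    (c : Fin k → ℕ) (τ : Fin t → Fin k) (h1 : ∀ l, τ l ∈ I) (h2 : ∀ i ∈ I, #{l | τ l = i} = c i)
    (σ : P → Fin k) :
    #{q ∈ Fintype.piFinset fun _ : Fin t => P | Function.Injective q ∧
      ∀ p : P, Alw_Cmb I τ q p (σ p)} =
      if (∀ i ∈ I, #{p | σ p = i} = c i) then ∏ i ∈ I, (c i).factorial else 0 := by
  split_ifs with hc
  · obtain ⟨q0, hq0, hσ0, hs0⟩ := exists_q0_Cmb I τ h1 σ
      (fun i hi => by rw [h2 i hi]; rw [← hc i hi])
    have hprod : ∏ i ∈ I, (c i).factorial = Fintype.card {g : Equiv.Perm (Fin t) // τ ∘ g = τ} := by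
      rw [DomMulAct.stabilizer_card]
      rw [← Finset.prod_subset (Finset.subset_univ I)]
      · refine Finset.prod_congr rfl fun i hi => ?_
        rw [Fintype.card_subtype, h2 i hi]
      · intro i _ hi
        rw [Fintype.card_subtype, Finset.card_eq_zero.2, Nat.factorial_zero]
        rw [Finset.filter_eq_empty_iff]
        intro l _ hl
        exact hi (hl ▸ h1 l)
    rw [hprod, Fintype.card_subtype]
    symm
    refine Finset.card_bij (fun g _ l => ((q0 (g l) : P) : ℕ)) ?_ ?_ ?_
    · intro g hg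
      simp only [mem_filter, mem_univ, true_and] at hg
      simp only [mem_filter, Fintype.mem_piFinset]
      refine ⟨fun l => (q0 (g l)).2, fun l l' h => g.injective (hq0 (Subtype.ext h)), ?_⟩
      intro p
      refine ⟨fun l hl => ?_, fun h hp => ?_⟩
      · rw [← Subtype.ext hl, hσ0]
        exact congrFun hg l
      · obtain ⟨l, hl⟩ := hs0 p hp
        refine h (g.symm l) ?_
        show ((q0 (g (g.symm l)) : P) : ℕ) = p
        rw [Equiv.apply_symm_apply, hl]
    · intro g _ g' _ h
      ext l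
      have := hq0 (Subtype.ext (congrFun h l))
      rw [this]
    · intro q hq
      simp only [mem_filter, Fintype.mem_piFinset] at hq
      obtain ⟨hP, hi, hA⟩ := hq
      have h3 : ∀ l, ∃ l', (q0 l' : ℕ) = q l := by
        intro l
        obtain ⟨l', hl'⟩ := hs0 ⟨q l, hP l⟩ (by rw [(hA ⟨q l, hP l⟩).1 l rfl]; exact h1 l)
        exact ⟨l', congrArg Subtype.val hl'⟩
      choose g hg using h3
      have hgi : Function.Injective g := by
        intro l l' h
        apply hi
        rw [← hg, ← hg, h]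
      refine ⟨Equiv.ofBijective g (Finite.injective_iff_bijective.1 hgi), ?_, ?_⟩
      · simp only [mem_filter, mem_univ, true_and]
        funext l
        show τ (g l) = τ l
        rw [← hσ0, ← (hA (q0 (g l))).1 l (hg l).symm]
      · funext l
        exact hg l
  · rw [Finset.card_eq_zero, Finset.filter_eq_empty_iff]
    rintro q hq ⟨hi, hA⟩
    rw [Fintype.mem_piFinset] at hq
    apply hc
    intro i hiI
    rw [← h2 i hiI]
    exact fib_Cmb I τ q hi hq σ hA i hiI

open scoped Classical in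
theorem gw_tup {k t : ℕ} (P : Finset ℕ) (N : Fin k → ℕ → ℕ) (B : ℕ) (I : Finset (Fin k))
    (c : Fin k → ℕ) (τ : Fin t → Fin k) (h1 : ∀ l, τ l ∈ I) (h2 : ∀ i ∈ I, #{l | τ l = i} = c i) :
    (∏ i ∈ I, (c i).factorial) * GW P N B I ∅ c =
      ∑ q ∈ Fintype.piFinset fun _ : Fin t => P, if Function.Injective q then
        ∏ p ∈ P, hv N I τ q p else 0 := by
  have hL : ∑ q ∈ Fintype.piFinset fun _ : Fin t => P, (if Function.Injective q then
      ∏ p ∈ P, hv N I τ q p else 0) =
      ∑ q ∈ Fintype.piFinset fun _ : Fin t => P, ∑ σ : P → Fin k,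
        if (Function.Injective q ∧ ∀ p : P, Alw_Cmb I τ q p (σ p)) then
          ∏ p : P, N (σ p) p else 0 := by
    refine Finset.sum_congr rfl fun q _ => ?_
    by_cases hq : Function.Injective q
    · rw [if_pos hq, prod_hv_Cmb P N I τ q hq]
      refine Finset.sum_congr rfl fun σ _ => ?_
      simp only [hq, true_and]
    · rw [if_neg hq]
      symm
      refine Finset.sum_eq_zero fun σ _ => ?_
      rw [if_neg fun h => hq h.1]
  rw [hL, Finset.sum_comm, GW, Finset.mul_sum]
  refine Finset.sum_congr rfl fun σ _ => ?_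
  rw [← Finset.sum_filter, Finset.sum_const, smul_eq_mul, card_Cmb P I c τ h1 h2 σ]
  have h0 : ((∀ i ∈ I, #{p | σ p = i} = c i) ∧
      ∀ j ∈ (∅ : Finset (Fin k)), B ≤ #{p | σ p = j}) ↔ ∀ i ∈ I, #{p | σ p = i} = c i :=
    ⟨fun h => h.1, fun h => ⟨h, fun j hj => absurd hj (Finset.notMem_empty j)⟩⟩
  simp only [h0]
  split_ifs
  · rfl
  · simp

end Pool.Agent.CvQ
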