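import Pool.Agent.CvD.IrQ
import Pool.Agent.CvD.Bez

/-!
# Package CvQ-Cmp: components of finite families of polynomials in two unknowns

`F l`, `l : Fin s`, are polynomials over a field with degree at most `D` in both unknowns.
`Nrm c`: the first nonzero coefficient (in the order of `finProdFinEquiv`) is `1`; `Cmp F c`: `bq c` is
normalised, irreducible and divides some `F l ≠ 0`; `Reg F c z`: the point `z` lies on the component `c` and on
no other, and all `F l` vanishing at `z` are divisible by `bq c`.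

Complete proofs.

* `nrm_ex`: an irreducible (nonzero) `G` with `Bd D` is a unit times `bq c` with `c` normalised
  (`CvD.bq_surj`; divide by the first nonzero coefficient).
* `nrm_assoc`: if `bq c` and `bq c'` are normalised and associated, then `c = c'` (units are constants,
  `CvD.unit_iff`, `CvD.bq_inj`).
* `cmp_on`: some irreducible factor of `F l` vanishes at `z`; it has `Bd D` (`CvD.bd_left`); `nrm_ex`.
* `cmp_fin`, bound `2 D s`: for each `l` the pairwise nonassociated irreducible factors of `F l ≠ 0`; their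
  product divides `F l`, each has degree at least `1` in `X` or `Y` (`CvD.nonunit_pos`, `CvD.dX_mul`).
* `reg_few`: a point on the component `c` that is not `Reg F c z` lies on another component `c'`
  (`bq c`, `bq c'` are relatively prime by `nrm_assoc`: at most `B₀` points, `CvD.bez D`) or on `F l = 0` with
  `bq c ∤ F l` (relatively prime, since `bq c` is irreducible: at most `B₀` points). So there are at most
  `(2 D s) ^ 2 B₀ + (2 D s) s B₀` such points (for all finite subsets, so the set is finite).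
-/

set_option autoImplicit false

noncomputable section

namespace Pool.Agent.CvQ

open Polynomial Pool.Agent.CvD
open scoped Polynomial.Bivariate

variable {K : Type} [Field K] {D s : ℕ}

/-- normalised coefficients -/
def Nrm (c : Ix D → K) : Prop :=
  ∃ i, c i = 1 ∧ ∀ j, finProdFinEquiv j < finProdFinEquiv i → c j = 0

/-- the components -/
def Cmp (F : Fin s → K[X][Y]) (c : Ix D → K) : Prop :=
  Nrm c ∧ Irreducible (bq c) ∧ ∃ l, F l ≠ 0 ∧ bq c ∣ F l

/-- regular points -/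
def Reg (F : Fin s → K[X][Y]) (c : Ix D → K) (x y : K) : Prop :=
  (bq c).evalEval x y = 0 ∧ (∀ c' : Ix D → K, Cmp F c' → (bq c').evalEval x y = 0 → c' = c) ∧
    ∀ l, (F l).evalEval x y = 0 → bq c ∣ F l

private theorem smul_Cmp (a : K) (x : Ix D → K) :
    bq (fun j => a * x j) = C (C a) * bq x := by
  unfold bq
  rw [Finset.mul_sum]
  refine Finset.sum_congr rfl fun i _ => ?_
  rw [Finset.mul_sum]
  refine Finset.sum_congr rfl fun j _ => ?_
  simp only [map_mul]
  ring

theorem nrm_ex {G : K[X][Y]} (hG : Bd D G) (h0 : G ≠ 0) :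
    ∃ c : Ix D → K, Nrm c ∧ Associated (bq c) G := by
  classical
  obtain ⟨x, rfl⟩ := bq_surj hG
  have hx : (Finset.univ.filter fun i => x i ≠ 0).Nonempty := by
    by_contra hcon
    rw [Finset.not_nonempty_iff_eq_empty, Finset.filter_eq_empty_iff] at hcon
    apply h0
    refine Polynomial.ext fun b => Polynomial.ext fun a => ?_
    rw [bq_coeff, coeff_zero, coeff_zero]
    split_ifs with h
    · exact not_not.1 (hcon (Finset.mem_univ _))
    · rfl
  obtain ⟨i, hi, hmin⟩ := Finset.exists_min_image _ (fun j => finProdFinEquiv j) hx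
  have hi0 : x i ≠ 0 := (Finset.mem_filter.1 hi).2
  refine ⟨fun j => (x i)⁻¹ * x j, ⟨i, inv_mul_cancel₀ hi0, fun j hj => ?_⟩, ?_⟩
  · have : x j = 0 := by
      by_contra hj0
      exact absurd hj (not_lt.2 (hmin j (Finset.mem_filter.2 ⟨Finset.mem_univ _, hj0⟩)))
    show (x i)⁻¹ * x j = 0
    rw [this, mul_zero]
  · rw [smul_Cmp]
    have hu : IsUnit (C (C (x i)⁻¹) : K[X][Y]) :=
      (unit_iff _).2 ⟨_, inv_ne_zero hi0, rfl⟩
    exact (associated_isUnit_mul_left_iff hu).2 (Associated.refl _)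

theorem nrm_assoc {c c' : Ix D → K} (h : Nrm c) (h' : Nrm c') (ha : Associated (bq c) (bq c')) :
    c = c' := by
  obtain ⟨u, hu⟩ := ha
  obtain ⟨a, ha0, hua⟩ := (unit_iff (u : K[X][Y])).1 u.isUnit
  have h1 : c' = fun j => a * c j := by
    apply bq_inj
    rw [smul_Cmp, ← hua, mul_comm, hu]
  obtain ⟨i, hi, hi'⟩ := h
  obtain ⟨j, hj, hj'⟩ := h'
  have hij : i = j := by
    apply finProdFinEquiv.injective
    refine le_antisymm (not_lt.1 fun hlt => ?_) (not_lt.1 fun hlt => ?_)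
    · have h2 := hi' j hlt
      rw [h1] at hj
      simp only [h2, mul_zero] at hj
      exact zero_ne_one hj
    · have h2 := hj' i hlt
      rw [h1] at h2
      simp only [hi, mul_one] at h2
      exact ha0 h2
  subst hij
  have h3 : a = 1 := by
    rw [h1] at hj
    simpa only [hi, mul_one] using hj
  rw [h1, h3]
  funext k
  rw [one_mul]

private theorem root_Cmp {F : K[X][Y]} (h0 : F ≠ 0) {x y : K} (h : F.evalEval x y = 0) :
    ∃ b : K[X][Y], Irreducible b ∧ b ∣ F ∧ b.evalEval x y = 0 := by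
  obtain ⟨f, hf, hp⟩ := UniqueFactorizationMonoid.exists_prime_factors F h0
  have h1 : evalEvalRingHom x y f.prod = 0 := by
    obtain ⟨u, hu⟩ := hp
    have h2 : evalEvalRingHom x y (f.prod * u) = 0 := by
      rw [hu]
      exact h
    rw [map_mul] at h2
    exact (mul_eq_zero.1 h2).resolve_right ((u.isUnit.map (evalEvalRingHom x y)).ne_zero)
  rw [map_multiset_prod, Multiset.prod_eq_zero_iff, Multiset.mem_map] at h1
  obtain ⟨b, hb, hb0⟩ := h1
  exact ⟨b, (hf b hb).irreducible, (Multiset.dvd_prod hb).trans hp.dvd, hb0⟩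

private theorem zero_Cmp {F G : K[X][Y]} (h : F ∣ G) {x y : K} (h0 : F.evalEval x y = 0) :
    G.evalEval x y = 0 := by
  obtain ⟨H, rfl⟩ := h
  rw [evalEval_mul, h0, zero_mul]

private theorem bd_Cmp {F G : K[X][Y]} (h : F ∣ G) (h0 : G ≠ 0) (hG : Bd D G) : Bd D F := by
  obtain ⟨H, hH⟩ := h
  exact bd_left hH.symm h0 hG

theorem cmp_on {F : Fin s → K[X][Y]} (hF : ∀ l, Bd D (F l)) {l : Fin s} (h0 : F l ≠ 0) {x y : K}
    (h : (F l).evalEval x y = 0) : ∃ c : Ix D → K, Cmp F c ∧ (bq c).evalEval x y = 0 := by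
  obtain ⟨b, hb, hbd, hb0⟩ := root_Cmp h0 h
  obtain ⟨c, hc, hca⟩ := nrm_ex (bd_Cmp hbd h0 (hF l)) hb.ne_zero
  exact ⟨c, ⟨hc, hca.irreducible_iff.2 hb, l, h0, hca.dvd.trans hbd⟩, zero_Cmp hca.dvd' hb0⟩

private theorem rel_Cmp {c c' : Ix D → K} (h : Nrm c) (h' : Nrm c') (hi : Irreducible (bq c))
    (hi' : Irreducible (bq c')) (hne : c ≠ c') : IsRelPrime (bq c) (bq c') := by
  rw [hi.isRelPrime_iff_not_dvd]
  intro hd
  exact hne (nrm_assoc h h' ((hi.dvd_irreducible_iff_associated hi').1 hd))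

private theorem deg_Cmp (T : Finset (Ix D → K)) (h : ∀ c ∈ T, Irreducible (bq c)) :
    (∏ c ∈ T, bq c) ≠ 0 ∧ T.card ≤ dX (∏ c ∈ T, bq c) + (∏ c ∈ T, bq c).natDegree := by
  classical
  induction T using Finset.induction_on with
  | empty =>
    refine ⟨by rw [Finset.prod_empty]; exact one_ne_zero, by simp⟩
  | insert c T hc ih =>
    obtain ⟨h1, h2⟩ := ih fun c' hc' => h c' (Finset.mem_insert_of_mem hc')
    have h3 := h c (Finset.mem_insert_self c T)
    have h4 := nonunit_pos h3.ne_zero h3.not_isUnit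
    rw [Finset.prod_insert hc]
    refine ⟨mul_ne_zero h3.ne_zero h1, ?_⟩
    rw [Finset.card_insert_of_notMem hc, dX_mul h3.ne_zero h1, natDegree_mul h3.ne_zero h1]
    omega

private theorem few_Cmp {G : K[X][Y]} (h0 : G ≠ 0) (hG : Bd D G) (T : Finset (Ix D → K))
    (h : ∀ c ∈ T, Nrm c ∧ Irreducible (bq c) ∧ bq c ∣ G) : T.card ≤ 2 * D := by
  obtain ⟨h1, h2⟩ := deg_Cmp T fun c hc => (h c hc).2.1
  have hd : (∏ c ∈ T, bq c) ∣ G := by
    refine Finset.prod_dvd_of_isRelPrime ?_ fun c hc => (h c hc).2.2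
    intro c hc c' hc' hne
    exact rel_Cmp (h c hc).1 (h c' hc').1 (h c hc).2.1 (h c' hc').2.1 hne
  have hb := bd_Cmp hd h0 hG
  have h3 : dX (∏ c ∈ T, bq c) ≤ D := dX_le.2 hb.2
  have h4 := hb.1
  omega

private theorem fin_Cmp {α : Type*} (S : Set α) (B : ℕ)
    (h : ∀ T : Finset α, (T : Set α) ⊆ S → T.card ≤ B) : S.Finite ∧ S.ncard ≤ B := by
  have hf : S.Finite := by
    by_contra hcon
    obtain ⟨t, ht, htc⟩ := Set.Infinite.exists_subset_card_eq hcon (B + 1)
    have := h t ht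
    omega
  refine ⟨hf, ?_⟩
  rw [Set.ncard_eq_toFinset_card S hf]
  exact h _ (by rw [Set.Finite.coe_toFinset])

theorem cmp_fin (D s : ℕ) : ∃ B : ℕ, ∀ (K : Type) [Field K] (F : Fin s → K[X][Y]),
    (∀ l, Bd D (F l)) → {c : Ix D → K | Cmp F c}.Finite ∧ {c : Ix D → K | Cmp F c}.ncard ≤ B := by
  classical
  refine ⟨s * (2 * D), fun K _ F hF => fin_Cmp _ _ fun T hT => ?_⟩
  have h1 : T ⊆ Finset.univ.biUnion fun l : Fin s => T.filter fun c => F l ≠ 0 ∧ bq c ∣ F l := by
    intro c hc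
    obtain ⟨-, -, l, hl⟩ := hT hc
    exact Finset.mem_biUnion.2 ⟨l, Finset.mem_univ _, Finset.mem_filter.2 ⟨hc, hl⟩⟩
  refine (Finset.card_le_card h1).trans ?_
  refine (Finset.card_biUnion_le_card_mul _ _ (2 * D) fun l _ => ?_).trans ?_
  · by_cases hl : F l = 0
    · rw [Finset.filter_false_of_mem]
      · simp
      · rintro c - ⟨h2, -⟩
        exact h2 hl
    · refine few_Cmp hl (hF l) _ fun c hc => ?_
      obtain ⟨hc1, hc2⟩ := Finset.mem_filter.1 hc
      exact ⟨(hT hc1).1, (hT hc1).2.1, hc2.2⟩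
  · rw [Finset.card_univ, Fintype.card_fin]

theorem reg_few (D s : ℕ) : ∃ B : ℕ, ∀ (K : Type) [Field K] (F : Fin s → K[X][Y]),
    (∀ l, Bd D (F l)) →
    {z : K × K | ∃ c : Ix D → K, Cmp F c ∧ (bq c).evalEval z.1 z.2 = 0 ∧
      ¬ Reg F c z.1 z.2}.Finite ∧
    {z : K × K | ∃ c : Ix D → K, Cmp F c ∧ (bq c).evalEval z.1 z.2 = 0 ∧
      ¬ Reg F c z.1 z.2}.ncard ≤ B := by
  classical
  obtain ⟨B₀, hB₀⟩ := bez D
  obtain ⟨B₁, hB₁⟩ := cmp_fin D s
  refine ⟨B₁ * B₁ * B₀ + B₁ * s * B₀, fun K _ F hF => fin_Cmp _ _ fun T hT => ?_⟩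
  obtain ⟨hfin, hcard⟩ := hB₁ K F hF
  rw [Set.ncard_eq_toFinset_card _ hfin] at hcard
  set N := hfin.toFinset with hN
  have hmem : ∀ c, c ∈ N ↔ Cmp F c := fun c => by
    rw [hN, Set.Finite.mem_toFinset]
    rfl
  set A : (Ix D → K) × (Ix D → K) → Finset (K × K) := fun q =>
    T.filter fun z => q.1 ≠ q.2 ∧ (bq q.1).evalEval z.1 z.2 = 0 ∧ (bq q.2).evalEval z.1 z.2 = 0
    with hA
  set E : (Ix D → K) × Fin s → Finset (K × K) := fun q =>
    T.filter fun z => ¬ bq q.1 ∣ F q.2 ∧ (bq q.1).evalEval z.1 z.2 = 0 ∧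
      (F q.2).evalEval z.1 z.2 = 0 with hE
  have h1 : T ⊆ (N ×ˢ N).biUnion A ∪ (N ×ˢ Finset.univ).biUnion E := by
    intro z hz
    obtain ⟨c, hc, hcz, hr⟩ := hT hz
    rw [Finset.mem_union]
    by_cases h2 : ∀ c' : Ix D → K, Cmp F c' → (bq c').evalEval z.1 z.2 = 0 → c' = c
    · right
      have h3 : ¬ ∀ l, (F l).evalEval z.1 z.2 = 0 → bq c ∣ F l := fun h3 => hr ⟨hcz, h2, h3⟩
      push Not at h3
      obtain ⟨l, hl, hld⟩ := h3
      exact Finset.mem_biUnion.2 ⟨(c, l), Finset.mem_product.2 ⟨(hmem c).2 hc, Finset.mem_univ _⟩,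
        Finset.mem_filter.2 ⟨hz, hld, hcz, hl⟩⟩
    · left
      push Not at h2
      obtain ⟨c', hc', hcz', hne⟩ := h2
      exact Finset.mem_biUnion.2 ⟨(c', c), Finset.mem_product.2 ⟨(hmem c').2 hc', (hmem c).2 hc⟩,
        Finset.mem_filter.2 ⟨hz, hne, hcz', hcz⟩⟩
  refine (Finset.card_le_card h1).trans ((Finset.card_union_le _ _).trans ?_)
  refine Nat.add_le_add ?_ ?_
  · refine (Finset.card_biUnion_le_card_mul _ _ B₀ fun q hq => ?_).trans ?_
    · obtain ⟨hq1, hq2⟩ := Finset.mem_product.1 hq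
      have k1 := (hmem q.1).1 hq1
      have k2 := (hmem q.2).1 hq2
      by_cases hne : q.1 = q.2
      · rw [hA]
        simp [hne]
      · refine hB₀ K (bq q.1) (bq q.2) (bq_bd _) (bq_bd _)
          (rel_Cmp k1.1 k2.1 k1.2.1 k2.2.1 hne) _ fun z hz => ?_
        exact (Finset.mem_filter.1 hz).2.2
    · rw [Finset.card_product]
      exact Nat.mul_le_mul_right _ (Nat.mul_le_mul hcard hcard)
  · refine (Finset.card_biUnion_le_card_mul _ _ B₀ fun q hq => ?_).trans ?_
    · obtain ⟨hq1, -⟩ := Finset.mem_product.1 hq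
      have k1 := (hmem q.1).1 hq1
      by_cases hd : bq q.1 ∣ F q.2
      · rw [hE]
        simp [hd]
      · refine hB₀ K (bq q.1) (F q.2) (bq_bd _) (hF _)
          ((k1.2.1.isRelPrime_iff_not_dvd).2 hd) _ fun z hz => ?_
        exact (Finset.mem_filter.1 hz).2.2
    · rw [Finset.card_product, Finset.card_univ, Fintype.card_fin]
      exact Nat.mul_le_mul_right _ (Nat.mul_le_mul_right _ hcard)

end Pool.Agent.CvQ
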