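import Pool.Agent.CvQ.Cmp
import Pool.Agent.PRc.Ex

/-!
# Package CvQ-CmpQ: the conditions on the components are first-order

`F l = bq (C l)` with coefficients `C l i ∈ PRF` in parameters `ι`. Complete proofs.

* `dv_prq`: `bq c ∣ bq b` (`b` another coefficient vector): `∃ e, bq c * bq e = bq b` (`CvD.mul_prd`; if
  `bq b ≠ 0` the cofactor has `Bd D`: `CvD.bd_left`; if `bq b = 0` take `e = 0`): `PRQ.ex`.
* `ev_prd`: `(bq b).evalEval x y = 0`: `CvD.bq_eval`.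
* `cmp_prq`: `Nrm` is `PRD`; `CvD.ir_prq`; `F l ≠ 0` (`PRD`); `dv_prq` and `PRQ.exF`.
* `reg_prq`: `PRQ.all` over `c'`.
Substitutions by `PRQ.comp`.
-/

set_option autoImplicit false

noncomputable section

namespace Pool.Agent.CvQ

open Polynomial Pool.Agent.CvD Pool.Agent.PRc
open scoped Polynomial.Bivariate

private theorem bq_zero_CmpQ {K : Type} [CommRing K] {D : ℕ} :
    bq (fun _ : Ix D => (0 : K)) = 0 := by
  refine Polynomial.ext fun b => Polynomial.ext fun a => ?_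
  rw [bq_coeff, coeff_zero, coeff_zero]
  split_ifs <;> rfl

private theorem eq_zero_CmpQ {K : Type} [CommRing K] {D : ℕ} (x : Ix D → K) :
    bq x = 0 ↔ ∀ i, x i = 0 := by
  constructor
  · intro h i
    rw [← bq_zero_CmpQ (K := K) (D := D)] at h
    exact congrFun (bq_inj h) i
  · intro h
    have h1 : x = fun _ => 0 := funext h
    rw [h1, bq_zero_CmpQ]

private theorem dvd_iff_CmpQ {K : Type} [Field K] {D : ℕ} (c b : Ix D → K) :
    (∃ e : Ix D → K, bq c * bq e = bq b) ↔ bq c ∣ bq b := by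
  constructor
  · rintro ⟨e, he⟩
    exact ⟨bq e, he.symm⟩
  · rintro ⟨q, hq⟩
    by_cases h0 : bq b = 0
    · exact ⟨fun _ => 0, by rw [bq_zero_CmpQ, mul_zero, h0]⟩
    · have h1 : q * bq c = bq b := by rw [hq, mul_comm]
      obtain ⟨e, he⟩ := bq_surj (bd_left h1 h0 (bq_bd b))
      exact ⟨e, by rw [he, hq]⟩

theorem dv_prq (D : ℕ) : PRQ (ι := Ix D ⊕ Ix D)
    (fun _ _ x => bq (fun i => x (Sum.inl i)) ∣ bq (fun i => x (Sum.inr i))) := by
  have h3 : PRQ (ι := (Ix D ⊕ Ix D) ⊕ Ix D) (fun _ _ x =>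
      bq (fun i => x (Sum.inl (Sum.inl i))) * bq (fun i => x (Sum.inr i)) =
        bq (fun i => x (Sum.inl (Sum.inr i)))) := by
    refine PRQ.base ?_
    exact PRD.comp (mul_prd D) (G := Sum.elim
      (fun i => fun k _ (x : (Ix D ⊕ Ix D) ⊕ Ix D → k) => x (Sum.inl (Sum.inl i)))
      (Sum.elim (fun i => fun k _ (x : (Ix D ⊕ Ix D) ⊕ Ix D → k) => x (Sum.inr i))
        (fun i => fun k _ (x : (Ix D ⊕ Ix D) ⊕ Ix D → k) => x (Sum.inl (Sum.inr i))))) (by
      rintro (i | i | i)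
      · exact PRF.var (Sum.inl (Sum.inl i))
      · exact PRF.var (Sum.inr i)
      · exact PRF.var (Sum.inl (Sum.inr i)))
  refine h3.ex.congr fun k _ x => ?_
  exact dvd_iff_CmpQ (fun i => x (Sum.inl i)) (fun i => x (Sum.inr i))

theorem ev_prd (D : ℕ) : PRD (ι := Ix D ⊕ Fin 2)
    (fun _ _ x => (bq (fun i => x (Sum.inl i))).evalEval (x (Sum.inr 0)) (x (Sum.inr 1)) = 0) := by
  refine PRD.eq ?_ PRF.zero
  refine (PRF.sum Finset.univ (F := fun (i : Fin (D + 1)) k _ (x : Ix D ⊕ Fin 2 → k) =>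
    ∑ j : Fin (D + 1), x (Sum.inl (i, j)) * x (Sum.inr 0) ^ (i : ℕ) * x (Sum.inr 1) ^ (j : ℕ))
    fun i _ => ?_).congr fun k _ x => bq_eval _ _ _
  refine PRF.sum Finset.univ (F := fun (j : Fin (D + 1)) k _ (x : Ix D ⊕ Fin 2 → k) =>
    x (Sum.inl (i, j)) * x (Sum.inr 0) ^ (i : ℕ) * x (Sum.inr 1) ^ (j : ℕ)) fun j _ => ?_
  exact ((PRF.var (Sum.inl (i, j))).mul ((PRF.var (Sum.inr 0)).pow _)).mul
    ((PRF.var (Sum.inr 1)).pow _)

private theorem nrm_prq_CmpQ (D : ℕ) : PRQ (ι := Ix D) (fun _ _ x => Nrm x) := by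
  refine PRQ.exF (P := fun (i : Ix D) k _ (x : Ix D → k) =>
    x i = 1 ∧ ∀ j, finProdFinEquiv j < finProdFinEquiv i → x j = 0) fun i => ?_
  refine (PRQ.eq (PRF.var i) PRF.one).and ?_
  refine PRQ.allF (P := fun (j : Ix D) k _ (x : Ix D → k) =>
    finProdFinEquiv j < finProdFinEquiv i → x j = 0) fun j => ?_
  by_cases h : finProdFinEquiv j < finProdFinEquiv i
  · exact (PRQ.eq (PRF.var j) PRF.zero).congr fun k _ x => ⟨fun h1 _ => h1, fun h1 => h1 h⟩
  · exact PRQ.true.congr fun k _ x => ⟨fun _ h1 => absurd h1 h, fun _ => trivial⟩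

variable {ι : Type} {D s : ℕ} {G : Fin s → Ix D → FF ι}

theorem cmp_prq (hG : ∀ l i, PRF (G l i)) : PRQ (ι := ι ⊕ Ix D)
    (fun k _ x => Cmp (fun l => bq fun i => G l i k (fun j => x (Sum.inl j)))
      (fun i => x (Sum.inr i))) := by
  have hG' : ∀ l i, PRF (fun k _ (x : ι ⊕ Ix D → k) => G l i k (fun j => x (Sum.inl j))) :=
    fun l i => (hG l i).comp (G := fun j => fun k _ (x : ι ⊕ Ix D → k) => x (Sum.inl j))
      fun j => PRF.var (Sum.inl j)
  have h1 : PRQ (ι := ι ⊕ Ix D) (fun k _ x => Nrm (fun i : Ix D => x (Sum.inr i))) :=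
    (nrm_prq_CmpQ D).comp (G := fun i => fun k _ (x : ι ⊕ Ix D → k) => x (Sum.inr i))
      fun i => PRF.var (Sum.inr i)
  have h2 : PRQ (ι := ι ⊕ Ix D)
      (fun k _ x => Irreducible (bq (fun i : Ix D => x (Sum.inr i)))) :=
    (ir_prq D).comp (G := fun i => fun k _ (x : ι ⊕ Ix D → k) => x (Sum.inr i))
      fun i => PRF.var (Sum.inr i)
  refine h1.and (h2.and ?_)
  refine PRQ.exF (P := fun (l : Fin s) k _ (x : ι ⊕ Ix D → k) =>
    (bq fun i => G l i k (fun j => x (Sum.inl j))) ≠ 0 ∧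
      bq (fun i : Ix D => x (Sum.inr i)) ∣ bq fun i => G l i k (fun j => x (Sum.inl j)))
    fun l => ?_
  refine PRQ.and (PRQ.not ?_) ?_
  · refine (PRQ.allF (P := fun (i : Ix D) k _ (x : ι ⊕ Ix D → k) =>
      G l i k (fun j => x (Sum.inl j)) = 0) fun i => PRQ.eq (hG' l i) PRF.zero).congr
      fun k _ x => (eq_zero_CmpQ _).symm
  · exact (dv_prq D).comp (G := Sum.elim
      (fun i => fun k _ (x : ι ⊕ Ix D → k) => x (Sum.inr i))
      (fun i => fun k _ (x : ι ⊕ Ix D → k) => G l i k (fun j => x (Sum.inl j)))) (by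
      rintro (i | i)
      · exact PRF.var (Sum.inr i)
      · exact hG' l i)

theorem reg_prq (hG : ∀ l i, PRF (G l i)) : PRQ (ι := (ι ⊕ Ix D) ⊕ Fin 2)
    (fun k _ x => Reg (fun l => bq fun i => G l i k (fun j => x (Sum.inl (Sum.inl j))))
      (fun i => x (Sum.inl (Sum.inr i))) (x (Sum.inr 0)) (x (Sum.inr 1))) := by
  have hG' : ∀ l i, PRF (fun k _ (x : (ι ⊕ Ix D) ⊕ Fin 2 → k) =>
      G l i k (fun j => x (Sum.inl (Sum.inl j)))) :=
    fun l i => (hG l i).comp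
      (G := fun j => fun k _ (x : (ι ⊕ Ix D) ⊕ Fin 2 → k) => x (Sum.inl (Sum.inl j)))
      fun j => PRF.var (Sum.inl (Sum.inl j))
  have h1 : PRQ (ι := (ι ⊕ Ix D) ⊕ Fin 2) (fun k _ x =>
      (bq (fun i : Ix D => x (Sum.inl (Sum.inr i)))).evalEval (x (Sum.inr 0)) (x (Sum.inr 1)) =
        0) := by
    refine PRQ.base ?_
    exact PRD.comp (ev_prd D) (G := Sum.elim
      (fun i => fun k _ (x : (ι ⊕ Ix D) ⊕ Fin 2 → k) => x (Sum.inl (Sum.inr i)))
      (fun i => fun k _ (x : (ι ⊕ Ix D) ⊕ Fin 2 → k) => x (Sum.inr i))) (by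
      rintro (i | i)
      · exact PRF.var (Sum.inl (Sum.inr i))
      · exact PRF.var (Sum.inr i))
  refine h1.and (PRQ.and ?_ ?_)
  · have h2 : PRQ (ι := ((ι ⊕ Ix D) ⊕ Fin 2) ⊕ Ix D) (fun k _ x =>
        Cmp (fun l => bq fun i => G l i k (fun j => x (Sum.inl (Sum.inl (Sum.inl j)))))
          (fun i => x (Sum.inr i))) :=
      (cmp_prq hG).comp (G := Sum.elim
        (fun j => fun k _ (x : ((ι ⊕ Ix D) ⊕ Fin 2) ⊕ Ix D → k) =>
          x (Sum.inl (Sum.inl (Sum.inl j))))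
        (fun i => fun k _ (x : ((ι ⊕ Ix D) ⊕ Fin 2) ⊕ Ix D → k) => x (Sum.inr i))) (by
        rintro (j | i)
        · exact PRF.var (Sum.inl (Sum.inl (Sum.inl j)))
        · exact PRF.var (Sum.inr i))
    have h3 : PRQ (ι := ((ι ⊕ Ix D) ⊕ Fin 2) ⊕ Ix D) (fun k _ x =>
        (bq (fun i : Ix D => x (Sum.inr i))).evalEval (x (Sum.inl (Sum.inr 0)))
          (x (Sum.inl (Sum.inr 1))) = 0) := by
      refine PRQ.base ?_
      exact PRD.comp (ev_prd D) (G := Sum.elim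
        (fun i => fun k _ (x : ((ι ⊕ Ix D) ⊕ Fin 2) ⊕ Ix D → k) => x (Sum.inr i))
        (fun i => fun k _ (x : ((ι ⊕ Ix D) ⊕ Fin 2) ⊕ Ix D → k) =>
          x (Sum.inl (Sum.inr i)))) (by
        rintro (i | i)
        · exact PRF.var (Sum.inr i)
        · exact PRF.var (Sum.inl (Sum.inr i)))
    have h4 : PRQ (ι := ((ι ⊕ Ix D) ⊕ Fin 2) ⊕ Ix D) (fun k _ x =>
        (fun i : Ix D => x (Sum.inr i)) = fun i => x (Sum.inl (Sum.inl (Sum.inr i)))) := by
      refine (PRQ.allF (P := fun (i : Ix D) k _ (x : ((ι ⊕ Ix D) ⊕ Fin 2) ⊕ Ix D → k) =>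
        x (Sum.inr i) = x (Sum.inl (Sum.inl (Sum.inr i)))) fun i =>
          PRQ.eq (PRF.var (Sum.inr i)) (PRF.var (Sum.inl (Sum.inl (Sum.inr i))))).congr
        fun k _ x => ?_
      exact funext_iff.symm
    exact (h2.imp (h3.imp h4)).all
  · refine PRQ.allF (P := fun (l : Fin s) k _ (x : (ι ⊕ Ix D) ⊕ Fin 2 → k) =>
      (bq fun i => G l i k (fun j => x (Sum.inl (Sum.inl j)))).evalEval (x (Sum.inr 0))
        (x (Sum.inr 1)) = 0 → bq (fun i : Ix D => x (Sum.inl (Sum.inr i))) ∣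
          bq fun i => G l i k (fun j => x (Sum.inl (Sum.inl j)))) fun l => ?_
    refine PRQ.imp (PRQ.base ?_) ?_
    · exact PRD.comp (ev_prd D) (G := Sum.elim
        (fun i => fun k _ (x : (ι ⊕ Ix D) ⊕ Fin 2 → k) =>
          G l i k (fun j => x (Sum.inl (Sum.inl j))))
        (fun i => fun k _ (x : (ι ⊕ Ix D) ⊕ Fin 2 → k) => x (Sum.inr i))) (by
        rintro (i | i)
        · exact hG' l i
        · exact PRF.var (Sum.inr i))
    · exact (dv_prq D).comp (G := Sum.elim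
        (fun i => fun k _ (x : (ι ⊕ Ix D) ⊕ Fin 2 → k) => x (Sum.inl (Sum.inr i)))
        (fun i => fun k _ (x : (ι ⊕ Ix D) ⊕ Fin 2 → k) =>
          G l i k (fun j => x (Sum.inl (Sum.inl j))))) (by
        rintro (i | i)
        · exact PRF.var (Sum.inl (Sum.inr i))
        · exact hG' l i)

end Pool.Agent.CvQ
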