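import Pool.Agent.CvQ.Defs

/-!
# Package CvQ-Nf: normal form

Complete proof, induction on `BF S`. `base`: `s = 1`. `not`: `Φ' A = ¬ Φ A`. `and`: `s = s₁ + s₂`,
`κ = κ₁ ⊕ κ₂`; for `i < s₁` the relation `P₁ i (x, t ∘ inl)` and `t ∘ inr = 0`, similarly for the others
(`Fin.addCases`; `PRD` of finite conjunctions: `PRD.all` or similar; the fibre is in bijection with
the old one).
-/

set_option autoImplicit false

noncomputable section

namespace Pool.Agent.CvQ

open Polynomial Pool.Agent.PRc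

section pad

variable {ι κ κ' : Type}

private def pdL (κ' : Type) (P : FR (ι ⊕ κ)) : FR (ι ⊕ (κ ⊕ κ')) := fun k _ z =>
  P k (Sum.elim (fun i => z (.inl i)) fun c => z (.inr (.inl c))) ∧ ∀ c : κ', z (.inr (.inr c)) = 0

private def pdR (κ' : Type) (P : FR (ι ⊕ κ)) : FR (ι ⊕ (κ' ⊕ κ)) := fun k _ z =>
  P k (Sum.elim (fun i => z (.inl i)) fun c => z (.inr (.inr c))) ∧ ∀ c : κ', z (.inr (.inl c)) = 0

private theorem pdL_prd [Finite κ'] {P : FR (ι ⊕ κ)} (hP : PRD P) : PRD (pdL κ' P) := by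
  have := Fintype.ofFinite κ'
  let G : ι ⊕ κ → FF (ι ⊕ (κ ⊕ κ')) :=
    Sum.elim (fun i k _ z => z (.inl i)) fun c k _ z => z (.inr (.inl c))
  have hG : ∀ j, PRF (G j) := by
    rintro (i | c)
    · exact PRF.var _
    · exact PRF.var _
  refine ((hP.comp hG).and (PRD.all (Finset.univ : Finset κ')
    (P := fun c k _ z => z (.inr (.inr c)) = 0) fun c _ => PRD.eq (PRF.var _) PRF.zero)).congr ?_
  intro k _ z
  have e : (fun j => G j k z) = Sum.elim (fun i => z (.inl i)) fun c => z (.inr (.inl c)) := by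
    funext j
    rcases j with i | c <;> rfl
  unfold pdL
  rw [e]
  simp

private theorem pdR_prd [Finite κ'] {P : FR (ι ⊕ κ)} (hP : PRD P) : PRD (pdR κ' P) := by
  have := Fintype.ofFinite κ'
  let G : ι ⊕ κ → FF (ι ⊕ (κ' ⊕ κ)) :=
    Sum.elim (fun i k _ z => z (.inl i)) fun c k _ z => z (.inr (.inr c))
  have hG : ∀ j, PRF (G j) := by
    rintro (i | c)
    · exact PRF.var _
    · exact PRF.var _
  refine ((hP.comp hG).and (PRD.all (Finset.univ : Finset κ')
    (P := fun c k _ z => z (.inr (.inl c)) = 0) fun c _ => PRD.eq (PRF.var _) PRF.zero)).congr ?_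
  intro k _ z
  have e : (fun j => G j k z) = Sum.elim (fun i => z (.inl i)) fun c => z (.inr (.inr c)) := by
    funext j
    rcases j with i | c <;> rfl
  unfold pdR
  rw [e]
  simp

private theorem pdL_fnf {P : FR (ι ⊕ κ)} (hP : FnF P) : FnF (pdL κ' P) := by
  intro K _ _ x
  refine ((hP K x).image fun t => Sum.elim t fun _ => (0 : K)).subset ?_
  intro t ht
  refine ⟨fun c => t (.inl c), ht.1, ?_⟩
  funext j
  rcases j with c | c
  · rfl
  · exact (ht.2 c).symm

private theorem pdR_fnf {P : FR (ι ⊕ κ)} (hP : FnF P) : FnF (pdR κ' P) := by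
  intro K _ _ x
  refine ((hP K x).image fun t => Sum.elim (fun _ => (0 : K)) t).subset ?_
  intro t ht
  refine ⟨fun c => t (.inr c), ht.1, ?_⟩
  funext j
  rcases j with c | c
  · exact (ht.2 c).symm
  · rfl

private theorem pdL_ex {P : FR (ι ⊕ κ)} (k : Type) [Field k] (x : ι → k) :
    (∃ t : κ ⊕ κ' → k, pdL κ' P k (Sum.elim x t)) ↔ ∃ t : κ → k, P k (Sum.elim x t) := by
  constructor
  · rintro ⟨t, ht⟩
    exact ⟨fun c => t (.inl c), ht.1⟩
  · rintro ⟨t, ht⟩
    exact ⟨Sum.elim t fun _ => 0, ht, fun _ => rfl⟩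

private theorem pdR_ex {P : FR (ι ⊕ κ)} (k : Type) [Field k] (x : ι → k) :
    (∃ t : κ' ⊕ κ → k, pdR κ' P k (Sum.elim x t)) ↔ ∃ t : κ → k, P k (Sum.elim x t) := by
  constructor
  · rintro ⟨t, ht⟩
    exact ⟨fun c => t (.inr c), ht.1⟩
  · rintro ⟨t, ht⟩
    exact ⟨Sum.elim (fun _ => 0) t, ht, fun _ => rfl⟩

end pad

theorem nf {ι : Type} {S : GR ι} (h : BF S) :
    ∃ (s : ℕ) (κ : Type) (_ : Finite κ) (P : Fin s → FR (ι ⊕ κ)) (Φ : (Fin s → Prop) → Prop),
      (∀ i, PRD (P i)) ∧ (∀ i, FnF (P i)) ∧ ∀ (p : ℕ) [Fact p.Prime] (x : ι → ZMod p),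
        S p x ↔ Φ (fun i => ∃ t : κ → ZMod p, P i (ZMod p) (Sum.elim x t)) := by
  induction h with
  | @base κ hκ P hP hF =>
    exact ⟨1, κ, hκ, fun _ => P, fun f => f 0, fun _ => hP, fun _ => hF, fun _ _ _ => Iff.rfl⟩
  | not _ ih =>
    obtain ⟨s, κ, hκ, P, Φ, h1, h2, h3⟩ := ih
    exact ⟨s, κ, hκ, P, fun f => ¬ Φ f, h1, h2, fun p _ x => not_congr (h3 p x)⟩
  | and _ _ ih ih' =>
    obtain ⟨s, κ, hκ, P, Φ, h1, h2, h3⟩ := ih
    obtain ⟨s', κ', hκ', P', Φ', h1', h2', h3'⟩ := ih'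
    refine ⟨s + s', κ ⊕ κ', inferInstance,
      Fin.addCases (fun i => pdL κ' (P i)) fun i => pdR κ (P' i),
      fun f => Φ (fun i => f (Fin.castAdd s' i)) ∧ Φ' fun i => f (Fin.natAdd s i), ?_, ?_, ?_⟩
    · intro i
      refine Fin.addCases (fun i => ?_) (fun i => ?_) i
      · beta_reduce
        rw [Fin.addCases_left]
        exact pdL_prd (h1 i)
      · beta_reduce
        rw [Fin.addCases_right]
        exact pdR_prd (h1' i)
    · intro i
      refine Fin.addCases (fun i => ?_) (fun i => ?_) i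
      · beta_reduce
        rw [Fin.addCases_left]
        exact pdL_fnf (h2 i)
      · beta_reduce
        rw [Fin.addCases_right]
        exact pdR_fnf (h2' i)
    · intro p _ x
      have e1 : (fun i : Fin s => ∃ t : κ ⊕ κ' → ZMod p,
          (Fin.addCases (fun i => pdL κ' (P i)) (fun i => pdR κ (P' i)) (Fin.castAdd s' i) :
            FR (ι ⊕ (κ ⊕ κ'))) (ZMod p) (Sum.elim x t)) =
          fun i => ∃ t : κ → ZMod p, P i (ZMod p) (Sum.elim x t) := by
        funext i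
        rw [Fin.addCases_left]
        exact propext (pdL_ex (ZMod p) x)
      have e2 : (fun i : Fin s' => ∃ t : κ ⊕ κ' → ZMod p,
          (Fin.addCases (fun i => pdL κ' (P i)) (fun i => pdR κ (P' i)) (Fin.natAdd s i) :
            FR (ι ⊕ (κ ⊕ κ'))) (ZMod p) (Sum.elim x t)) =
          fun i => ∃ t : κ' → ZMod p, P' i (ZMod p) (Sum.elim x t) := by
        funext i
        rw [Fin.addCases_right]
        exact propext (pdR_ex (ZMod p) x)
      beta_reduce
      rw [e1, e2]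
      exact and_congr (h3 p x) (h3' p x)

end Pool.Agent.CvQ
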