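import Pool.Agent.CvQ.Defs
import Pool.Agent.CvS.FinU

/-!
# Package CvQ-QQ: elimination of quantifiers over algebraically closed fields

Complete proofs.

* `prq_qe`: induction on `PRQ R`. `base`: `CvS.prd_hom`. `not`, `and`: `PRD.not`, `PRD.and`. `ex`: the
  induction hypothesis for the field `K` itself (`φ = RingHom.id K`) gives `PRD Q₁` with
  `Q₁ K x ↔ P K x` for all algebraically closed `K`, and `CvS.qe` for `Q₁`.
* `cut`: `CvS.fib_unif` (transport `κ` to `Fin n`) gives `B` and `Q`; `P' = P ∧ ¬ Q`; `CvS.prd_hom` for `Q`.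
-/

set_option autoImplicit false

noncomputable section

namespace Pool.Agent.CvQ

open Polynomial Pool.Agent.PRc

theorem prq_qe {ι : Type} {R : FR ι} (hR : PRQ R) : ∃ Q : FR ι, PRD Q ∧
    ∀ (k K : Type) [Field k] [Field K] [IsAlgClosed K] (φ : k →+* K) (x : ι → k),
      Q k x ↔ R K (fun i => φ (x i)) := by
  induction hR with
  | @base ι P h => exact ⟨P, h, fun k K _ _ _ φ x => (CvS.prd_hom h φ x).symm⟩
  | not _ ih =>
    obtain ⟨Q, hQ, hq⟩ := ih
    exact ⟨_, hQ.not, fun k K _ _ _ φ x => not_congr (hq k K φ x)⟩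
  | and _ _ ih1 ih2 =>
    obtain ⟨Q1, h1, hq1⟩ := ih1
    obtain ⟨Q2, h2, hq2⟩ := ih2
    exact ⟨_, h1.and h2, fun k K _ _ _ φ x => and_congr (hq1 k K φ x) (hq2 k K φ x)⟩
  | @ex ι κ _ P _ ih =>
    obtain ⟨Q1, h1, hq1⟩ := ih
    obtain ⟨Q, hQ, hq⟩ := CvS.qe h1
    refine ⟨Q, hQ, fun k K _ _ _ φ x => ?_⟩
    rw [hq k K φ x]
    exact exists_congr fun t => hq1 K K (RingHom.id K) _

theorem cut {ι κ : Type} [Finite κ] {P : FR (ι ⊕ κ)} (hP : PRD P) :
    ∃ (B : ℕ) (P' : FR (ι ⊕ κ)), PRD P' ∧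
      (∀ (K : Type) [Field K] [IsAlgClosed K] (x : ι → K),
        {t : κ → K | P' K (Sum.elim x t)}.Finite ∧ {t : κ → K | P' K (Sum.elim x t)}.ncard ≤ B) ∧
      ∀ (k K : Type) [Field k] [Field K] [IsAlgClosed K] (φ : k →+* K) (x : ι → k) (t : κ → k),
        P' k (Sum.elim x t) ↔ P k (Sum.elim x t) ∧
          {t' : κ → K | P K (Sum.elim (fun i => φ (x i)) t')}.Finite := by
  obtain ⟨n, ⟨e⟩⟩ := Finite.exists_equiv_fin κ
  have h0 : PRD (ι := ι ⊕ Fin n) (fun k _ x => P k (fun j =>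
      (Sum.elim (fun i => (fun k _ x => x (Sum.inl i) : FF (ι ⊕ Fin n)))
        (fun i => (fun k _ x => x (Sum.inr (e i)) : FF (ι ⊕ Fin n))) :
        ι ⊕ κ → FF (ι ⊕ Fin n)) j k x)) :=
    hP.comp fun j => by
      rcases j with i | i
      · exact PRF.var _
      · exact PRF.var _
  obtain ⟨B, Q, hQ, hq⟩ := CvS.fib_unif h0
  have key : ∀ (K : Type) [Field K] (x : ι → K),
      {t : κ → K | P K (Sum.elim x t)} = (fun (t : Fin n → K) (i : κ) => t (e i)) ''
        {t : Fin n → K | P K (fun j => (Sum.elim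
          (fun i => (fun k _ x => x (Sum.inl i) : FF (ι ⊕ Fin n)))
          (fun i => (fun k _ x => x (Sum.inr (e i)) : FF (ι ⊕ Fin n))) :
          ι ⊕ κ → FF (ι ⊕ Fin n)) j K (Sum.elim x t))} := by
    intro K _ x
    have h1 : ∀ t : Fin n → K, (fun j => (Sum.elim
          (fun i => (fun k _ x => x (Sum.inl i) : FF (ι ⊕ Fin n)))
          (fun i => (fun k _ x => x (Sum.inr (e i)) : FF (ι ⊕ Fin n))) :
          ι ⊕ κ → FF (ι ⊕ Fin n)) j K (Sum.elim x t)) = Sum.elim x fun i => t (e i) := by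
      intro t
      funext j
      rcases j with i | i <;> rfl
    ext t
    constructor
    · intro ht
      refine ⟨fun i => t (e.symm i), ?_, ?_⟩
      · rw [Set.mem_ofPred_eq, h1]
        have h2 : (fun i => t (e.symm (e i))) = t := by
          funext i
          rw [e.symm_apply_apply]
        rw [h2]
        exact ht
      · funext i
        exact congrArg t (e.symm_apply_apply i)
    · rintro ⟨t', ht', rfl⟩
      rw [Set.mem_ofPred_eq, h1] at ht'
      exact ht'
  have inj : ∀ K : Type, Function.Injective fun (t : Fin n → K) (i : κ) => t (e i) := by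
    intro K t t' h
    funext i
    have h2 := congrFun h (e.symm i)
    change t (e (e.symm i)) = t' (e (e.symm i)) at h2
    rwa [e.apply_symm_apply] at h2
  have hfin : ∀ (k K : Type) [Field k] [Field K] [IsAlgClosed K] (φ : k →+* K) (x : ι → k),
      ¬ Q k x ↔ {t : κ → K | P K (Sum.elim (fun i => φ (x i)) t)}.Finite := by
    intro k K _ _ _ φ x
    rw [(hq k K φ x).1, Set.not_infinite, key, Set.finite_image_iff (inj K).injOn]
  have hQ' : PRD (ι := ι ⊕ κ) (fun k _ y => Q k (fun i => y (Sum.inl i))) :=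
    PRD.comp hQ (G := fun (i : ι) (k : Type) [Field k] (y : ι ⊕ κ → k) => y (Sum.inl i))
      fun i => PRF.var (Sum.inl i)
  refine ⟨B, fun k _ y => P k y ∧ ¬ Q k (fun i => y (Sum.inl i)), hP.and hQ'.not,
    fun K _ _ x => ?_, fun k K _ _ _ φ x t => and_congr_right fun _ => hfin k K φ x⟩
  by_cases h : Q K x
  · have h1 : {t : κ → K | P K (Sum.elim x t) ∧
        ¬ Q K (fun i => (Sum.elim x t : ι ⊕ κ → K) (Sum.inl i))} = ∅ := by
      ext t
      exact ⟨fun h2 => h2.2 h, fun h2 => h2.elim⟩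
    rw [h1]
    exact ⟨Set.finite_empty, by rw [Set.ncard_empty]; exact Nat.zero_le B⟩
  · have h1 : {t : κ → K | P K (Sum.elim x t) ∧
        ¬ Q K (fun i => (Sum.elim x t : ι ⊕ κ → K) (Sum.inl i))} ⊆
          {t : κ → K | P K (Sum.elim x t)} := fun t ht => ht.1
    have h2 : {t : κ → K | P K (Sum.elim x t)}.Finite := (hfin K K (RingHom.id K) x).1 h
    refine ⟨h2.subset h1, (Set.ncard_le_ncard h1 h2).trans ?_⟩
    rw [key, Set.ncard_image_of_injective _ (inj K)]
    exact (hq K K (RingHom.id K) x).2 h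

end Pool.Agent.CvQ
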