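import Pool.Agent.CvQ.Main
import Pool.Agent.CvQ.AuxD
import Pool.Agent.CvQ.Nf
import Pool.Agent.CvQ.QQ
import Pool.Agent.CvE.Main
import Pool.Agent.CvS.Defs

/-!
# Package CvQ-Cnt: numbers of elements with a first-order property

Complete proof. `prq_af` gives `C`, `M`, `S`; `nf` gives
`P i : FR (((Unit ⊕ ι) ⊕ Ax M) ⊕ κ)` and `Φ`. Let `B` be a bound for the fibres (`cut`). For `p ≤ C`: finitely
many primes `p₀`; the number is the sum over `x < p₀` of the indicator of a `Delta0` relation
(`PRc.prq_delta`, `DFun.finSum`). For `p > C`: let `u` be `aux_def M`; by `CvE.fibres` for the relations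
`P i` in the form `FR ((Unit ⊕ κ) ⊕ (ι ⊕ Ax M))` (`PRD.comp`) with parameters `a` and `u p` the numbers of the
`x` with `#{t | P i (x, t)} = r i` for all `i` are in the class; sum over the `r : Fin s → Fin (B + 1)` with
`Φ (i ↦ 1 ≤ r i)`.
-/

set_option autoImplicit false

noncomputable section

namespace Pool.Agent.CvQ

open Polynomial Pool.Agent.PRc Pool.Agent.Grz

/-- the relation with the variables in the order of the fibration -/
private def ord_Cnt {ι κ : Type} {M : ℕ} (P : FR (((Unit ⊕ ι) ⊕ Ax M) ⊕ κ)) :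
    FR ((Unit ⊕ κ) ⊕ (ι ⊕ Ax M)) := fun k _ z =>
  P k (Sum.elim (Sum.elim (Sum.elim (fun _ => z (.inl (.inl ()))) fun i => z (.inr (.inl i)))
    fun m => z (.inr (.inr m))) fun c => z (.inl (.inr c)))

private theorem ord_prd_Cnt {ι κ : Type} {M : ℕ} {P : FR (((Unit ⊕ ι) ⊕ Ax M) ⊕ κ)} (hP : PRD P) :
    PRD (ord_Cnt P) := by
  let G : ((Unit ⊕ ι) ⊕ Ax M) ⊕ κ → FF ((Unit ⊕ κ) ⊕ (ι ⊕ Ax M)) :=
    Sum.elim (Sum.elim (Sum.elim (fun _ k _ z => z (.inl (.inl ())))
      fun i k _ z => z (.inr (.inl i))) fun m k _ z => z (.inr (.inr m)))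
      fun c k _ z => z (.inl (.inr c))
  have hG : ∀ j, PRF (G j) := by
    rintro (((_ | i) | m) | c)
    · exact PRF.var _
    · exact PRF.var _
    · exact PRF.var _
    · exact PRF.var _
  refine (hP.comp hG).congr fun k _ z => iff_of_eq (congrArg (P k) (funext fun j => ?_))
  rcases j with ((_ | i) | m) | c <;> rfl

private theorem ord_pt_Cnt {ι κ : Type} {M : ℕ} (P : FR (((Unit ⊕ ι) ⊕ Ax M) ⊕ κ)) (k : Type)
    [Field k] (x : k) (t : κ → k) (a : ι → k) (u : Ax M → k) :
    ord_Cnt P k (CvE.pt x t (Sum.elim a u)) ↔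
      P k (Sum.elim (Sum.elim (Sum.elim (fun _ => x) a) u) t) := Iff.rfl

/-- the number of the points of the fibres is bounded -/
private theorem bound_Cnt {ι κ : Type} [Finite κ] {P : FR (ι ⊕ κ)} (hP : PRD P) (hF : FnF P) :
    ∃ B : ℕ, ∀ (p : ℕ) [Fact p.Prime] (x : ι → ZMod p),
      Nat.card {t : κ → ZMod p // P (ZMod p) (Sum.elim x t)} ≤ B := by
  obtain ⟨B, P', hP', h1, h2⟩ := cut hP
  refine ⟨B, fun p _ x => ?_⟩
  let φ : ZMod p →+* AlgebraicClosure (ZMod p) := algebraMap _ _
  obtain ⟨hf, hc⟩ := h1 (AlgebraicClosure (ZMod p)) fun i => φ (x i)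
  refine le_trans ?_ hc
  have key : ∀ t : κ → ZMod p, P (ZMod p) (Sum.elim x t) → (fun c => φ (t c)) ∈
      {t : κ → AlgebraicClosure (ZMod p) | P' (AlgebraicClosure (ZMod p))
        (Sum.elim (fun i => φ (x i)) t)} := by
    intro t ht
    refine (h2 (AlgebraicClosure (ZMod p)) (AlgebraicClosure (ZMod p)) (RingHom.id _)
      (fun i => φ (x i)) _).2 ⟨?_, hF (AlgebraicClosure (ZMod p)) _⟩
    have h3 := (CvS.prd_hom hP φ (Sum.elim x t)).2 ht
    have e : (fun i => φ ((Sum.elim x t : ι ⊕ κ → ZMod p) i)) =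
        Sum.elim (fun i => φ (x i)) fun c => φ (t c) := by
      funext j
      rcases j with j | j <;> rfl
    rwa [e] at h3
  have := hf.to_subtype
  rw [← Nat.card_coe_set_eq]
  refine Nat.card_le_card_of_injective (fun t : {t : κ → ZMod p // P (ZMod p) (Sum.elim x t)} =>
    (⟨fun c => φ (t.1 c), key t.1 t.2⟩ : {t : κ → AlgebraicClosure (ZMod p) |
      P' (AlgebraicClosure (ZMod p)) (Sum.elim (fun i => φ (x i)) t)})) ?_
  intro t t' h
  refine Subtype.ext (funext fun c => φ.injective ?_)
  exact congrFun (congrArg Subtype.val h) c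

theorem cnt_def (W : Wl) (L : CvE.LineHyp) {ι : Type} [Finite ι] {R : FR (Unit ⊕ ι)}
    (h : PRQ R) : ∃ N : ℕ → (ι → ℕ) → ℕ, CvS.DC N ∧ ∀ (p : ℕ) [Fact p.Prime] (a : ι → ℕ),
      N p a = Nat.card {x : ZMod p //
        R (ZMod p) (Sum.elim (fun _ => x) fun i => (a i : ZMod p))} := by
  classical
  obtain ⟨C, M, S, hS, hRS⟩ := prq_af W h
  obtain ⟨s, κ, hκ, P, Φ, hP, hF, hΦ⟩ := nf hS
  obtain ⟨u, hu, huV⟩ := aux_def M
  choose B0 hB0 using fun i => bound_Cnt (hP i) (hF i)
  obtain ⟨B, hB⟩ : ∃ B : ℕ, ∀ i, B0 i ≤ B :=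
    ⟨Finset.univ.sup B0, fun i => Finset.le_sup (Finset.mem_univ i)⟩
  choose N hNd hNc using fun r : Fin s → ℕ =>
    CvE.fibres L (fun _ : Fin s => κ) (ι ⊕ Ax M) (fun i => ord_Cnt (P i))
      (fun i => ord_prd_Cnt (hP i)) r
  refine ⟨fun p a => if p ≤ C then
      ∑ x ∈ Finset.range (C + 1), (if x < p ∧ ∃ h : p.Prime, haveI := Fact.mk h;
        R (ZMod p) (Sum.elim (fun _ => (x : ZMod p)) fun i => (a i : ZMod p)) then 1 else 0)
    else ∑ r ∈ Fintype.piFinset fun _ : Fin s => Finset.range (B + 1),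
      (if Φ fun i => 1 ≤ r i then N r p (Sum.elim a (u p)) else 0), ?_, ?_⟩
  · intro m p a hp ha
    refine DFun.ite (Delta0.leFun hp (DFun.const C)) ?_ ?_
    · refine PTr.DFun.finSum _ fun x => DFun.ite ?_ (DFun.const 1) (DFun.const 0)
      refine (Delta0.ltFun (DFun.const x) hp).and ?_
      have h1 := prq_delta h (n := m) (p := p) (a := Sum.elim (fun _ _ => x) a) hp (by
        rintro (_ | i)
        · exact DFun.const x
        · exact ha i)
      refine h1.of_iff fun v => exists_congr fun hp1 => ?_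
      have := Fact.mk hp1
      refine iff_of_eq (congrArg (R _) (funext fun j => ?_))
      rcases j with j | j <;> rfl
    · refine PTr.DFun.finSum _ fun r => ?_
      by_cases hr : Φ fun i => 1 ≤ r i
      · simp only [if_pos hr]
        have h1 := hNd r (n := m) (p := p) (a := Sum.elim a fun i v => u (p v) i) hp (by
          rintro (i | i)
          · exact ha i
          · exact hu i hp)
        have e : (fun v : Fin m → ℕ => N r (p v) (Sum.elim (fun i => a i v) (u (p v)))) =
            fun v => N r (p v) fun i => (Sum.elim a (fun i v => u (p v) i) :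
              ι ⊕ Ax M → (Fin m → ℕ) → ℕ) i v := by
          funext v
          refine congrArg (N r _) (funext fun j => ?_)
          rcases j with j | j <;> rfl
        rw [e]
        exact h1
      · simp only [if_neg hr]
        exact DFun.const 0
  · intro p hp a
    beta_reduce
    have := hp
    split_ifs with hpC
    · rw [Nat.card_eq_fintype_card, Fintype.card_subtype, ← Finset.card_filter]
      refine Finset.card_nbij' (fun x => (x : ZMod p)) (fun y => y.val) ?_ ?_ ?_ ?_
      · intro x hx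
        obtain ⟨_, _, _, h3⟩ := Finset.mem_filter.1 hx
        exact Finset.mem_filter.2 ⟨Finset.mem_univ _, h3⟩
      · intro y hy
        have h1 := (Finset.mem_filter.1 hy).2
        refine Finset.mem_filter.2 ⟨Finset.mem_range.2 ?_, ZMod.val_lt y, hp.out, ?_⟩
        · exact (ZMod.val_lt y).trans_le (hpC.trans (Nat.le_succ C))
        · rw [ZMod.natCast_zmod_val]
          exact h1
      · intro x hx
        exact ZMod.val_natCast_of_lt (Finset.mem_filter.1 hx).2.1
      · intro y _
        exact ZMod.natCast_zmod_val y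
    · have hfib : ∀ i, CvE.FibFin (ord_Cnt (P i)) p (Sum.elim a (u p)) := fun i x =>
        hF i (AlgebraicClosure (ZMod p)) (Sum.elim (Sum.elim (fun _ => x)
          fun i => (a i : AlgebraicClosure (ZMod p)))
          fun m => (u p m : AlgebraicClosure (ZMod p)))
      have hR : ∀ x : ZMod p, R (ZMod p) (Sum.elim (fun _ => x) fun i => (a i : ZMod p)) ↔
          Φ fun i => 1 ≤ CvE.nf (ord_Cnt (P i)) p (Sum.elim a (u p)) x := by
        intro x
        rw [hRS p (not_le.1 hpC) _ _ (huV p), hΦ]
        refine iff_of_eq (congrArg Φ (funext fun i => propext ?_))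
        constructor
        · rintro ⟨t, ht⟩
          have : Nonempty {t : κ → ZMod p // ord_Cnt (P i) (ZMod p)
              (CvE.pt x t fun j => ((Sum.elim a (u p) j : ℕ) : ZMod p))} := ⟨⟨t, ht⟩⟩
          exact Nat.card_pos
        · intro h1
          have h2 : 0 < Nat.card {t : κ → ZMod p // ord_Cnt (P i) (ZMod p)
              (CvE.pt x t fun j => ((Sum.elim a (u p) j : ℕ) : ZMod p))} := h1
          obtain ⟨⟨t, ht⟩⟩ := (Nat.card_pos_iff.1 h2).1
          exact ⟨t, ht⟩
      have hle : ∀ (i : Fin s) (x : ZMod p),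
          CvE.nf (ord_Cnt (P i)) p (Sum.elim a (u p)) x ≤ B := fun i x =>
        (hB0 i p (Sum.elim (Sum.elim (fun _ => x) fun i => (a i : ZMod p))
          fun m => (u p m : ZMod p))).trans (hB i)
      have e1 : Nat.card {x : ZMod p // R (ZMod p) (Sum.elim (fun _ => x)
          fun i => (a i : ZMod p))} = (Finset.univ.filter fun x : ZMod p =>
            Φ fun i => 1 ≤ CvE.nf (ord_Cnt (P i)) p (Sum.elim a (u p)) x).card := by
        rw [Nat.card_eq_fintype_card, Fintype.card_subtype]
        exact congrArg Finset.card (Finset.filter_congr fun x _ => hR x)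
      rw [e1, Finset.card_eq_sum_card_fiberwise
        (f := fun (x : ZMod p) (i : Fin s) => CvE.nf (ord_Cnt (P i)) p (Sum.elim a (u p)) x)
        (t := Fintype.piFinset fun _ : Fin s => Finset.range (B + 1))]
      · refine Finset.sum_congr rfl fun r _ => ?_
        by_cases hr : Φ fun i => 1 ≤ r i
        · rw [if_pos hr, hNc r p (Sum.elim a (u p)) hfib, Nat.card_eq_fintype_card,
            Fintype.card_subtype]
          refine congrArg Finset.card (Finset.ext fun x => ?_)
          rw [Finset.mem_filter, Finset.mem_filter, Finset.mem_filter]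
          constructor
          · rintro ⟨-, h1⟩
            have h2 : (fun i => CvE.nf (ord_Cnt (P i)) p (Sum.elim a (u p)) x) = r := funext h1
            refine ⟨⟨Finset.mem_univ _, ?_⟩, h2⟩
            have h3 : ∀ i, CvE.nf (ord_Cnt (P i)) p (Sum.elim a (u p)) x = r i := h1
            simp only [h3]
            exact hr
          · rintro ⟨-, h1⟩
            exact ⟨Finset.mem_univ _, fun i => congrFun h1 i⟩
        · rw [if_neg hr]
          refine (Finset.card_eq_zero.2 (Finset.filter_eq_empty_iff.2 fun x hx h1 => hr ?_)).symm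
          have h2 := (Finset.mem_filter.1 hx).2
          have h3 : ∀ i, CvE.nf (ord_Cnt (P i)) p (Sum.elim a (u p)) x = r i := congrFun h1
          simp only [h3] at h2
          exact h2
      · intro x _
        exact Fintype.mem_piFinset.2 fun i => Finset.mem_range.2 (Nat.lt_succ_of_le (hle i x))

end Pool.Agent.CvQ
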