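import Pool.Agent.CvQ.FvD

/-!
# Package CvQ-Crt: Chinese remainder theorem

Complete proofs.

* `crt_count`: the map `z ↦ (z mod p)_p` is a bijection onto the families of vectors with entries below `p`.
* `cw_count`: for `z` with `E p z` for all `p` let `σ_z p` be the unique `i` with `Q i p z`; the number of the `z` with `σ_z = σ` is
  `∏ p, N (σ p) p` by `crt_count` for the property `E p z ∧ Q (σ p) p z`; the condition on the capped numbers is a condition
  on `σ_z`: `#{p ∈ m.primeFactors | Q i p z} = #{p : m.primeFactors | σ_z p = i}`. Sum over `σ` (`Finset.card_eq_sum_card_fiberwise`).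
-/

set_option autoImplicit false

noncomputable section

namespace Pool.Agent.CvQ

open Finset

open scoped Classical in
theorem crt_count {n m : ℕ} (hm : Squarefree m) (Q : ℕ → (Fin n → ℕ) → Prop)
    (hQ : ∀ p z z', (∀ i, z i ≡ z' i [MOD p]) → (Q p z ↔ Q p z')) :
    #{z ∈ Fintype.piFinset fun _ : Fin n => range m | ∀ p ∈ m.primeFactors, Q p z} =
      ∏ p ∈ m.primeFactors, #{z ∈ Fintype.piFinset fun _ : Fin n => range p | Q p z} := by
  have hprod : ∏ p ∈ m.primeFactors, p = m := Nat.prod_primeFactors_of_squarefree hm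
  have hcop : Set.Pairwise (m.primeFactors : Set ℕ)
      (Function.onFun Nat.Coprime (fun p : ℕ => p)) := by
    intro p hp q hq hpq
    exact (Nat.coprime_primes (Nat.prime_of_mem_primeFactors hp)
      (Nat.prime_of_mem_primeFactors hq)).2 hpq
  have hne : ∀ p ∈ m.primeFactors, p ≠ 0 := fun p hp => (Nat.prime_of_mem_primeFactors hp).ne_zero
  rw [← Finset.card_pi]
  refine Finset.card_bij (fun z _ => fun p _ => fun i => z i % p) ?_ ?_ ?_
  · intro z hz
    simp only [mem_filter, Fintype.mem_piFinset, mem_range] at hz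
    rw [Finset.mem_pi]
    intro p hp
    simp only [mem_filter, Fintype.mem_piFinset, mem_range]
    refine ⟨fun i => Nat.mod_lt _ (Nat.prime_of_mem_primeFactors hp).pos, ?_⟩
    exact (hQ p _ _ fun i => Nat.mod_modEq _ _).2 (hz.2 p hp)
  · intro z hz z' hz' h
    simp only [mem_filter, Fintype.mem_piFinset, mem_range] at hz hz'
    funext i
    have h1 : ∀ p ∈ m.primeFactors, z i ≡ z' i [MOD p] := by
      intro p hp
      have h2 := congrFun (congrFun (congrFun h p) hp) i
      exact h2
    have h3 : (m : ℤ) ∣ (z' i : ℤ) - z i := by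
      rw [← hprod]
      push_cast
      apply Finset.prod_dvd_of_coprime
      · intro p hp q hq hpq
        exact Nat.isCoprime_iff_coprime.2 (hcop hp hq hpq)
      · intro p hp
        exact (Nat.modEq_iff_dvd.1 (h1 p hp))
    exact Nat.ModEq.eq_of_lt_of_lt (Nat.modEq_iff_dvd.2 h3) (hz.1 i) (hz'.1 i)
  · intro f hf
    rw [Finset.mem_pi] at hf
    let a : Fin n → ℕ → ℕ := fun i p => if h : p ∈ m.primeFactors then f p h i else 0
    have ha : ∀ i p (hp : p ∈ m.primeFactors), a i p = f p hp i := fun i p hp => dif_pos hp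
    refine ⟨fun i => (Nat.chineseRemainderOfFinset (a i) (fun p => p) m.primeFactors hne hcop : ℕ),
      ?_, ?_⟩
    · simp only [mem_filter, Fintype.mem_piFinset, mem_range]
      refine ⟨fun i => ?_, ?_⟩
      · have := Nat.chineseRemainderOfFinset_lt_prod (a i) (fun p => p) hne hcop
        rwa [hprod] at this
      · intro p hp
        have h1 := hf p hp
        simp only [mem_filter, Fintype.mem_piFinset, mem_range] at h1
        refine (hQ p _ _ fun i => ?_).2 h1.2
        have h2 := (Nat.chineseRemainderOfFinset (a i) (fun p => p) m.primeFactors hne hcop).2 p hp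
        rw [ha i p hp] at h2
        exact h2
    · funext p hp i
      have h1 := hf p hp
      simp only [mem_filter, Fintype.mem_piFinset, mem_range] at h1
      have h2 := (Nat.chineseRemainderOfFinset (a i) (fun p => p) m.primeFactors hne hcop).2 p hp
      rw [ha i p hp] at h2
      have h4 : _ % p = f p hp i % p := h2
      rw [h4, Nat.mod_eq_of_lt (h1.1 i)]

open scoped Classical in
theorem cw_count {n m k : ℕ} (hm : Squarefree m) (E : ℕ → (Fin n → ℕ) → Prop)
    (Q : Fin k → ℕ → (Fin n → ℕ) → Prop)
    (hE : ∀ p z z', (∀ i, z i ≡ z' i [MOD p]) → (E p z ↔ E p z'))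
    (hQ : ∀ i p z z', (∀ i, z i ≡ z' i [MOD p]) → (Q i p z ↔ Q i p z'))
    (h1 : ∀ p, p.Prime → ∀ z, ∃! i, Q i p z) (B : ℕ) (A : Set (Fin k → ℕ)) :
    #{z ∈ Fintype.piFinset fun _ : Fin n => range m | (∀ p ∈ m.primeFactors, E p z) ∧
      (fun i => min B #{p ∈ m.primeFactors | Q i p z}) ∈ A} =
    CW m.primeFactors (fun i p => #{z ∈ Fintype.piFinset fun _ : Fin n => range p |
      E p z ∧ Q i p z}) B A := by
  have hpr : ∀ p : m.primeFactors, (p : ℕ).Prime := fun p => Nat.prime_of_mem_primeFactors p.2
  choose s hs hs' using h1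
  let σ : (Fin n → ℕ) → m.primeFactors → Fin k := fun z p => s p (hpr p) z
  have hcnt : ∀ (z : Fin n → ℕ) (i : Fin k), #{p ∈ m.primeFactors | Q i p z} =
      #{p : m.primeFactors | σ z p = i} := by
    intro z i
    refine (Finset.card_bij (fun (p : m.primeFactors) _ => (p : ℕ)) ?_ ?_ ?_).symm
    · intro p hp
      simp only [mem_filter, mem_univ, true_and] at hp
      rw [mem_filter]
      refine ⟨p.2, ?_⟩
      rw [← hp]
      exact hs p (hpr p) z
    · intro p _ q _ h
      exact Subtype.ext h
    · intro p hp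
      rw [mem_filter] at hp
      refine ⟨⟨p, hp.1⟩, ?_, rfl⟩
      simp only [mem_filter, mem_univ, true_and]
      exact (hs' p (Nat.prime_of_mem_primeFactors hp.1) z i hp.2).symm
  have hset : ∀ z, ((fun i => min B #{p ∈ m.primeFactors | Q i p z}) ∈ A ↔
      (fun i => min B #{p : m.primeFactors | σ z p = i}) ∈ A) := by
    intro z
    simp only [hcnt]
  simp only [hset]
  unfold CW
  rw [Finset.card_eq_sum_card_fiberwise (f := σ) (t := Finset.univ)
    (fun _ _ => Finset.mem_coe.2 (Finset.mem_univ _))]
  refine Finset.sum_congr rfl fun τ _ => ?_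
  split_ifs with hA
  · have hfib : (filter (fun z => σ z = τ) (filter (fun z => (∀ p ∈ m.primeFactors, E p z) ∧
        (fun i => min B #{p : m.primeFactors | σ z p = i}) ∈ A)
        (Fintype.piFinset fun _ : Fin n => range m))) =
        filter (fun z => ∀ p ∈ m.primeFactors, E p z ∧ ∀ h : p ∈ m.primeFactors, Q (τ ⟨p, h⟩) p z)
        (Fintype.piFinset fun _ : Fin n => range m) := by
      ext z
      simp only [mem_filter]
      constructor
      · rintro ⟨⟨hz, hE', -⟩, hσ⟩
        refine ⟨hz, fun p hp => ⟨hE' p hp, fun h => ?_⟩⟩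
        rw [← hσ]
        exact hs p (Nat.prime_of_mem_primeFactors hp) z
      · rintro ⟨hz, h⟩
        have hσ : σ z = τ := by
          funext p
          exact (hs' p (hpr p) z _ ((h p p.2).2 p.2)).symm
        refine ⟨⟨hz, fun p hp => (h p hp).1, ?_⟩, hσ⟩
        rw [hσ]
        exact hA
    have key := crt_count hm (fun p z => E p z ∧ ∀ h : p ∈ m.primeFactors, Q (τ ⟨p, h⟩) p z)
      (fun p z z' h => and_congr (hE p z z' h) (forall_congr' fun _ => hQ _ p z z' h))
    rw [hfib]
    refine ((congrArg Finset.card (Finset.ext fun z => ?_)).trans key).trans ?_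
    · simp only [mem_filter]
    · rw [← Finset.prod_coe_sort]
      refine Finset.prod_congr rfl fun p _ => ?_
      refine congrArg Finset.card (Finset.ext fun z => ?_)
      simp only [mem_filter]
      constructor
      · rintro ⟨hz, he, hq⟩
        exact ⟨hz, he, hq p.2⟩
      · rintro ⟨hz, he, hq⟩
        exact ⟨hz, he, fun _ => hq⟩
  · rw [Finset.card_eq_zero, Finset.filter_eq_empty_iff]
    intro z hz hσ
    rw [mem_filter] at hz
    apply hA
    have := hz.2.2
    rw [hσ] at this
    exact this

end Pool.Agent.CvQ
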