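import Pool.Agent.CvQ.CmpQ
import Pool.Agent.CvQ.QQ
import Pool.Agent.CvS.Frb
import Pool.Agent.CvT.Pat

/-!
# Package CvQ-Pln: points over prime fields of sets of dimension one in the plane

Complete proof. By `CvT.bool_form` and `CvT.coef_fam` there are `F l = bq (G l)` (`l : Fin s`, coefficients
`G l (i, j) ∈ PRF` in the parameters, degree at most `D`) and `φ` with
`A k (z, a) ↔ φ (l ↦ (F l).evalEval (z 0) (z 1) = 0)` (`CvD.bq_eval`). Put, over algebraically closed `K`
(`prq_qe` makes them `PRD` relations which mean the same over `k` and over `K ⊇ k`; `CmpQ`):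

* `P₁ (a, z)`: `A (z, a)` and there is no `c` with `Cmp F c` and `Reg F c z`;
* `P₂ (a, c)`: `Cmp F c` and `φ (l ↦ bq c ∣ F l)`.

`P₂` is finite: `cmp_fin`. `P₁` is finite: let `z` be a solution. If some `F l ≠ 0` vanishes at `z`, then `z` is on a
component (`cmp_on`), where it is not regular: finitely many (`reg_few`). Otherwise the pattern at `z` is
`l ↦ F l = 0`, so `φ` holds for it. Let `b` be such that `F l (b, Y) ≠ 0` for all `F l ≠ 0` (`K` is infinite); for all
but finitely many `t` the pattern at `(b, t)` is the same, so the fibre of `A` over `b` is infinite,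
contradicting `hf`.

Let `p > C`, `a` over `ZMod p`, `K` the algebraic closure. `→`: let `z` be a solution of `A` over `ZMod p`, not `P₁`:
so there is `c` over `K` with `Cmp F c`, `Reg F c z`. The Frobenius image `c'` of `c` is a component
(`Cmp` is invariant under the Frobenius automorphism of `K`, which fixes the coefficients of the `F l`:
by `prq_qe` and `CvS.prd_hom`) and `z` lies on it. So `c' = c` by `Reg`, `c` is over `ZMod p`
(`CvS.rat_of_pow`). For each `l`: `F l` vanishes at `z` iff `bq c ∣ F l` (`Reg`), so `φ` holds for the pattern of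
`c`: `P₂ (a, c)`, over `K` and over `ZMod p`. `←`: `P₁` implies `A`. Let `c` over `ZMod p` with `P₂ (a, c)`. `bq c` is
irreducible over `K`. Let `B₁` be the bound of `reg_few`; by `Wl` for `D` and `B₁` (`C` its constant) there are
more than `B₁` zeros of `bq c` over `ZMod p`, so one of them, `z`, is `Reg F c z` over `K`. The pattern of the
`F l` at `z` is `l ↦ bq c ∣ F l`, so `A (z, a)`.
-/

set_option autoImplicit false

noncomputable section

namespace Pool.Agent.CvQ

open Polynomial Pool.Agent.CvD Pool.Agent.PRc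
open scoped Polynomial.Bivariate

private theorem const_Pln {ι : Type} (q : Prop) : PRQ (ι := ι) (fun _ _ _ => q) := by
  by_cases h : q
  · exact PRQ.true.congr fun k _ x => ⟨fun _ => h, fun _ => trivial⟩
  · exact PRQ.true.not.congr fun k _ x => ⟨fun h3 => absurd trivial h3, fun h3 => absurd h3 h⟩

private theorem bool_Pln {ι : Type} {s : ℕ} (φ : (Fin s → Prop) → Prop) {Q : Fin s → FR ι}
    (hQ : ∀ l, PRQ (Q l)) : PRQ (fun k _ x => φ fun l => Q l k x) := by
  have h1 : ∀ S : Fin s → Prop, PRQ (ι := ι)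
      (fun k _ x => φ S ∧ ∀ l, (S l ↔ Q l k x)) := fun S =>
    (const_Pln (φ S)).and (PRQ.allF (P := fun (l : Fin s) k _ (x : ι → k) => (S l ↔ Q l k x))
      fun l => (const_Pln (S l)).iff (hQ l))
  refine (PRQ.exF (P := fun (S : Fin s → Prop) k _ (x : ι → k) =>
    φ S ∧ ∀ l, (S l ↔ Q l k x)) h1).congr fun k _ x => ?_
  constructor
  · rintro ⟨S, hS, h2⟩
    have h3 : S = fun l => Q l k x := funext fun l => propext (h2 l)
    rwa [← h3]
  · intro h
    exact ⟨_, h, fun l => Iff.rfl⟩

private theorem key_Pln {ι : Type} {A : FR (Fin 2 ⊕ ι)} (hA : PRD A) :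
    ∃ (s D : ℕ) (G : Fin s → Ix D → FF ι) (φ : (Fin s → Prop) → Prop), (∀ l i, PRF (G l i)) ∧
      ∀ (k : Type) [Field k] (z : Fin 2 → k) (a : ι → k), A k (Sum.elim z a) ↔
        φ (fun l => (bq fun i => G l i k a).evalEval (z 0) (z 1) = 0) := by
  obtain ⟨s, T, φ, hφ⟩ := CvT.bool_form hA
  obtain ⟨D, C', hC⟩ := CvT.coef_fam T
  refine ⟨s, D, fun l i => C' l i.1 i.2, φ, fun l i => (hC l).1 i.1 i.2, fun k _ z a => ?_⟩
  rw [hφ k (Sum.elim z a)]
  have h1 : (fun l => MvPolynomial.aeval (Sum.elim z a) (T l) = 0) =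
      fun l => (bq fun i : Ix D => C' l i.1 i.2 k a).evalEval (z 0) (z 1) = 0 := by
    funext l
    rw [(hC l).2 k z a, bq_eval]
  rw [h1]

private theorem gen_Pln {K : Type} [Field K] [Infinite K] {s : ℕ} (F : Fin s → K[X][Y]) :
    ∃ b : K, {t : K | ¬ ∀ l, ((F l).evalEval b t = 0 ↔ F l = 0)}.Finite := by
  classical
  set G : K[X][Y] := ∏ l ∈ Finset.univ.filter (fun l => F l ≠ 0), F l with hG
  have hG0 : G ≠ 0 := Finset.prod_ne_zero_iff.2 fun l hl => (Finset.mem_filter.1 hl).2
  obtain ⟨j, hj⟩ : ∃ j, G.coeff j ≠ 0 := by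
    by_contra h
    push Not at h
    exact hG0 (Polynomial.ext fun j => by rw [h j, coeff_zero])
  obtain ⟨b, hb⟩ : ∃ b : K, (G.coeff j).eval b ≠ 0 := by
    by_contra h
    push Not at h
    exact hj (Polynomial.funext fun r => by rw [h r, eval_zero])
  have h1 : G.map (evalRingHom b) ≠ 0 := by
    intro h
    apply hb
    have h2 : (G.map (evalRingHom b)).coeff j = 0 := by rw [h, coeff_zero]
    rwa [coeff_map, coe_evalRingHom] at h2
  refine ⟨b, ((G.map (evalRingHom b)).roots.toFinset.finite_toSet).subset fun t ht => ?_⟩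
  rw [Finset.mem_coe, Multiset.mem_toFinset, mem_roots h1, IsRoot.def, map_evalRingHom_eval]
  rw [Set.mem_ofPred_eq] at ht
  push Not at ht
  obtain ⟨l, hl⟩ := ht
  have h2 : F l ≠ 0 := by
    intro h3
    rcases hl with ⟨h4, h5⟩ | ⟨h4, h5⟩
    · exact h5 h3
    · rw [h3, evalEval_zero] at h4
      exact h4 rfl
  have h3 : (F l).evalEval b t = 0 := by
    rcases hl with ⟨h4, h5⟩ | ⟨h4, h5⟩
    · exact h4
    · exact absurd h5 h2
  rw [hG, evalEval_prod]
  exact Finset.prod_eq_zero (Finset.mem_filter.2 ⟨Finset.mem_univ l, h2⟩) h3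

/-- the polynomials of the family -/
private abbrev fa_Pln {ι : Type} {D s : ℕ} (G : Fin s → Ix D → FF ι) (K : Type) [Field K]
    (a : ι → K) (l : Fin s) : K[X][Y] := bq fun i => G l i K a

private def r1_Pln {ι : Type} (A : FR (Fin 2 ⊕ ι)) {D s : ℕ} (G : Fin s → Ix D → FF ι) :
    FR (ι ⊕ Fin 2) := fun k _ y =>
  A k (Sum.elim (fun i => y (Sum.inr i)) (fun j => y (Sum.inl j))) ∧
    ¬ ∃ c : Ix D → k, Cmp (fa_Pln G k fun j => y (Sum.inl j)) c ∧
      Reg (fa_Pln G k fun j => y (Sum.inl j)) c (y (Sum.inr 0)) (y (Sum.inr 1))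

private def r2_Pln {ι : Type} {D s : ℕ} (G : Fin s → Ix D → FF ι)
    (φ : (Fin s → Prop) → Prop) : FR (ι ⊕ Ix D) := fun k _ y =>
  Cmp (fa_Pln G k fun j => y (Sum.inl j)) (fun i => y (Sum.inr i)) ∧
    φ fun l => bq (fun i => y (Sum.inr i)) ∣ fa_Pln G k (fun j => y (Sum.inl j)) l

private theorem r1_prq_Pln {ι : Type} {A : FR (Fin 2 ⊕ ι)} (hA : PRD A) {D s : ℕ}
    {G : Fin s → Ix D → FF ι} (hG : ∀ l i, PRF (G l i)) : PRQ (r1_Pln A G) := by
  have h1 : PRQ (ι := ι ⊕ Fin 2) (fun k _ y =>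
      A k (Sum.elim (fun i => y (Sum.inr i)) (fun j => y (Sum.inl j)))) := by
    refine (PRQ.base (PRD.comp hA (G := Sum.elim
      (fun i => fun k _ (x : ι ⊕ Fin 2 → k) => x (Sum.inr i))
      (fun j => fun k _ (x : ι ⊕ Fin 2 → k) => x (Sum.inl j))) (by
      rintro (i | j)
      · exact PRF.var (Sum.inr i)
      · exact PRF.var (Sum.inl j)))).congr fun k _ x => ?_
    have h2 : (fun j => (Sum.elim (fun i => fun k _ (x : ι ⊕ Fin 2 → k) => x (Sum.inr i))
        (fun j => fun k _ (x : ι ⊕ Fin 2 → k) => x (Sum.inl j)) : Fin 2 ⊕ ι → FF (ι ⊕ Fin 2))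
          j k x) = Sum.elim (fun i => x (Sum.inr i)) (fun j => x (Sum.inl j)) := by
      funext j
      rcases j with j | j <;> rfl
    rw [h2]
  have h3 : PRQ (ι := (ι ⊕ Fin 2) ⊕ Ix D) (fun k _ y =>
      Cmp (fa_Pln G k fun j => y (Sum.inl (Sum.inl j))) (fun i => y (Sum.inr i))) :=
    (cmp_prq hG).comp (G := Sum.elim
      (fun j => fun k _ (x : (ι ⊕ Fin 2) ⊕ Ix D → k) => x (Sum.inl (Sum.inl j)))
      (fun i => fun k _ (x : (ι ⊕ Fin 2) ⊕ Ix D → k) => x (Sum.inr i))) (by
      rintro (j | i)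
      · exact PRF.var (Sum.inl (Sum.inl j))
      · exact PRF.var (Sum.inr i))
  have h4 : PRQ (ι := (ι ⊕ Fin 2) ⊕ Ix D) (fun k _ y =>
      Reg (fa_Pln G k fun j => y (Sum.inl (Sum.inl j))) (fun i => y (Sum.inr i))
        (y (Sum.inl (Sum.inr 0))) (y (Sum.inl (Sum.inr 1)))) :=
    (reg_prq hG).comp (G := Sum.elim (Sum.elim
      (fun j => fun k _ (x : (ι ⊕ Fin 2) ⊕ Ix D → k) => x (Sum.inl (Sum.inl j)))
      (fun i => fun k _ (x : (ι ⊕ Fin 2) ⊕ Ix D → k) => x (Sum.inr i)))
      (fun i => fun k _ (x : (ι ⊕ Fin 2) ⊕ Ix D → k) => x (Sum.inl (Sum.inr i)))) (by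
      rintro ((j | i) | i)
      · exact PRF.var (Sum.inl (Sum.inl j))
      · exact PRF.var (Sum.inr i)
      · exact PRF.var (Sum.inl (Sum.inr i)))
  exact h1.and (h3.and h4).ex.not

private theorem r2_prq_Pln {ι : Type} {D s : ℕ} {G : Fin s → Ix D → FF ι}
    (hG : ∀ l i, PRF (G l i)) (φ : (Fin s → Prop) → Prop) : PRQ (r2_Pln G φ) := by
  refine (cmp_prq hG).and (bool_Pln φ (Q := fun l k _ (y : ι ⊕ Ix D → k) =>
    bq (fun i => y (Sum.inr i)) ∣ fa_Pln G k (fun j => y (Sum.inl j)) l) fun l => ?_)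
  exact (dv_prq D).comp (G := Sum.elim
    (fun i => fun k _ (x : ι ⊕ Ix D → k) => x (Sum.inr i))
    (fun i => fun k _ (x : ι ⊕ Ix D → k) => G l i k (fun j => x (Sum.inl j)))) (by
    rintro (i | i)
    · exact PRF.var (Sum.inr i)
    · exact (hG l i).comp (G := fun j => fun k _ (x : ι ⊕ Ix D → k) => x (Sum.inl j))
        fun j => PRF.var (Sum.inl j))

private theorem fa_map_Pln {ι : Type} {D s : ℕ} {G : Fin s → Ix D → FF ι}
    (hG : ∀ l i, PRF (G l i)) {k K : Type} [Field k] [Field K] (f : k →+* K) (a : ι → k)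
    (l : Fin s) : (fa_Pln G k a l).map (mapRingHom f) = fa_Pln G K (fun i => f (a i)) l := by
  unfold fa_Pln
  rw [bq_map]
  congr 1
  funext i
  exact (CvS.prf_hom (hG l i) f a).symm

/-- a nonregular solution lies in a finite set -/
private theorem r1_fin_Pln {ι : Type} {A : FR (Fin 2 ⊕ ι)} {D s : ℕ}
    {G : Fin s → Ix D → FF ι} {φ : (Fin s → Prop) → Prop} {K : Type} [Field K] [IsAlgClosed K]
    (x : ι → K) (hφ : ∀ z : Fin 2 → K, A K (Sum.elim z x) ↔
      φ (fun l => (fa_Pln G K x l).evalEval (z 0) (z 1) = 0))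
    (hf : ∀ b : K, {t : K | A K (Sum.elim ![b, t] x)}.Finite) :
    {z : Fin 2 → K | r1_Pln A G K (Sum.elim x z)}.Finite := by
  have hinf : Infinite K := IsAlgClosed.instInfinite
  obtain ⟨B, hB⟩ := reg_few D s
  have h1 := (hB K (fa_Pln G K x) fun l => bq_bd _).1
  have h2 : Function.Injective fun z : Fin 2 → K => (z 0, z 1) := by
    intro z z' h
    have h3 : z 0 = z' 0 ∧ z 1 = z' 1 := Prod.ext_iff.1 h
    funext i
    fin_cases i
    · exact h3.1
    · exact h3.2
  refine (h1.preimage h2.injOn).subset fun z hz => ?_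
  obtain ⟨hz1, hz2⟩ := hz
  have hz3 : A K (Sum.elim z x) := hz1
  have hz4 : ¬ ∃ c : Ix D → K, Cmp (fa_Pln G K x) c ∧ Reg (fa_Pln G K x) c (z 0) (z 1) := hz2
  by_cases h3 : ∃ l, fa_Pln G K x l ≠ 0 ∧ (fa_Pln G K x l).evalEval (z 0) (z 1) = 0
  · obtain ⟨l, hl1, hl2⟩ := h3
    obtain ⟨c, hc1, hc2⟩ := cmp_on (F := fa_Pln G K x) (fun l => bq_bd _) hl1 hl2
    exact ⟨c, hc1, hc2, fun h4 => hz4 ⟨c, hc1, h4⟩⟩
  · exfalso
    push Not at h3
    have h4 : (fun l => (fa_Pln G K x l).evalEval (z 0) (z 1) = 0) =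
        fun l => fa_Pln G K x l = 0 := by
      funext l
      refine propext ⟨fun h => ?_, fun h => by rw [h, evalEval_zero]⟩
      by_contra h5
      exact h3 l h5 h
    have h5 : φ fun l => fa_Pln G K x l = 0 := by
      rw [← h4]
      exact (hφ z).1 hz3
    obtain ⟨b, hb⟩ := gen_Pln (fa_Pln G K x)
    have h6 : (Set.univ : Set K).Finite := by
      refine (hb.union (hf b)).subset fun t _ => ?_
      by_cases h7 : ∀ l, ((fa_Pln G K x l).evalEval b t = 0 ↔ fa_Pln G K x l = 0)
      · refine Or.inr ?_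
        show A K (Sum.elim ![b, t] x)
        rw [hφ]
        have h8 : (fun l => (fa_Pln G K x l).evalEval (![b, t] 0) (![b, t] 1) = 0) =
            fun l => fa_Pln G K x l = 0 := funext fun l => propext (h7 l)
        rw [h8]
        exact h5
      · exact Or.inl h7
    exact Set.infinite_univ h6

theorem pln (W : Wl) {ι : Type} {A : FR (Fin 2 ⊕ ι)} (hA : PRD A)
    (hf : ∀ (K : Type) [Field K] [IsAlgClosed K] (x : ι → K) (b : K),
      {t : K | A K (Sum.elim ![b, t] x)}.Finite) :
    ∃ (C D : ℕ) (P₁ : FR (ι ⊕ Fin 2)) (P₂ : FR (ι ⊕ Ix D)), PRD P₁ ∧ PRD P₂ ∧ FnF P₁ ∧ FnF P₂ ∧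
      ∀ (p : ℕ) [Fact p.Prime], C < p → ∀ x : ι → ZMod p,
        (∃ z, A (ZMod p) (Sum.elim z x)) ↔
          (∃ z, P₁ (ZMod p) (Sum.elim x z)) ∨ ∃ c, P₂ (ZMod p) (Sum.elim x c) := by
  classical
  obtain ⟨s, D, G, φ, hG, hφ⟩ := key_Pln hA
  obtain ⟨P₁, hP₁, h1⟩ := prq_qe (r1_prq_Pln hA hG)
  obtain ⟨P₂, hP₂, h2⟩ := prq_qe (r2_prq_Pln hG φ)
  obtain ⟨Q₃, -, h3⟩ := prq_qe (cmp_prq hG)
  obtain ⟨B, hB⟩ := reg_few D s
  obtain ⟨C₀, hC₀⟩ := W D B
  refine ⟨C₀, D, P₁, P₂, hP₁, hP₂, ?_, ?_, ?_⟩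
  · intro K _ _ x
    refine (r1_fin_Pln (A := A) (G := G) (φ := φ) x (fun z => hφ K z x) (hf K x)).subset ?_
    intro z hz
    exact (h1 K K (RingHom.id K) (Sum.elim x z)).1 hz
  · intro K _ _ x
    obtain ⟨B', hB'⟩ := cmp_fin D s
    refine (hB' K (fa_Pln G K x) fun l => bq_bd _).1.subset ?_
    intro c hc
    exact ((h2 K K (RingHom.id K) (Sum.elim x c)).1 hc).1
  · intro p _ hp x
    set K := AlgebraicClosure (ZMod p) with hK
    set f : ZMod p →+* K := algebraMap (ZMod p) K with hf'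
    have hfx : ∀ {κ : Type} (z : κ → ZMod p), (fun i => f ((Sum.elim x z : ι ⊕ κ → ZMod p) i)) =
        Sum.elim (fun i => f (x i)) fun i => f (z i) := by
      intro κ z
      funext i
      rcases i with i | i <;> rfl
    have hAz : ∀ z : Fin 2 → ZMod p, A (ZMod p) (Sum.elim z x) ↔
        A K (Sum.elim (fun i => f (z i)) fun i => f (x i)) := by
      intro z
      rw [← CvS.prd_hom hA f]
      have h4 : (fun i => f ((Sum.elim z x : Fin 2 ⊕ ι → ZMod p) i)) =
          Sum.elim (fun i => f (z i)) fun i => f (x i) := by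
        funext i
        rcases i with i | i <;> rfl
      rw [h4]
    constructor
    · rintro ⟨z, hz⟩
      by_cases h4 : P₁ (ZMod p) (Sum.elim x z)
      · exact Or.inl ⟨z, h4⟩
      · refine Or.inr ?_
        have hzK := (hAz z).1 hz
        rw [h1 (ZMod p) K f, hfx] at h4
        have h5 : ∃ c : Ix D → K, Cmp (fa_Pln G K fun j => f (x j)) c ∧
            Reg (fa_Pln G K fun j => f (x j)) c (f (z 0)) (f (z 1)) := by
          by_contra h5
          exact h4 ⟨hzK, h5⟩
        obtain ⟨c, hc1, hc2⟩ := h5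
        have hfix : ∀ r : ZMod p, frobenius K p (f r) = f r := by
          intro r
          rw [frobenius_def, ← map_pow, ZMod.pow_card]
        -- the image under Frobenius is a component
        have h6 : Cmp (fa_Pln G K fun j => f (x j)) (fun i => frobenius K p (c i)) := by
          have h7 := (h3 K K (RingHom.id K) (Sum.elim (fun j => f (x j)) c)).2 hc1
          have h8 := (h3 K K (frobenius K p) (Sum.elim (fun j => f (x j)) c)).1 h7
          have h9 : (fun j => frobenius K p (f (x j))) = fun j => f (x j) :=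
            funext fun j => hfix (x j)
          have h10 : Cmp (fa_Pln G K fun j => frobenius K p (f (x j)))
            (fun i => frobenius K p (c i)) := h8
          rwa [h9] at h10
        have h7 : (bq fun i => frobenius K p (c i)).evalEval (f (z 0)) (f (z 1)) = 0 := by
          have h8 : (bq fun i => frobenius K p (c i)).evalEval (frobenius K p (f (z 0)))
              (frobenius K p (f (z 1))) = 0 := by
            rw [← bq_map, map_mapRingHom_evalEval, hc2.1, map_zero]
          rwa [hfix, hfix] at h8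
        have h8 := hc2.2.1 _ h6 h7
        have h9 : ∀ i, ∃ r : ZMod p, f r = c i := by
          intro i
          refine CvS.rat_of_pow ?_
          rw [← frobenius_def]
          exact congrFun h8 i
        choose r hr using h9
        have hr' : (fun i => f (r i)) = c := funext hr
        refine ⟨r, ?_⟩
        rw [h2 (ZMod p) K f, hfx, hr']
        refine ⟨hc1, ?_⟩
        have h10 := (hφ K _ _).1 hzK
        have h11 : (fun l => (bq fun i => G l i K fun i => f (x i)).evalEval (f (z 0))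
            (f (z 1)) = 0) = fun l => bq c ∣ fa_Pln G K (fun j => f (x j)) l := by
          funext l
          refine propext ⟨fun h => hc2.2.2 l h, fun h => ?_⟩
          have h12 := evalEval_dvd (f (z 0)) (f (z 1)) h
          rw [hc2.1, zero_dvd_iff] at h12
          exact h12
        rw [h11] at h10
        exact h10
    · rintro (⟨z, hz⟩ | ⟨c, hc⟩)
      · rw [h1 (ZMod p) K f, hfx] at hz
        exact ⟨z, (hAz z).2 hz.1⟩
      · rw [h2 (ZMod p) K f, hfx] at hc
        obtain ⟨hc1, hc2⟩ := hc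
        have hc3 : Cmp (fa_Pln G K fun j => f (x j)) fun i => f (c i) := hc1
        have hirr : Irreducible ((bq c).map (mapRingHom f)) := by
          rw [bq_map]
          exact hc3.2.1
        obtain ⟨S, hS1, hS2⟩ := hC₀ p hp (bq c) (bq_bd c) hirr
        obtain ⟨hfin, hcard⟩ := hB K (fa_Pln G K fun j => f (x j)) fun l => bq_bd _
        have hinj : Function.Injective fun z : ZMod p × ZMod p => (f z.1, f z.2) := by
          intro z z' h
          have h5 := Prod.ext_iff.1 h
          exact Prod.ext (f.injective h5.1) (f.injective h5.2)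
        have hev : ∀ z ∈ S, (bq fun i => f (c i)).evalEval (f z.1) (f z.2) = 0 := by
          intro z hz
          rw [← bq_map, map_mapRingHom_evalEval, hS2 z hz, map_zero]
        obtain ⟨z, hzS, hz⟩ : ∃ z ∈ S, Reg (fa_Pln G K fun j => f (x j)) (fun i => f (c i))
            (f z.1) (f z.2) := by
          by_contra hcon
          push Not at hcon
          have h5 : (S.image fun z : ZMod p × ZMod p => (f z.1, f z.2)).card ≤ B := by
            refine le_trans ?_ hcard
            rw [← Set.ncard_coe_finset]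
            refine Set.ncard_le_ncard ?_ hfin
            intro w hw
            rw [Finset.mem_coe, Finset.mem_image] at hw
            obtain ⟨z, hz, rfl⟩ := hw
            exact ⟨_, hc3, hev z hz, hcon z hz⟩
          rw [Finset.card_image_of_injective _ hinj] at h5
          omega
        refine ⟨![z.1, z.2], (hAz _).2 ?_⟩
        rw [hφ]
        have h11 : (fun l => (bq fun i => G l i K fun i => f (x i)).evalEval
            (f ((![z.1, z.2] : Fin 2 → ZMod p) 0)) (f ((![z.1, z.2] : Fin 2 → ZMod p) 1)) = 0) =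
            fun l => (bq fun i => f (c i)) ∣ fa_Pln G K (fun j => f (x j)) l := by
          funext l
          refine propext ⟨fun h => hz.2.2 l h, fun h => ?_⟩
          have h12 := evalEval_dvd (f z.1) (f z.2) h
          rw [hev z hzS, zero_dvd_iff] at h12
          exact h12
        rw [h11]
        exact hc2

end Pool.Agent.CvQ
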