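import Pool.Agent.CvQ.Prj
import Pool.Agent.CvQ.Pln
import Pool.Agent.CvQ.Clo

/-!
# Package CvQ-Crv: points over prime fields of sets which are finite over a line

Complete proof. `prj`; for each of the finitely many `l` the relation `∃ z, E l` is `BF.base`, and
`∃ z, Y l` is by `pln` equivalent to a disjunction of two `BF.base` relations for `p > C_l`. `bf_or`, `bf_any`;
`C` the maximum.
-/

set_option autoImplicit false

noncomputable section

namespace Pool.Agent.CvQ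

open Polynomial Pool.Agent.PRc

theorem crv (W : Wl) {ι κ : Type} [Finite κ] {Z : FR (ι ⊕ (Unit ⊕ κ))} (hZ : PRD Z) {B : ℕ}
    (hB : ∀ (K : Type) [Field K] [IsAlgClosed K] (x : ι → K) (b : K),
      {u : κ → K | Z K (Sum.elim x (Sum.elim (fun _ => b) u))}.Finite ∧
        {u : κ → K | Z K (Sum.elim x (Sum.elim (fun _ => b) u))}.ncard ≤ B) :
    ∃ (C : ℕ) (S : GR ι), BF S ∧ ∀ (p : ℕ) [Fact p.Prime], C < p → ∀ x : ι → ZMod p,
      (∃ z, Z (ZMod p) (Sum.elim x z)) ↔ S p x := by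
  obtain ⟨C₁, Λ, hΛ, Y, E, hY, hE, hEf, hYf, h⟩ := prj hZ hB
  choose C₂ D P₁ P₂ hP1 hP2 hF1 hF2 h2 using fun l => pln W (hY l) (hYf l)
  have : Fintype Λ := Fintype.ofFinite Λ
  refine ⟨max C₁ (Finset.univ.sup C₂), fun p _ x => ∃ l, (∃ z, E l (ZMod p) (Sum.elim x z)) ∨
    ((∃ z, P₁ l (ZMod p) (Sum.elim x z)) ∨ ∃ c, P₂ l (ZMod p) (Sum.elim x c)),
    bf_any fun l => bf_or (BF.base (hE l) (hEf l))
      (bf_or (BF.base (hP1 l) (hF1 l)) (BF.base (hP2 l) (hF2 l))), ?_⟩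
  intro p _ hp x
  rw [h p ((le_max_left _ _).trans_lt hp) x]
  refine exists_congr fun l => or_congr_right ?_
  exact h2 l p (((Finset.le_sup (Finset.mem_univ l)).trans (le_max_right _ _)).trans_lt hp) x

end Pool.Agent.CvQ
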