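import Pool.Agent.PRc.Ex
import Pool.Agent.CvD.Bq

/-!
# First-order relations over prime fields: definitions

ALL CURVES, stage 4, part (C) (`MP_a56640_lc`).

* `Ax M`: auxiliary parameters, for `1 ≤ m ≤ M` the coefficients of `h_m = X ^ m + …` and of `w_m`, degree
  less than `m` (`m = i + 1`, `i : Fin M`); `hh u i`, `ww u i` these polynomials; `Vx p u`: `h_m` is irreducible over
  `ZMod p` and `w_m = X ^ p` modulo `h_m`;
* `FnF P`: all geometric fibres of `P` are finite;
* `GR ι`: relations in `ι` elements of `ZMod p`, one for each prime `p`; `BF`: Boolean combinations of relations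
  `∃ t, P (x, t)`, `P` decidable with finite geometric fibres;
* `AF R`: for large primes and valid auxiliary parameters, `R` is such a relation;
* `Wl`: absolutely irreducible curves have many points (weak form of Weil's theorem).
-/

set_option autoImplicit false

noncomputable section

namespace Pool.Agent.CvQ

open Polynomial Pool.Agent.PRc
open scoped Polynomial.Bivariate

/-- auxiliary parameters -/
abbrev Ax (M : ℕ) : Type := Σ m : Fin M, Fin ((m : ℕ) + 1) ⊕ Fin ((m : ℕ) + 1)

/-- the monic polynomial of degree `m + 1` with the coefficients `u` -/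
def hh {k : Type} [Field k] {M : ℕ} (u : Ax M → k) (m : Fin M) : k[X] :=
  X ^ ((m : ℕ) + 1) + ∑ l : Fin ((m : ℕ) + 1), C (u ⟨m, Sum.inl l⟩) * X ^ (l : ℕ)

/-- the polynomial with the second coefficients -/
def ww {k : Type} [Field k] {M : ℕ} (u : Ax M → k) (m : Fin M) : k[X] :=
  ∑ l : Fin ((m : ℕ) + 1), C (u ⟨m, Sum.inr l⟩) * X ^ (l : ℕ)

/-- valid auxiliary parameters -/
def Vx (p : ℕ) [Fact p.Prime] {M : ℕ} (u : Ax M → ZMod p) : Prop :=
  ∀ m, Irreducible (hh u m) ∧ hh u m ∣ X ^ p - ww u m

/-- all geometric fibres are finite -/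
def FnF {ι κ : Type} (P : FR (ι ⊕ κ)) : Prop :=
  ∀ (K : Type) [Field K] [IsAlgClosed K] (x : ι → K), {t : κ → K | P K (Sum.elim x t)}.Finite

/-- relations over prime fields -/
abbrev GR (ι : Type) : Type := ∀ (p : ℕ) [Fact p.Prime], (ι → ZMod p) → Prop

/-- Boolean combinations of existential relations with finite geometric fibres -/
inductive BF {ι : Type} : GR ι → Prop
  | base {κ : Type} [Finite κ] {P : FR (ι ⊕ κ)} : PRD P → FnF P →
      BF (fun p _ x => ∃ t : κ → ZMod p, P (ZMod p) (Sum.elim x t))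
  | not {S : GR ι} : BF S → BF (fun p _ x => ¬ S p x)
  | and {S S' : GR ι} : BF S → BF S' → BF (fun p _ x => S p x ∧ S' p x)

/-- for large primes and valid auxiliary parameters `R` is a Boolean combination of existential
relations with finite geometric fibres -/
def AF {ι : Type} (R : FR ι) : Prop :=
  ∃ (C M : ℕ) (S : GR (ι ⊕ Ax M)), BF S ∧ ∀ (p : ℕ) [Fact p.Prime], C < p →
    ∀ (a : ι → ZMod p) (u : Ax M → ZMod p), Vx p u → (R (ZMod p) a ↔ S p (Sum.elim a u))

/-- absolutely irreducible curves have many points over large prime fields -/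
def Wl : Prop := ∀ D B : ℕ, ∃ C : ℕ, ∀ (p : ℕ) [Fact p.Prime], C < p → ∀ F : (ZMod p)[X][Y],
  CvD.Bd D F →
    Irreducible (F.map (mapRingHom (algebraMap (ZMod p) (AlgebraicClosure (ZMod p))))) →
    ∃ S : Finset (ZMod p × ZMod p), B < S.card ∧ ∀ z ∈ S, F.evalEval z.1 z.2 = 0

end Pool.Agent.CvQ
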