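import Pool.Agent.CvQ.DimD
import Pool.Agent.CvS.SOne
import Pool.Agent.CvS.Few

/-!
# Package CvQ-Dim: all sets of dimension at most one

Complete proofs, as `CvS.ch_step` (CvS/Step.lean), with `One` in place of `good_dc`.

* `chq_zero`: there is one `z`; the number is the indicator of a `Delta0` relation (`PRc.prq_delta`);
  `chq_one`: `One` for `X ∧ R` (`PRQ.base`, `PRQ.and`; `z` is given by `z 0`; `PRQ.comp`).
* `chq_step`, `n ≥ 1`: `s1_few` gives `C` and `Q` (`PRD`): `Q (x, b)` says that the geometric fibre over `b` is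
  infinite. The `b` over `ZMod p` with `Q`: at most `C`, sum of the values of `CHQ n` for the relations with
  the additional parameter `b` (`dm1_fb`, `sum_few`) exactly as in `ch_step`. The other `b`: by
  `CvS.fib_unif` (parameters `ι ⊕ Unit`, unknowns `Fin n`) there is `B` such that the fibre over `b` has at
  most `B` elements; so the number is `∑_{r ≤ B} r * #{b | ¬ Q (a, b) and exactly r elements t with X (b, t) and
  R (b, t)}`, and `exactly r` is first-order (`∃ t_1, …, t_r` different with the property such that all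
  `t` with the property are among them: `PRQ.ex` with `κ = Fin r × Fin n`, `PRQ.all`): `One`.
* `chq_all`: induction.
-/

set_option autoImplicit false

noncomputable section

namespace Pool.Agent.CvQ

open Finset Polynomial Pool.Agent.PRc Pool.Agent.Grz Pool.Agent.CvS

private theorem rn_Dim {ι κ : Type} {P : FR κ} (hP : PRQ P) (σ : κ → ι) :
    PRQ (fun k _ x => P k (fun j => x (σ j))) :=
  hP.comp (G := fun j => fun k _ (x : ι → k) => x (σ j)) fun j => PRF.var (σ j)

private theorem rnd_Dim {ι κ : Type} {P : FR κ} (hP : PRD P) (σ : κ → ι) :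
    PRD (fun k _ x => P k (fun j => x (σ j))) :=
  hP.comp (G := fun j => fun k _ (x : ι → k) => x (σ j)) fun j => PRF.var (σ j)

/-- enumeration of a set with exactly `r` elements -/
private theorem enum_Dim {α : Type} (A : Set α) (r : ℕ) :
    (A.ncard = r ∧ A.Finite) ↔ ∃ T : Fin r → α, (∀ i, T i ∈ A) ∧ (∀ i j, i ≠ j → T i ≠ T j) ∧
      ∀ t ∈ A, ∃ i, t = T i := by
  constructor
  · rintro ⟨h1, h2⟩
    have := h2.fintype
    have h3 : Fintype.card A = r := by
      rw [← h1, Set.ncard_eq_toFinset_card', Set.toFinset_card]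
    let e : A ≃ Fin r := Fintype.equivFinOfCardEq h3
    refine ⟨fun i => (e.symm i).1, fun i => (e.symm i).2, fun i j hij h => hij ?_, fun t ht => ?_⟩
    · exact e.symm.injective (Subtype.ext h)
    · refine ⟨e ⟨t, ht⟩, ?_⟩
      show t = (e.symm (e ⟨t, ht⟩)).1
      rw [Equiv.symm_apply_apply]
  · rintro ⟨T, h1, h2, h3⟩
    have hA : A = Set.range T := by
      ext t
      constructor
      · intro ht
        obtain ⟨i, hi⟩ := h3 t ht
        exact ⟨i, hi.symm⟩
      · rintro ⟨i, rfl⟩
        exact h1 i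
    have hinj : Function.Injective T := by
      intro i j h
      by_contra hij
      exact h2 i j hij h
    subst hA
    refine ⟨?_, Set.finite_range T⟩
    rw [← Set.image_univ, Set.ncard_image_of_injective _ hinj, Set.ncard_univ, Nat.card_fin]

/-- `exactly r` is first-order -/
theorem exact_prq {ι κ : Type} [Finite κ] {R : FR (ι ⊕ κ)} (hR : PRQ R) (r : ℕ) :
    PRQ (fun k _ (x : ι → k) => {t : κ → k | R k (Sum.elim x t)}.ncard = r ∧
      {t : κ → k | R k (Sum.elim x t)}.Finite) := by
  have h1 : PRQ (ι := ι ⊕ (Fin r × κ)) (fun k _ y => ∀ i : Fin r,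
      R k (Sum.elim (fun j => y (Sum.inl j)) fun c => y (Sum.inr (i, c)))) := by
    refine PRQ.allF fun i => ?_
    refine (rn_Dim hR (Sum.elim (fun j => Sum.inl j) fun c => Sum.inr (i, c) :
      ι ⊕ κ → ι ⊕ (Fin r × κ))).congr fun k _ y => iff_of_eq (congrArg (R k) ?_)
    funext j
    rcases j with j | j <;> rfl
  have h2 : PRQ (ι := ι ⊕ (Fin r × κ)) (fun k _ y => ∀ i j : Fin r, i ≠ j →
      ∃ c : κ, y (Sum.inr (i, c)) ≠ y (Sum.inr (j, c))) := by
    refine PRQ.allF fun i => PRQ.allF fun j => ?_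
    by_cases hij : i = j
    · exact PRQ.true.congr fun k _ y => ⟨fun _ h => absurd hij h, fun _ => trivial⟩
    · refine (PRQ.exF (α := κ) fun c => (PRQ.eq (PRF.var (Sum.inr (i, c)))
        (PRF.var (Sum.inr (j, c)))).not).congr fun k _ y => ⟨fun h _ => h, fun h => h hij⟩
  have h3 : PRQ (ι := ι ⊕ (Fin r × κ)) (fun k _ y => ∀ t : κ → k,
      R k (Sum.elim (fun j => y (Sum.inl j)) t) →
        ∃ i : Fin r, ∀ c : κ, t c = y (Sum.inr (i, c))) := by
    have h4 : PRQ (ι := (ι ⊕ (Fin r × κ)) ⊕ κ) (fun k _ w =>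
        R k (fun j => w ((Sum.elim (fun j => Sum.inl (Sum.inl j)) fun c => Sum.inr c :
          ι ⊕ κ → (ι ⊕ (Fin r × κ)) ⊕ κ) j)) →
        ∃ i : Fin r, ∀ c : κ, w (Sum.inr c) = w (Sum.inl (Sum.inr (i, c)))) :=
      (rn_Dim hR _).imp (PRQ.exF fun i => PRQ.allF fun c =>
        PRQ.eq (PRF.var (Sum.inr c)) (PRF.var (Sum.inl (Sum.inr (i, c)))))
    refine h4.all.congr fun k _ y => forall_congr' fun t => imp_congr ?_ Iff.rfl
    refine iff_of_eq (congrArg (R k) ?_)
    funext j
    rcases j with j | j <;> rfl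
  refine (h1.and (h2.and h3)).ex.congr fun k _ x => ?_
  rw [enum_Dim]
  constructor
  · rintro ⟨z, e1, e2, e3⟩
    refine ⟨fun i c => z (i, c), e1, fun i j hij h => ?_, fun t ht => ?_⟩
    · obtain ⟨c, hc⟩ := e2 i j hij
      exact hc (congrFun h c)
    · obtain ⟨i, hi⟩ := e3 t ht
      exact ⟨i, funext hi⟩
  · rintro ⟨T, e1, e2, e3⟩
    refine ⟨fun q => T q.1 q.2, e1, fun i j hij => ?_, fun t ht => ?_⟩
    · by_contra hc
      push Not at hc
      exact e2 i j hij (funext hc)
    · obtain ⟨i, hi⟩ := e3 t ht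
      exact ⟨i, fun c => congrFun hi c⟩

open scoped Classical in
theorem chq_zero : CHQ 0 := by
  intro ι _ X hX R hR
  have h1 : PRQ (ι := ι) (fun k _ x => X k (Sum.elim (fun i : Fin 0 => i.elim0) x) ∧
      R k (Sum.elim (fun i : Fin 0 => i.elim0) x)) := by
    have h2 : ∀ {P : FR (Fin 0 ⊕ ι)}, PRQ P →
        PRQ (ι := ι) (fun k _ x => P k (Sum.elim (fun i : Fin 0 => i.elim0) x)) := by
      intro P hP
      refine (hP.comp (G := Sum.elim (fun i : Fin 0 => i.elim0)
        fun i => fun k _ (x : ι → k) => x i) ?_).congr fun k _ x => ?_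
      · rintro (i | i)
        · exact i.elim0
        · exact PRF.var i
      · refine iff_of_eq (congrArg (P k) (funext fun j => ?_))
        rcases j with j | j
        · exact j.elim0
        · rfl
    exact (h2 (PRQ.base hX)).and (h2 hR)
  refine ⟨fun p a => if ∃ h : p.Prime, haveI := Fact.mk h;
      X (ZMod p) (Sum.elim (fun i : Fin 0 => i.elim0) (fun i => (a i : ZMod p))) ∧
      R (ZMod p) (Sum.elim (fun i : Fin 0 => i.elim0) (fun i => (a i : ZMod p))) then 1 else 0,
    ?_, ?_⟩
  · intro m p a hp ha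
    exact DFun.ite (prq_delta h1 hp ha) (DFun.const 1) (DFun.const 0)
  · intro p hp a _
    have e : ∀ z : Fin 0 → ZMod p, z = fun i => i.elim0 := fun z => funext fun i => i.elim0
    beta_reduce
    split_ifs with h
    · obtain ⟨_, h2, h3⟩ := h
      refine (Nat.card_eq_one_iff_unique.2 ⟨⟨fun u v => Subtype.ext ?_⟩,
        ⟨⟨fun i => i.elim0, h2, h3⟩⟩⟩).symm
      rw [e u.1, e v.1]
    · refine (Nat.card_eq_zero.2 (Or.inl ⟨fun u => h ⟨hp.out, ?_⟩⟩)).symm
      have h4 := u.2
      rw [e u.1] at h4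
      exact h4

theorem chq_one (H : One) : CHQ 1 := by
  intro ι _ X hX R hR
  have h1 : ∀ {P : FR (Fin 1 ⊕ ι)}, PRQ P → PRQ (ι := Unit ⊕ ι) (fun k _ x =>
      P k (Sum.elim (fun _ => x (Sum.inl ())) fun i => x (Sum.inr i))) := by
    intro P hP
    refine (rn_Dim hP (Sum.elim (fun _ => Sum.inl ()) fun i => Sum.inr i :
      Fin 1 ⊕ ι → Unit ⊕ ι)).congr fun k _ x => iff_of_eq (congrArg (P k) (funext fun j => ?_))
    rcases j with j | j <;> rfl
  obtain ⟨N, hN, hN'⟩ := H ((h1 (PRQ.base hX)).and (h1 hR))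
  refine ⟨N, hN, fun p _ a _ => ?_⟩
  rw [hN' p a]
  have e : ∀ z : Fin 1 → ZMod p, (fun _ => z 0) = z := fun z =>
    funext fun i => by rw [Fin.fin_one_eq_zero i]
  refine Nat.card_congr ⟨fun x => ⟨fun _ => x.1, x.2⟩, fun z => ⟨z.1 0, ?_⟩, ?_, ?_⟩
  · have h2 := z.2
    rw [← e z.1] at h2
    exact h2
  · intro x
    rfl
  · intro z
    exact Subtype.ext (e z.1)

/-- counting by the first coordinate -/
private theorem tot_Dim {n p : ℕ} [Fact p.Prime] (S : Set (Fin (n + 1) → ZMod p)) :
    Nat.card S = ∑ b : ZMod p, Nat.card (Fb S b) := by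
  classical
  have h1 : Nat.card (Σ b : ZMod p, Fb S b) = ∑ b : ZMod p, Nat.card (Fb S b) := Nat.card_sigma
  rw [← h1]
  refine Nat.card_congr ⟨fun z => ⟨z.1 0, ⟨fun i => z.1 i.succ, ?_⟩⟩,
    fun w => ⟨Fin.cons w.1 w.2.1, w.2.2⟩, ?_, ?_⟩
  · show (Fin.cons (z.1 0) fun i => z.1 i.succ) ∈ S
    rw [show (Fin.cons (z.1 0) fun i => z.1 i.succ : Fin (n + 1) → ZMod p) = z.1 from
      Fin.cons_self_tail z.1]
    exact z.2
  · rintro ⟨z, hz⟩
    exact Subtype.ext (Fin.cons_self_tail z)
  · rintro ⟨b, ⟨t, ht⟩⟩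
    rfl

private theorem range_Dim {p : ℕ} [Fact p.Prime] (F : ZMod p → Prop) [DecidablePred F]
    (S : ℕ → Prop) [DecidablePred S] (hS : ∀ b, S b ↔ F b) (g : ZMod p → ℕ) :
    (∑ b ∈ Finset.range p with S b, g b) = ∑ b with F b, g b := by
  refine Finset.sum_nbij' (fun b => (b : ZMod p)) (fun b => b.val) ?_ ?_ ?_ ?_ ?_
  · intro b hb
    rw [Finset.mem_filter] at hb
    exact Finset.mem_filter.2 ⟨Finset.mem_univ _, (hS b).1 hb.2⟩
  · intro b hb
    rw [Finset.mem_filter] at hb
    refine Finset.mem_filter.2 ⟨Finset.mem_range.2 (ZMod.val_lt b), (hS _).2 ?_⟩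
    rw [ZMod.natCast_zmod_val]
    exact hb.2
  · intro b hb
    rw [Finset.mem_filter, Finset.mem_range] at hb
    exact ZMod.val_cast_of_lt hb.1
  · intro b _
    exact ZMod.natCast_zmod_val b
  · intro b _
    rfl

/-- a bounded function is the sum of its values -/
private theorem values_Dim {α : Type} (s : Finset α) (f : α → ℕ) (B : ℕ) (h : ∀ b ∈ s, f b ≤ B) :
    ∑ b ∈ s, f b = ∑ r ∈ range (B + 1), r * #{b ∈ s | f b = r} := by
  rw [← Finset.sum_fiberwise_of_maps_to (s := s) (t := range (B + 1)) (g := f)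
    (fun b hb => mem_range.2 (Nat.lt_succ_of_le (h b hb))) f]
  refine Finset.sum_congr rfl fun r _ => ?_
  rw [Finset.sum_congr rfl (fun b hb => (mem_filter.1 hb).2), sum_const, smul_eq_mul, mul_comm]

open scoped Classical in
theorem chq_step (H : One) {n : ℕ} (hn : 1 ≤ n) (h : CHQ n) : CHQ (n + 1) := by
  intro ι _ X hX R hR
  obtain ⟨C, Q, hQ, hC⟩ := s1_few hX
  have ren : ∀ {P : FR (Fin (n + 1) ⊕ ι)}, PRQ P → PRQ (ι := Fin n ⊕ (ι ⊕ Unit)) (fun k _ x =>
      P k (Sum.elim (Fin.cons (x (Sum.inr (Sum.inr ()))) fun i => x (Sum.inl i))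
      (fun i => x (Sum.inr (Sum.inl i))))) := by
    intro P hP
    refine (rn_Dim hP (Sum.elim (Fin.cons (Sum.inr (Sum.inr ())) fun i => Sum.inl i)
      fun i => Sum.inr (Sum.inl i) : Fin (n + 1) ⊕ ι → Fin n ⊕ (ι ⊕ Unit))).congr fun k _ x => ?_
    refine iff_of_eq (congrArg (P k) (funext fun j => ?_))
    rcases j with j | j
    · refine Fin.cases ?_ (fun i => ?_) j <;> rfl
    · rfl
  have hX' : PRD (ι := Fin n ⊕ (ι ⊕ Unit)) (fun k _ x => X k (Sum.elim
      (Fin.cons (x (Sum.inr (Sum.inr ()))) fun i => x (Sum.inl i))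
      (fun i => x (Sum.inr (Sum.inl i))))) := by
    refine (rnd_Dim hX (Sum.elim (Fin.cons (Sum.inr (Sum.inr ())) fun i => Sum.inl i)
      fun i => Sum.inr (Sum.inl i) : Fin (n + 1) ⊕ ι → Fin n ⊕ (ι ⊕ Unit))).congr fun k _ x => ?_
    refine iff_of_eq (congrArg (X k) (funext fun j => ?_))
    rcases j with j | j
    · refine Fin.cases ?_ (fun i => ?_) j <;> rfl
    · rfl
  have hP' : PRD (ι := (ι ⊕ Unit) ⊕ Fin n) (fun k _ y => X k (Sum.elim
      (Fin.cons (y (Sum.inl (Sum.inr ()))) fun i => y (Sum.inr i))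
      (fun i => y (Sum.inl (Sum.inl i))))) := by
    refine (rnd_Dim hX (Sum.elim (Fin.cons (Sum.inl (Sum.inr ())) fun i => Sum.inr i)
      fun i => Sum.inl (Sum.inl i) : Fin (n + 1) ⊕ ι → (ι ⊕ Unit) ⊕ Fin n)).congr fun k _ x => ?_
    refine iff_of_eq (congrArg (X k) (funext fun j => ?_))
    rcases j with j | j
    · refine Fin.cases ?_ (fun i => ?_) j <;> rfl
    · rfl
  obtain ⟨N', hN', hN2⟩ := h hX' (ren hR)
  obtain ⟨B, Q₂, -, hB⟩ := fib_unif hP'
  -- exactly `r` points in the fibre
  have hE : ∀ r : ℕ, PRQ (ι := Unit ⊕ ι) (fun k _ y =>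
      (¬ Q k (Sum.elim (fun i => y (Sum.inr i)) fun _ => y (Sum.inl ()))) ∧
      ({t : Fin n → k | X k (Sum.elim (Fin.cons (y (Sum.inl ())) t) fun i => y (Sum.inr i)) ∧
        R k (Sum.elim (Fin.cons (y (Sum.inl ())) t) fun i => y (Sum.inr i))}.ncard = r ∧
      {t : Fin n → k | X k (Sum.elim (Fin.cons (y (Sum.inl ())) t) fun i => y (Sum.inr i)) ∧
        R k (Sum.elim (Fin.cons (y (Sum.inl ())) t) fun i => y (Sum.inr i))}.Finite)) := by
    intro r
    have h1 : PRQ (ι := Unit ⊕ ι) (fun k _ y =>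
        Q k (Sum.elim (fun i => y (Sum.inr i)) fun _ => y (Sum.inl ()))) := by
      refine (rn_Dim (PRQ.base hQ) (Sum.elim (fun i => Sum.inr i) fun _ => Sum.inl () :
        ι ⊕ Unit → Unit ⊕ ι)).congr fun k _ x => iff_of_eq (congrArg (Q k) (funext fun j => ?_))
      rcases j with j | j <;> rfl
    have h2 : ∀ {P : FR (Fin (n + 1) ⊕ ι)}, PRQ P → PRQ (ι := (Unit ⊕ ι) ⊕ Fin n) (fun k _ y =>
        P k (Sum.elim (Fin.cons (y (Sum.inl (Sum.inl ()))) fun i => y (Sum.inr i))
          fun i => y (Sum.inl (Sum.inr i)))) := by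
      intro P hP
      refine (rn_Dim hP (Sum.elim (Fin.cons (Sum.inl (Sum.inl ())) fun i => Sum.inr i)
        fun i => Sum.inl (Sum.inr i) : Fin (n + 1) ⊕ ι → (Unit ⊕ ι) ⊕ Fin n)).congr
          fun k _ x => iff_of_eq (congrArg (P k) (funext fun j => ?_))
      rcases j with j | j
      · refine Fin.cases ?_ (fun i => ?_) j <;> rfl
      · rfl
    exact h1.not.and (exact_prq ((h2 (PRQ.base hX)).and (h2 hR)) r)
  choose N₁ hN₁ hN₁' using fun r => H (hE r)
  let S : ℕ → (ι → ℕ) → ℕ → Prop := fun p a b => ∃ h : p.Prime, haveI := Fact.mk h;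
    Q (ZMod p) (Sum.elim (fun i => (a i : ZMod p)) fun _ => (b : ZMod p))
  refine ⟨fun p a => ∑ r ∈ range (B + 1), r * N₁ r p a + if #{b ∈ Finset.range p | S p a b} ≤ C then
    ∑ b ∈ Finset.range p with S p a b, min (N' p (Sum.elim a fun _ => b)) (p ^ n) else 0,
    ?_, ?_⟩
  · intro m p a hp ha
    refine (PTr.DFun.finSum _ fun r => (DFun.const r).mul (hN₁ r hp ha)).add ?_
    have hS1 : Delta0 (m + 1) (fun w => (fun b v => S (p v) (fun i => a i v) b) (w 0)
        fun i => w i.succ) := by
      have := Fintype.ofFinite (ι ⊕ Unit)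
      have h3 := prd_delta' (n := m + 1) hQ (p := fun w => p fun i => w i.succ)
        (a := Sum.elim (fun i w => a i fun i => w i.succ) (fun _ w => w 0)) hp.weak (by
          rintro (i | i)
          · exact (ha i).weak
          · exact DFun.proj 0)
      refine h3.of_iff fun w => exists_congr fun hp1 => ?_
      have := Fact.mk hp1
      refine iff_of_eq (congrArg (Q _) (funext fun j => ?_))
      rcases j with j | j <;> rfl
    have hg1 : DFun (m + 1) (fun w => (fun b v => min (N' (p v)
        (Sum.elim (fun i => a i v) fun _ => b)) (p v ^ n)) (w 0) fun i => w i.succ) := by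
      refine DFun.min ?_ (PTr.DFun.powConst hp.weak n)
      have h3 := hN' (m := m + 1) (p := fun w => p fun i => w i.succ)
        (a := Sum.elim (fun i w => a i fun i => w i.succ) (fun _ w => w 0)) hp.weak (by
          rintro (i | i)
          · exact (ha i).weak
          · exact DFun.proj 0)
      have e : (fun w : Fin (m + 1) → ℕ => N' (p fun i => w i.succ)
          (Sum.elim (fun i => a i fun i => w i.succ) fun _ => w 0)) =
          fun w => N' (p fun i => w i.succ) fun i =>
            (Sum.elim (fun i w => a i fun i => w i.succ) (fun _ w => w 0) :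
              ι ⊕ Unit → (Fin (m + 1) → ℕ) → ℕ) i w := by
        funext w
        refine congrArg (N' _) (funext fun j => ?_)
        rcases j with j | j <;> rfl
      rw [e]
      exact h3
    have h6 := sum_few C (G := fun v => p v ^ n) hp (PTr.DFun.powConst hp n)
      (S := fun b v => S (p v) (fun i => a i v) b) hS1
      (g := fun b v => min (N' (p v) (Sum.elim (fun i => a i v) fun _ => b)) (p v ^ n)) hg1
      fun b v => min_le_right _ _
    convert h6
  · intro p hp a hD
    have e1 : (fun i => algebraMap (ZMod p) (AlgebraicClosure (ZMod p)) (cst (ZMod p) a i)) =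
        cst (AlgebraicClosure (ZMod p)) a := funext fun i => map_natCast _ _
    have h1 := hC (ZMod p) (AlgebraicClosure (ZMod p))
      (algebraMap (ZMod p) (AlgebraicClosure (ZMod p))) (cst (ZMod p) a)
    rw [e1] at h1
    obtain ⟨h2, h3⟩ := h1
    obtain ⟨h4, h5⟩ := h3 hD
    set F : ZMod p → Prop := fun b => (Fb (Pt X (AlgebraicClosure (ZMod p))
      (cst (AlgebraicClosure (ZMod p)) a))
        (algebraMap (ZMod p) (AlgebraicClosure (ZMod p)) b)).Infinite with hF
    have hSF : ∀ b : ℕ, S p a b ↔ F b := by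
      intro b
      constructor
      · rintro ⟨_, h6⟩
        exact (h2 b).1 h6
      · intro h6
        exact ⟨hp.out, (h2 b).2 h6⟩
    have hcard : #{b ∈ Finset.range p | S p a b} ≤ C := by
      have h6 : #{b ∈ Finset.range p | S p a b} = #{b : ZMod p | F b} := by
        rw [Finset.card_eq_sum_ones, Finset.card_eq_sum_ones]
        exact range_Dim F (S p a) hSF fun _ => 1
      rw [h6]
      refine le_trans ?_ h5
      rw [← Set.ncard_coe_finset]
      refine Set.ncard_le_ncard_of_injOn
        (algebraMap (ZMod p) (AlgebraicClosure (ZMod p))) ?_ ?_ h4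
      · intro b hb
        exact (Finset.mem_filter.1 hb).2
      · exact (algebraMap (ZMod p) (AlgebraicClosure (ZMod p))).injective.injOn
    obtain ⟨T, hT⟩ : ∃ T : Set (Fin (n + 1) → ZMod p), T = {z |
      X (ZMod p) (Sum.elim z (cst (ZMod p) a)) ∧ R (ZMod p) (Sum.elim z (cst (ZMod p) a))} :=
      ⟨_, rfl⟩
    have hgoal : Nat.card {z : Fin (n + 1) → ZMod p // X (ZMod p) (Sum.elim z (cst (ZMod p) a)) ∧
        R (ZMod p) (Sum.elim z (cst (ZMod p) a))} = Nat.card T := by
      rw [hT]
      rfl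
    show ∑ r ∈ range (B + 1), r * N₁ r p a + _ = _
    rw [if_pos hcard, hgoal, tot_Dim T, ← Finset.sum_filter_add_sum_filter_not univ F, add_comm]
    congr 1
    · rw [← range_Dim F (S p a) hSF fun b => Nat.card (Fb T b)]
      refine Finset.sum_congr rfl fun b hb => ?_
      have e3 : Fb (Pt X (AlgebraicClosure (ZMod p)) (cst (AlgebraicClosure (ZMod p)) a))
          (b : AlgebraicClosure (ZMod p)) =
          Pt (fun k _ x => X k (Sum.elim
            (Fin.cons (x (Sum.inr (Sum.inr ()))) fun i => x (Sum.inl i))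
            (fun i => x (Sum.inr (Sum.inl i))))) (AlgebraicClosure (ZMod p))
            (cst (AlgebraicClosure (ZMod p)) (Sum.elim a fun _ => b)) := rfl
      have h7 := hN2 p (Sum.elim a fun _ => b) (by
        rw [← e3]
        exact dm1_fb hD _)
      have h8 : N' p (Sum.elim a fun _ => b) = Nat.card (Fb T (b : ZMod p)) := by
        rw [h7, hT]
        rfl
      rw [h8]
      refine min_eq_left ?_
      have h9 : Nat.card (Fb T (b : ZMod p)) ≤
          Nat.card (Fin n → ZMod p) := Nat.card_le_card_of_injective Subtype.val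
            Subtype.val_injective
      rwa [Nat.card_fun, Nat.card_zmod, Nat.card_fin] at h9
    · -- finite fibres
      have hbd : ∀ b ∈ univ.filter fun b => ¬ F b, Nat.card (Fb T b) ≤ B := by
        intro b hb
        have h6 : ¬ F b := (mem_filter.1 hb).2
        have h7 : (Q₂ (AlgebraicClosure (ZMod p)) (Sum.elim
            (cst (AlgebraicClosure (ZMod p)) a)
            fun _ => algebraMap (ZMod p) (AlgebraicClosure (ZMod p)) b) ↔
              (Fb (Pt X (AlgebraicClosure (ZMod p)) (cst (AlgebraicClosure (ZMod p)) a))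
                (algebraMap (ZMod p) (AlgebraicClosure (ZMod p)) b)).Infinite) ∧
            (¬ Q₂ (AlgebraicClosure (ZMod p)) (Sum.elim
            (cst (AlgebraicClosure (ZMod p)) a)
            fun _ => algebraMap (ZMod p) (AlgebraicClosure (ZMod p)) b) →
              (Fb (Pt X (AlgebraicClosure (ZMod p)) (cst (AlgebraicClosure (ZMod p)) a))
                (algebraMap (ZMod p) (AlgebraicClosure (ZMod p)) b)).ncard ≤ B) :=
          hB (AlgebraicClosure (ZMod p)) (AlgebraicClosure (ZMod p)) (RingHom.id _)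
          (Sum.elim (cst (AlgebraicClosure (ZMod p)) a)
            fun _ => algebraMap (ZMod p) (AlgebraicClosure (ZMod p)) b)
        have h9 : ¬ Q₂ (AlgebraicClosure (ZMod p)) (Sum.elim
            (cst (AlgebraicClosure (ZMod p)) a)
            fun _ => algebraMap (ZMod p) (AlgebraicClosure (ZMod p)) b) := fun h => h6 (h7.1.1 h)
        refine le_trans ?_ (h7.2 h9)
        have h10 : (Fb (Pt X (AlgebraicClosure (ZMod p)) (cst (AlgebraicClosure (ZMod p)) a))
              (algebraMap (ZMod p) (AlgebraicClosure (ZMod p)) b)).Finite :=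
          Set.not_infinite.1 h6
        change (Fb T b).ncard ≤ _
        refine Set.ncard_le_ncard_of_injOn
          (fun t i => algebraMap (ZMod p) (AlgebraicClosure (ZMod p)) (t i)) ?_ ?_ h10
        · intro t ht
          rw [hT] at ht
          have h11 : X (ZMod p) (Sum.elim (Fin.cons b t) (cst (ZMod p) a)) := ht.1
          have h12 := (prd_hom hX (algebraMap (ZMod p) (AlgebraicClosure (ZMod p)))
            (Sum.elim (Fin.cons b t) (cst (ZMod p) a))).2 h11
          refine (iff_of_eq (congrArg (X _) (funext fun j => ?_))).1 h12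
          rcases j with j | j
          · refine Fin.cases ?_ (fun i => ?_) j <;> rfl
          · exact map_natCast _ _
        · intro t _ t' _ he
          funext i
          exact (algebraMap (ZMod p) (AlgebraicClosure (ZMod p))).injective (congrFun he i)
      rw [values_Dim _ _ B hbd]
      refine Finset.sum_congr rfl fun r _ => ?_
      congr 1
      rw [hN₁' r p a, Nat.card_eq_fintype_card, Fintype.card_subtype, Finset.filter_filter]
      refine congrArg Finset.card (Finset.filter_congr fun b _ => and_congr (not_congr ?_) ?_)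
      · refine Iff.trans (iff_of_eq ?_) (h2 b)
        rfl
      · have hfin : (Fb T b).Finite := Set.toFinite _
        have h13 : {t : Fin n → ZMod p | X (ZMod p) (Sum.elim (Fin.cons b t) (cst (ZMod p) a)) ∧
            R (ZMod p) (Sum.elim (Fin.cons b t) (cst (ZMod p) a))} = Fb T b := by
          rw [hT]
          rfl
        constructor
        · rintro ⟨k1, -⟩
          refine Eq.trans ?_ k1
          exact congrArg Set.ncard h13.symm
        · intro k1
          refine ⟨Eq.trans ?_ k1, ?_⟩
          · exact congrArg Set.ncard h13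
          · exact Set.toFinite _

theorem chq_all (H : One) (n : ℕ) : CHQ n := by
  induction n with
  | zero => exact chq_zero
  | succ n ih =>
    rcases Nat.eq_zero_or_pos n with h | h
    · subst h
      exact chq_one H
    · exact chq_step H h ih

end Pool.Agent.CvQ
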