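import Mathlib
import Pool.Agent.PRc.Ex

/-!
# Package CvQ-Fo: formulas of the language of rings

`fo φ`: the relation defined by the formula `φ` in all fields (every ring is a structure for the language
of rings: `FirstOrder.Ring.compatibleRingOfRing`).

Complete proof. For a bounded formula `φ : FirstOrder.Language.ring.BoundedFormula α n` the relation
`k, x : α ⊕ Fin n → k ↦ φ.Realize (x ∘ Sum.inl) (x ∘ Sum.inr)` is `PRQ`: induction on `φ`. `falsum`:
`PRQ.base PRD.false`. `equal`: terms are polynomials: for each term `t` in the variables `α ⊕ Fin n` the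
value is a `PRF` (induction on the term: variables; function symbols `+`, `*`, `-`, `0`, `1`, see
`FirstOrder.Ring.realize_add` etc.), `PRQ.eq`. `rel`: there are no relation symbols. `imp`: `PRQ.imp`.
`all`: `∀ y : k`, i.e. `∀ z : Unit → k`: `PRQ.all` with `κ = Unit`, the relation for `φ : BoundedFormula α (n + 1)` with
`Fin.snoc`: `PRQ.comp` with variables.
-/

set_option autoImplicit false

noncomputable section

namespace Pool.Agent.CvQ

open Polynomial Pool.Agent.PRc FirstOrder

/-- the relation defined by a formula -/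
def fo {α : Type} (φ : Language.ring.Formula α) : FR α := fun k _ x =>
  letI := FirstOrder.Ring.compatibleRingOfRing k
  φ.Realize x

/-- the value of a term -/
private def tmFo {α : Type} (t : Language.ring.Term α) : FF α := fun k _ x =>
  letI := FirstOrder.Ring.compatibleRingOfRing k
  t.realize x

/-- the relation defined by a bounded formula -/
private def bfFo {α : Type} {n : ℕ} (φ : Language.ring.BoundedFormula α n) : FR (α ⊕ Fin n) :=
  fun k _ x =>
  letI := FirstOrder.Ring.compatibleRingOfRing k
  φ.Realize (fun i => x (Sum.inl i)) (fun j => x (Sum.inr j))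

private theorem tm_prfFo {α : Type} (t : Language.ring.Term α) : PRF (tmFo t) := by
  induction t with
  | var i => exact PRF.var i
  | func f ts ih =>
    cases f with
    | add => exact (ih 0).add (ih 1)
    | mul => exact (ih 0).mul (ih 1)
    | neg => exact (ih 0).neg
    | zero => exact PRF.zero
    | one => exact PRF.one

private theorem bf_prqFo {α : Type} {n : ℕ} (φ : Language.ring.BoundedFormula α n) :
    PRQ (bfFo φ) := by
  induction φ with
  | falsum => exact PRQ.base PRD.false
  | equal t₁ t₂ =>
    refine (PRQ.eq (tm_prfFo t₁) (tm_prfFo t₂)).congr fun k _ x => ?_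
    let _ := FirstOrder.Ring.compatibleRingOfRing k
    have e : Sum.elim (fun i => x (Sum.inl i)) (fun j => x (Sum.inr j)) = x := by
      funext i
      rcases i with i | i <;> rfl
    show t₁.realize x = t₂.realize x ↔ t₁.realize (Sum.elim _ _) = t₂.realize (Sum.elim _ _)
    rw [e]
  | rel R ts => exact R.elim
  | imp φ ψ ih₁ ih₂ => exact ih₁.imp ih₂
  | @all n φ ih =>
    have h1 := (ih.comp (κ := (α ⊕ Fin n) ⊕ Unit) (G := Sum.elim
      (fun i => fun k _ (x : (α ⊕ Fin n) ⊕ Unit → k) => x (Sum.inl (Sum.inl i)))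
      (Fin.snoc (α := fun _ => FF ((α ⊕ Fin n) ⊕ Unit))
        (fun j => fun k _ (x : (α ⊕ Fin n) ⊕ Unit → k) => x (Sum.inl (Sum.inr j)))
        (fun k _ (x : (α ⊕ Fin n) ⊕ Unit → k) => x (Sum.inr ())))) (by
      rintro (i | j)
      · exact PRF.var (Sum.inl (Sum.inl i))
      · refine Fin.lastCases ?_ (fun j => ?_) j
        · rw [Sum.elim_inr, Fin.snoc_last]
          exact PRF.var (Sum.inr ())
        · rw [Sum.elim_inr, Fin.snoc_castSucc]
          exact PRF.var (Sum.inl (Sum.inr j)))).all
    refine h1.congr fun k _ x => ?_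
    let _ := FirstOrder.Ring.compatibleRingOfRing k
    have e : ∀ z : Unit → k, (fun j : Fin (n + 1) => (Sum.elim
      (fun i => fun k _ (x : (α ⊕ Fin n) ⊕ Unit → k) => x (Sum.inl (Sum.inl i)))
      (Fin.snoc (α := fun _ => FF ((α ⊕ Fin n) ⊕ Unit))
        (fun j => fun k _ (x : (α ⊕ Fin n) ⊕ Unit → k) => x (Sum.inl (Sum.inr j)))
        (fun k _ (x : (α ⊕ Fin n) ⊕ Unit → k) => x (Sum.inr ()))) :
          α ⊕ Fin (n + 1) → FF ((α ⊕ Fin n) ⊕ Unit)) (Sum.inr j) k (Sum.elim x z)) =
        Fin.snoc (α := fun _ => k) (fun j => x (Sum.inr j)) (z ()) := by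
      intro z
      funext j
      refine Fin.lastCases ?_ (fun j => ?_) j
      · rw [Sum.elim_inr, Fin.snoc_last, Fin.snoc_last]
        rfl
      · rw [Sum.elim_inr, Fin.snoc_castSucc, Fin.snoc_castSucc]
        rfl
    have h2 : ∀ z : Unit → k, bfFo φ k (fun j => (Sum.elim
      (fun i => fun k _ (x : (α ⊕ Fin n) ⊕ Unit → k) => x (Sum.inl (Sum.inl i)))
      (Fin.snoc (α := fun _ => FF ((α ⊕ Fin n) ⊕ Unit))
        (fun j => fun k _ (x : (α ⊕ Fin n) ⊕ Unit → k) => x (Sum.inl (Sum.inr j)))
        (fun k _ (x : (α ⊕ Fin n) ⊕ Unit → k) => x (Sum.inr ()))) :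
          α ⊕ Fin (n + 1) → FF ((α ⊕ Fin n) ⊕ Unit)) j k (Sum.elim x z)) ↔
        φ.Realize (fun i => x (Sum.inl i))
          (Fin.snoc (α := fun _ => k) (fun j => x (Sum.inr j)) (z ())) := by
      intro z
      rw [← e z]
      rfl
    constructor
    · intro h a
      exact (h2 fun _ => a).1 (h fun _ => a)
    · intro h z
      exact (h2 z).2 (h (z ()))

theorem fo_prq {α : Type} (φ : Language.ring.Formula α) : PRQ (fo φ) := by
  have h1 := (bf_prqFo φ).comp (κ := α) (G := Sum.elim
    (fun i => fun k _ (x : α → k) => x i) (fun j => j.elim0)) (by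
      rintro (i | j)
      · exact PRF.var i
      · exact j.elim0)
  refine h1.congr fun k _ x => ?_
  let _ := FirstOrder.Ring.compatibleRingOfRing k
  have e : ∀ y z : Fin 0 → k, Language.BoundedFormula.Realize φ x y ↔
      Language.BoundedFormula.Realize φ x z := fun y z => by rw [Subsingleton.elim y z]
  exact e _ _

end Pool.Agent.CvQ
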