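import Pool.Agent.CvS.Step
import Pool.Agent.CvQ.Fo
import Pool.Agent.CvS.SysD

/-!
# First-order conditions on the points of sets of dimension at most one: definitions

* `One`: the conclusion of `CvQ.cnt_def`: numbers of elements with a first-order property are definable;
* `CHQ n`: the numbers of the points over `ZMod p` of a set `X` in `n`-space of dimension at most one with a
  first-order property `R` are definable;
* `FF p φ z a`: `p` is a prime and the formula `φ` holds in `ZMod p` for `z`, `a`;
* `SNF m c φ a`: the number of the solutions `z` modulo `m` of the system with the coefficients `c` such that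
  `φ (z, a)` holds in `ZMod p` for all primes `p` dividing `m`.
-/

set_option autoImplicit false

noncomputable section

namespace Pool.Agent.CvQ

open Finset Polynomial Pool.Agent.PRc Pool.Agent.Grz Pool.Agent.CvS FirstOrder

/-- numbers of elements with a first-order property are definable -/
def One : Prop := ∀ {ι : Type} [Finite ι] {R : FR (Unit ⊕ ι)}, PRQ R →
  ∃ N : ℕ → (ι → ℕ) → ℕ, DC N ∧ ∀ (p : ℕ) [Fact p.Prime] (a : ι → ℕ), N p a =
    Nat.card {x : ZMod p // R (ZMod p) (Sum.elim (fun _ => x) fun i => (a i : ZMod p))}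

/-- numbers of points with a first-order property on sets of dimension at most one in `n`-space are
definable -/
def CHQ (n : ℕ) : Prop := ∀ {ι : Type} [Finite ι] {X : FR (Fin n ⊕ ι)}, PRD X →
  ∀ {R : FR (Fin n ⊕ ι)}, PRQ R →
  ∃ N : ℕ → (ι → ℕ) → ℕ, DC N ∧ ∀ (p : ℕ) [Fact p.Prime] (a : ι → ℕ),
    Dm1 (Pt X (AlgebraicClosure (ZMod p)) (cst (AlgebraicClosure (ZMod p)) a)) →
      N p a = Nat.card {z : Fin n → ZMod p // X (ZMod p) (Sum.elim z (cst (ZMod p) a)) ∧
        R (ZMod p) (Sum.elim z (cst (ZMod p) a))}

/-- the formula holds modulo the prime `p` -/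
def FF {α : Type} (p : ℕ) (φ : Language.ring.Formula α) (x : α → ℕ) : Prop :=
  ∃ h : p.Prime, haveI := Fact.mk h; fo φ (ZMod p) (fun i => (x i : ZMod p))

open scoped Classical in
/-- the number of the solutions modulo `m` with the property `φ` modulo all prime divisors -/
def SNF {n d r k : ℕ} (m : ℕ) (c : Fin r → (Fin n → Fin (d + 1)) → ℕ)
    (φ : Language.ring.Formula (Fin n ⊕ Fin k)) (a : Fin k → ℕ) : ℕ :=
  #{z ∈ Fintype.piFinset fun _ : Fin n => range m | (∀ l, m ∣ sval (c l) z) ∧
    ∀ p, p.Prime → p ∣ m → FF p φ (Sum.elim z a)}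

end Pool.Agent.CvQ
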