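import Pool.Agent.CvQ.SysR
import Pool.Agent.CvQ.Cnt
import Pool.Agent.CvH.All
import Pool.Agent.Weil.Wl

/-!
# First-order conditions on the points of curves: final theorems

`one`: numbers of elements of prime fields with a first-order property are definable; `snr`: systems with a
first-order condition in the ring `ZMod m`, `m` squarefree.
-/

set_option autoImplicit false

noncomputable section

namespace Pool.Agent.CvQ

open Finset Polynomial Pool.Agent.PRc Pool.Agent.Grz Pool.Agent.CvS FirstOrder

theorem one : One := fun hR => cnt_def Weil.wl CvH.lineHyp hR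

open scoped Classical in
theorem snr {n d r k t : ℕ} {m : (Fin t → ℕ) → ℕ}
    {c : Fin r → (Fin n → Fin (d + 1)) → (Fin t → ℕ) → ℕ} {a : Fin k → (Fin t → ℕ) → ℕ}
    (φ : Language.ring.Formula (Fin n ⊕ Fin k)) (hm : DFun t m) (hc : ∀ l e, DFun t (c l e))
    (ha : ∀ i, DFun t (a i)) : DFun t (fun v => if Squarefree (m v) ∧
      (∀ p, p.Prime → p ∣ m v → Cv p fun l e => c l e v) then
        SNR (m v) (fun l e => c l e v) φ (fun i => a i v) else 0) :=
  snr_def one φ hm hc ha

end Pool.Agent.CvQ
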