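import Pool.Agent.CvQ.TwR
import Pool.Agent.CvS.Frb

/-!
# Package CvQ-Typ: the Frobenius type of the fibres

`K` the algebraic closure of `ZMod p`, `x` over `ZMod p`, the fibres `F_i = {t | P i K (x, t)}` finite with at
most `B` elements.

Complete proofs.

* `typ_ex`: let `N i` be the number of the elements of `F_i` and `t` an enumeration. The Frobenius map
  maps `F_i` to itself (`CvS.prd_hom` for the Frobenius endomorphism of `K`, `x` is fixed), bijectively
  (injective, finite). So there is a bijection `π` of `Jn N` with `π (i, j) = (i, _)` and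
  `t j c ^ p = t (π j) c`. Its order divides `(card (Jn N))!`, which divides `(s B)!`.
* `typ_fix`: `P i` has a point over `ZMod p` if and only if some element of `F_i` is fixed by Frobenius
  (`CvS.rat_of_pow`, `CvS.prd_hom`), i.e. some `j` with `π (i, j) = (i, j)` (`t` is injective on the
  `(i, ·)`, and `π` preserves `i`).
* `typ_iff`: from the two.
-/

set_option autoImplicit false

noncomputable section

namespace Pool.Agent.CvQ

open Polynomial Pool.Agent.PRc

variable {α κ : Type} {s : ℕ} {P : Fin s → FR (α ⊕ κ)} {p : ℕ} [Fact p.Prime]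

private theorem fix_Typ (r : ZMod p) : frobenius (AlgebraicClosure (ZMod p)) p
    (algebraMap (ZMod p) (AlgebraicClosure (ZMod p)) r) =
      algebraMap (ZMod p) (AlgebraicClosure (ZMod p)) r := by
  rw [frobenius_def, ← map_pow, ZMod.pow_card]

private theorem frob_Typ {P : FR (α ⊕ κ)} (hP : PRD P) (x : α → ZMod p)
    (t : κ → AlgebraicClosure (ZMod p)) :
    P (AlgebraicClosure (ZMod p)) (Sum.elim
      (fun i => algebraMap (ZMod p) (AlgebraicClosure (ZMod p)) (x i)) (fun c => t c ^ p)) ↔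
    P (AlgebraicClosure (ZMod p)) (Sum.elim
      (fun i => algebraMap (ZMod p) (AlgebraicClosure (ZMod p)) (x i)) t) := by
  have h4 := CvS.prd_hom hP (frobenius (AlgebraicClosure (ZMod p)) p)
    (Sum.elim (fun i => algebraMap (ZMod p) (AlgebraicClosure (ZMod p)) (x i)) t)
  have h5 : (fun i => frobenius (AlgebraicClosure (ZMod p)) p
      (Sum.elim (fun i => algebraMap (ZMod p) (AlgebraicClosure (ZMod p)) (x i)) t i)) =
      Sum.elim (fun i => algebraMap (ZMod p) (AlgebraicClosure (ZMod p)) (x i))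
        (fun c => t c ^ p) := by
    funext i
    rcases i with i | i
    · simp only [Sum.elim_inl]
      exact fix_Typ (x i)
    · simp only [Sum.elim_inr]
      exact frobenius_def _ _
  rwa [h5] at h4

private theorem base_Typ {P : FR (α ⊕ κ)} (hP : PRD P) (x : α → ZMod p) (t : κ → ZMod p) :
    P (AlgebraicClosure (ZMod p)) (Sum.elim
      (fun i => algebraMap (ZMod p) (AlgebraicClosure (ZMod p)) (x i))
      (fun c => algebraMap (ZMod p) (AlgebraicClosure (ZMod p)) (t c))) ↔
    P (ZMod p) (Sum.elim x t) := by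
  have h4 := CvS.prd_hom hP (algebraMap (ZMod p) (AlgebraicClosure (ZMod p))) (Sum.elim x t)
  have h5 : (fun i => algebraMap (ZMod p) (AlgebraicClosure (ZMod p)) (Sum.elim x t i)) =
      Sum.elim (fun i => algebraMap (ZMod p) (AlgebraicClosure (ZMod p)) (x i))
        (fun c => algebraMap (ZMod p) (AlgebraicClosure (ZMod p)) (t c)) := by
    funext i
    rcases i with i | i <;> rfl
  rwa [h5] at h4

private theorem iter_Typ {J : Type} [Finite J] (π : Equiv.Perm J) {n : ℕ} (hn : Nat.card J ≤ n) :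
    (π : J → J)^[n.factorial] = id := by
  classical
  have := Fintype.ofFinite J
  have h1 : orderOf π ∣ n.factorial := by
    have h2 := orderOf_dvd_card (x := π)
    rw [Fintype.card_perm] at h2
    rw [Nat.card_eq_fintype_card] at hn
    exact h2.trans (Nat.factorial_dvd_factorial hn)
  rw [Equiv.Perm.iterate_eq_pow, orderOf_dvd_iff_pow_eq_one.1 h1]
  rfl

theorem typ_ex [Finite κ] (hP : ∀ i, PRD (P i)) {B : ℕ} {x : α → ZMod p}
    (hB : ∀ i, {t | P i (AlgebraicClosure (ZMod p)) (Sum.elim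
      (fun i => algebraMap (ZMod p) (AlgebraicClosure (ZMod p)) (x i)) t)}.Finite ∧
      {t | P i (AlgebraicClosure (ZMod p)) (Sum.elim
        (fun i => algebraMap (ZMod p) (AlgebraicClosure (ZMod p)) (x i)) t)}.ncard ≤ B) :
    ∃ (N : Fin s → ℕ) (π : Jn N → Jn N) (t : Jn N → κ → AlgebraicClosure (ZMod p)),
      (∀ i, N i ≤ B) ∧ (∀ j, (π j).1 = j.1) ∧ π^[(s * B).factorial] = id ∧
      En P N (AlgebraicClosure (ZMod p))
        (fun i => algebraMap (ZMod p) (AlgebraicClosure (ZMod p)) (x i)) t ∧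
      ∀ j c, t j c ^ p = t (π j) c := by
  classical
  let F : Fin s → Set (κ → AlgebraicClosure (ZMod p)) := fun i =>
    {t | P i (AlgebraicClosure (ZMod p)) (Sum.elim
      (fun i => algebraMap (ZMod p) (AlgebraicClosure (ZMod p)) (x i)) t)}
  have hfin : ∀ i, Finite (F i) := fun i => (hB i).1
  let N : Fin s → ℕ := fun i => Nat.card (F i)
  have hN : ∀ i, N i ≤ B := fun i => (hB i).2
  let e : ∀ i, F i ≃ Fin (N i) := fun i => Finite.equivFin (F i)
  let f : ∀ i, F i → F i := fun i t => ⟨fun c => t.1 c ^ p, (frob_Typ (hP i) x t.1).2 t.2⟩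
  have hf : ∀ i, Function.Bijective (f i) := by
    intro i
    rw [← Finite.injective_iff_bijective]
    intro t t' h
    apply Subtype.ext
    funext c
    have h1 : t.1 c ^ p = t'.1 c ^ p := congrFun (congrArg Subtype.val h) c
    exact frobenius_inj (AlgebraicClosure (ZMod p)) p (by
      rw [frobenius_def, frobenius_def]
      exact h1)
  let σ : ∀ i, Equiv.Perm (Fin (N i)) := fun i =>
    (e i).symm.trans ((Equiv.ofBijective (f i) (hf i)).trans (e i))
  let π : Equiv.Perm (Jn N) := Equiv.sigmaCongrRight σ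
  refine ⟨N, π, fun j => ((e j.1).symm j.2).1, hN, fun j => rfl, ?_, ?_, ?_⟩
  · apply iter_Typ
    rw [Nat.card_eq_fintype_card, Fintype.card_sigma]
    calc ∑ i, Fintype.card (Fin (N i)) ≤ ∑ _i : Fin s, B :=
          Finset.sum_le_sum fun i _ => by
            rw [Fintype.card_fin]
            exact hN i
      _ = s * B := by simp
  · intro i
    refine ⟨fun j => ((e i).symm j).2, fun j j' h => ?_, fun t' ht' => ?_⟩
    · exact (e i).symm.injective (Subtype.ext h)
    · exact ⟨e i ⟨t', ht'⟩, congrArg Subtype.val ((e i).symm_apply_apply ⟨t', ht'⟩)⟩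
  · rintro ⟨i, j⟩ c
    have h1 : (e i).symm (σ i j) = f i ((e i).symm j) := by
      change (e i).symm (e i (f i ((e i).symm j))) = _
      rw [Equiv.symm_apply_apply]
    change ((e i).symm j).1 c ^ p = ((e i).symm (σ i j)).1 c
    rw [h1]

theorem typ_fix (hP : ∀ i, PRD (P i)) {x : α → ZMod p} {N : Fin s → ℕ} {π : Jn N → Jn N}
    (h1 : ∀ j, (π j).1 = j.1) {t : Jn N → κ → AlgebraicClosure (ZMod p)}
    (ht : En P N (AlgebraicClosure (ZMod p))
      (fun i => algebraMap (ZMod p) (AlgebraicClosure (ZMod p)) (x i)) t)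
    (hp : ∀ j c, t j c ^ p = t (π j) c) (i : Fin s) :
    (∃ t' : κ → ZMod p, P i (ZMod p) (Sum.elim x t')) ↔ ∃ j : Fin (N i), π ⟨i, j⟩ = ⟨i, j⟩ := by
  obtain ⟨hm, hinj, hsur⟩ := ht i
  constructor
  · rintro ⟨t', h⟩
    obtain ⟨j, hj⟩ := hsur _ ((base_Typ (hP i) x t').2 h)
    refine ⟨j, ?_⟩
    have h2 : t (π ⟨i, j⟩) = t ⟨i, j⟩ := by
      funext c
      rw [← hp ⟨i, j⟩ c, hj]
      exact fix_Typ (t' c)
    have h3 := h1 ⟨i, j⟩
    generalize π ⟨i, j⟩ = q at h2 h3
    obtain ⟨i', j'⟩ := q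
    have h4 : i' = i := h3
    subst h4
    rw [hinj j' j h2]
  · rintro ⟨j, hj⟩
    have h2 : ∀ c, ∃ r : ZMod p,
        algebraMap (ZMod p) (AlgebraicClosure (ZMod p)) r = t ⟨i, j⟩ c := by
      intro c
      apply CvS.rat_of_pow
      have h3 := hp ⟨i, j⟩ c
      rwa [hj] at h3
    choose r hr using h2
    refine ⟨r, (base_Typ (hP i) x r).1 ?_⟩
    have h4 : (fun c => algebraMap (ZMod p) (AlgebraicClosure (ZMod p)) (r c)) = t ⟨i, j⟩ :=
      funext hr
    rw [h4]
    exact hm j

theorem typ_iff [Finite κ] (hP : ∀ i, PRD (P i)) {B : ℕ} {x : α → ZMod p}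
    (hB : ∀ i, {t | P i (AlgebraicClosure (ZMod p)) (Sum.elim
      (fun i => algebraMap (ZMod p) (AlgebraicClosure (ZMod p)) (x i)) t)}.Finite ∧
      {t | P i (AlgebraicClosure (ZMod p)) (Sum.elim
        (fun i => algebraMap (ZMod p) (AlgebraicClosure (ZMod p)) (x i)) t)}.ncard ≤ B)
    (Φ : (Fin s → Prop) → Prop) :
    Φ (fun i => ∃ t : κ → ZMod p, P i (ZMod p) (Sum.elim x t)) ↔
      ∃ (N : Fin s → Fin (B + 1)) (π : Jn (fun i => (N i : ℕ)) → Jn (fun i => (N i : ℕ))),
        ((∀ j, (π j).1 = j.1) ∧ π^[(s * B).factorial] = id ∧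
          Φ (fun i => ∃ j : Fin (N i : ℕ), π ⟨i, j⟩ = ⟨i, j⟩)) ∧
        ∃ t : Jn (fun i => (N i : ℕ)) → κ → AlgebraicClosure (ZMod p),
          En P (fun i => (N i : ℕ)) (AlgebraicClosure (ZMod p))
            (fun i => algebraMap (ZMod p) (AlgebraicClosure (ZMod p)) (x i)) t ∧
          ∀ j c, t j c ^ p = t (π j) c := by
  constructor
  · intro h
    obtain ⟨N, π, t, hN, h1, h2, h3, h4⟩ := typ_ex hP hB
    refine ⟨fun i => ⟨N i, Nat.lt_succ_of_le (hN i)⟩, π, ⟨h1, h2, ?_⟩, t, h3, h4⟩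
    have h5 : (fun i => ∃ t : κ → ZMod p, P i (ZMod p) (Sum.elim x t)) =
        fun i => ∃ j : Fin (N i), π ⟨i, j⟩ = ⟨i, j⟩ :=
      funext fun i => propext (typ_fix hP h1 h3 h4 i)
    rw [h5] at h
    exact h
  · rintro ⟨N, π, ⟨h1, -, h2⟩, t, h3, h4⟩
    have h5 : (fun i => ∃ t : κ → ZMod p, P i (ZMod p) (Sum.elim x t)) =
        fun i => ∃ j : Fin (N i : ℕ), π ⟨i, j⟩ = ⟨i, j⟩ :=
      funext fun i => propext (typ_fix hP h1 h3 h4 i)
    rw [h5]
    exact h2

end Pool.Agent.CvQ
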