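import Pool.Agent.CvQ.Crv
import Pool.Agent.CvQ.Typ
import Pool.Agent.CvQ.Nf

/-!
# Package CvQ-ExY: one existential quantifier

Complete proof. Let `R` be in `AF`, with `C`, `M` and `S`, and let `nf` give `s`, `κ`,
`P i : FR (((ι ⊕ Unit) ⊕ Ax M) ⊕ κ)`
and `Φ`. All fibres are finite; by `cut` (for the same relations) they have at most `B` elements,
for all
algebraically closed fields and all parameters. Let `M' = max M (s B)!`; pull the `P i` back to
`((ι ⊕ Unit) ⊕ Ax M')` (`incl`; the fibres are the same), `m = (s B)! - 1 < M'`. For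
`N : Fin s → Fin (B + 1)` and
`π : Jn N → Jn N` let `Z' (N, π)` be the `PRD` relation of `prq_qe` for `Zt P N π m` (`zt_prq`),
and let
`Z'' (N, π)` be `cut` of it (the fibres over `((x, y), aux)` are finite, with a uniform bound). Let
`Z (N, π)` be the same relation with the unknowns `Unit ⊕ …` (`y` is moved from the parameters to
the
unknowns), parameters `ι ⊕ Ax M'`: `crv`. Let `S'` be the disjunction over the finitely many
`(N, π)` which are good: `π` preserves the first component, `π^[(s B)!] = id`,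
`Φ (i ↦ ∃ j, π (i, j) = (i, j))`. For `p` large, `x` over `ZMod p` and valid auxiliary parameters:
`∃ y, R (x, y)` iff `∃ y, Φ (i ↦ ∃ t, P i ((x, y), aux, t))` iff (`typ_iff`, `zt_pts`) for some
good `(N, π)` there are
`y` and `u` over `ZMod p` with `Zt` over the algebraic closure, i.e. `Z'` over `ZMod p`, i.e. `Z''`
over `ZMod p`
(the fibre of `Zt` is finite by `zt_fin`), iff `S'`.
-/

set_option autoImplicit false

noncomputable section

namespace Pool.Agent.CvQ

open Polynomial Pool.Agent.PRc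

private theorem prd_ExY {α α' : Type} {P : FR α} (hP : PRD P) (f : α → α') :
    PRD (fun k _ (z : α' → k) => P k (fun j => z (f j))) :=
  hP.comp (G := fun j _ _ z => z (f j)) fun _ => PRF.var _

/-- the relation with more auxiliary parameters -/
private def pb_ExY {β κ : Type} {M M' : ℕ} (h : M ≤ M') (P : FR ((β ⊕ Ax M) ⊕ κ)) :
    FR ((β ⊕ Ax M') ⊕ κ) :=
  fun k _ z => P k (fun j => z (Sum.map (Sum.map id (incl h)) id j))

private theorem pb_apply_ExY {β κ : Type} {M M' : ℕ} (h : M ≤ M') (P : FR ((β ⊕ Ax M) ⊕ κ))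
    (k : Type) [Field k] (x : β ⊕ Ax M' → k) (t : κ → k) :
    pb_ExY h P k (Sum.elim x t) ↔
      P k (Sum.elim (Sum.elim (fun j => x (Sum.inl j)) fun j => x (Sum.inr (incl h j))) t) := by
  unfold pb_ExY
  have : (fun j => Sum.elim x t (Sum.map (Sum.map id (incl h)) id j)) =
      Sum.elim (Sum.elim (fun j => x (Sum.inl j)) fun j => x (Sum.inr (incl h j))) t := by
    funext j
    rcases j with (j | j) | j <;> rfl
  rw [this]

/-- the variables `x, y, u; v` as `x, u; y, v` -/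
private def mv_ExY {ι A U : Type} : ((ι ⊕ Unit) ⊕ A) ⊕ U → (ι ⊕ A) ⊕ (Unit ⊕ U)
  | Sum.inl (Sum.inl (Sum.inl i)) => Sum.inl (Sum.inl i)
  | Sum.inl (Sum.inl (Sum.inr _)) => Sum.inr (Sum.inl ())
  | Sum.inl (Sum.inr a) => Sum.inl (Sum.inr a)
  | Sum.inr u => Sum.inr (Sum.inr u)

private theorem mv_elim_ExY {ι A U k : Type} (x : ι ⊕ A → k) (b : k) (v : U → k) :
    (fun j => Sum.elim x (Sum.elim (fun _ : Unit => b) v) (mv_ExY j)) =
      Sum.elim (Sum.elim (Sum.elim (fun i => x (Sum.inl i)) fun _ => b) fun a => x (Sum.inr a))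
        v := by
  funext j
  rcases j with ((j | j) | j) | j <;> rfl

private theorem bound_ExY {α κ : Type} [Finite κ] {s : ℕ} {P : Fin s → FR (α ⊕ κ)}
    (hP : ∀ i, PRD (P i)) (hf : ∀ i, FnF (P i)) : ∃ B : ℕ, ∀ (i : Fin s) (K : Type) [Field K]
      [IsAlgClosed K] (x : α → K), {t : κ → K | P i K (Sum.elim x t)}.Finite ∧
        {t : κ → K | P i K (Sum.elim x t)}.ncard ≤ B := by
  choose B P' h1 h2 h3 using fun i => cut (hP i)
  refine ⟨∑ i, B i, fun i K _ _ x => ⟨hf i K x, ?_⟩⟩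
  have e : {t : κ → K | P i K (Sum.elim x t)} = {t : κ → K | P' i K (Sum.elim x t)} := by
    ext t
    have := h3 i K K (RingHom.id K) x t
    simp only [RingHom.id_apply] at this
    exact ⟨fun h => this.2 ⟨h, hf i K x⟩, fun h => (this.1 h).1⟩
  rw [e]
  exact (h2 i K x).2.trans (Finset.single_le_sum (f := B) (fun _ _ => Nat.zero_le _)
    (Finset.mem_univ i))

/-- one pair `(N, π)` -/
private theorem one_ExY (W : Wl) {ι κ : Type} [Finite κ] {s M : ℕ}
    {P : Fin s → FR (((ι ⊕ Unit) ⊕ Ax M) ⊕ κ)} (hP : ∀ i, PRD (P i)) (hf : ∀ i, FnF (P i))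
    (N : Fin s → ℕ) (π : Jn N → Jn N) (m : Fin M) (hπ : π^[(m : ℕ) + 1] = id) :
    ∃ (C : ℕ) (S : GR (ι ⊕ Ax M)), BF S ∧ ∀ (p : ℕ) [Fact p.Prime], C < p →
      ∀ (a : ι → ZMod p) (u : Ax M → ZMod p), Vx p u →
      ((∃ y : ZMod p, ∃ t : Jn N → κ → AlgebraicClosure (ZMod p),
        En P N (AlgebraicClosure (ZMod p)) (fun i => algebraMap (ZMod p)
          (AlgebraicClosure (ZMod p)) (Sum.elim (Sum.elim a fun _ => y) u i)) t ∧
          ∀ j c, t j c ^ p = t (π j) c) ↔ S p (Sum.elim a u)) := by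
  obtain ⟨Q, hQ, hQe⟩ := prq_qe (zt_prq (N := N) (π := π) (m := m) hP)
  obtain ⟨B, Q', hQ', hb, hc⟩ := cut hQ
  have hZ := prd_ExY hQ' mv_ExY
  obtain ⟨C, S, hS, hC⟩ := crv W hZ (B := B) (fun K _ _ x b => by
    have := hb K (Sum.elim (Sum.elim (fun i => x (Sum.inl i)) fun _ => b)
      fun a => x (Sum.inr a))
    simp only [mv_elim_ExY]
    exact this)
  refine ⟨C, S, hS, fun p _ hp a u hu => ?_⟩
  rw [← hC p hp (Sum.elim a u)]
  have key : ∀ y : ZMod p, (∃ t : Jn N → κ → AlgebraicClosure (ZMod p),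
        En P N (AlgebraicClosure (ZMod p)) (fun i => algebraMap (ZMod p)
          (AlgebraicClosure (ZMod p)) (Sum.elim (Sum.elim a fun _ => y) u i)) t ∧
          ∀ j c, t j c ^ p = t (π j) c) ↔
      ∃ v : (Jn N × κ) × Fin ((m : ℕ) + 1) → ZMod p,
        Q' (ZMod p) (Sum.elim (Sum.elim (Sum.elim a fun _ => y) u) v) := by
    intro y
    rw [← zt_pts (m := m) hπ (x := Sum.elim (Sum.elim a fun _ => y) u) hu]
    refine exists_congr fun v => ?_
    rw [hc (ZMod p) (AlgebraicClosure (ZMod p))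
      (algebraMap (ZMod p) (AlgebraicClosure (ZMod p))) _ v,
      hQe (ZMod p) (AlgebraicClosure (ZMod p))
      (algebraMap (ZMod p) (AlgebraicClosure (ZMod p)))]
    refine (and_iff_left ?_).symm
    have e1 : (fun i => algebraMap (ZMod p) (AlgebraicClosure (ZMod p))
        (Sum.elim (Sum.elim a fun _ => y) u i)) =
        Sum.elim (fun i => algebraMap (ZMod p) (AlgebraicClosure (ZMod p))
          (Sum.elim a (fun _ : Unit => y) i)) fun i =>
            algebraMap (ZMod p) (AlgebraicClosure (ZMod p)) (u i) := by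
      funext i
      rcases i with i | i <;> rfl
    rw [e1]
    have h2 := zt_fin (N := N) (π := π) (m := m) (P := P) (b := fun i =>
      algebraMap (ZMod p) (AlgebraicClosure (ZMod p)) (Sum.elim a (fun _ : Unit => y) i)) hu
      fun i => hf i _ _
    refine h2.subset fun z hz => ?_
    have := hQe (AlgebraicClosure (ZMod p)) (AlgebraicClosure (ZMod p)) (RingHom.id _)
      (Sum.elim (Sum.elim (fun i => algebraMap (ZMod p) (AlgebraicClosure (ZMod p))
          (Sum.elim a (fun _ : Unit => y) i)) fun i =>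
            algebraMap (ZMod p) (AlgebraicClosure (ZMod p)) (u i)) z)
    exact this.1 hz
  simp only [key]
  constructor
  · rintro ⟨y, v, h⟩
    refine ⟨Sum.elim (fun _ => y) v, ?_⟩
    rw [mv_elim_ExY]
    exact h
  · rintro ⟨z, h⟩
    refine ⟨z (Sum.inl ()), fun v => z (Sum.inr v), ?_⟩
    have e2 : z = Sum.elim (fun _ : Unit => z (Sum.inl ())) fun v => z (Sum.inr v) := by
      funext j
      rcases j with j | j <;> rfl
    rw [e2, mv_elim_ExY] at h
    exact h

theorem ex_y (W : Wl) {ι : Type} {R : FR (ι ⊕ Unit)} (h : AF R) :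
    AF (fun k _ (x : ι → k) => ∃ y : k, R k (Sum.elim x fun _ => y)) := by
  obtain ⟨C₀, M, S, hS, hR⟩ := h
  obtain ⟨s, κ, hκ, P, Φ, hP, hf, hΦ⟩ := nf hS
  obtain ⟨B, hB⟩ := bound_ExY hP hf
  have hM : M ≤ max M (s * B).factorial := le_max_left _ _
  set M' := max M (s * B).factorial with hM'
  obtain ⟨m, hm⟩ : ∃ m : Fin M', (m : ℕ) + 1 = (s * B).factorial := by
    have h1 := Nat.factorial_pos (s * B)
    have h2 : (s * B).factorial ≤ M' := le_max_right _ _
    exact ⟨⟨(s * B).factorial - 1, by omega⟩, by simp only; omega⟩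
  have hP' : ∀ i, PRD (pb_ExY hM (P i)) := fun i => prd_ExY (hP i) _
  have hB' : ∀ (i : Fin s) (K : Type) [Field K] [IsAlgClosed K]
      (x : (ι ⊕ Unit) ⊕ Ax M' → K), {t : κ → K | pb_ExY hM (P i) K (Sum.elim x t)}.Finite ∧
        {t : κ → K | pb_ExY hM (P i) K (Sum.elim x t)}.ncard ≤ B := by
    intro i K _ _ x
    simp only [pb_apply_ExY]
    exact hB i K _
  have hf' : ∀ i, FnF (pb_ExY hM (P i)) := fun i K _ _ x => (hB' i K x).1
  let Q := {q : Σ N : Fin s → Fin (B + 1),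
    (Jn (fun i => (N i : ℕ)) → Jn (fun i => (N i : ℕ))) //
      (∀ j, (q.2 j).1 = j.1) ∧ q.2^[(s * B).factorial] = id ∧
        Φ (fun i => ∃ j : Fin (q.1 i : ℕ), q.2 ⟨i, j⟩ = ⟨i, j⟩)}
  have hone := fun q : Q => one_ExY W hP' hf' (fun i => (q.1.1 i : ℕ)) q.1.2 m
    (by rw [hm]; exact q.2.2.1)
  choose C₁ S₁ h1 h2 using hone
  have hfin : Finite Q := inferInstance
  obtain ⟨C₂, hC₂⟩ := (Set.finite_range C₁).bddAbove
  refine ⟨max C₀ C₂, M', fun p _ x => ∃ q : Q, S₁ q p x, bf_any h1, fun p _ hp a u hu => ?_⟩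
  have hp0 : C₀ < p := lt_of_le_of_lt (le_max_left _ _) hp
  have hp1 : ∀ q, C₁ q < p := fun q => lt_of_le_of_lt
    ((hC₂ ⟨q, rfl⟩).trans (le_max_right _ _)) hp
  have e1 : ∀ y : ZMod p, R (ZMod p) (Sum.elim a fun _ => y) ↔
      ∃ q : Q, ∃ t : Jn (fun i => (q.1.1 i : ℕ)) → κ → AlgebraicClosure (ZMod p),
        En (fun i => pb_ExY hM (P i)) (fun i => (q.1.1 i : ℕ)) (AlgebraicClosure (ZMod p))
          (fun i => algebraMap (ZMod p) (AlgebraicClosure (ZMod p))
            (Sum.elim (Sum.elim a fun _ => y) u i)) t ∧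
          ∀ j c, t j c ^ p = t (q.1.2 j) c := by
    intro y
    rw [hR p hp0 _ _ (vx_mono hM hu), hΦ]
    have e2 : (fun i => ∃ t : κ → ZMod p, P i (ZMod p)
        (Sum.elim (Sum.elim (Sum.elim a fun _ => y) fun j => u (incl hM j)) t)) =
        fun i => ∃ t : κ → ZMod p, pb_ExY hM (P i) (ZMod p)
          (Sum.elim (Sum.elim (Sum.elim a fun _ => y) u) t) := by
      funext i
      simp only [pb_apply_ExY, Sum.elim_inl, Sum.elim_inr]
    rw [e2, typ_iff hP' (B := B) (fun i => hB' i _ _) Φ]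
    constructor
    · rintro ⟨N, π, hg, t, ht⟩
      exact ⟨⟨⟨N, π⟩, hg⟩, t, ht⟩
    · rintro ⟨q, t, ht⟩
      exact ⟨q.1.1, q.1.2, q.2, t, ht⟩
  simp only [e1]
  rw [exists_comm]
  exact exists_congr fun q => h2 q p (hp1 q) a u hu

end Pool.Agent.CvQ
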