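import Pool.Agent.CvQ.DimD

/-!
# Formulas in the rings `ZMod m`, `m` squarefree: definitions

ALL CURVES, stage 4, final form (`MP_a56640_lc`). By Feferman and Vaught the truth of a first-order formula
in the ring `ZMod m`, `m` squarefree, depends only on the capped numbers of the primes `p` dividing `m`
with certain first-order properties of `ZMod p`.

* `FP θ p x`: `p` is a prime and the relation `θ` holds in `ZMod p` for the residues of the numbers `x`;
* `Prt θ`: in every field, for all arguments, exactly one of the relations `θ i` holds;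
* `cap B θ m x`: the numbers of the prime divisors `p` of `m` with `θ i`, capped at `B`;
* `FV R`: the relation `R m x` (`m` squarefree) has a Feferman-Vaught normal form;
* `rf φ m x`: the formula `φ` holds in the ring `ZMod m`;
* `CW P N B A`: the sum of the `∏ p, N (σ p) p` over the `σ : P → Fin k` such that the capped numbers of the
  elements of the fibres are in `A`;
* `GW P N B I J c`: the same for the `σ` with exactly `c i` elements in the fibre of `i`, `i ∈ I`, and at least `B`
  elements in the fibre of `j`, `j ∈ J`;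
* `hv`: see `CvQ/Cmb.lean`;
* `SNR m c φ a`: the number of the solutions modulo `m` for which `φ` holds in the ring `ZMod m`.
-/

set_option autoImplicit false

noncomputable section

namespace Pool.Agent.CvQ

open Finset Polynomial Pool.Agent.PRc Pool.Agent.Grz Pool.Agent.CvS FirstOrder

/-- the relation holds modulo the prime `p` -/
def FP {ι : Type} (θ : FR ι) (p : ℕ) (x : ι → ℕ) : Prop :=
  ∃ h : p.Prime, haveI := Fact.mk h; θ (ZMod p) (fun i => (x i : ZMod p))

/-- exactly one of the relations holds -/
def Prt {ι : Type} {k : ℕ} (θ : Fin k → FR ι) : Prop :=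
  ∀ (K : Type) [Field K] (x : ι → K), ∃! i, θ i K x

open scoped Classical in
/-- capped numbers of the prime divisors of `m` with `θ i` -/
def cap {ι : Type} {k : ℕ} (B : ℕ) (θ : Fin k → FR ι) (m : ℕ) (x : ι → ℕ) : Fin k → ℕ :=
  fun i => min B #{p ∈ m.primeFactors | FP (θ i) p x}

/-- Feferman-Vaught normal form -/
def FV {ι : Type} (R : ℕ → (ι → ℕ) → Prop) : Prop :=
  ∃ (k B : ℕ) (θ : Fin k → FR ι) (A : Set (Fin k → ℕ)), (∀ i, PRQ (θ i)) ∧ Prt θ ∧
    ∀ m, Squarefree m → ∀ x, R m x ↔ cap B θ m x ∈ A

/-- the formula holds in the ring `ZMod m` -/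
def rf {α : Type} (φ : Language.ring.Formula α) (m : ℕ) (x : α → ℕ) : Prop :=
  letI := FirstOrder.Ring.compatibleRingOfRing (ZMod m)
  φ.Realize (fun i => (x i : ZMod m))

open scoped Classical in
/-- weighted number of the functions with capped numbers of elements in the fibres in `A` -/
def CW {k : ℕ} (P : Finset ℕ) (N : Fin k → ℕ → ℕ) (B : ℕ) (A : Set (Fin k → ℕ)) : ℕ :=
  ∑ σ : P → Fin k, if (fun i => min B #{p | σ p = i}) ∈ A then ∏ p, N (σ p) p else 0

open scoped Classical in
/-- weighted number of the functions with conditions on the numbers of elements in the fibres -/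
def GW {k : ℕ} (P : Finset ℕ) (N : Fin k → ℕ → ℕ) (B : ℕ) (I J : Finset (Fin k)) (c : Fin k → ℕ) :
    ℕ :=
  ∑ σ : P → Fin k, if (∀ i ∈ I, #{p | σ p = i} = c i) ∧ (∀ j ∈ J, B ≤ #{p | σ p = j}) then
    ∏ p, N (σ p) p else 0

/-- weight of `p`: `N (τ l) p` if `p = q l`, and the sum of the `N j p`, `j ∉ I`, if `p` is not in the range -/
def hv {k t : ℕ} (N : Fin k → ℕ → ℕ) (I : Finset (Fin k)) (τ : Fin t → Fin k) (q : Fin t → ℕ)
    (p : ℕ) : ℕ :=
  (∑ l, if q l = p then N (τ l) p else 0) + if ∀ l, q l ≠ p then ∑ j ∈ Iᶜ, N j p else 0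

open scoped Classical in
/-- the number of the solutions modulo `m` with the property `φ` in the ring `ZMod m` -/
def SNR {n d r k : ℕ} (m : ℕ) (c : Fin r → (Fin n → Fin (d + 1)) → ℕ)
    (φ : Language.ring.Formula (Fin n ⊕ Fin k)) (a : Fin k → ℕ) : ℕ :=
  #{z ∈ Fintype.piFinset fun _ : Fin n => range m | (∀ l, m ∣ sval (c l) z) ∧
    rf φ m (Sum.elim z a)}

end Pool.Agent.CvQ
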