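import Pool.Agent.CvQ.FvX

/-!
# Package CvQ-FvF: the theorem of Feferman and Vaught for the rings `ZMod m`, `m` squarefree

Complete proof. Induction on bounded formulas `φ : Language.ring.BoundedFormula α n`: the relation
`m, x : α ⊕ Fin n → ℕ ↦ φ.Realize (x ∘ Sum.inl) (x ∘ Sum.inr)` (casts to `ZMod m`, structure
`FirstOrder.Ring.compatibleRingOfRing (ZMod m)`) is `FV`.

* `falsum`: `fv_and` of a relation and its negation (`fv_prime PRQ...`), `fv_congr`.
* `equal t₁ t₂`: for squarefree `m` two elements of `ZMod m` are equal iff their images in `ZMod p` are equal for all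
  primes `p` dividing `m` (`Squarefree`: `Nat.squarefree...`, the product of the prime divisors is `m`,
  `Finset.prod_primes_dvd`); the ring homomorphism `ZMod.castHom` commutes with the realization of terms
  (induction on terms; or: both sides are values of a polynomial with integer coefficients,
  `FirstOrder.Ring.realize_termOfFreeCommRing` is the opposite direction). So it is `fv_prime` for the relation of the formula
  `t₁ = t₂` (`fo_prq` for the formula `Term.equal t₁ t₂ : Language.ring.Formula (α ⊕ Fin n)`, `PRQ.congr`).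
* no relation symbols; `imp`: `¬ (R ∧ ¬ R')`.
* `all`: `∀ y : ZMod m`; `m ≠ 0`, every element is the cast of a natural number (`ZMod.natCast_zmod_val`); `fv_not`,
  `fv_ex`, `fv_comp` (`Fin.snoc`).
-/

set_option autoImplicit false

noncomputable section

namespace Pool.Agent.CvQ

open Finset Pool.Agent.PRc FirstOrder

/-- the value of a term in a ring -/
private def tm_FvF {α : Type} (t : Language.ring.Term α) (K : Type) [CommRing K] (x : α → K) :
    K :=
  letI := FirstOrder.Ring.compatibleRingOfRing K
  t.realize x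

private theorem tm_hom_FvF {α : Type} (t : Language.ring.Term α) {K L : Type} [CommRing K]
    [CommRing L] (f : K →+* L) (x : α → K) :
    f (tm_FvF t K x) = tm_FvF t L (fun i => f (x i)) := by
  induction t with
  | var i => rfl
  | func g ts ih =>
    cases g with
    | add =>
      show f (tm_FvF (ts 0) K x + tm_FvF (ts 1) K x) =
        tm_FvF (ts 0) L (fun i => f (x i)) + tm_FvF (ts 1) L (fun i => f (x i))
      rw [map_add, ih 0, ih 1]
    | mul =>
      show f (tm_FvF (ts 0) K x * tm_FvF (ts 1) K x) =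
        tm_FvF (ts 0) L (fun i => f (x i)) * tm_FvF (ts 1) L (fun i => f (x i))
      rw [map_mul, ih 0, ih 1]
    | neg =>
      show f (-tm_FvF (ts 0) K x) = -tm_FvF (ts 0) L (fun i => f (x i))
      rw [map_neg, ih 0]
    | zero =>
      show f 0 = 0
      exact map_zero f
    | one =>
      show f 1 = 1
      exact map_one f

private theorem eq_iff_FvF {m : ℕ} (hm : Squarefree m) (a b : ZMod m) :
    a = b ↔ ∀ p, ∀ h : p ∣ m, p.Prime → ZMod.castHom h (ZMod p) a = ZMod.castHom h (ZMod p) b := by
  have : NeZero m := ⟨hm.ne_zero⟩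
  constructor
  · intro h p _ _
    rw [h]
  · intro h
    rw [← sub_eq_zero, ← ZMod.natCast_zmod_val (a - b), ZMod.natCast_eq_zero_iff]
    generalize hv : (a - b).val = v
    have h0 := Nat.prod_primeFactors_of_squarefree hm
    refine h0 ▸ Finset.prod_primes_dvd _ (fun p hp => (Nat.prime_of_mem_primeFactors hp).prime)
      fun p hp => ?_
    rw [← hv]
    have hp' := Nat.prime_of_mem_primeFactors hp
    have hd := Nat.dvd_of_mem_primeFactors hp
    have h1 := h p hd hp'
    rw [← sub_eq_zero, ← map_sub, ← ZMod.natCast_zmod_val (a - b), map_natCast,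
      ZMod.natCast_eq_zero_iff] at h1
    exact h1

/-- the relation defined by a bounded formula in the rings `ZMod m` -/
private def bf_FvF {α : Type} {n : ℕ} (φ : Language.ring.BoundedFormula α n) (m : ℕ)
    (x : α ⊕ Fin n → ℕ) : Prop :=
  letI := FirstOrder.Ring.compatibleRingOfRing (ZMod m)
  φ.Realize (fun i => (x (Sum.inl i) : ZMod m)) (fun j => (x (Sum.inr j) : ZMod m))

private theorem bf_fv_FvF {α : Type} {n : ℕ} (φ : Language.ring.BoundedFormula α n) :
    FV (bf_FvF φ) := by
  induction φ with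
  | @falsum n =>
    have h := fv_prime (ι := α ⊕ Fin n) (PRQ.base PRD.false)
    refine fv_congr (fun m _ x => ?_) (fv_and h (fv_not h))
    exact ⟨fun h => h.2 h.1, fun h => False.elim h⟩
  | @equal n t₁ t₂ =>
    refine fv_congr (fun m hm x => ?_) (fv_prime (fo_prq (Language.Term.equal t₁ t₂)))
    have e : Sum.elim (fun i => (x (Sum.inl i) : ZMod m)) (fun j => (x (Sum.inr j) : ZMod m)) =
        fun i => (x i : ZMod m) := by
      funext i
      rcases i with i | i <;> rfl
    have h1 : bf_FvF (Language.BoundedFormula.equal t₁ t₂) m x ↔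
        tm_FvF t₁ (ZMod m) (fun i => (x i : ZMod m)) =
          tm_FvF t₂ (ZMod m) (fun i => (x i : ZMod m)) := by
      let _ := FirstOrder.Ring.compatibleRingOfRing (ZMod m)
      show t₁.realize (Sum.elim _ _) = t₂.realize (Sum.elim _ _) ↔ t₁.realize _ = t₂.realize _
      rw [e]
    rw [h1, eq_iff_FvF hm]
    have h2 : ∀ p, ∀ h : p ∣ m, p.Prime → (FP (fo (Language.Term.equal t₁ t₂)) p x ↔
        ZMod.castHom h (ZMod p) (tm_FvF t₁ (ZMod m) (fun i => (x i : ZMod m))) =
          ZMod.castHom h (ZMod p) (tm_FvF t₂ (ZMod m) (fun i => (x i : ZMod m)))) := by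
      intro p h hp
      have := Fact.mk hp
      rw [tm_hom_FvF, tm_hom_FvF]
      simp only [map_natCast]
      have h3 : FP (fo (Language.Term.equal t₁ t₂)) p x ↔
          fo (Language.Term.equal t₁ t₂) (ZMod p) (fun i => (x i : ZMod p)) :=
        ⟨fun h => h.2, fun h => ⟨hp, h⟩⟩
      rw [h3]
      let _ := FirstOrder.Ring.compatibleRingOfRing (ZMod p)
      exact Language.Formula.realize_equal
    exact ⟨fun H p h hp => (h2 p h hp).1 (H p hp h), fun H p hp h => (h2 p h hp).2 (H p h hp)⟩
  | rel R ts => exact R.elim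
  | imp φ ψ ih₁ ih₂ =>
    refine fv_congr (fun m _ x => ?_) (fv_not (fv_and ih₁ (fv_not ih₂)))
    have h1 : bf_FvF (φ.imp ψ) m x ↔ (bf_FvF φ m x → bf_FvF ψ m x) := Iff.rfl
    rw [h1]
    tauto
  | @all n φ ih =>
    have h1 := fv_not (fv_ex (fv_not (fv_comp ih (ι' := (α ⊕ Fin n) ⊕ Unit) (Sum.elim
      (fun i => Sum.inl (Sum.inl i)) (Fin.snoc (α := fun _ => (α ⊕ Fin n) ⊕ Unit)
        (fun j => Sum.inl (Sum.inr j)) (Sum.inr ()))))))
    refine fv_congr (fun m hm x => ?_) h1
    have : NeZero m := ⟨hm.ne_zero⟩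
    let _ := FirstOrder.Ring.compatibleRingOfRing (ZMod m)
    have h2 : bf_FvF φ.all m x ↔ ∀ y : ZMod m, φ.Realize
        (fun i => (x (Sum.inl i) : ZMod m))
        (Fin.snoc (α := fun _ => ZMod m) (fun j => (x (Sum.inr j) : ZMod m)) y) := Iff.rfl
    rw [h2]
    have h3 : ∀ y : ℕ, bf_FvF φ m (fun i => Sum.elim x (fun _ : Unit => y) (Sum.elim
        (fun i => Sum.inl (Sum.inl i)) (Fin.snoc (α := fun _ => (α ⊕ Fin n) ⊕ Unit)
        (fun j => Sum.inl (Sum.inr j)) (Sum.inr ())) i)) ↔ φ.Realize
        (fun i => (x (Sum.inl i) : ZMod m))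
        (Fin.snoc (α := fun _ => ZMod m) (fun j => (x (Sum.inr j) : ZMod m)) (y : ZMod m)) := by
      intro y
      have e : (fun j : Fin (n + 1) => ((Sum.elim x (fun _ : Unit => y)
          ((Fin.snoc (α := fun _ => (α ⊕ Fin n) ⊕ Unit)
            (fun j => Sum.inl (Sum.inr j)) (Sum.inr ()) : Fin (n + 1) → (α ⊕ Fin n) ⊕ Unit) j) :
            ℕ) : ZMod m)) =
          Fin.snoc (α := fun _ => ZMod m) (fun j => (x (Sum.inr j) : ZMod m)) (y : ZMod m) := by
        funext j
        refine Fin.lastCases ?_ (fun j => ?_) j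
        · rw [Fin.snoc_last, Fin.snoc_last]
          rfl
        · rw [Fin.snoc_castSucc, Fin.snoc_castSucc]
          rfl
      rw [← e]
      rfl
    constructor
    · intro h y
      by_contra hy
      refine h ⟨y.val, fun hv => hy ?_⟩
      have := (h3 y.val).1 hv
      rwa [ZMod.natCast_zmod_val] at this
    · rintro h ⟨y, hy⟩
      exact hy ((h3 y).2 (h y))

theorem rf_fv {α : Type} (φ : Language.ring.Formula α) : FV (rf φ) := by
  have h1 := fv_comp (bf_fv_FvF φ) (ι' := α) (Sum.elim (fun i => i) (fun j => j.elim0))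
  refine fv_congr (fun m _ x => ?_) h1
  let _ := FirstOrder.Ring.compatibleRingOfRing (ZMod m)
  have e : ∀ y z : Fin 0 → ZMod m, Language.BoundedFormula.Realize φ (fun i => (x i : ZMod m)) y ↔
      Language.BoundedFormula.Realize φ (fun i => (x i : ZMod m)) z :=
    fun y z => by rw [Subsingleton.elim y z]
  exact e _ _

end Pool.Agent.CvQ
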