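import Pool.Agent.CvQ.FvD

/-!
# Package CvQ-FvL: closure properties of the normal forms

Complete proofs. `fv_congr`: by definition.

* `fv_prime`: `k = 2`, `B = 1`, `θ 0 = θ`, `θ 1 = ¬ θ` (`PRQ.not`), `A = {c | c 1 = 0}`: `min 1 n = 0` iff `n = 0`.
* `fv_not`: the complement of `A`.
* `fv_and`: index set `Fin k × Fin k'` (`finProdFinEquiv`), relations `θ i ∧ θ' j` (`PRQ.and`), `B'' = B + B'`: the prime
  divisors with `θ i` are the disjoint union over `j` of those with `θ i ∧ θ' j` (`Prt θ'`), and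
  `min B (∑ j, n j) = min B (∑ j, min B'' (n j))` if `B ≤ B''`; `A'' = {c | (i ↦ min B (∑ j, c (i, j))) ∈ A ∧ (j ↦ min B'
  (∑ i, c (i, j))) ∈ A'}`.
* `fv_comp`: the relations `θ i` for the arguments `x ∘ f` (`PRQ.comp` with variables).
-/

set_option autoImplicit false

noncomputable section

namespace Pool.Agent.CvQ

open Finset Pool.Agent.PRc

variable {ι ι' : Type}

theorem fv_congr {R R' : ℕ → (ι → ℕ) → Prop} (h : ∀ m, Squarefree m → ∀ x, R m x ↔ R' m x)
    (hR : FV R) : FV R' := by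
  obtain ⟨k, B, θ, A, h1, h2, h3⟩ := hR
  exact ⟨k, B, θ, A, h1, h2, fun m hm x => (h m hm x).symm.trans (h3 m hm x)⟩

private theorem fp_not {θ : FR ι} {p : ℕ} (hp : p.Prime) (x : ι → ℕ) :
    FP (fun K _ y => ¬ θ K y) p x ↔ ¬ FP θ p x := by
  constructor
  · rintro ⟨_, h⟩ ⟨_, h'⟩
    exact h h'
  · intro h
    exact ⟨hp, fun h' => h ⟨hp, h'⟩⟩

private theorem fp_and {θ θ' : FR ι} {p : ℕ} (x : ι → ℕ) :
    FP (fun K _ y => θ K y ∧ θ' K y) p x ↔ FP θ p x ∧ FP θ' p x := by
  constructor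
  · rintro ⟨hp, h, h'⟩
    exact ⟨⟨hp, h⟩, ⟨hp, h'⟩⟩
  · rintro ⟨⟨hp, h⟩, ⟨_, h'⟩⟩
    exact ⟨hp, h, h'⟩

private theorem fp_ex {k : ℕ} {θ : Fin k → FR ι} (hθ : Prt θ) {p : ℕ} (hp : p.Prime)
    (x : ι → ℕ) : ∃! i, FP (θ i) p x := by
  have := Fact.mk hp
  obtain ⟨i, hi, hu⟩ := hθ (ZMod p) (fun i => (x i : ZMod p))
  refine ⟨i, ⟨hp, hi⟩, ?_⟩
  rintro j ⟨_, hj⟩
  exact hu j hj

theorem fv_prime {θ : FR ι} (h : PRQ θ) :
    FV (fun m (x : ι → ℕ) => ∀ p, p.Prime → p ∣ m → FP θ p x) := by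
  classical
  refine ⟨2, 1, fun i => if i = 0 then θ else fun K _ y => ¬ θ K y, {c | c 1 = 0}, ?_, ?_, ?_⟩
  · intro i
    by_cases hi : i = 0
    · simp only [hi, if_true]
      exact h
    · simp only [hi, if_false]
      exact h.not
  · intro K _ x
    by_cases hx : θ K x
    · refine ⟨0, hx, ?_⟩
      intro j hj
      by_contra hne
      simp only [hne, if_false] at hj
      exact hj hx
    · refine ⟨1, hx, ?_⟩
      intro j hj
      by_contra hne
      have h0 : j = 0 := by omega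
      simp only [h0, if_true] at hj
      exact hx hj
  · intro m hm x
    have hm0 : m ≠ 0 := hm.ne_zero
    have e1 : (1 : Fin 2) ≠ 0 := by decide
    show _ ↔ min 1 _ = 0
    simp only [e1, if_false]
    have e2 : ∀ n : ℕ, min 1 n = 0 ↔ n = 0 := by
      intro n
      omega
    rw [e2, Finset.card_eq_zero, Finset.filter_eq_empty_iff]
    constructor
    · intro hA p hp
      rw [Nat.mem_primeFactors] at hp
      rw [fp_not hp.1, not_not]
      exact hA p hp.1 hp.2.1
    · intro hA p hp hd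
      have := hA (Nat.mem_primeFactors.2 ⟨hp, hd, hm0⟩)
      rwa [fp_not hp, not_not] at this

theorem fv_not {R : ℕ → (ι → ℕ) → Prop} (h : FV R) : FV (fun m x => ¬ R m x) := by
  obtain ⟨k, B, θ, A, h1, h2, h3⟩ := h
  exact ⟨k, B, θ, Aᶜ, h1, h2, fun m hm x => not_congr (h3 m hm x)⟩

private theorem min_sum {k : ℕ} (B B' : ℕ) (n : Fin k → ℕ) (h : B ≤ B') :
    min B (∑ j, min B' (n j)) = min B (∑ j, n j) := by
  by_cases hn : ∀ j, n j ≤ B'
  · rw [Finset.sum_congr rfl fun j _ => min_eq_right (hn j)]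
  · push Not at hn
    obtain ⟨j, hj⟩ := hn
    have h1 : min B' (n j) ≤ ∑ j, min B' (n j) :=
      Finset.single_le_sum (f := fun j => min B' (n j)) (fun _ _ => Nat.zero_le _)
        (Finset.mem_univ j)
    have h2 : n j ≤ ∑ j, n j :=
      Finset.single_le_sum (f := n) (fun _ _ => Nat.zero_le _) (Finset.mem_univ j)
    rw [min_eq_left hj.le] at h1
    rw [min_eq_left (h.trans h1), min_eq_left (h.trans (hj.le.trans h2))]

open scoped Classical in
private theorem card_split {k : ℕ} (s : Finset ℕ) (P : ℕ → Prop) (Q : Fin k → ℕ → Prop)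
    (h : ∀ p ∈ s, ∃! j, Q j p) : ∑ j, #{p ∈ s | P p ∧ Q j p} = #{p ∈ s | P p} := by
  simp only [Finset.card_filter]
  rw [Finset.sum_comm]
  refine Finset.sum_congr rfl fun p hp => ?_
  obtain ⟨j, hj, hu⟩ := h p hp
  rw [Finset.sum_eq_single j]
  · simp [hj]
  · intro i _ hi
    have : ¬ Q i p := fun hq => hi (hu i hq)
    simp [this]
  · intro hj'
    exact absurd (Finset.mem_univ j) hj'

theorem fv_and {R R' : ℕ → (ι → ℕ) → Prop} (h : FV R) (h' : FV R') :
    FV (fun m x => R m x ∧ R' m x) := by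
  classical
  obtain ⟨k, B, θ, A, h1, h2, h3⟩ := h
  obtain ⟨k', B', θ', A', h1', h2', h3'⟩ := h'
  let e : Fin k × Fin k' ≃ Fin (k * k') := finProdFinEquiv
  refine ⟨k * k', B + B', fun l K _ y => θ (e.symm l).1 K y ∧ θ' (e.symm l).2 K y,
    {c | (fun i => min B (∑ j, c (e (i, j)))) ∈ A ∧
      (fun j => min B' (∑ i, c (e (i, j)))) ∈ A'}, ?_, ?_, ?_⟩
  · intro l
    exact (h1 _).and (h1' _)
  · intro K _ x
    obtain ⟨i, hi, hu⟩ := h2 K x
    obtain ⟨j, hj, hv⟩ := h2' K x
    refine ⟨e (i, j), ?_, ?_⟩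
    · simp only [Equiv.symm_apply_apply]
      exact ⟨hi, hj⟩
    · rintro l ⟨hl, hl'⟩
      rw [← e.apply_symm_apply l]
      congr 1
      exact Prod.ext (hu _ hl) (hv _ hl')
  · intro m hm x
    have E : ∀ i j, cap (B + B') (fun l K _ y => θ (e.symm l).1 K y ∧ θ' (e.symm l).2 K y)
        m x (e (i, j)) = min (B + B') #{p ∈ m.primeFactors | FP (θ i) p x ∧ FP (θ' j) p x} := by
      intro i j
      show min (B + B') _ = _
      simp only [Equiv.symm_apply_apply, fp_and]
    have hA : (fun i => min B (∑ j, cap (B + B')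
        (fun l K _ y => θ (e.symm l).1 K y ∧ θ' (e.symm l).2 K y) m x (e (i, j)))) =
        cap B θ m x := by
      funext i
      simp only [E]
      rw [min_sum B (B + B') _ (Nat.le_add_right B B'),
        card_split m.primeFactors (fun p => FP (θ i) p x) (fun j p => FP (θ' j) p x)
          fun p hp => fp_ex h2' (Nat.prime_of_mem_primeFactors hp) x]
      rfl
    have hA' : (fun j => min B' (∑ i, cap (B + B')
        (fun l K _ y => θ (e.symm l).1 K y ∧ θ' (e.symm l).2 K y) m x (e (i, j)))) =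
        cap B' θ' m x := by
      funext j
      simp only [E, and_comm (a := FP (θ _) _ x)]
      rw [min_sum B' (B + B') _ (Nat.le_add_left B' B),
        card_split m.primeFactors (fun p => FP (θ' j) p x) (fun i p => FP (θ i) p x)
          fun p hp => fp_ex h2 (Nat.prime_of_mem_primeFactors hp) x]
      rfl
    show _ ↔ _ ∧ _
    rw [hA, hA']
    exact and_congr (h3 m hm x) (h3' m hm x)

theorem fv_comp {R : ℕ → (ι → ℕ) → Prop} (h : FV R) (f : ι → ι') :
    FV (fun m (x : ι' → ℕ) => R m fun i => x (f i)) := by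
  obtain ⟨k, B, θ, A, h1, h2, h3⟩ := h
  refine ⟨k, B, fun i K _ y => θ i K fun j => y (f j), A, fun i => ?_, fun K _ x => ?_,
    fun m hm x => ?_⟩
  · exact (h1 i).comp (G := fun (j : ι) (K : Type) [Field K] (y : ι' → K) => y (f j))
      fun j => PRF.var (f j)
  · exact h2 K fun j => x (f j)
  · exact h3 m hm fun i => x (f i)

end Pool.Agent.CvQ
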