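import Mathlib

/-!
# Package CvQ-Trn: transport of capped numbers

Only Mathlib. `P`, `P'` are finite sets of points, each point `p` has a nonempty set `T p` of
possible colours (`k` colours). If the number of the points with the same set of possible colours
is the same for `P` and `P'`, up to capping at `k * B`, then for each colouring `σ` of `P` there
is a colouring `σ'` of `P'` with the same numbers of points of each colour, up to capping at `B`.

Complete proof. For a set `t` of colours and `i ∈ t` let `n t i` be the number of the `p` with `T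
p = t` and `σ p = i`; so `∑ i, n t i = N t := #{p | T p = t}`. Let `N' t := #{p | T' p = t}`.
Claim: for each nonempty `t` there are numbers `n' t i`, zero for `i ∉ t`, with `∑ i, n' t i = N'
t` and `min B (n' t i) = min B (n t i)`. If `N t = N' t` take `n' = n`. Otherwise both are at
least `k * B` (and if `B = 0` any distribution of `N' t` to the colours in the nonempty `t` is
good); some `i₀ ∈ t` has `n t i₀ ≥ B` (pigeonhole: otherwise `N t ≤ k * (B - 1) < k * B`, where `k
> 0` since `t` is nonempty); put `n' t i = min B (n t i)` for `i ≠ i₀` and `n' t i₀ = N' t - ∑_{i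
≠ i₀} n' t i ≥ k * B - (k - 1) * B = B`. Now colour the points with `T' p = t` such that `n' t i`
have the colour `i` (a set with `∑ i, m i` elements has a function to the colours with fibres of
`m i` elements: `Σ i, Fin (m i)` has the same cardinality). Then `min B (∑ t, n' t i) = min B (∑
t, n t i)` because `min B (a + b) = min B (min B a + min B b)`. If `N' t > 0` then `t` is nonempty
by `h'`; if `N' t = 0` for an empty `t` nothing is to be done. (The set `t` with `N t > 0` is
nonempty because `σ p ∈ T p`.)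
-/

set_option autoImplicit false

namespace Pool.Agent.CvQ

open Finset

private theorem min_sum_Trn {ι : Type} (s : Finset ι) (B : ℕ) (a b : ι → ℕ)
    (h : ∀ i ∈ s, min B (a i) = min B (b i)) : min B (∑ i ∈ s, a i) = min B (∑ i ∈ s, b i) := by
  classical
  induction s using Finset.induction_on with
  | empty => simp
  | insert x s hx ih =>
    rw [sum_insert hx, sum_insert hx]
    have h1 := h x (mem_insert_self x s)
    have h2 := ih fun i hi => h i (mem_insert_of_mem hi)
    omega

private theorem dist_Trn {k B : ℕ} (t : Finset (Fin k)) (n : Fin k → ℕ) (N' : ℕ)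
    (hn : ∀ i, i ∉ t → n i = 0) (h : min (k * B) (∑ i, n i) = min (k * B) N')
    (ht : N' = 0 ∨ t.Nonempty) :
    ∃ n' : Fin k → ℕ, (∀ i, i ∉ t → n' i = 0) ∧ ∑ i, n' i = N' ∧
      ∀ i, min B (n' i) = min B (n i) := by
  classical
  by_cases hN : ∑ i, n i = N'
  · exact ⟨n, hn, hN, fun _ => rfl⟩
  have hk1 : k * B ≤ ∑ i, n i := by omega
  have hk2 : k * B ≤ N' := by omega
  rcases t.eq_empty_or_nonempty with h0 | ⟨i1, hi1⟩
  · exfalso
    have hN0 : N' = 0 := by
      rcases ht with h1 | h1
      · exact h1
      · rw [h0] at h1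
        exact absurd h1 (by simp)
    apply hN
    rw [hN0]
    refine sum_eq_zero fun i _ => hn i ?_
    rw [h0]
    simp
  rcases Nat.eq_zero_or_pos B with hB | hB
  · refine ⟨fun i => if i = i1 then N' else 0, fun i hi => ?_, ?_, fun i => ?_⟩
    · have hne : i ≠ i1 := fun hh => hi (hh ▸ hi1)
      simp [hne]
    · simp
    · simp [hB]
  have hkp : 0 < k := by
    rcases Nat.eq_zero_or_pos k with h0 | h0
    · subst h0
      exact i1.elim0
    · exact h0
  have hex : ∃ i0, B ≤ n i0 := by
    by_contra hcon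
    push Not at hcon
    have h1 : ∑ i, n i ≤ ∑ _i : Fin k, (B - 1) := sum_le_sum fun i _ => by
      have := hcon i
      omega
    rw [sum_const, card_univ, Fintype.card_fin, smul_eq_mul] at h1
    have h2 : k * (B - 1) < k * B := Nat.mul_lt_mul_of_pos_left (by omega) hkp
    omega
  obtain ⟨i0, hi0⟩ := hex
  have hi0t : i0 ∈ t := by
    by_contra hcon
    have := hn i0 hcon
    omega
  have hsum : ∑ j ∈ univ.erase i0, min B (n j) + B ≤ k * B := by
    have h1 : ∑ j ∈ univ.erase i0, min B (n j) ≤ ∑ _j ∈ univ.erase i0, B :=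
      sum_le_sum fun i _ => min_le_left _ _
    rw [sum_const, card_erase_of_mem (mem_univ _), card_univ, Fintype.card_fin,
      smul_eq_mul] at h1
    have h2 : (k - 1) * B + B = k * B := by
      obtain ⟨m, rfl⟩ : ∃ m, k = m + 1 := ⟨k - 1, by omega⟩
      rw [Nat.add_sub_cancel, Nat.add_mul, Nat.one_mul]
    omega
  refine ⟨fun i => if i = i0 then N' - ∑ j ∈ univ.erase i0, min B (n j) else min B (n i),
    fun i hi => ?_, ?_, fun i => ?_⟩
  · have hne : i ≠ i0 := fun hh => hi (hh ▸ hi0t)
    simp [hne, hn i hi]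
  · rw [← add_sum_erase univ _ (mem_univ i0)]
    have h1 : ∑ j ∈ univ.erase i0, (if j = i0 then N' - ∑ j ∈ univ.erase i0, min B (n j)
        else min B (n j)) = ∑ j ∈ univ.erase i0, min B (n j) :=
      sum_congr rfl fun j hj => by rw [if_neg (ne_of_mem_erase hj)]
    rw [h1, if_pos rfl]
    omega
  · beta_reduce
    by_cases hi : i = i0
    · subst hi
      rw [if_pos rfl]
      omega
    · rw [if_neg hi]
      omega

open scoped Classical in
private theorem fib_Trn {Q : Type} [Fintype Q] {k : ℕ} (m : Fin k → ℕ)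
    (h : ∑ i, m i = Fintype.card Q) : ∃ f : Q → Fin k, ∀ i, #{q | f q = i} = m i := by
  have hc : Fintype.card Q = Fintype.card (Σ i, Fin (m i)) := by
    rw [Fintype.card_sigma, ← h]
    simp
  let e := Fintype.equivOfCardEq hc
  refine ⟨fun q => (e q).1, fun i => ?_⟩
  have h1 : #{q | (e q).1 = i} = Fintype.card {q // (e q).1 = i} :=
    (Fintype.card_subtype _).symm
  rw [h1, Fintype.card_congr (e.subtypeEquiv (q := fun x => x.1 = i) fun q => Iff.rfl),
    Fintype.card_congr (Equiv.sigmaSubtype i)]
  simp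

open scoped Classical in
theorem trn {P P' : Type} [Fintype P] [Fintype P'] {k B : ℕ} (T : P → Finset (Fin k))
    (T' : P' → Finset (Fin k)) (h' : ∀ p, (T' p).Nonempty)
    (h : ∀ t, min (k * B) #{p | T p = t} = min (k * B) #{p | T' p = t}) (σ : P → Fin k)
    (hσ : ∀ p, σ p ∈ T p) : ∃ σ' : P' → Fin k, (∀ p, σ' p ∈ T' p) ∧
      ∀ i, min B #{p | σ' p = i} = min B #{p | σ p = i} := by
  have hsumP : ∀ t, ∑ i, #{p | T p = t ∧ σ p = i} = #{p | T p = t} := by
    intro t
    rw [card_eq_sum_card_fiberwise (f := σ) (t := univ) (fun _ _ => by simp)]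
    exact sum_congr rfl fun i _ => by rw [filter_filter]
  have hd : ∀ t, ∃ n' : Fin k → ℕ, (∀ i, i ∉ t → n' i = 0) ∧ ∑ i, n' i = #{p | T' p = t} ∧
      ∀ i, min B (n' i) = min B #{p | T p = t ∧ σ p = i} := by
    intro t
    refine dist_Trn t (fun i => #{p | T p = t ∧ σ p = i}) #{p | T' p = t} ?_ ?_ ?_
    · intro i hi
      rw [card_eq_zero, filter_eq_empty_iff]
      rintro p - ⟨h1, h2⟩
      exact hi (h2 ▸ h1 ▸ hσ p)
    · rw [hsumP, h]
    · by_cases hc : #{p | T' p = t} = 0
      · exact Or.inl hc
      · right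
        obtain ⟨p, hp⟩ := card_pos.1 (Nat.pos_of_ne_zero hc)
        rw [mem_filter] at hp
        exact hp.2 ▸ h' p
  choose n' hn1 hn2 hn3 using hd
  have hf : ∀ t, ∃ f : {p // T' p = t} → Fin k, ∀ i, #{q | f q = i} = n' t i := by
    intro t
    refine fib_Trn (n' t) ?_
    rw [hn2, Fintype.card_subtype]
  choose f hf using hf
  have hfc : ∀ t i, #{p : P' | ∃ hp : T' p = t, f t ⟨p, hp⟩ = i} = n' t i := by
    intro t i
    rw [← hf t i]
    refine card_bij' (fun p hp => ⟨p, (mem_filter.1 hp).2.1⟩) (fun q _ => q.1) ?_ ?_ ?_ ?_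
    · intro p hp
      rw [mem_filter]
      exact ⟨mem_univ _, (mem_filter.1 hp).2.2⟩
    · intro q hq
      rw [mem_filter]
      exact ⟨mem_univ _, q.2, (mem_filter.1 hq).2⟩
    · intro p hp
      rfl
    · intro q hq
      rfl
  have hσ' : ∀ t i, #{p : P' | T' p = t ∧ f (T' p) ⟨p, rfl⟩ = i} = n' t i := by
    intro t i
    rw [← hfc t i]
    congr 1
    ext p
    simp only [mem_filter, mem_univ, true_and]
    constructor
    · rintro ⟨rfl, h2⟩
      exact ⟨rfl, h2⟩
    · rintro ⟨h1, h2⟩
      subst h1
      exact ⟨rfl, h2⟩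
  refine ⟨fun p => f (T' p) ⟨p, rfl⟩, fun p => ?_, fun i => ?_⟩
  · by_contra hcon
    have h1 := hn1 (T' p) _ hcon
    rw [← hσ' (T' p) (f (T' p) ⟨p, rfl⟩), card_eq_zero, filter_eq_empty_iff] at h1
    exact h1 (mem_univ p) ⟨rfl, rfl⟩
  · have e1 : #{p : P' | f (T' p) ⟨p, rfl⟩ = i} = ∑ t, n' t i := by
      rw [card_eq_sum_card_fiberwise (f := T') (t := univ) (fun _ _ => by simp)]
      refine sum_congr rfl fun t _ => ?_
      rw [← hσ' t i, filter_filter]
      congr 1
      ext p
      simp only [mem_filter, mem_univ, true_and]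
      exact and_comm
    have e2 : #{p : P | σ p = i} = ∑ t, #{p | T p = t ∧ σ p = i} := by
      rw [card_eq_sum_card_fiberwise (f := T) (t := univ) (fun _ _ => by simp)]
      refine sum_congr rfl fun t _ => ?_
      rw [filter_filter]
      congr 1
      ext p
      simp only [mem_filter, mem_univ, true_and]
      exact and_comm
    rw [e1, e2]
    exact min_sum_Trn _ _ _ _ fun t _ => hn3 t i

end Pool.Agent.CvQ
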