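import Pool.Agent.CvQ.FvL
import Pool.Agent.CvQ.Trn

/-!
# Package CvQ-FvX: existential quantifier

Complete proof. Let `k, B, θ, A` be a normal form of `R`. New relations, one for each set `t` of indices
(`Fin (2 ^ k)` and `Finset (Fin k)` have the same cardinality): `θ' t x := ∀ i, (i ∈ t ↔ ∃ y, θ i (x, y))`; they are `PRQ`
(`PRQ.ex` with `κ = Unit`, `PRQ.and`, `PRQ.not`, finite conjunctions) and `Prt θ'`: the unique `t` is `{i | ∃ y, θ i (x, y)}`. New
cap `B' = k * B`. Let `A'` be the set of all `c` such that there are a squarefree `m₀`, `x₀` and `y₀` with `cap B' θ' m₀ x₀ = c` and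
`R m₀ (x₀, y₀)`. One direction is trivial. Conversely let `cap B' θ' m x = cap B' θ' m₀ x₀` and `R m₀ (x₀, y₀)`. Apply `trn` with
`P = m₀.primeFactors`, `P' = m.primeFactors`, `T p` the set of the `i` with `∃ y, θ i (x₀, y)` in `ZMod p`, `T' p` the same for `x`
(nonempty by `Prt θ` for `y = 0`), `σ p` the index `i` with `θ i (x₀, y₀)` in `ZMod p`. It gives `σ'`; for each `p` in `P'` there is
`y_p` with `θ (σ' p) (x, y_p)` in `ZMod p`; by the Chinese remainder theorem (`Nat.chineseRemainderOfFinset` or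
`ZMod.prodEquivPi`/induction) there is `y : ℕ` with `y ≡ y_p` modulo `p` for all `p ∈ P'`. Then for all `p ∈ P'` the index of
`(x, y)` is `σ' p`, so `cap B θ m (x, y) = cap B θ m₀ (x₀, y₀) ∈ A`, and `R m (x, y)`.
-/

set_option autoImplicit false

noncomputable section

namespace Pool.Agent.CvQ

open Finset Pool.Agent.PRc

private theorem card_sub_FvX (S : Finset ℕ) (q : ℕ → Prop) [DecidablePred q]
    [DecidablePred fun p : S => q p.1] : #{p : S | q p.1} = #{p ∈ S | q p} := by
  refine Finset.card_bij (fun p _ => p.1) ?_ ?_ ?_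
  · intro p hp
    rw [Finset.mem_filter] at hp ⊢
    exact ⟨p.2, hp.2⟩
  · intro p _ p' _ h
    exact Subtype.ext h
  · intro p hp
    rw [Finset.mem_filter] at hp
    exact ⟨⟨p, hp.1⟩, by rw [Finset.mem_filter]; exact ⟨Finset.mem_univ _, hp.2⟩, rfl⟩

/-- the set of the possible indices -/
private def tst_FvX {ι : Type} {k : ℕ} (θ : Fin k → FR (ι ⊕ Unit)) (p : ℕ) (x : ι → ℕ) :
    Finset (Fin k) := by
  classical
  exact Finset.univ.filter fun i => ∃ y : ℕ, FP (θ i) p (Sum.elim x fun _ => y)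

private theorem mem_tst_FvX {ι : Type} {k : ℕ} {θ : Fin k → FR (ι ⊕ Unit)} {p : ℕ} {x : ι → ℕ}
    {i : Fin k} : i ∈ tst_FvX θ p x ↔ ∃ y : ℕ, FP (θ i) p (Sum.elim x fun _ => y) := by
  classical
  unfold tst_FvX
  rw [Finset.mem_filter]
  exact ⟨fun h => h.2, fun h => ⟨Finset.mem_univ _, h⟩⟩

private theorem fp_iff_FvX {ι : Type} {θ : FR ι} {p : ℕ} [hp : Fact p.Prime] {x : ι → ℕ} :
    FP θ p x ↔ θ (ZMod p) (fun i => (x i : ZMod p)) :=
  ⟨fun h => h.2, fun h => ⟨hp.out, h⟩⟩

private theorem idx_FvX {ι : Type} {k : ℕ} {θ : Fin k → FR ι} (hP : Prt θ) {p : ℕ}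
    (hp : p.Prime) (x : ι → ℕ) : ∃ i, ∀ j, FP (θ j) p x ↔ i = j := by
  haveI := Fact.mk hp
  obtain ⟨i, hi, hu⟩ := hP (ZMod p) (fun i => (x i : ZMod p))
  refine ⟨i, fun j => ?_⟩
  rw [fp_iff_FvX]
  exact ⟨fun h => (hu j h).symm, fun h => h ▸ hi⟩

private theorem cast_elim_FvX {ι : Type} {K : Type} [Field K] (x : ι → ℕ) (y : ℕ) :
    (fun i => ((Sum.elim x (fun _ : Unit => y) i : ℕ) : K)) =
      Sum.elim (fun i => (x i : K)) (fun _ : Unit => (y : K)) := by
  funext i
  rcases i with i | i <;> rfl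

private theorem ex_iff_FvX {ι : Type} {θ : FR (ι ⊕ Unit)} {p : ℕ} [hp : Fact p.Prime]
    {x : ι → ℕ} : (∃ y : ℕ, FP θ p (Sum.elim x fun _ => y)) ↔
      ∃ z : Unit → ZMod p, θ (ZMod p) (Sum.elim (fun i => (x i : ZMod p)) z) := by
  constructor
  · rintro ⟨y, hy⟩
    rw [fp_iff_FvX, cast_elim_FvX] at hy
    exact ⟨_, hy⟩
  · rintro ⟨z, hz⟩
    refine ⟨(z ()).val, ?_⟩
    rw [fp_iff_FvX, cast_elim_FvX]
    have e : (fun _ : Unit => (((z ()).val : ℕ) : ZMod p)) = z := by
      funext u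
      rw [ZMod.natCast_zmod_val]
    rw [e]
    exact hz

/-- the new relations -/
private def rel_FvX {ι : Type} {k : ℕ} (θ : Fin k → FR (ι ⊕ Unit)) (t : Finset (Fin k)) : FR ι :=
  fun K _ x => ∀ i, (i ∈ t ↔ ∃ z : Unit → K, θ i K (Sum.elim x z))

private theorem rel_iff_FvX {ι : Type} {k : ℕ} (θ : Fin k → FR (ι ⊕ Unit))
    (t : Finset (Fin k)) {p : ℕ} (hp : p.Prime) (x : ι → ℕ) :
    FP (rel_FvX θ t) p x ↔ tst_FvX θ p x = t := by
  haveI := Fact.mk hp
  rw [fp_iff_FvX]
  constructor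
  · intro h
    ext i
    rw [mem_tst_FvX, ex_iff_FvX]
    exact (h i).symm
  · intro h i
    rw [← h, mem_tst_FvX, ex_iff_FvX]

private theorem prq_rel_FvX {ι : Type} {k : ℕ} {θ : Fin k → FR (ι ⊕ Unit)}
    (hθ : ∀ i, PRQ (θ i)) (t : Finset (Fin k)) : PRQ (rel_FvX θ t) := by
  refine PRQ.allF (P := fun (i : Fin k) => (fun K _ x => (i ∈ t ↔
    ∃ z : Unit → K, θ i K (Sum.elim x z)) : FR ι)) fun i => ?_
  by_cases hi : i ∈ t
  · exact (hθ i).ex.congr fun K _ x => by simp [hi]
  · exact (hθ i).ex.not.congr fun K _ x => by simp [hi]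

theorem fv_ex {ι : Type} {R : ℕ → (ι ⊕ Unit → ℕ) → Prop} (h : FV R) :
    FV (fun m (x : ι → ℕ) => ∃ y : ℕ, R m (Sum.elim x fun _ => y)) := by
  classical
  obtain ⟨k, B, θ, A, hθ, hP, hR⟩ := h
  have hc : Fintype.card (Finset (Fin k)) = 2 ^ k := by
    rw [Fintype.card_finset, Fintype.card_fin]
  let e : Fin (2 ^ k) ≃ Finset (Fin k) := (Fintype.equivFinOfCardEq hc).symm
  refine ⟨2 ^ k, k * B, fun t => rel_FvX θ (e t),
    {c | ∃ (m₀ : ℕ) (x₀ : ι → ℕ), Squarefree m₀ ∧
      cap (k * B) (fun t => rel_FvX θ (e t)) m₀ x₀ = c ∧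
      ∃ y : ℕ, R m₀ (Sum.elim x₀ fun _ => y)}, fun t => prq_rel_FvX hθ (e t), ?_, ?_⟩
  · intro K _ x
    refine ⟨e.symm (Finset.univ.filter fun i => ∃ z : Unit → K, θ i K (Sum.elim x z)), ?_, ?_⟩
    · intro i
      simp
    · intro t ht
      rw [Equiv.eq_symm_apply]
      ext i
      rw [Finset.mem_filter]
      exact ⟨fun h => ⟨Finset.mem_univ _, (ht i).1 h⟩, fun h => (ht i).2 h.2⟩
  · intro m hm x
    constructor
    · intro hy
      exact ⟨m, x, hm, rfl, hy⟩
    · rintro ⟨m₀, x₀, hm₀, hcap, y₀, hy₀⟩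
      -- cardinalities
      have hcard : ∀ (m : ℕ) (x : ι → ℕ) (t : Finset (Fin k)),
          #{p : m.primeFactors | tst_FvX θ p.1 x = t} =
            #{p ∈ m.primeFactors | FP (rel_FvX θ t) p x} := by
        intro m x t
        rw [card_sub_FvX m.primeFactors (fun p => tst_FvX θ p x = t)]
        congr 1
        refine Finset.filter_congr fun p hp => ?_
        exact (rel_iff_FvX θ t (Nat.prime_of_mem_primeFactors hp) x).symm
      have h1 : ∀ t : Finset (Fin k),
          min (k * B) #{p : m₀.primeFactors | tst_FvX θ p.1 x₀ = t} =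
            min (k * B) #{p : m.primeFactors | tst_FvX θ p.1 x = t} := by
        intro t
        rw [hcard, hcard]
        have := congrFun hcap (e.symm t)
        unfold cap at this
        simp only [Equiv.apply_symm_apply] at this
        convert this
      have h2 : ∀ p : m₀.primeFactors, ∃ i, ∀ j,
          FP (θ j) p.1 (Sum.elim x₀ fun _ => y₀) ↔ i = j := fun p =>
        idx_FvX hP (Nat.prime_of_mem_primeFactors p.2) _
      choose σ hσ using h2
      obtain ⟨σ', hσ'1, hσ'2⟩ := trn (B := B) (fun p : m₀.primeFactors => tst_FvX θ p.1 x₀)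
        (fun p : m.primeFactors => tst_FvX θ p.1 x) (by
          intro p
          obtain ⟨i, hi⟩ := idx_FvX hP (Nat.prime_of_mem_primeFactors p.2)
            (Sum.elim x fun _ => 0)
          exact ⟨i, mem_tst_FvX.2 ⟨0, (hi i).2 rfl⟩⟩) (by
          intro t
          convert h1 t) σ (by
          intro p
          exact mem_tst_FvX.2 ⟨y₀, (hσ p _).2 rfl⟩)
      have h3 : ∀ p : m.primeFactors, ∃ y : ℕ, FP (θ (σ' p)) p.1 (Sum.elim x fun _ => y) :=
        fun p => mem_tst_FvX.1 (hσ'1 p)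
      choose yp hyp using h3
      obtain ⟨y, hy⟩ := Nat.chineseRemainderOfFinset
        (fun p => if h : p ∈ m.primeFactors then yp ⟨p, h⟩ else 0) (fun p => p) m.primeFactors
        (fun p hp => (Nat.prime_of_mem_primeFactors hp).ne_zero) (by
          intro p hp q hq hpq
          exact (Nat.coprime_primes (Nat.prime_of_mem_primeFactors hp)
            (Nat.prime_of_mem_primeFactors hq)).2 hpq)
      have h4 : ∀ p : m.primeFactors, FP (θ (σ' p)) p.1 (Sum.elim x fun _ => y) := by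
        intro p
        haveI := Fact.mk (Nat.prime_of_mem_primeFactors p.2)
        have h5 := hy p.1 p.2
        rw [dif_pos p.2] at h5
        have h6 : ((y : ℕ) : ZMod p.1) = ((yp p : ℕ) : ZMod p.1) :=
          (ZMod.natCast_eq_natCast_iff _ _ _).2 h5
        have h7 := hyp p
        rw [fp_iff_FvX, cast_elim_FvX] at h7 ⊢
        rw [h6]
        exact h7
      refine ⟨y, (hR m hm _).2 ?_⟩
      have h8 : cap B θ m (Sum.elim x fun _ => y) = cap B θ m₀ (Sum.elim x₀ fun _ => y₀) := by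
        funext i
        unfold cap
        have a1 : #{p ∈ m.primeFactors | FP (θ i) p (Sum.elim x fun _ => y)} =
            #{p : m.primeFactors | σ' p = i} := by
          rw [← card_sub_FvX m.primeFactors (fun p => FP (θ i) p (Sum.elim x fun _ => y))]
          congr 1
          refine Finset.filter_congr fun p _ => ?_
          obtain ⟨i', hi'⟩ := idx_FvX hP (Nat.prime_of_mem_primeFactors p.2)
            (Sum.elim x fun _ => y)
          rw [hi', ← (hi' (σ' p)).1 (h4 p)]
        have a2 : #{p ∈ m₀.primeFactors | FP (θ i) p (Sum.elim x₀ fun _ => y₀)} =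
            #{p : m₀.primeFactors | σ p = i} := by
          rw [← card_sub_FvX m₀.primeFactors (fun p => FP (θ i) p (Sum.elim x₀ fun _ => y₀))]
          congr 1
          refine Finset.filter_congr fun p _ => ?_
          exact hσ p i
        have a3 := hσ'2 i
        rw [← a1, ← a2] at a3
        convert a3
      rw [h8]
      exact (hR m₀ hm₀ _).1 hy₀

end Pool.Agent.CvQ
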