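import Mathlib

/-!
# Package CvQ-Lam: a linear form that separates the points of most fibres

Complete proof. Suppose that for every `l : κ → Fin (B * B + 1)` the set of the `y` for which the linear form
with the coefficients `l` is injective on `Z y` is finite. There are finitely many `l` and `K` is infinite,
so there is `y` such that no `l` is injective on `Z y`. `Z y` has at most `B` elements, so at most `B * B` pairs
`(u, u')` with `u ≠ u'`. For such a pair choose `c` with `u c ≠ u' c`: for given `l c'`, `c' ≠ c`, there is at most one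
value of `l c` with `∑ l (u - u') = 0` (the numbers `0, …, B * B` are different in `K`). So each pair excludes at most
`(B * B + 1) ^ (card κ - 1)` of the `(B * B + 1) ^ (card κ)` functions `l`, all together less than all: a
contradiction. (Count with `Fintype.card`, or: choose the `l c` one after the other; or a polynomial
argument: `∏_{pairs} ∑_c X_c (u - u')_c` is a nonzero polynomial of degree at most `B * B` in each variable:
`MvPolynomial.eq_zero_of_eval_zero_at_prod_finset`-type lemma, Schwartz-Zippel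
`MvPolynomial.schwartz_zippel…`.)
-/

set_option autoImplicit false

namespace Pool.Agent.CvQ

private theorem cnt_lam {K κ : Type} [Field K] [Fintype κ] [DecidableEq κ] [DecidableEq K] {n : ℕ}
    (hK : ∀ i j : ℕ, i < n → j < n → (i : K) = j → i = j) {u u' : κ → K} (hu : u ≠ u') :
    (Finset.univ.filter fun l : κ → Fin n =>
      ∑ c, ((l c : ℕ) : K) * u c = ∑ c, ((l c : ℕ) : K) * u' c).card ≤ n ^ (Fintype.card κ - 1) := by
  obtain ⟨c₀, hc₀⟩ := Function.ne_iff.1 hu
  have h1 : Fintype.card ({c // c ≠ c₀} → Fin n) = n ^ (Fintype.card κ - 1) := by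
    rw [Fintype.card_fun, Fintype.card_fin]
    congr 1
    rw [Fintype.card_subtype_compl, Fintype.card_subtype_eq]
  rw [← h1, ← Finset.card_univ]
  refine Finset.card_le_card_of_injOn (fun l c => l c.1)
    (fun _ _ => Finset.mem_coe.2 (Finset.mem_univ _)) ?_
  intro l hl l' hl' he
  have hl1 := (Finset.mem_filter.1 (Finset.mem_coe.1 hl)).2
  have hl2 := (Finset.mem_filter.1 (Finset.mem_coe.1 hl')).2
  have h2 : ∀ c, c ≠ c₀ → l c = l' c := fun c hc => congrFun he ⟨c, hc⟩
  have h3 : ∀ m : κ → Fin n, ∑ c, ((m c : ℕ) : K) * u c = ∑ c, ((m c : ℕ) : K) * u' c →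
      ((m c₀ : ℕ) : K) * (u c₀ - u' c₀) =
        - ∑ c ∈ Finset.univ.erase c₀, ((m c : ℕ) : K) * (u c - u' c) := by
    intro m hm
    have h4 : ∑ c, ((m c : ℕ) : K) * (u c - u' c) = 0 := by
      simp only [mul_sub, Finset.sum_sub_distrib]
      rw [hm, sub_self]
    rw [← Finset.add_sum_erase _ _ (Finset.mem_univ c₀)] at h4
    exact eq_neg_of_add_eq_zero_left h4
  have h5 : ((l c₀ : ℕ) : K) * (u c₀ - u' c₀) = ((l' c₀ : ℕ) : K) * (u c₀ - u' c₀) := by
    rw [h3 l hl1, h3 l' hl2]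
    congr 1
    exact Finset.sum_congr rfl fun c hc => by rw [h2 c (Finset.ne_of_mem_erase hc)]
  have h6 : ((l c₀ : ℕ) : K) = ((l' c₀ : ℕ) : K) := mul_right_cancel₀ (sub_ne_zero.2 hc₀) h5
  have h7 : l c₀ = l' c₀ := Fin.ext (hK _ _ (l c₀).2 (l' c₀).2 h6)
  funext c
  by_cases hc : c = c₀
  · rw [hc, h7]
  · exact h2 c hc

theorem lam {K κ : Type} [Field K] [Infinite K] [Fintype κ] {B : ℕ}
    (hK : ∀ i j : ℕ, i ≤ B * B → j ≤ B * B → (i : K) = j → i = j) (Z : K → Set (κ → K))
    (hZ : ∀ y, (Z y).Finite ∧ (Z y).ncard ≤ B) :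
    ∃ l : κ → Fin (B * B + 1), ¬ {y | ¬ ∃ u ∈ Z y, ∃ u' ∈ Z y, u ≠ u' ∧
      ∑ c, ((l c : ℕ) : K) * u c = ∑ c, ((l c : ℕ) : K) * u' c}.Finite := by
  classical
  by_contra hcon
  push Not at hcon
  have hU := Set.finite_iUnion hcon
  obtain ⟨y, hy⟩ := hU.infinite_compl.nonempty
  have h1 : ∀ l : κ → Fin (B * B + 1), ∃ u ∈ Z y, ∃ u' ∈ Z y, u ≠ u' ∧
      ∑ c, ((l c : ℕ) : K) * u c = ∑ c, ((l c : ℕ) : K) * u' c := by
    intro l
    by_contra hl
    refine hy (Set.mem_iUnion.2 ⟨l, ?_⟩)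
    push Not at hl
    exact hl
  set P := (hZ y).1.toFinset.offDiag with hP
  have hPc : P.card ≤ B * B := by
    have h2 : (hZ y).1.toFinset.card ≤ B := by
      rw [← Set.ncard_eq_toFinset_card _ (hZ y).1]
      exact (hZ y).2
    rw [hP, Finset.offDiag_card]
    exact (Nat.sub_le _ _).trans (Nat.mul_le_mul h2 h2)
  have hcov : (Finset.univ : Finset (κ → Fin (B * B + 1))) ⊆ P.biUnion fun p =>
      Finset.univ.filter fun l : κ → Fin (B * B + 1) =>
        ∑ c, ((l c : ℕ) : K) * p.1 c = ∑ c, ((l c : ℕ) : K) * p.2 c := by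
    intro l _
    obtain ⟨u, hu, u', hu', hne, he⟩ := h1 l
    refine Finset.mem_biUnion.2 ⟨(u, u'), ?_, Finset.mem_filter.2 ⟨Finset.mem_univ _, he⟩⟩
    rw [hP, Finset.mem_offDiag]
    exact ⟨(hZ y).1.mem_toFinset.2 hu, (hZ y).1.mem_toFinset.2 hu', hne⟩
  have hc := (Finset.card_le_card hcov).trans (Finset.card_biUnion_le_card_mul _ _
    ((B * B + 1) ^ (Fintype.card κ - 1)) fun p hp =>
      cnt_lam (fun i j hi hj => hK i j (Nat.lt_succ_iff.1 hi) (Nat.lt_succ_iff.1 hj))
        (Finset.mem_offDiag.1 hp).2.2)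
  rw [Finset.card_univ, Fintype.card_fun, Fintype.card_fin] at hc
  have hpos : 0 < Fintype.card κ := by
    obtain ⟨u, _, u', _, hne, _⟩ := h1 0
    obtain ⟨c, _⟩ := Function.ne_iff.1 hne
    exact Fintype.card_pos_iff.2 ⟨c⟩
  have h8 : (B * B + 1) ^ Fintype.card κ = (B * B + 1) * (B * B + 1) ^ (Fintype.card κ - 1) := by
    rw [← pow_succ']
    congr 1
    omega
  rw [h8] at hc
  have h9 : 0 < (B * B + 1) ^ (Fintype.card κ - 1) := Nat.pos_of_ne_zero (by positivity)
  have h10 := hc.trans (Nat.mul_le_mul_right _ hPc)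
  exact absurd (Nat.le_of_mul_le_mul_right h10 h9) (by omega)

end Pool.Agent.CvQ
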