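import Pool.Agent.CvQ.ExY

/-!
# Package CvQ-Main: all first-order relations

Complete proof. `prq_af`: induction on `PRQ R`: `af_prd`, `af_not`, `af_and`. `ex`: `κ` is finite; by
`Finite.exists_equiv_fin` and `af_map` it is enough to treat `κ = Fin n`; induction on `n`: for `n + 1` the
last coordinate is eliminated by `ex_y` (parameters `ι ⊕ Fin n`, `Fin.snoc`), for `n = 0` the quantifier is
trivial (`af_map`).
-/

set_option autoImplicit false

noncomputable section

namespace Pool.Agent.CvQ

open Polynomial Pool.Agent.PRc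

/-- `ι ⊕ Fin (n + 1)` as `(ι ⊕ Fin n) ⊕ Unit`, the last coordinate is the new one -/
private def sp_Main {ι : Type} (n : ℕ) : ι ⊕ Fin (n + 1) → (ι ⊕ Fin n) ⊕ Unit
  | Sum.inl i => Sum.inl (Sum.inl i)
  | Sum.inr j => Fin.lastCases (motive := fun _ => (ι ⊕ Fin n) ⊕ Unit) (Sum.inr ())
      (fun i => Sum.inl (Sum.inr i)) j

private theorem sp_elim_Main {ι k : Type} (n : ℕ) (x : ι → k) (w : Fin n → k) (y : k) :
    (fun j => Sum.elim (Sum.elim x w) (fun _ : Unit => y) (sp_Main n j)) =
      Sum.elim x (Fin.snoc (α := fun _ => k) w y) := by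
  funext j
  rcases j with i | j
  · rfl
  · refine Fin.lastCases ?_ (fun i => ?_) j
    · simp [sp_Main]
    · simp [sp_Main]

private theorem af_congr_Main {ι : Type} {R R' : FR ι} (h : AF R)
    (e : ∀ (k : Type) [Field k] (x : ι → k), R k x ↔ R' k x) : AF R' := by
  obtain rfl : R = R' := by
    funext k _ x
    exact propext (e k x)
  exact h

theorem ex_fin (W : Wl) {ι : Type} (n : ℕ) {R : FR (ι ⊕ Fin n)} (h : AF R) :
    AF (fun k _ (x : ι → k) => ∃ z : Fin n → k, R k (Sum.elim x z)) := by
  induction n with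
  | zero =>
    have h1 := af_map h (fun j : ι ⊕ Fin 0 => (Sum.elim id (fun i => i.elim0) j : ι))
    refine af_congr_Main h1 ?_
    intro k _ x
    have e : ∀ z : Fin 0 → k, (fun j : ι ⊕ Fin 0 => x (Sum.elim id (fun i => i.elim0) j)) =
        Sum.elim x z := by
      intro z
      funext j
      rcases j with i | i
      · rfl
      · exact i.elim0
    constructor
    · intro h2
      refine ⟨fun i => i.elim0, ?_⟩
      rw [← e]
      exact h2
    · rintro ⟨z, hz⟩
      rw [← e z] at hz
      exact hz
  | succ n ih =>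
    have h1 := ex_y W (af_map h (sp_Main n))
    refine af_congr_Main (ih h1) ?_
    intro k _ x
    constructor
    · rintro ⟨w, y, hy⟩
      refine ⟨Fin.snoc (α := fun _ => k) w y, ?_⟩
      rw [← sp_elim_Main]
      exact hy
    · rintro ⟨z, hz⟩
      refine ⟨fun i => z i.castSucc, z (Fin.last n), ?_⟩
      rw [sp_elim_Main]
      have e : (Fin.snoc (α := fun _ => k) (fun i => z i.castSucc) (z (Fin.last n)) :
          Fin (n + 1) → k) = z := Fin.snoc_init_self z
      rw [e]
      exact hz

theorem prq_af (W : Wl) {ι : Type} {R : FR ι} (h : PRQ R) : AF R := by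
  induction h with
  | base hP => exact af_prd hP
  | not _ ih => exact af_not ih
  | and _ _ ih ih' => exact af_and ih ih'
  | @ex ι κ _ P _ ih =>
    obtain ⟨n, ⟨e⟩⟩ := Finite.exists_equiv_fin κ
    have h1 := ex_fin W n (af_map ih (Sum.map (id : ι → ι) e))
    refine af_congr_Main h1 ?_
    intro k _ x
    have e1 : ∀ z : Fin n → k, (fun j : ι ⊕ κ => Sum.elim x z (Sum.map id e j)) =
        Sum.elim x (fun j => z (e j)) := by
      intro z
      funext j
      rcases j with i | i <;> rfl
    constructor
    · rintro ⟨z, hz⟩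
      refine ⟨fun j => z (e j), ?_⟩
      rw [← e1]
      exact hz
    · rintro ⟨z, hz⟩
      refine ⟨fun j => z (e.symm j), ?_⟩
      rw [e1]
      have e2 : (fun j => z (e.symm (e j))) = z := by
        funext j
        rw [Equiv.symm_apply_apply]
      rw [e2]
      exact hz

end Pool.Agent.CvQ
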