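import Pool.Agent.CvQ.Lam
import Pool.Agent.CvQ.QQ
import Pool.Agent.CvS.Frb
import Pool.Agent.CvS.FinU

/-!
# Package CvQ-Prj: projection to the plane

Complete proof. For `l : κ → Fin (B * B + 1)` let `Bad_l (x, b)`: there are `u ≠ u'` in the fibre of `Z` over
`(x, b)` with `l · u = l · u'`; `PRQ`, so by `prq_qe` there is a `PRD` relation (for `k` and its extension `K`). By
`CvS.fin_unif` / `inf_pr` the set `{b | Bad_l (x, b)}` is finite or has finite complement, and
finiteness (`Fin_l (x)`) is `PRD`. Put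

* `Y l (z, x)`: `Fin_l (x)`, not `Bad_l (x, z 0)`, and there is `u` over the algebraically closed field with
  `Z (x, z 0, u)` and `l · u = z 1` (`CvS.qe`);
* `E l (x, (b, u))`: `Fin_l (x)`, `Bad_l (x, b)`, `Z (x, b, u)`.

All are `PRD` relations. The fibres of `Y` over `z 0` are images of the fibres of `Z`; `E` has finitely many
solutions for given `x` (finitely many `b`, finitely many `u` for each).

Let `p > C = B * B`, `x` over `ZMod p`, `K` the algebraic closure. `→`: let `(b, u)` be a solution over `ZMod p`. By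
`lam` (the numbers `≤ B * B < p` are different in `K`) there is `l` with infinite complement of `Bad_l`, so
`Fin_l (x)`. If `Bad_l (x, b)`: `E`. Otherwise `Y` with `z = (b, l · u)`. `←`: `E`: clear. `Y`: `z` over `ZMod p`, `u` over
`K`. The Frobenius image of `u` is in the same fibre (`CvS.prd_hom` for the Frobenius endomorphism; `x`,
`z 0` are fixed) and has the same value of the linear form (`z 1` is fixed), so it is `u`, since not
`Bad_l`. So `u` is over `ZMod p` (`CvS.rat_of_pow`), and `Z` holds over `ZMod p` (`CvS.prd_hom`).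
-/

set_option autoImplicit false

noncomputable section

namespace Pool.Agent.CvQ

open Polynomial Pool.Agent.PRc

private theorem re_Prj {ι κ : Type} {P : FR ι} (hP : PRD P) (f : ι → κ) :
    PRD (fun k _ (x : κ → k) => P k fun j => x (f j)) :=
  hP.comp (G := fun j k _ x => x (f j)) fun j => PRF.var (f j)

/-- the linear form -/
private def ln {κ : Type} [Fintype κ] {K : Type} [Field K] {n : ℕ} (l : κ → Fin n)
    (u : κ → K) : K :=
  ∑ c, ((l c : ℕ) : K) * u c

private theorem ln_prf {κ μ : Type} [Fintype κ] {n : ℕ} (l : κ → Fin n) (f : κ → μ) :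
    PRF (fun k _ (x : μ → k) => ln l fun c => x (f c)) :=
  PRF.sum Finset.univ (F := fun (c : κ) (k : Type) [Field k] (x : μ → k) =>
    ((l c : ℕ) : k) * x (f c)) fun c _ => (PRF.nat _).mul (PRF.var _)

private theorem ln_map {κ : Type} [Fintype κ] {k K : Type} [Field k] [Field K] (φ : k →+* K)
    {n : ℕ} (l : κ → Fin n) (u : κ → k) : ln l (fun c => φ (u c)) = φ (ln l u) := by
  unfold ln
  rw [map_sum]
  refine Finset.sum_congr rfl fun c _ => ?_
  rw [map_mul, map_natCast]

section

variable {ι κ : Type} [Fintype κ] (Z : FR (ι ⊕ (Unit ⊕ κ))) {n : ℕ} (l : κ → Fin n)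

private def f1 : ι ⊕ (Unit ⊕ κ) → (ι ⊕ Unit) ⊕ (κ ⊕ κ) :=
  Sum.elim (fun i => Sum.inl (Sum.inl i)) (Sum.elim (fun _ => Sum.inl (Sum.inr ()))
    fun c => Sum.inr (Sum.inl c))

private def f2 : ι ⊕ (Unit ⊕ κ) → (ι ⊕ Unit) ⊕ (κ ⊕ κ) :=
  Sum.elim (fun i => Sum.inl (Sum.inl i)) (Sum.elim (fun _ => Sum.inl (Sum.inr ()))
    fun c => Sum.inr (Sum.inr c))

private def Bd : FR (ι ⊕ Unit) := fun K _ y => ∃ w : κ ⊕ κ → K,
  Z K (fun j => (Sum.elim y w : _ → K) (f1 j)) ∧ Z K (fun j => (Sum.elim y w : _ → K) (f2 j)) ∧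
    ln l (fun c => (Sum.elim y w : _ → K) (Sum.inr (Sum.inl c))) =
      ln l (fun c => (Sum.elim y w : _ → K) (Sum.inr (Sum.inr c))) ∧
    ¬ ∀ c : κ, (Sum.elim y w : _ → K) (Sum.inr (Sum.inl c)) =
      (Sum.elim y w : _ → K) (Sum.inr (Sum.inr c))

private theorem bd_prq {Z : FR (ι ⊕ (Unit ⊕ κ))} (hZ : PRD Z) : PRQ (Bd Z l) := by
  have h1 : PRD (fun K _ (v : (ι ⊕ Unit) ⊕ (κ ⊕ κ) → K) => Z K (fun j => v (f1 j)) ∧
      Z K (fun j => v (f2 j)) ∧ ln l (fun c => v (Sum.inr (Sum.inl c))) =
        ln l (fun c => v (Sum.inr (Sum.inr c))) ∧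
      ¬ ∀ c ∈ (Finset.univ : Finset κ), v (Sum.inr (Sum.inl c)) = v (Sum.inr (Sum.inr c))) := by
    refine (re_Prj hZ f1).and ((re_Prj hZ f2).and ((PRD.eq (ln_prf l _) (ln_prf l _)).and
      (PRD.not ?_)))
    exact PRD.all Finset.univ (P := fun (c : κ) (K : Type) [Field K]
      (v : (ι ⊕ Unit) ⊕ (κ ⊕ κ) → K) => v (Sum.inr (Sum.inl c)) = v (Sum.inr (Sum.inr c)))
      fun c _ => PRD.eq (PRF.var _) (PRF.var _)
  refine (PRQ.base h1).ex.congr fun K _ y => ?_
  simp only [Bd, Finset.mem_univ, forall_true_left]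

private theorem bd_iff {K : Type} [Field K] (x : ι → K) (b : K) :
    Bd Z l K (Sum.elim x fun _ => b) ↔ ∃ u u' : κ → K, Z K (Sum.elim x (Sum.elim (fun _ => b) u)) ∧
      Z K (Sum.elim x (Sum.elim (fun _ => b) u')) ∧ ln l u = ln l u' ∧ u ≠ u' := by
  have e1 : ∀ w : κ ⊕ κ → K, (fun j => (Sum.elim (Sum.elim x fun _ : Unit => b) w : _ → K) (f1 j)) =
      Sum.elim x (Sum.elim (fun _ => b) fun c => w (Sum.inl c)) := by
    intro w
    funext j
    rcases j with j | j | j <;> rfl
  have e2 : ∀ w : κ ⊕ κ → K, (fun j => (Sum.elim (Sum.elim x fun _ : Unit => b) w : _ → K) (f2 j)) =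
      Sum.elim x (Sum.elim (fun _ => b) fun c => w (Sum.inr c)) := by
    intro w
    funext j
    rcases j with j | j | j <;> rfl
  constructor
  · rintro ⟨w, h1, h2, h3, h4⟩
    rw [e1] at h1
    rw [e2] at h2
    exact ⟨fun c => w (Sum.inl c), fun c => w (Sum.inr c), h1, h2, h3,
      fun h => h4 fun c => congrFun h c⟩
  · rintro ⟨u, u', h1, h2, h3, h4⟩
    refine ⟨Sum.elim u u', ?_, ?_, h3, fun h => h4 (funext fun c => h c)⟩
    · rw [e1]
      exact h1
    · rw [e2]
      exact h2

end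

private theorem rat_Prj {κ ι : Type} [Fintype κ] {p : ℕ} [Fact p.Prime]
    {Z : FR (ι ⊕ (Unit ⊕ κ))} (hZ : PRD Z) {n : ℕ} (l : κ → Fin n) (x : ι → ZMod p) (b c : ZMod p)
    {t : κ → AlgebraicClosure (ZMod p)}
    (h1 : Z (AlgebraicClosure (ZMod p)) (Sum.elim
      (fun i => algebraMap (ZMod p) (AlgebraicClosure (ZMod p)) (x i)) (Sum.elim
        (fun _ => algebraMap (ZMod p) (AlgebraicClosure (ZMod p)) b) t)))
    (h2 : ln l t = algebraMap (ZMod p) (AlgebraicClosure (ZMod p)) c)
    (h3 : ∀ t' : κ → AlgebraicClosure (ZMod p), Z (AlgebraicClosure (ZMod p)) (Sum.elim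
      (fun i => algebraMap (ZMod p) (AlgebraicClosure (ZMod p)) (x i)) (Sum.elim
        (fun _ => algebraMap (ZMod p) (AlgebraicClosure (ZMod p)) b) t')) →
      ln l t' = algebraMap (ZMod p) (AlgebraicClosure (ZMod p)) c → t' = t) :
    ∃ r : κ → ZMod p, t = fun i => algebraMap (ZMod p) (AlgebraicClosure (ZMod p)) (r i) := by
  have hfix : ∀ r : ZMod p, frobenius (AlgebraicClosure (ZMod p)) p
      (algebraMap (ZMod p) (AlgebraicClosure (ZMod p)) r) =
      algebraMap (ZMod p) (AlgebraicClosure (ZMod p)) r := by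
    intro r
    rw [frobenius_def, ← map_pow, ZMod.pow_card]
  have h4 := (CvS.prd_hom hZ (frobenius (AlgebraicClosure (ZMod p)) p)
    (Sum.elim (fun i => algebraMap (ZMod p) (AlgebraicClosure (ZMod p)) (x i)) (Sum.elim
        (fun _ => algebraMap (ZMod p) (AlgebraicClosure (ZMod p)) b) t))).2 h1
  have h5 : (fun i => frobenius (AlgebraicClosure (ZMod p)) p
      (Sum.elim (fun i => algebraMap (ZMod p) (AlgebraicClosure (ZMod p)) (x i)) (Sum.elim
        (fun _ : Unit => algebraMap (ZMod p) (AlgebraicClosure (ZMod p)) b) t) i)) =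
      Sum.elim (fun i => algebraMap (ZMod p) (AlgebraicClosure (ZMod p)) (x i)) (Sum.elim
        (fun _ : Unit => algebraMap (ZMod p) (AlgebraicClosure (ZMod p)) b) fun i =>
          frobenius (AlgebraicClosure (ZMod p)) p (t i)) := by
    funext i
    rcases i with i | i | i
    · simp only [Sum.elim_inl]
      exact hfix (x i)
    · simp only [Sum.elim_inr, Sum.elim_inl]
      exact hfix b
    · simp only [Sum.elim_inr]
  rw [h5] at h4
  have h6 : ln l (fun i => frobenius (AlgebraicClosure (ZMod p)) p (t i)) =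
      algebraMap (ZMod p) (AlgebraicClosure (ZMod p)) c := by
    rw [ln_map, h2, hfix]
  have h7 := h3 _ h4 h6
  have h8 : ∀ i, ∃ r : ZMod p, algebraMap (ZMod p) (AlgebraicClosure (ZMod p)) r = t i :=
    fun i => CvS.rat_of_pow ((frobenius_def (p := p) (t i)).symm.trans (congrFun h7 i))
  choose r hr using h8
  exact ⟨r, funext fun i => (hr i).symm⟩

theorem prj {ι κ : Type} [Finite κ] {Z : FR (ι ⊕ (Unit ⊕ κ))} (hZ : PRD Z) {B : ℕ}
    (hB : ∀ (K : Type) [Field K] [IsAlgClosed K] (x : ι → K) (b : K),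
      {u : κ → K | Z K (Sum.elim x (Sum.elim (fun _ => b) u))}.Finite ∧
        {u : κ → K | Z K (Sum.elim x (Sum.elim (fun _ => b) u))}.ncard ≤ B) :
    ∃ (C : ℕ) (Λ : Type) (_ : Finite Λ) (Y : Λ → FR (Fin 2 ⊕ ι))
      (E : Λ → FR (ι ⊕ (Unit ⊕ κ))), (∀ l, PRD (Y l)) ∧ (∀ l, PRD (E l)) ∧ (∀ l, FnF (E l)) ∧
      (∀ (l : Λ) (K : Type) [Field K] [IsAlgClosed K] (x : ι → K) (b : K),
        {t : K | Y l K (Sum.elim ![b, t] x)}.Finite) ∧
      ∀ (p : ℕ) [Fact p.Prime], C < p → ∀ x : ι → ZMod p,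
        (∃ z, Z (ZMod p) (Sum.elim x z)) ↔
          ∃ l, (∃ z, E l (ZMod p) (Sum.elim x z)) ∨ ∃ z, Y l (ZMod p) (Sum.elim z x) := by
  classical
  have := Fintype.ofFinite κ
  -- the relation `Bad`
  have hQB := fun l : κ → Fin (B * B + 1) => prq_qe (bd_prq l hZ)
  choose QB hQB1 hQB2 using hQB
  have hQI := fun l : κ → Fin (B * B + 1) => CvS.inf_pr (hQB1 l)
  choose QI hQI1 hQI2 using hQI
  have hfu := fun l : κ → Fin (B * B + 1) => CvS.fin_unif (hQB1 l)
  choose BF hBF using hfu
  -- the image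
  have hpy : ∀ l : κ → Fin (B * B + 1), PRD (fun K _ (v : (Fin 2 ⊕ ι) ⊕ κ → K) =>
      Z K (fun j => v (Sum.elim (fun i => Sum.inl (Sum.inr i)) (Sum.elim
        (fun _ => Sum.inl (Sum.inl 0)) fun c => Sum.inr c) j)) ∧
      ln l (fun c => v (Sum.inr c)) = v (Sum.inl (Sum.inl 1))) := fun l =>
    (re_Prj hZ _).and (PRD.eq (ln_prf l _) (PRF.var _))
  have hQY := fun l : κ → Fin (B * B + 1) => CvS.qe (hpy l)
  choose QY hQY1 hQY2 using hQY
  have eY : ∀ {K : Type} [Field K] (v : Fin 2 ⊕ ι → K) (u : κ → K),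
      (fun j => (Sum.elim v u : _ → K) (Sum.elim (fun i => Sum.inl (Sum.inr i)) (Sum.elim
        (fun _ => Sum.inl (Sum.inl 0)) fun c => Sum.inr c) j)) =
      Sum.elim (fun i => v (Sum.inr i)) (Sum.elim (fun _ : Unit => v (Sum.inl 0)) u) := by
    intro K _ v u
    funext j
    rcases j with j | j | j <;> rfl
  have eB : ∀ {K : Type} [Field K] (x : ι → K) (b : K) (φ : K →+* K), φ = RingHom.id K →
      (fun i => φ (Sum.elim x (fun _ : Unit => b) i)) = Sum.elim x (fun _ : Unit => b) := by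
    intro K _ x b φ hφ
    rw [hφ]
    rfl
  -- over an algebraically closed field
  have hQBK : ∀ (l : κ → Fin (B * B + 1)) (K : Type) [Field K] [IsAlgClosed K] (x : ι → K) (b : K),
      QB l K (Sum.elim x fun _ => b) ↔ Bd Z l K (Sum.elim x fun _ => b) := by
    intro l K _ _ x b
    exact hQB2 l K K (RingHom.id K) _
  refine ⟨B * B, κ → Fin (B * B + 1), inferInstance,
    fun l k _ y => ¬ QI l k (fun i => y (Sum.inr i)) ∧
      ¬ QB l k (fun j => y (Sum.elim (fun i => Sum.inr i) (fun _ => Sum.inl 0) j)) ∧ QY l k y,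
    fun l k _ w => ¬ QI l k (fun i => w (Sum.inl i)) ∧
      QB l k (fun j => w (Sum.elim (fun i => Sum.inl i) (fun _ => Sum.inr (Sum.inl ())) j)) ∧
        Z k w, ?_, ?_, ?_, ?_, ?_⟩
  · intro l
    exact (re_Prj (hQI1 l) _).not.and ((re_Prj (hQB1 l) _).not.and (hQY1 l))
  · intro l
    exact (re_Prj (hQI1 l) _).not.and ((re_Prj (hQB1 l) _).and hZ)
  · intro l K _ _ x
    by_cases hI : QI l K x
    · refine Set.Finite.subset Set.finite_empty ?_
      rintro t ⟨h1, _⟩
      exact (h1 hI).elim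
    · have hf : {b : K | QB l K (Sum.elim x fun _ => b)}.Finite := by
        by_contra h
        exact hI ((hQI2 l K K (RingHom.id K) x).2 h)
      have hU : (⋃ b ∈ {b : K | QB l K (Sum.elim x fun _ => b)},
          (fun u : κ → K => (Sum.elim (fun _ => b) u : Unit ⊕ κ → K)) ''
            {u : κ → K | Z K (Sum.elim x (Sum.elim (fun _ => b) u))}).Finite :=
        hf.biUnion fun b _ => (hB K x b).1.image _
      refine hU.subset ?_
      rintro t ⟨_, h2, h3⟩
      have e1 : (fun j => (Sum.elim x t : _ → K) (Sum.elim (fun i => Sum.inl i)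
          (fun _ : Unit => Sum.inr (Sum.inl ())) j)) = Sum.elim x fun _ => t (Sum.inl ()) := by
        funext j
        rcases j with j | j <;> rfl
      have e2 : (Sum.elim (fun _ : Unit => t (Sum.inl ())) fun c => t (Sum.inr c)) = t := by
        funext j
        rcases j with j | j <;> rfl
      refine Set.mem_iUnion₂.2 ⟨t (Sum.inl ()), ?_, fun c => t (Sum.inr c), ?_, e2⟩
      · change QB l K _
        rw [← e1]
        exact h2
      · change Z K _
        rw [e2]
        exact h3
  · intro l K _ _ x b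
    refine ((hB K x b).1.image (ln l)).subset ?_
    rintro t ⟨_, _, h3⟩
    obtain ⟨u, h4, h5⟩ := (hQY2 l K K (RingHom.id K) _).1 h3
    refine ⟨u, ?_, h5⟩
    have h6 : Z K (fun j => (Sum.elim (fun i => RingHom.id K (Sum.elim ![b, t] x i)) u : _ → K)
      (Sum.elim (fun i => Sum.inl (Sum.inr i)) (Sum.elim
        (fun _ => Sum.inl (Sum.inl 0)) fun c => Sum.inr c) j)) := h4
    rw [eY] at h6
    exact h6
  · intro p _ hp x
    set K := AlgebraicClosure (ZMod p) with hK
    set φ := algebraMap (ZMod p) K with hφ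
    have hpp : p.Prime := Fact.out
    have hcast : ∀ i j : ℕ, i ≤ B * B → j ≤ B * B → (i : K) = j → i = j := by
      intro i j hi hj h
      have : CharP K p := inferInstanceAs (CharP (AlgebraicClosure (ZMod p)) p)
      have h1 := (CharP.natCast_eq_natCast K p).1 h
      have h2 : i % p = j % p := h1
      rwa [Nat.mod_eq_of_lt (lt_of_le_of_lt hi hp), Nat.mod_eq_of_lt (lt_of_le_of_lt hj hp)] at h2
    have eφ : ∀ b : ZMod p, (fun i => φ ((Sum.elim x fun _ : Unit => b : _ → ZMod p) i)) =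
        Sum.elim (fun i => φ (x i)) fun _ => φ b := by
      intro b
      funext i
      rcases i with i | i <;> rfl
    have eφZ : ∀ (b : ZMod p) (u : κ → ZMod p),
        (fun i => φ ((Sum.elim x (Sum.elim (fun _ : Unit => b) u) : _ → ZMod p) i)) =
        Sum.elim (fun i => φ (x i)) (Sum.elim (fun _ => φ b) fun c => φ (u c)) := by
      intro b u
      funext i
      rcases i with i | i | i <;> rfl
    have hBi : ∀ (l : κ → Fin (B * B + 1)) (b : ZMod p), QB l (ZMod p) (Sum.elim x fun _ => b) ↔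
        Bd Z l K (Sum.elim (fun i => φ (x i)) fun _ => φ b) := by
      intro l b
      rw [← eφ]
      exact hQB2 l (ZMod p) K φ _
    constructor
    · rintro ⟨z, hz⟩
      obtain ⟨l, hl⟩ := lam (K := K) hcast (fun b => {u : κ → K | Z K (Sum.elim (fun i => φ (x i))
        (Sum.elim (fun _ => b) u))}) fun b => hB K _ b
      refine ⟨l, ?_⟩
      -- the set of the bad values is finite
      have hI : ¬ QI l (ZMod p) x := by
        intro h
        have h1 := (hQI2 l (ZMod p) K φ x).1 h
        rcases hBF l K (fun i => φ (x i)) with h2 | h2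
        · exact h1 h2.1
        · refine hl (h2.1.subset ?_)
          intro b hb
          change ¬ QB l K _
          rw [hQBK, bd_iff]
          rintro ⟨u, u', h3, h4, h5, h6⟩
          exact hb ⟨u, h3, u', h4, h6, h5⟩
      have ez : (Sum.elim (fun _ : Unit => z (Sum.inl ())) fun c => z (Sum.inr c)) = z := by
        funext j
        rcases j with j | j <;> rfl
      by_cases hb : QB l (ZMod p) (Sum.elim x fun _ => z (Sum.inl ()))
      · refine Or.inl ⟨z, hI, ?_, hz⟩
        have e1 : (fun j => (Sum.elim x z : _ → ZMod p) (Sum.elim (fun i => Sum.inl i)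
            (fun _ : Unit => Sum.inr (Sum.inl ())) j)) = Sum.elim x fun _ => z (Sum.inl ()) := by
          funext j
          rcases j with j | j <;> rfl
        change QB l (ZMod p) _
        rw [e1]
        exact hb
      · refine Or.inr ⟨![z (Sum.inl ()), ln l fun c => z (Sum.inr c)], hI, ?_, ?_⟩
        · have e1 : (fun j => (Sum.elim ![z (Sum.inl ()), ln l fun c => z (Sum.inr c)] x :
              _ → ZMod p) (Sum.elim (fun i => Sum.inr i) (fun _ : Unit => Sum.inl 0) j)) =
              Sum.elim x fun _ => z (Sum.inl ()) := by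
            funext j
            rcases j with j | j <;> rfl
          change ¬ QB l (ZMod p) _
          rw [e1]
          exact hb
        · refine (hQY2 l (ZMod p) K φ _).2 ⟨fun c => φ (z (Sum.inr c)), ?_, ?_⟩
          · rw [eY]
            change Z K (Sum.elim (fun i => φ (x i)) (Sum.elim (fun _ => φ (z (Sum.inl ())))
              fun c => φ (z (Sum.inr c))))
            rw [← eφZ, ez]
            exact (CvS.prd_hom hZ φ _).2 hz
          · change ln l (fun c => φ (z (Sum.inr c))) = φ (ln l fun c => z (Sum.inr c))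
            exact ln_map φ l _
    · rintro ⟨l, ⟨z, _, _, hz⟩ | ⟨z, hI, hb, hy⟩⟩
      · exact ⟨z, hz⟩
      · have e1 : (fun j => (Sum.elim z x : _ → ZMod p) (Sum.elim (fun i => Sum.inr i)
            (fun _ : Unit => Sum.inl 0) j)) = Sum.elim x fun _ => z 0 := by
          funext j
          rcases j with j | j <;> rfl
        have hb' : ¬ QB l (ZMod p) (Sum.elim x fun _ => z 0) := by
          rw [← e1]
          exact hb
        rw [hBi, bd_iff] at hb'
        obtain ⟨u, h1, h2⟩ := (hQY2 l (ZMod p) K φ _).1 hy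
        rw [eY] at h1
        have h1' : Z K (Sum.elim (fun i => φ (x i)) (Sum.elim (fun _ => φ (z 0)) u)) := h1
        have h2' : ln l u = φ (z 1) := h2
        obtain ⟨r, hr⟩ := rat_Prj hZ l x (z 0) (z 1) h1' h2' fun t' h3 h4 => by
          by_contra h5
          exact hb' ⟨t', u, h3, h1', h4.trans h2'.symm, h5⟩
        refine ⟨Sum.elim (fun _ => z 0) r, ?_⟩
        refine (CvS.prd_hom hZ φ _).1 ?_
        rw [eφZ]
        rw [hr] at h1'
        exact h1'

end Pool.Agent.CvQ
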