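import Pool.Agent.PtC.Final
import Pool.Agent.LPC.SumPoly

/-!
# Package CvQ-SPF: sums over prime divisors

Complete proofs. `dfun_sumPF`: as `PtC.dfun_prodPF` (PtC/Final.lean), with `LPC.dfun_sumPoly` (LPC/SumPoly.lean) in place of
`dfun_prodPoly` (no bound is needed); `∑ q ∈ (m v).primeFactors, g q v = ∑ i ∈ range (#(m v).primeFactors), g (pf (m v) i) v` as
`prod_pf`. `dfun_tupPF`: induction on `t` (`Fin.consEquiv`, `Fintype.piFinset` of a `Fin.cons`: sum over the first entry of the sum
over the other entries: `dfun_sumPF` for the function `∑ q', g (Fin.cons q q') v` of `(q, v)`, which is definable by the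
induction hypothesis for `n + 1`).
-/

set_option autoImplicit false

noncomputable section

namespace Pool.Agent.CvQ

open Finset Pool.Agent.Grz

private theorem ct_SPF (m : ℕ) : #m.primeFactors ≤ GAvg.lg m := by
  rcases Nat.eq_zero_or_pos m with h0 | h0
  · rw [h0, Nat.primeFactors_zero, Finset.card_empty]
    exact Nat.zero_le _
  have h1 : 2 ^ #m.primeFactors ≤ m := by
    calc 2 ^ #m.primeFactors = ∏ _p ∈ m.primeFactors, 2 := by rw [Finset.prod_const]
      _ ≤ ∏ p ∈ m.primeFactors, p :=
        Finset.prod_le_prod' fun p hp => (Nat.prime_of_mem_primeFactors hp).two_le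
      _ ≤ m := Nat.le_of_dvd h0 (Nat.prod_primeFactors_dvd m)
  exact (Nat.le_log_iff_pow_le (by norm_num) h0.ne').2 h1

private theorem sum_SPF (m : ℕ) (g : ℕ → ℕ) :
    ∑ q ∈ m.primeFactors, g q = ∑ i ∈ range (#m.primeFactors), g (PtC.pf m i) := by
  have h := PtC.prod_pf m fun q => 2 ^ g q
  rw [Finset.prod_pow_eq_pow_sum, Finset.prod_pow_eq_pow_sum] at h
  exact Nat.pow_right_injective le_rfl h

theorem dfun_sumPF {n : ℕ} {m : (Fin n → ℕ) → ℕ} {g : ℕ → (Fin n → ℕ) → ℕ}
    (hg : DFun (n + 1) (fun w => g (w 0) (fun i => w i.succ))) (hm : DFun n m) :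
    DFun n (fun v => ∑ q ∈ (m v).primeFactors, g q v) := by
  have e : ∀ v, ∑ q ∈ (m v).primeFactors, g q v =
      ∑ i ∈ range (#(m v).primeFactors), g (PtC.pf (m v) i) v := fun v =>
    sum_SPF (m v) fun q => g q v
  refine ECD.dfun_congr ?_ e
  refine LPC.dfun_sumPoly 1 (N := m) (g := fun i v => g (PtC.pf (m v) i) v) ?_
    (DFun.comp1 (g := fun m => #m.primeFactors) PtC.om_def hm) hm fun v => ?_
  · exact PTr.DFun.app hg (u := fun w : Fin (n + 1) → ℕ => PtC.pf (m (fun i => w i.succ)) (w 0))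
      (v := fun i w => w i.succ) (DFun.comp2 (g := PtC.pf) PtC.pf_def hm.weak (DFun.proj 0))
      fun i => DFun.proj i.succ
  · rw [pow_one]
    exact (ct_SPF (m v)).trans (Nat.le_succ _)

private theorem pi_SPF (t : ℕ) (s : Finset ℕ) (f : (Fin (t + 1) → ℕ) → ℕ) :
    ∑ q ∈ Fintype.piFinset (fun _ : Fin (t + 1) => s), f q =
      ∑ x ∈ s, ∑ q ∈ Fintype.piFinset (fun _ : Fin t => s), f (Fin.cons x q) := by
  rw [← Finset.sum_product']
  refine Finset.sum_nbij' (fun q => (q 0, Fin.tail q)) (fun p => Fin.cons p.1 p.2) ?_ ?_ ?_ ?_ ?_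
  · intro q hq
    rw [Fintype.mem_piFinset] at hq
    rw [Finset.mem_product, Fintype.mem_piFinset]
    exact ⟨hq 0, fun i => hq i.succ⟩
  · intro p hp
    rw [Finset.mem_product, Fintype.mem_piFinset] at hp
    rw [Fintype.mem_piFinset]
    intro i
    refine Fin.cases ?_ (fun j => ?_) i
    · exact hp.1
    · exact hp.2 j
  · intro q _
    exact Fin.cons_self_tail q
  · intro p _
    rfl
  · intro q _
    change f q = f (Fin.cons (q 0) (Fin.tail q))
    rw [Fin.cons_self_tail]

theorem dfun_tupPF (t : ℕ) {n : ℕ} {m : (Fin n → ℕ) → ℕ} {g : (Fin t → ℕ) → (Fin n → ℕ) → ℕ}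
    (hg : DFun (t + n) (fun w => g (fun i => w (Fin.castAdd n i)) fun i => w (Fin.natAdd t i)))
    (hm : DFun n m) :
    DFun n (fun v => ∑ q ∈ Fintype.piFinset fun _ : Fin t => (m v).primeFactors, g q v) := by
  induction t generalizing n with
  | zero =>
    have h1 := hg.comp (h := fun i v => v (Fin.cast (Nat.zero_add n) i))
      (fun i => DFun.proj (Fin.cast (Nat.zero_add n) i))
    refine ECD.dfun_congr h1 fun v => ?_
    rw [Fintype.piFinset_of_isEmpty, Finset.sum_eq_single (fun i : Fin 0 => Fin.elim0 i)]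
    · congr 1
      · exact Subsingleton.elim _ _
      · funext i
        congr 1
        apply Fin.ext
        simp
    · intro q _ hq
      exact absurd (Subsingleton.elim _ _) hq
    · intro h
      exact absurd (Finset.mem_univ _) h
  | succ t ih =>
    have h2 : ∀ v, ∑ q ∈ Fintype.piFinset (fun _ : Fin (t + 1) => (m v).primeFactors), g q v =
        ∑ x ∈ (m v).primeFactors, ∑ q ∈ Fintype.piFinset (fun _ : Fin t => (m v).primeFactors),
          g (Fin.cons x q) v := fun v => pi_SPF t (m v).primeFactors fun q => g q v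
    refine ECD.dfun_congr ?_ h2
    refine dfun_sumPF (g := fun x v => ∑ q ∈ Fintype.piFinset
      (fun _ : Fin t => (m v).primeFactors), g (Fin.cons x q) v) ?_ hm
    obtain ⟨φ, hφ⟩ : ∃ φ : Fin (t + 1 + n) → Fin (t + (n + 1)), φ = Fin.append
      (Fin.cons (Fin.natAdd t (0 : Fin (n + 1))) fun i => Fin.castAdd (n + 1) i)
        (fun i => Fin.natAdd t i.succ) := ⟨_, rfl⟩
    have h3 := hg.comp (h := fun i w => w (φ i)) (fun i => DFun.proj (φ i))
    refine ih (n := n + 1) (m := fun w => m fun i => w i.succ)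
      (g := fun q w => g (Fin.cons (w 0) q) fun i => w i.succ) ?_ hm.weak
    refine ECD.dfun_congr h3 fun w => ?_
    have h4 : (fun i : Fin (t + 1) => w (φ (Fin.castAdd n i))) =
        Fin.cons (w (Fin.natAdd t (0 : Fin (n + 1)))) fun i => w (Fin.castAdd (n + 1) i) := by
      funext i
      rw [hφ, Fin.append_left]
      refine Fin.cases ?_ (fun j => ?_) i
      · rfl
      · rfl
    have h5 : (fun i : Fin n => w (φ (Fin.natAdd (t + 1) i))) = fun i => w (Fin.natAdd t i.succ) := by
      funext i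
      rw [hφ, Fin.append_right]
    simp only [h4, h5]

end Pool.Agent.CvQ
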