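import Pool.Agent.CvQ.Dim
import Pool.Agent.CvS.Sys

/-!
# Package CvQ-SysF: systems with a first-order condition, squarefree moduli

Complete proofs, as `CvS.sys_sqf` (CvS/Sys.lean, CvS/SysC.lean).

* `snf_le`: at most `m ^ n`. `ff_mod`: `FF p φ x` depends on `x` modulo `p` only (the casts to `ZMod p`).
* `snf_sqf`: for squarefree `m` the number is the product over the prime divisors `p` of `SNF p c φ a`:
  as `CvS.sn_sqf`; for coprime `a`, `b` the solutions modulo `a b` are the pairs of solutions modulo `a` and `b`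
  (a prime divides `a b` iff it divides `a` or `b`, `ff_mod`). For a prime `p` the only prime dividing `p` is
  `p`.
* `snf_prime`: `CHQ n` for the system (`CvS.sys_prd` or the relation in the proof of `CvS.sys_prime`, with
  parameters `(Fin r × (Fin n → Fin (d + 1))) ⊕ Fin k`) and the relation `fo φ` (`fo_prq`, `PRQ.comp`).
* `snf_def`: as `CvS.sys_sqf`: product over the primes of `min (N …) (p ^ n)`.
-/

set_option autoImplicit false

noncomputable section

namespace Pool.Agent.CvQ

open Finset Polynomial Pool.Agent.PRc Pool.Agent.Grz Pool.Agent.CvS FirstOrder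

variable {n d r k : ℕ}

/-- the property depends on the classes modulo the prime only -/
private theorem ff_mod_F {α : Type} {p : ℕ} (φ : Language.ring.Formula α) {x y : α → ℕ}
    (h : ∀ i, x i ≡ y i [MOD p]) : FF p φ x ↔ FF p φ y := by
  unfold FF
  refine exists_congr fun hp => ?_
  haveI := Fact.mk hp
  have h2 : (fun i => (x i : ZMod p)) = fun i => (y i : ZMod p) :=
    funext fun i => (ZMod.natCast_eq_natCast_iff _ _ _).2 (h i)
  exact iff_of_eq (congrArg (fo φ (ZMod p)) h2)

private theorem sval_modEq_F (m : ℕ) (e : (Fin n → Fin (d + 1)) → ℕ) {z z' : Fin n → ℕ}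
    (h : ∀ i, z i ≡ z' i [MOD m]) : sval e z ≡ sval e z' [MOD m] := by
  rw [← ZMod.natCast_eq_natCast_iff]
  have h1 : ∀ i, (z i : ZMod m) = (z' i : ZMod m) := fun i =>
    (ZMod.natCast_eq_natCast_iff _ _ _).2 (h i)
  unfold sval
  push_cast
  simp only [h1]

private theorem sval_dvd_F (m : ℕ) (e : (Fin n → Fin (d + 1)) → ℕ) (z : Fin n → ℕ) :
    m ∣ sval e (fun i => z i % m) ↔ m ∣ sval e z :=
  (sval_modEq_F m e (z := fun i => z i % m) (z' := z) fun _ => Nat.mod_modEq _ _).dvd_iff dvd_rfl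

private theorem ff_dvd_F {m q : ℕ} (hq : q ∣ m) (φ : Language.ring.Formula (Fin n ⊕ Fin k))
    (a : Fin k → ℕ) (z : Fin n → ℕ) :
    FF q φ (Sum.elim (fun i => z i % m) a) ↔ FF q φ (Sum.elim z a) := by
  refine ff_mod_F φ fun i => ?_
  rcases i with i | i
  · exact (Nat.mod_modEq (z i) m).of_dvd hq
  · exact Nat.ModEq.refl _

theorem snf_le (m : ℕ) (c : Fin r → (Fin n → Fin (d + 1)) → ℕ)
    (φ : Language.ring.Formula (Fin n ⊕ Fin k)) (a : Fin k → ℕ) : SNF m c φ a ≤ m ^ n := by
  classical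
  unfold SNF
  refine (card_filter_le _ _).trans ?_
  rw [Fintype.card_piFinset]
  simp

private theorem snf_one_F (c : Fin r → (Fin n → Fin (d + 1)) → ℕ)
    (φ : Language.ring.Formula (Fin n ⊕ Fin k)) (a : Fin k → ℕ) : SNF 1 c φ a = 1 := by
  classical
  unfold SNF
  rw [card_eq_one]
  refine ⟨fun _ => 0, ?_⟩
  ext z
  rw [mem_filter, Fintype.mem_piFinset, mem_singleton]
  constructor
  · rintro ⟨h, -⟩
    funext i
    exact Nat.lt_one_iff.1 (mem_range.1 (h i))
  · rintro rfl
    exact ⟨fun _ => mem_range.2 Nat.one_pos, fun _ => one_dvd _,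
      fun p hp h1 => absurd (Nat.dvd_one.1 h1) hp.ne_one⟩

private theorem snf_mul_pos_F {a b : ℕ} (ha : 0 < a) (hb : 0 < b) (hab : Nat.Coprime a b)
    (c : Fin r → (Fin n → Fin (d + 1)) → ℕ)
    (φ : Language.ring.Formula (Fin n ⊕ Fin k)) (α : Fin k → ℕ) :
    SNF (a * b) c φ α = SNF a c φ α * SNF b c φ α := by
  classical
  unfold SNF
  rw [← Finset.card_product]
  refine Finset.card_bij (fun z _ => ((fun i => z i % a), (fun i => z i % b))) ?_ ?_ ?_
  · intro z hz
    rw [mem_filter] at hz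
    obtain ⟨-, hR, hF⟩ := hz
    rw [mem_product, mem_filter, mem_filter, Fintype.mem_piFinset, Fintype.mem_piFinset]
    exact ⟨⟨fun i => mem_range.2 (Nat.mod_lt _ ha),
        fun l => (sval_dvd_F a (c l) z).2 ((dvd_mul_right a b).trans (hR l)),
        fun q hq hqa => (ff_dvd_F hqa φ α z).2 (hF q hq (hqa.mul_right b))⟩,
      ⟨fun i => mem_range.2 (Nat.mod_lt _ hb),
        fun l => (sval_dvd_F b (c l) z).2 ((dvd_mul_left b a).trans (hR l)),
        fun q hq hqb => (ff_dvd_F hqb φ α z).2 (hF q hq (hqb.mul_left a))⟩⟩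
  · intro z hz w hw h
    rw [mem_filter, Fintype.mem_piFinset] at hz hw
    rw [Prod.mk.injEq] at h
    obtain ⟨e1, e2⟩ := h
    funext i
    have f1 : z i ≡ w i [MOD a * b] :=
      (Nat.modEq_and_modEq_iff_modEq_mul hab).1 ⟨congrFun e1 i, congrFun e2 i⟩
    exact f1.eq_of_lt_of_lt (mem_range.1 (hz.1 i)) (mem_range.1 (hw.1 i))
  · rintro ⟨x, y⟩ hz
    rw [mem_product, mem_filter, mem_filter, Fintype.mem_piFinset, Fintype.mem_piFinset] at hz
    obtain ⟨⟨hx, rx, fx⟩, ⟨hy, ry, fy⟩⟩ := hz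
    have key : ∀ i, ∃ u, u < a * b ∧ u % a = x i ∧ u % b = y i := by
      intro i
      have kx := (Nat.chineseRemainder hab (x i) (y i)).2
      have lx := Nat.chineseRemainder_lt_mul hab (x i) (y i) ha.ne' hb.ne'
      refine ⟨_, lx, ?_, ?_⟩
      · rw [kx.1, Nat.mod_eq_of_lt (mem_range.1 (hx i))]
      · rw [kx.2, Nat.mod_eq_of_lt (mem_range.1 (hy i))]
    choose u hu1 hu2 hu3 using key
    have e1 : (fun i => u i % a) = x := funext hu2
    have e2 : (fun i => u i % b) = y := funext hu3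
    refine ⟨u, ?_, ?_⟩
    · rw [mem_filter, Fintype.mem_piFinset]
      refine ⟨fun i => mem_range.2 (hu1 i), fun l => ?_, fun q hq hqd => ?_⟩
      · refine Nat.Coprime.mul_dvd_of_dvd_of_dvd hab ?_ ?_
        · rw [← sval_dvd_F a (c l) u, e1]
          exact rx l
        · rw [← sval_dvd_F b (c l) u, e2]
          exact ry l
      · rcases (Nat.Prime.dvd_mul hq).1 hqd with h1 | h1
        · have h2 := fx q hq h1
          have h3 : FF q φ (Sum.elim (fun i => u i % a) α) := by
            rw [e1]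
            exact h2
          exact (ff_dvd_F h1 φ α u).1 h3
        · have h2 := fy q hq h1
          have h3 : FF q φ (Sum.elim (fun i => u i % b) α) := by
            rw [e2]
            exact h2
          exact (ff_dvd_F h1 φ α u).1 h3
    · rw [e1, e2]

private theorem snf_mul_F {a b : ℕ} (h : Nat.Coprime a b)
    (c : Fin r → (Fin n → Fin (d + 1)) → ℕ)
    (φ : Language.ring.Formula (Fin n ⊕ Fin k)) (α : Fin k → ℕ) :
    SNF (a * b) c φ α = SNF a c φ α * SNF b c φ α := by
  rcases Nat.eq_zero_or_pos a with ha | ha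
  · subst ha
    rw [Nat.coprime_zero_left] at h
    subst h
    rw [mul_one, snf_one_F, mul_one]
  rcases Nat.eq_zero_or_pos b with hb | hb
  · subst hb
    rw [Nat.coprime_zero_right] at h
    subst h
    rw [one_mul, snf_one_F, one_mul]
  exact snf_mul_pos_F ha hb h c φ α

theorem snf_sqf {m : ℕ} (hm : Squarefree m) (c : Fin r → (Fin n → Fin (d + 1)) → ℕ)
    (φ : Language.ring.Formula (Fin n ⊕ Fin k)) (a : Fin k → ℕ) :
    SNF m c φ a = ∏ p ∈ m.primeFactors, SNF p c φ a := by
  induction m using Nat.strong_induction_on with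
  | _ m ih =>
    have hm0 : m ≠ 0 := hm.ne_zero
    rcases Nat.eq_or_lt_of_le (Nat.one_le_iff_ne_zero.2 hm0) with h | h
    · subst h
      rw [Nat.primeFactors_one, prod_empty, snf_one_F]
    · have hp : (m.minFac).Prime := Nat.minFac_prime h.ne'
      obtain ⟨l, hl⟩ := m.minFac_dvd
      have hco : Nat.Coprime m.minFac l := by
        rw [hl] at hm
        exact Nat.coprime_of_squarefree_mul hm
      have hlm : Squarefree l := by
        refine hm.squarefree_of_dvd ?_
        rw [hl]
        exact dvd_mul_left _ _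
      have hlt : l < m := by
        have hk0 : 0 < l := Nat.pos_of_ne_zero hlm.ne_zero
        conv_rhs => rw [hl]
        have := hp.two_le
        nlinarith
      have e1 := snf_mul_F hco c φ a
      rw [← hl] at e1
      rw [e1, ih l hlt hlm]
      conv_rhs => rw [hl]
      rw [hco.primeFactors_mul, prod_union hco.disjoint_primeFactors, hp.primeFactors,
        prod_singleton]

private theorem sval_cast_F (K : Type) [CommSemiring K]
    (c : (Fin n → Fin (d + 1)) → ℕ) (z : Fin n → ℕ) :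
    ((sval c z : ℕ) : K) = sval c (fun i => (z i : K)) := by
  unfold sval
  simp only [Nat.cast_sum, Nat.cast_mul, Nat.cast_prod, Nat.cast_pow, Nat.cast_id]

/-- the system as a relation on all fields, with additional parameters -/
private def XF (n d r k : ℕ) : FR (Fin n ⊕ ((Fin r × (Fin n → Fin (d + 1))) ⊕ Fin k)) :=
  fun _ _ x => ∀ l : Fin r, ∑ e : Fin n → Fin (d + 1), x (Sum.inr (Sum.inl (l, e))) *
    ∏ i, x (Sum.inl i) ^ (e i : ℕ) = 0

private theorem xf_prd (n d r k : ℕ) : PRD (XF n d r k) := by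
  have h : PRD (fun (K : Type) [Field K]
      (x : Fin n ⊕ ((Fin r × (Fin n → Fin (d + 1))) ⊕ Fin k) → K) =>
      ∀ l ∈ (Finset.univ : Finset (Fin r)), ∑ e : Fin n → Fin (d + 1),
        x (Sum.inr (Sum.inl (l, e))) * ∏ i, x (Sum.inl i) ^ (e i : ℕ) = 0) := by
    refine PRD.all Finset.univ (P := fun (l : Fin r) (K : Type) [Field K]
      (x : Fin n ⊕ ((Fin r × (Fin n → Fin (d + 1))) ⊕ Fin k) → K) =>
      ∑ e : Fin n → Fin (d + 1), x (Sum.inr (Sum.inl (l, e))) *
        ∏ i, x (Sum.inl i) ^ (e i : ℕ) = 0)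
      fun l _ => ?_
    refine PRD.eq ?_ PRF.zero
    refine PRF.sum Finset.univ (F := fun (e : Fin n → Fin (d + 1)) (K : Type) [Field K]
      (x : Fin n ⊕ ((Fin r × (Fin n → Fin (d + 1))) ⊕ Fin k) → K) =>
      x (Sum.inr (Sum.inl (l, e))) * ∏ i, x (Sum.inl i) ^ (e i : ℕ)) fun e _ => ?_
    refine PRF.mul (PRF.var _) ?_
    exact PRF.prod Finset.univ (F := fun (i : Fin n) (K : Type) [Field K]
      (x : Fin n ⊕ ((Fin r × (Fin n → Fin (d + 1))) ⊕ Fin k) → K) =>
      x (Sum.inl i) ^ (e i : ℕ)) fun i _ => (PRF.var _).pow _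
  refine h.congr fun K _ x => ?_
  unfold XF
  simp only [Finset.mem_univ, forall_true_left]

/-- the property as a relation on all fields, with additional parameters -/
private def RF (n d r k : ℕ) (φ : Language.ring.Formula (Fin n ⊕ Fin k)) :
    FR (Fin n ⊕ ((Fin r × (Fin n → Fin (d + 1))) ⊕ Fin k)) :=
  fun K _ x => fo φ K (Sum.elim (fun i => x (Sum.inl i)) fun j => x (Sum.inr (Sum.inr j)))

private theorem rf_prq (n d r k : ℕ) (φ : Language.ring.Formula (Fin n ⊕ Fin k)) :
    PRQ (RF n d r k φ) := by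
  have h := (fo_prq φ).comp (κ := Fin n ⊕ ((Fin r × (Fin n → Fin (d + 1))) ⊕ Fin k))
    (G := Sum.elim
      (fun i => fun K _ (x : Fin n ⊕ ((Fin r × (Fin n → Fin (d + 1))) ⊕ Fin k) → K) =>
        x (Sum.inl i))
      (fun j => fun K _ (x : Fin n ⊕ ((Fin r × (Fin n → Fin (d + 1))) ⊕ Fin k) → K) =>
        x (Sum.inr (Sum.inr j)))) (by
      rintro (i | j)
      · exact PRF.var (Sum.inl i)
      · exact PRF.var (Sum.inr (Sum.inr j)))
  refine h.congr fun K _ x => ?_
  unfold RF
  refine iff_of_eq (congrArg (fo φ K) ?_)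
  funext j
  rcases j with j | j <;> rfl

private theorem snf_card_F (p : ℕ) [Fact p.Prime] (c : Fin r → (Fin n → Fin (d + 1)) → ℕ)
    (φ : Language.ring.Formula (Fin n ⊕ Fin k)) (a : Fin k → ℕ) :
    Nat.card {w : Fin n → ZMod p // (∀ l, sval (c l) w = 0) ∧
      fo φ (ZMod p) (Sum.elim w fun i => (a i : ZMod p))} = SNF p c φ a := by
  classical
  have hpp : p.Prime := Fact.out
  have hp : 0 < p := hpp.pos
  have hff : ∀ z : Fin n → ℕ, (∀ q, q.Prime → q ∣ p → FF q φ (Sum.elim z a)) ↔
      fo φ (ZMod p) (Sum.elim (fun i => (z i : ZMod p)) fun i => (a i : ZMod p)) := by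
    intro z
    have e : (fun i => ((Sum.elim z a i : ℕ) : ZMod p)) =
        Sum.elim (fun i => (z i : ZMod p)) fun i => (a i : ZMod p) := by
      funext i
      rcases i with i | i <;> rfl
    constructor
    · intro h
      obtain ⟨h1, h2⟩ := h p hpp dvd_rfl
      rw [e] at h2
      exact h2
    · intro h q hq hqp
      obtain rfl : q = p := (Nat.prime_dvd_prime_iff_eq hq hpp).1 hqp
      refine ⟨hpp, ?_⟩
      rw [e]
      exact h
  have hS : {w : Fin n → ZMod p | (∀ l, sval (c l) w = 0) ∧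
      fo φ (ZMod p) (Sum.elim w fun i => (a i : ZMod p))} =
      ↑(({z ∈ Fintype.piFinset fun _ : Fin n => range p | (∀ l, p ∣ sval (c l) z) ∧
        ∀ q, q.Prime → q ∣ p → FF q φ (Sum.elim z a)} : Finset (Fin n → ℕ)).image
          fun z i => (z i : ZMod p)) := by
    ext w
    simp only [Finset.coe_image, Set.mem_image, Finset.mem_coe, Finset.mem_filter,
      Fintype.mem_piFinset, Finset.mem_range, Set.mem_setOf_eq]
    constructor
    · rintro ⟨hw, hf⟩
      refine ⟨fun i => (w i).val, ⟨fun i => ZMod.val_lt _, fun l => ?_, ?_⟩, ?_⟩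
      · rw [← ZMod.natCast_eq_zero_iff, sval_cast_F]
        simp only [ZMod.natCast_val, ZMod.cast_id', id_eq]
        exact hw l
      · rw [hff]
        simp only [ZMod.natCast_val, ZMod.cast_id', id_eq]
        exact hf
      · funext i
        simp only [ZMod.natCast_val, ZMod.cast_id', id_eq]
    · rintro ⟨z, ⟨_, h2, h3⟩, rfl⟩
      refine ⟨fun l => ?_, (hff z).1 h3⟩
      rw [← sval_cast_F, ZMod.natCast_eq_zero_iff]
      exact h2 l
  have hc : Nat.card {w : Fin n → ZMod p // (∀ l, sval (c l) w = 0) ∧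
      fo φ (ZMod p) (Sum.elim w fun i => (a i : ZMod p))} =
      {w : Fin n → ZMod p | (∀ l, sval (c l) w = 0) ∧
        fo φ (ZMod p) (Sum.elim w fun i => (a i : ZMod p))}.ncard := by
    rw [← Nat.card_coe_set_eq]
    rfl
  rw [hc, hS, Set.ncard_coe_finset, Finset.card_image_of_injOn]
  · unfold SNF
    congr
  · intro z hz z' hz' h
    simp only [Finset.mem_coe, Finset.mem_filter, Fintype.mem_piFinset, Finset.mem_range] at hz hz'
    funext i
    have h1 : ((z i : ℕ) : ZMod p) = (z' i : ZMod p) := congrFun h i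
    rw [ZMod.natCast_eq_natCast_iff] at h1
    have h2 : z i % p = z' i % p := h1
    rwa [Nat.mod_eq_of_lt (hz.1 i), Nat.mod_eq_of_lt (hz'.1 i)] at h2

theorem snf_prime (H : One) (n d r : ℕ) {k : ℕ} (φ : Language.ring.Formula (Fin n ⊕ Fin k)) :
    ∃ N : ℕ → ((Fin r × (Fin n → Fin (d + 1))) ⊕ Fin k → ℕ) → ℕ, DC N ∧
      ∀ (p : ℕ) (c : Fin r → (Fin n → Fin (d + 1)) → ℕ) (a : Fin k → ℕ), Cv p c →
        N p (Sum.elim (fun i => c i.1 i.2) a) = SNF p c φ a := by
  obtain ⟨N, hN, h⟩ := chq_all H n (X := XF n d r k) (xf_prd n d r k) (R := RF n d r k φ)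
    (rf_prq n d r k φ)
  refine ⟨N, hN, fun p c a hc => ?_⟩
  obtain ⟨hp, hd⟩ := hc
  haveI := Fact.mk hp
  have h1 : ∀ (K : Type) [Field K],
      Pt (XF n d r k) K (cst K (Sum.elim (fun i => c i.1 i.2) a)) = SZ K c :=
    fun K _ => rfl
  have h2 := h p (Sum.elim (fun i => c i.1 i.2) a) (by rw [h1]; exact hd)
  rw [h2, ← snf_card_F p c φ a]
  refine Nat.card_congr (Equiv.subtypeEquivRight fun w => ?_)
  exact Iff.rfl

private theorem sqf_F {n : ℕ} {f : (Fin n → ℕ) → ℕ} (hf : DFun n f) :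
    Delta0 n (fun v => Squarefree (f v)) := by
  have h1 : Delta0 (n + 1) (fun w => w 0 * w 0 ∣ f (fun i => w i.succ) → w 0 = 1) :=
    (ECD.delta_dvd ((DFun.proj 0).mul (DFun.proj 0)) hf.weak).imp
      (Delta0.eqFun (DFun.proj 0) (DFun.const 1))
  refine ((Delta0.ltFun (DFun.const 0) hf).and (Delta0.ballFun
    (P := fun x v => x * x ∣ f v → x = 1) hf h1)).of_iff fun v => ?_
  constructor
  · intro h
    exact ⟨Nat.pos_of_ne_zero h.ne_zero, fun x _ hx => Nat.isUnit_iff.1 (h x hx)⟩
  · rintro ⟨h0, h⟩ x hx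
    refine Nat.isUnit_iff.2 (h x ?_ hx)
    have h2 : x * x ≤ f v := Nat.le_of_dvd h0 hx
    exact (Nat.le_mul_self x).trans h2

theorem snf_def (H : One) {t : ℕ} {m : (Fin t → ℕ) → ℕ}
    {c : Fin r → (Fin n → Fin (d + 1)) → (Fin t → ℕ) → ℕ} {a : Fin k → (Fin t → ℕ) → ℕ}
    (φ : Language.ring.Formula (Fin n ⊕ Fin k)) (hm : DFun t m) (hc : ∀ l e, DFun t (c l e))
    (ha : ∀ i, DFun t (a i)) : ∃ f : (Fin t → ℕ) → ℕ, DFun t f ∧ ∀ v, Squarefree (m v) →
      (∀ p, p.Prime → p ∣ m v → Cv p fun l e => c l e v) →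
        f v = SNF (m v) (fun l e => c l e v) φ (fun i => a i v) := by
  classical
  obtain ⟨N, hN, h⟩ := snf_prime H n d r φ
  have hs : Delta0 t (fun v => Squarefree (m v)) := sqf_F hm
  have hm' : DFun t (fun v => if Squarefree (m v) then m v else 1) :=
    DFun.ite hs hm (DFun.const 1)
  have hg : DFun (t + 1) (fun w => (fun (q : ℕ) (v : Fin t → ℕ) =>
      min (N q (Sum.elim (fun i => c i.1 i.2 v) fun i => a i v)) (q ^ n)) (w 0)
        (fun i => w i.succ)) := by
    refine DFun.min ?_ (PTr.DFun.powConst (DFun.proj 0) n)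
    have h3 := hN (p := fun w : Fin (t + 1) → ℕ => w 0)
      (a := Sum.elim (fun i (w : Fin (t + 1) → ℕ) => c i.1 i.2 (fun j => w j.succ))
        fun i (w : Fin (t + 1) → ℕ) => a i (fun j => w j.succ)) (DFun.proj 0) (by
        rintro (i | i)
        · exact (hc i.1 i.2).weak
        · exact (ha i).weak)
    have e : (fun v : Fin (t + 1) → ℕ => N (v 0) fun i =>
        Sum.elim (fun i (w : Fin (t + 1) → ℕ) => c i.1 i.2 (fun j => w j.succ))
          (fun i (w : Fin (t + 1) → ℕ) => a i (fun j => w j.succ)) i v) =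
        fun w => N (w 0) (Sum.elim (fun i => c i.1 i.2 fun j => w j.succ)
          fun i => a i fun j => w j.succ) := by
      funext w
      congr 1
      funext i
      rcases i with i | i <;> rfl
    rw [e] at h3
    exact h3
  have hb : ∀ v : Fin t → ℕ, ∏ q ∈ (if Squarefree (m v) then m v else 1).primeFactors,
      min (N q (Sum.elim (fun i => c i.1 i.2 v) fun i => a i v)) (q ^ n) ≤
        (if Squarefree (m v) then m v else 1) ^ n := by
    intro v
    have h0 : (if Squarefree (m v) then m v else 1) ≠ 0 := by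
      split_ifs with h1
      · exact h1.ne_zero
      · exact one_ne_zero
    calc ∏ q ∈ (if Squarefree (m v) then m v else 1).primeFactors,
          min (N q (Sum.elim (fun i => c i.1 i.2 v) fun i => a i v)) (q ^ n)
        ≤ ∏ q ∈ (if Squarefree (m v) then m v else 1).primeFactors, q ^ n :=
          Finset.prod_le_prod' fun q _ => min_le_right _ _
      _ = (∏ q ∈ (if Squarefree (m v) then m v else 1).primeFactors, q) ^ n :=
          Finset.prod_pow _ _ _
      _ ≤ (if Squarefree (m v) then m v else 1) ^ n :=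
          Nat.pow_le_pow_left (Nat.le_of_dvd (Nat.pos_of_ne_zero h0)
            (Nat.prod_primeFactors_dvd _)) n
  have h2 := PtC.dfun_prodPF (n := t) (m := fun v => if Squarefree (m v) then m v else 1)
    (B := fun v => (if Squarefree (m v) then m v else 1) ^ n) hg hm'
    (PTr.DFun.powConst hm' n) hb
  refine ⟨_, h2, fun v hv hC => ?_⟩
  show ∏ q ∈ (if Squarefree (m v) then m v else 1).primeFactors,
    min (N q (Sum.elim (fun i => c i.1 i.2 v) fun i => a i v)) (q ^ n) = _
  rw [if_pos hv, snf_sqf hv (fun l e => c l e v) φ fun i => a i v]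
  refine Finset.prod_congr rfl fun q hq => ?_
  have h3 := h q (fun l e => c l e v) (fun i => a i v) (hC q (Nat.prime_of_mem_primeFactors hq)
    (Nat.dvd_of_mem_primeFactors hq))
  rw [h3]
  exact min_eq_left (snf_le q _ φ _)

end Pool.Agent.CvQ
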