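import Pool.Agent.CvQ.Cmb
import Pool.Agent.CvQ.SPF

/-!
# Package CvQ-Wc: the weighted numbers are definable

Complete proofs. `hN`: the `N i p v` are definable; `hb`: the product of the sums over `i` is
bounded.

* `gw_zero`: the case `J = ∅`: choose `τ` (`t = ∑ i ∈ I, c i`), `gw_tup`, `dfun_tupPF`; the inner
product over the prime
  divisors is definable by `PtC.dfun_prodPF` for the function `hv` of `(p, q, v)`, with the bound:
if `q` is injective then
  `hv N I τ q p ≤ ∑ i, N i p`, so the product is at most `Bd v` (replace `hv` by `0` if `q` is not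
injective, or by the minimum of
  `hv` and `∑ i, N i p`); divide by the constant `∏ (c i)!`.
* `gw_step`: `GW P N B I (insert j J) c = GW P N B I J c - ∑ b ∈ range B, GW P N B (insert j I) J
(Function.update c j b)` if
  `j ∉ I`, `j ∉ J` (`#{σ p = j} ≥ B` iff not `#{σ p = j} = b` for a `b < B`); so `gw_def` by
induction on `J` for all `I` disjoint from
  `J`.
* `cw_def`: `CW P N B A` is the sum over the `c : Fin k → Fin (B + 1)` with `c ∈ A` of
`GW P N B {i | c i < B} {i | c i = B} c`:
  `min B n = c i` iff `n = c i` (if `c i < B`) or `B ≤ n` (if `c i = B`).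
-/

set_option autoImplicit false

noncomputable section

namespace Pool.Agent.CvQ

open Finset Pool.Agent.Grz Pool.Agent.GAvg Pool.Agent.PTr Pool.Agent.MTr Pool.Agent.LPC
  Pool.Agent.ECD

variable {n k : ℕ} {m Bd : (Fin n → ℕ) → ℕ} {N : Fin k → ℕ → (Fin n → ℕ) → ℕ}

private theorem hv_le_Wc {k t : ℕ} (N : Fin k → ℕ → ℕ) (I : Finset (Fin k)) (τ : Fin t → Fin k)
    {q : Fin t → ℕ} (hq : Function.Injective q) (p : ℕ) : hv N I τ q p ≤ ∑ i, N i p := by
  unfold hv
  by_cases h : ∀ l, q l ≠ p
  · rw [if_pos h, Finset.sum_eq_zero (fun l _ => if_neg (h l)), zero_add]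
    exact Finset.sum_le_sum_of_subset (Finset.subset_univ _)
  · rw [if_neg h, add_zero]
    push Not at h
    obtain ⟨l, hl⟩ := h
    rw [Finset.sum_eq_single l (fun l' _ h' => if_neg fun e => h' (hq (e.trans hl.symm)))
      (fun h' => absurd (Finset.mem_univ l) h'), if_pos hl]
    exact Finset.single_le_sum (f := fun i => N i p) (fun _ _ => Nat.zero_le _)
      (Finset.mem_univ (τ l))

private theorem exTau_Wc {k : ℕ} (I : Finset (Fin k)) (c : Fin k → ℕ) :
    ∃ τ : Fin (∑ i ∈ I, c i) → Fin k, (∀ l, τ l ∈ I) ∧ ∀ i ∈ I, #{l | τ l = i} = c i := by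
  classical
  have hc : Fintype.card (Σ i : I, Fin (c i)) = ∑ i ∈ I, c i := by
    rw [Fintype.card_sigma]
    simp only [Fintype.card_fin]
    exact Finset.sum_coe_sort I c
  let e : Fin (∑ i ∈ I, c i) ≃ (Σ i : I, Fin (c i)) := (Fintype.equivFinOfCardEq hc).symm
  refine ⟨fun l => (e l).1, fun l => (e l).1.2, fun i hi => ?_⟩
  rw [← Fintype.card_fin (c i), ← Finset.card_univ]
  symm
  refine Finset.card_bij (fun j _ => e.symm ⟨⟨i, hi⟩, j⟩) ?_ ?_ ?_
  · intro j _
    rw [Finset.mem_filter]
    refine ⟨Finset.mem_univ _, ?_⟩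
    change ((e (e.symm ⟨⟨i, hi⟩, j⟩)).1 : Fin k) = i
    rw [Equiv.apply_symm_apply]
  · intro j _ j' _ h
    have h' := e.symm.injective h
    simpa using h'
  · intro l hl
    have h1 : ((e l).1 : Fin k) = i := (Finset.mem_filter.1 hl).2
    rcases h : e l with ⟨⟨a, ha⟩, j⟩
    rw [h] at h1
    subst h1
    exact ⟨j, Finset.mem_univ _, by rw [← h, Equiv.symm_apply_apply]⟩

private theorem gw_zero_Wc (hN : ∀ i, DFun (n + 1) (fun w => N i (w 0) fun i => w i.succ))
    (hm : DFun n m) (hB : DFun n Bd)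
    (hb : ∀ v, ∏ p ∈ (m v).primeFactors, ∑ i, N i p v ≤ Bd v) (B : ℕ)
    (I : Finset (Fin k)) (c : Fin k → ℕ) :
    DFun n (fun v => GW (m v).primeFactors (fun i p => N i p v) B I ∅ c) := by
  classical
  obtain ⟨τ, h1, h2⟩ := exTau_Wc I c
  generalize (∑ i ∈ I, c i) = t at τ h1 h2
  have hNw : ∀ i : Fin k, DFun (t + n + 1)
      (fun w => N i (w 0) fun i => w (Fin.natAdd t i).succ) :=
    fun i => DFun.app (hN i) (u := fun w : Fin (t + n + 1) → ℕ => w 0)
      (v := fun i w => w (Fin.natAdd t i).succ) (DFun.proj 0) fun i => DFun.proj _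
  have hmw : DFun (t + n) (fun w => m fun i => w (Fin.natAdd t i)) :=
    hm.comp (h := fun i w => w (Fin.natAdd t i)) fun i => DFun.proj _
  have hBw : DFun (t + n) (fun w => Bd fun i => w (Fin.natAdd t i)) :=
    hB.comp (h := fun i w => w (Fin.natAdd t i)) fun i => DFun.proj _
  have hhv : DFun (t + n + 1) (fun w => hv (fun i p => N i p fun i => w (Fin.natAdd t i).succ) I τ
      (fun i => w (Fin.castAdd n i).succ) (w 0)) := by
    unfold hv
    refine DFun.add (DFun.finSum _ fun l => DFun.ite (Delta0.eqFun (DFun.proj _) (DFun.proj _))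
      (hNw (τ l)) (DFun.const 0)) (DFun.ite ?_ (DFun.finSum _ fun j => hNw j) (DFun.const 0))
    exact Delta0.allOf fun l => (Delta0.eqFun (DFun.proj _) (DFun.proj _)).not
  have hprod : DFun (t + n) (fun w => ∏ p ∈ (m fun i => w (Fin.natAdd t i)).primeFactors,
      min (hv (fun i p => N i p fun i => w (Fin.natAdd t i)) I τ
        (fun i => w (Fin.castAdd n i)) p) (∑ i, N i p fun i => w (Fin.natAdd t i))) := by
    refine PtC.dfun_prodPF (n := t + n) (g := fun p w =>
      min (hv (fun i p => N i p fun i => w (Fin.natAdd t i)) I τ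
        (fun i => w (Fin.castAdd n i)) p) (∑ i, N i p fun i => w (Fin.natAdd t i)))
      (DFun.min hhv (DFun.finSum _ fun i => hNw i)) hmw hBw fun w => ?_
    exact (Finset.prod_le_prod' fun p _ => min_le_right _ _).trans (hb _)
  have hG : DFun (t + n) (fun w => (fun (q : Fin t → ℕ) (v : Fin n → ℕ) =>
      if Function.Injective q then ∏ p ∈ (m v).primeFactors,
        min (hv (fun i p => N i p v) I τ q p) (∑ i, N i p v) else 0)
      (fun i => w (Fin.castAdd n i)) fun i => w (Fin.natAdd t i)) := by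
    refine DFun.ite (P := fun w : Fin (t + n) → ℕ => Function.Injective fun i : Fin t =>
      w (Fin.castAdd n i)) ?_ hprod (DFun.const 0)
    refine (Delta0.allOf (P := fun (a : Fin t) (w : Fin (t + n) → ℕ) => ∀ b : Fin t,
      w (Fin.castAdd n a) = w (Fin.castAdd n b) → a = b) fun a => Delta0.allOf
      (P := fun (b : Fin t) (w : Fin (t + n) → ℕ) =>
      w (Fin.castAdd n a) = w (Fin.castAdd n b) → a = b) fun b => ?_).of_iff fun w => Iff.rfl
    refine (Delta0.eqFun (DFun.proj _) (DFun.proj _)).imp ?_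
    by_cases hab : a = b
    · exact (Delta0.eqFun (DFun.const 0) (DFun.const 0)).of_iff fun v => by simp [hab]
    · exact (Delta0.eqFun (DFun.const 0) (DFun.const 1)).of_iff fun v => by simp [hab]
  have hS := dfun_tupPF t (g := fun (q : Fin t → ℕ) (v : Fin n → ℕ) =>
      if Function.Injective q then ∏ p ∈ (m v).primeFactors,
        min (hv (fun i p => N i p v) I τ q p) (∑ i, N i p v) else 0) hG hm
  have hpos : ∀ _v : Fin n → ℕ, 0 < ∏ i ∈ I, (c i).factorial := fun _ =>
    Finset.prod_pos fun i _ => Nat.factorial_pos _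
  have hD := DFun.divPos hS (DFun.const (∏ i ∈ I, (c i).factorial)) hpos
  refine dfun_congr hD fun v => ?_
  have e := gw_tup (m v).primeFactors (fun i p => N i p v) B I c τ h1 h2
  have e2 : ∑ q ∈ Fintype.piFinset fun _ : Fin t => (m v).primeFactors,
      (if Function.Injective q then ∏ p ∈ (m v).primeFactors,
        min (hv (fun i p => N i p v) I τ q p) (∑ i, N i p v) else 0) =
      ∑ q ∈ Fintype.piFinset fun _ : Fin t => (m v).primeFactors,
      (if Function.Injective q then ∏ p ∈ (m v).primeFactors,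
        hv (fun i p => N i p v) I τ q p else 0) := by
    refine Finset.sum_congr rfl fun q _ => ?_
    by_cases hq : Function.Injective q
    · rw [if_pos hq, if_pos hq]
      exact Finset.prod_congr rfl fun p _ => min_eq_left (hv_le_Wc _ I τ hq p)
    · rw [if_neg hq, if_neg hq]
  rw [e2]
  refine (Nat.div_eq_of_eq_mul_right (hpos v) ?_).symm
  rw [e]

private theorem gw_step_Wc {k : ℕ} (P : Finset ℕ) (N : Fin k → ℕ → ℕ) (B : ℕ)
    (I J : Finset (Fin k)) (c : Fin k → ℕ) (j : Fin k) (hI : j ∉ I) :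
    GW P N B I J c = GW P N B I (insert j J) c +
      ∑ b ∈ range B, GW P N B (insert j I) J (Function.update c j b) := by
  classical
  unfold GW
  rw [Finset.sum_comm (s := range B), ← Finset.sum_add_distrib]
  refine Finset.sum_congr rfl fun σ _ => ?_
  have hu : ∀ b, (∀ i ∈ insert j I, #{p | σ p = i} = Function.update c j b i) ↔
      #{p | σ p = j} = b ∧ ∀ i ∈ I, #{p | σ p = i} = c i := by
    intro b
    rw [Finset.forall_mem_insert, Function.update_self]
    refine and_congr Iff.rfl (forall₂_congr fun i hi => ?_)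
    rw [Function.update_of_ne (ne_of_mem_of_not_mem hi hI)]
  simp only [hu]
  simp only [Finset.forall_mem_insert]
  generalize (∏ p : P, N (σ p) p) = x
  by_cases h1 : ∀ i ∈ I, #{p | σ p = i} = c i
  · by_cases h2 : ∀ i ∈ J, B ≤ #{p | σ p = i}
    · rw [if_pos ⟨h1, h2⟩]
      by_cases h3 : B ≤ #{p | σ p = j}
      · rw [if_pos ⟨h1, h3, h2⟩, Finset.sum_eq_zero, add_zero]
        intro b hb
        rw [if_neg]
        rintro ⟨⟨h4, -⟩, -⟩
        rw [Finset.mem_range] at hb
        omega
      · rw [if_neg (fun h => h3 h.2.1), zero_add, Finset.sum_eq_single #{p | σ p = j}]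
        · rw [if_pos ⟨⟨rfl, h1⟩, h2⟩]
        · intro b _ hb
          rw [if_neg]
          rintro ⟨⟨h4, -⟩, -⟩
          exact hb h4.symm
        · intro h4
          rw [Finset.mem_range] at h4
          omega
    · rw [if_neg (fun h => h2 h.2), if_neg (fun h => h2 h.2.2),
        Finset.sum_eq_zero fun b _ => if_neg (fun h => h2 h.2), add_zero]
  · rw [if_neg (fun h => h1 h.1), if_neg (fun h => h1 h.1),
      Finset.sum_eq_zero fun b _ => if_neg (fun h => h1 h.1.2), add_zero]

theorem gw_def (hN : ∀ i, DFun (n + 1) (fun w => N i (w 0) fun i => w i.succ)) (hm : DFun n m)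
    (hB : DFun n Bd) (hb : ∀ v, ∏ p ∈ (m v).primeFactors, ∑ i, N i p v ≤ Bd v) (B : ℕ)
    (J : Finset (Fin k)) : ∀ (I : Finset (Fin k)) (_ : Disjoint I J) (c : Fin k → ℕ),
      DFun n (fun v => GW (m v).primeFactors (fun i p => N i p v) B I J c) := by
  induction J using Finset.induction_on with
  | empty => exact fun I _ c => gw_zero_Wc hN hm hB hb B I c
  | insert j J hj ih =>
    intro I hI c
    rw [Finset.disjoint_insert_right] at hI
    have h1 := ih I hI.2 c
    have h2 : ∀ b : ℕ, DFun n (fun v => GW (m v).primeFactors (fun i p => N i p v) B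
        (insert j I) J (Function.update c j b)) := fun b =>
      ih (insert j I) (Finset.disjoint_insert_left.2 ⟨hj, hI.2⟩) _
    refine dfun_congr (DFun.sub h1 (DFun.finSum (range B) h2)) fun v => ?_
    have e := gw_step_Wc (m v).primeFactors (fun i p => N i p v) B I J c j hI.1
    omega

theorem cw_def (hN : ∀ i, DFun (n + 1) (fun w => N i (w 0) fun i => w i.succ)) (hm : DFun n m)
    (hB : DFun n Bd) (hb : ∀ v, ∏ p ∈ (m v).primeFactors, ∑ i, N i p v ≤ Bd v) (B : ℕ)
    (A : Set (Fin k → ℕ)) :
    DFun n (fun v => CW (m v).primeFactors (fun i p => N i p v) B A) := by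
  classical
  have h1 : ∀ c : Fin k → Fin (B + 1), DFun n (fun v => GW (m v).primeFactors
      (fun i p => N i p v) B {i | (c i : ℕ) < B} {i | (c i : ℕ) = B} fun i => c i) := fun c =>
    gw_def hN hm hB hb B _ _ (by
      rw [Finset.disjoint_left]
      intro i hi hi'
      rw [Finset.mem_filter] at hi hi'
      omega) _
  refine dfun_congr (DFun.finSum (Finset.univ.filter fun c : Fin k → Fin (B + 1) =>
    (fun i => (c i : ℕ)) ∈ A) h1) fun v => ?_
  generalize (m v).primeFactors = P
  unfold CW GW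
  rw [Finset.sum_comm]
  refine Finset.sum_congr rfl fun σ _ => ?_
  generalize (∏ p : P, N (σ p) p v) = x
  let c0 : Fin k → Fin (B + 1) := fun i =>
    ⟨min B #{p | σ p = i}, Nat.lt_succ_of_le (min_le_left _ _)⟩
  have hc : ∀ c : Fin k → Fin (B + 1),
      ((∀ i ∈ (Finset.univ.filter fun i => (c i : ℕ) < B), #{p | σ p = i} = (c i : ℕ)) ∧
        ∀ j ∈ (Finset.univ.filter fun i => (c i : ℕ) = B), B ≤ #{p | σ p = j}) ↔ c = c0 := by
    intro c
    constructor
    · rintro ⟨h2, h3⟩
      funext i
      apply Fin.ext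
      change (c i : ℕ) = min B #{p | σ p = i}
      by_cases h4 : (c i : ℕ) < B
      · have h5 := h2 i (Finset.mem_filter.2 ⟨Finset.mem_univ _, h4⟩)
        omega
      · have h5 : (c i : ℕ) = B := by
          have := (c i).2
          omega
        have h6 := h3 i (Finset.mem_filter.2 ⟨Finset.mem_univ _, h5⟩)
        omega
    · rintro rfl
      refine ⟨fun i hi => ?_, fun i hi => ?_⟩
      · have h4 : min B #{p | σ p = i} < B := (Finset.mem_filter.1 hi).2
        change #{p | σ p = i} = min B #{p | σ p = i}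
        omega
      · have h4 : min B #{p | σ p = i} = B := (Finset.mem_filter.1 hi).2
        omega
  simp only [hc]
  by_cases h4 : (fun i => min B #{p | σ p = i}) ∈ A
  · rw [if_pos h4, Finset.sum_eq_single c0]
    · rw [if_pos rfl]
    · intro c _ h5
      rw [if_neg h5]
    · intro h5
      exact absurd (Finset.mem_filter.2 ⟨Finset.mem_univ c0, h4⟩) h5
  · rw [if_neg h4]
    symm
    refine Finset.sum_eq_zero fun c hc' => ?_
    rw [if_neg]
    rintro rfl
    exact h4 (Finset.mem_filter.1 hc').2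

end Pool.Agent.CvQ
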