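import Pool.Agent.CvQ.Dim
import Pool.Agent.CvQ.FvF
import Pool.Agent.CvQ.Crt
import Pool.Agent.CvQ.Wc
import Pool.Agent.CvH.Tot

/-!
# Package CvQ-SysR: systems with a first-order condition in the ring `ZMod m`

Complete proof. Let `A, B, θ` be the normal form of `rf φ` (`rf_fv`). For a prime `p` let `N i p v` be the number of the
`z` with entries below `p` which solve the system modulo `p` and have `FP (θ i) p (z, a v)` if `Cv p (c v)` holds, and `0`
otherwise. It is definable: `chq_all` for the relation of the system (as in `CvQ/SysF.lean`, `snf_prime`) and the relation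
`θ i` (`PRQ.comp`), `CvH.cv_delta`, `DFun.ite`. `∑ i, N i p v ≤ p ^ n` (`Prt θ`), so the product over `p ∣ m v` is at most
`(m v) ^ n` (`Nat.prod_primeFactors_dvd`). If `m v` is squarefree and `Cv p (c v)` for all `p ∣ m v`, then `SNR` is the number
`CW` of `cw_count` with `E p z := ∀ l, p ∣ sval (c l v) z` (`m ∣ s` iff `p ∣ s` for all prime divisors, `m` squarefree) and
`Q i p z := FP (θ i) p (z, a v)` (for `p` not a prime: false; `ZMod` casts depend on the residues only); `cw_def`. The condition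
is `Delta0` as in `CvH/Tot.lean` (copy the private theorem `sqf_Tot`).
-/

set_option autoImplicit false

noncomputable section

namespace Pool.Agent.CvQ

open Finset Polynomial Pool.Agent.PRc Pool.Agent.Grz Pool.Agent.CvS FirstOrder

variable {n d r k : ℕ}

private theorem fp_mod_SR {ι : Type} {p : ℕ} (θ : FR ι) {x y : ι → ℕ}
    (h : ∀ i, x i ≡ y i [MOD p]) : FP θ p x ↔ FP θ p y := by
  unfold FP
  refine exists_congr fun hp => ?_
  haveI := Fact.mk hp
  have h2 : (fun i => (x i : ZMod p)) = fun i => (y i : ZMod p) :=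
    funext fun i => (ZMod.natCast_eq_natCast_iff _ _ _).2 (h i)
  exact iff_of_eq (congrArg (θ (ZMod p)) h2)

private theorem sval_modEq_SR (m : ℕ) (e : (Fin n → Fin (d + 1)) → ℕ) {z z' : Fin n → ℕ}
    (h : ∀ i, z i ≡ z' i [MOD m]) : sval e z ≡ sval e z' [MOD m] := by
  rw [← ZMod.natCast_eq_natCast_iff]
  have h1 : ∀ i, (z i : ZMod m) = (z' i : ZMod m) := fun i =>
    (ZMod.natCast_eq_natCast_iff _ _ _).2 (h i)
  unfold sval
  push_cast
  simp only [h1]

private theorem sval_cast_SR (K : Type) [CommSemiring K]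
    (c : (Fin n → Fin (d + 1)) → ℕ) (z : Fin n → ℕ) :
    ((sval c z : ℕ) : K) = sval c (fun i => (z i : K)) := by
  unfold sval
  simp only [Nat.cast_sum, Nat.cast_mul, Nat.cast_prod, Nat.cast_pow, Nat.cast_id]

/-- the system as a relation on all fields, with additional parameters -/
private def XSR (n d r k : ℕ) : FR (Fin n ⊕ ((Fin r × (Fin n → Fin (d + 1))) ⊕ Fin k)) :=
  fun _ _ x => ∀ l : Fin r, ∑ e : Fin n → Fin (d + 1), x (Sum.inr (Sum.inl (l, e))) *
    ∏ i, x (Sum.inl i) ^ (e i : ℕ) = 0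

private theorem xsr_prd (n d r k : ℕ) : PRD (XSR n d r k) := by
  have h : PRD (fun (K : Type) [Field K]
      (x : Fin n ⊕ ((Fin r × (Fin n → Fin (d + 1))) ⊕ Fin k) → K) =>
      ∀ l ∈ (Finset.univ : Finset (Fin r)), ∑ e : Fin n → Fin (d + 1),
        x (Sum.inr (Sum.inl (l, e))) * ∏ i, x (Sum.inl i) ^ (e i : ℕ) = 0) := by
    refine PRD.all Finset.univ (P := fun (l : Fin r) (K : Type) [Field K]
      (x : Fin n ⊕ ((Fin r × (Fin n → Fin (d + 1))) ⊕ Fin k) → K) =>
      ∑ e : Fin n → Fin (d + 1), x (Sum.inr (Sum.inl (l, e))) *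
        ∏ i, x (Sum.inl i) ^ (e i : ℕ) = 0)
      fun l _ => ?_
    refine PRD.eq ?_ PRF.zero
    refine PRF.sum Finset.univ (F := fun (e : Fin n → Fin (d + 1)) (K : Type) [Field K]
      (x : Fin n ⊕ ((Fin r × (Fin n → Fin (d + 1))) ⊕ Fin k) → K) =>
      x (Sum.inr (Sum.inl (l, e))) * ∏ i, x (Sum.inl i) ^ (e i : ℕ)) fun e _ => ?_
    refine PRF.mul (PRF.var _) ?_
    exact PRF.prod Finset.univ (F := fun (i : Fin n) (K : Type) [Field K]
      (x : Fin n ⊕ ((Fin r × (Fin n → Fin (d + 1))) ⊕ Fin k) → K) =>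
      x (Sum.inl i) ^ (e i : ℕ)) fun i _ => (PRF.var _).pow _
  refine h.congr fun K _ x => ?_
  unfold XSR
  simp only [Finset.mem_univ, forall_true_left]

/-- the relation on all fields, with additional parameters -/
private def TSR (n d r k : ℕ) (θ : FR (Fin n ⊕ Fin k)) :
    FR (Fin n ⊕ ((Fin r × (Fin n → Fin (d + 1))) ⊕ Fin k)) :=
  fun K _ x => θ K (Sum.elim (fun i => x (Sum.inl i)) fun j => x (Sum.inr (Sum.inr j)))

private theorem tsr_prq (n d r k : ℕ) {θ : FR (Fin n ⊕ Fin k)} (hθ : PRQ θ) :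
    PRQ (TSR n d r k θ) := by
  have h := hθ.comp (κ := Fin n ⊕ ((Fin r × (Fin n → Fin (d + 1))) ⊕ Fin k))
    (G := Sum.elim
      (fun i => fun K _ (x : Fin n ⊕ ((Fin r × (Fin n → Fin (d + 1))) ⊕ Fin k) → K) =>
        x (Sum.inl i))
      (fun j => fun K _ (x : Fin n ⊕ ((Fin r × (Fin n → Fin (d + 1))) ⊕ Fin k) → K) =>
        x (Sum.inr (Sum.inr j)))) (by
      rintro (i | j)
      · exact PRF.var (Sum.inl i)
      · exact PRF.var (Sum.inr (Sum.inr j)))
  refine h.congr fun K _ x => ?_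
  unfold TSR
  refine iff_of_eq (congrArg (θ K) ?_)
  funext j
  rcases j with j | j <;> rfl

open scoped Classical in
/-- the number of the solutions modulo `p` with the relation modulo `p` -/
private def NSR (p : ℕ) (c : Fin r → (Fin n → Fin (d + 1)) → ℕ) (θ : FR (Fin n ⊕ Fin k))
    (a : Fin k → ℕ) : ℕ :=
  #{z ∈ Fintype.piFinset fun _ : Fin n => range p | (∀ l, p ∣ sval (c l) z) ∧
    FP θ p (Sum.elim z a)}

private theorem fp_iff_SR {ι : Type} (p : ℕ) [Fact p.Prime] (θ : FR ι) (x : ι → ℕ) :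
    FP θ p x ↔ θ (ZMod p) (fun i => (x i : ZMod p)) :=
  ⟨fun ⟨_, h⟩ => h, fun h => ⟨Fact.out, h⟩⟩

private theorem nsr_card (p : ℕ) [Fact p.Prime] (c : Fin r → (Fin n → Fin (d + 1)) → ℕ)
    (θ : FR (Fin n ⊕ Fin k)) (a : Fin k → ℕ) :
    Nat.card {w : Fin n → ZMod p // (∀ l, sval (c l) w = 0) ∧
      θ (ZMod p) (Sum.elim w fun i => (a i : ZMod p))} = NSR p c θ a := by
  classical
  have hpp : p.Prime := Fact.out
  have hp : 0 < p := hpp.pos
  have hff : ∀ z : Fin n → ℕ, FP θ p (Sum.elim z a) ↔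
      θ (ZMod p) (Sum.elim (fun i => (z i : ZMod p)) fun i => (a i : ZMod p)) := by
    intro z
    rw [fp_iff_SR]
    refine iff_of_eq (congrArg (θ (ZMod p)) ?_)
    funext i
    rcases i with i | i <;> rfl
  have hS : {w : Fin n → ZMod p | (∀ l, sval (c l) w = 0) ∧
      θ (ZMod p) (Sum.elim w fun i => (a i : ZMod p))} =
      ↑(({z ∈ Fintype.piFinset fun _ : Fin n => range p | (∀ l, p ∣ sval (c l) z) ∧
        FP θ p (Sum.elim z a)} : Finset (Fin n → ℕ)).image
          fun z i => (z i : ZMod p)) := by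
    ext w
    simp only [Finset.coe_image, Set.mem_image, Finset.mem_coe, Finset.mem_filter,
      Fintype.mem_piFinset, Finset.mem_range, Set.mem_setOf_eq]
    constructor
    · rintro ⟨hw, hf⟩
      refine ⟨fun i => (w i).val, ⟨fun i => ZMod.val_lt _, fun l => ?_, ?_⟩, ?_⟩
      · rw [← ZMod.natCast_eq_zero_iff, sval_cast_SR]
        simp only [ZMod.natCast_val, ZMod.cast_id', id_eq]
        exact hw l
      · rw [hff]
        simp only [ZMod.natCast_val, ZMod.cast_id', id_eq]
        exact hf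
      · funext i
        simp only [ZMod.natCast_val, ZMod.cast_id', id_eq]
    · rintro ⟨z, ⟨_, h2, h3⟩, rfl⟩
      refine ⟨fun l => ?_, (hff z).1 h3⟩
      rw [← sval_cast_SR, ZMod.natCast_eq_zero_iff]
      exact h2 l
  have hc : Nat.card {w : Fin n → ZMod p // (∀ l, sval (c l) w = 0) ∧
      θ (ZMod p) (Sum.elim w fun i => (a i : ZMod p))} =
      {w : Fin n → ZMod p | (∀ l, sval (c l) w = 0) ∧
        θ (ZMod p) (Sum.elim w fun i => (a i : ZMod p))}.ncard := by
    rw [← Nat.card_coe_set_eq]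
    rfl
  rw [hc, hS, Set.ncard_coe_finset, Finset.card_image_of_injOn]
  · unfold NSR
    congr
  · intro z hz z' hz' h
    simp only [Finset.mem_coe, Finset.mem_filter, Fintype.mem_piFinset, Finset.mem_range] at hz hz'
    funext i
    have h1 : ((z i : ℕ) : ZMod p) = (z' i : ZMod p) := congrFun h i
    rw [ZMod.natCast_eq_natCast_iff] at h1
    have h2 : z i % p = z' i % p := h1
    rwa [Nat.mod_eq_of_lt (hz.1 i), Nat.mod_eq_of_lt (hz'.1 i)] at h2

private theorem nsr_prime (H : One) (n d r : ℕ) {k : ℕ} {θ : FR (Fin n ⊕ Fin k)} (hθ : PRQ θ) :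
    ∃ N : ℕ → ((Fin r × (Fin n → Fin (d + 1))) ⊕ Fin k → ℕ) → ℕ, DC N ∧
      ∀ (p : ℕ) (c : Fin r → (Fin n → Fin (d + 1)) → ℕ) (a : Fin k → ℕ), Cv p c →
        N p (Sum.elim (fun i => c i.1 i.2) a) = NSR p c θ a := by
  obtain ⟨N, hN, h⟩ := chq_all H n (X := XSR n d r k) (xsr_prd n d r k) (R := TSR n d r k θ)
    (tsr_prq n d r k hθ)
  refine ⟨N, hN, fun p c a hc => ?_⟩
  obtain ⟨hp, hd⟩ := hc
  haveI := Fact.mk hp
  have h1 : ∀ (K : Type) [Field K],
      Pt (XSR n d r k) K (cst K (Sum.elim (fun i => c i.1 i.2) a)) = SZ K c :=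
    fun K _ => rfl
  have h2 := h p (Sum.elim (fun i => c i.1 i.2) a) (by rw [h1]; exact hd)
  rw [h2, ← nsr_card p c θ a]
  refine Nat.card_congr (Equiv.subtypeEquivRight fun w => ?_)
  exact Iff.rfl

private theorem nsr_sum {K : ℕ} (p : ℕ) (hp : p.Prime) (c : Fin r → (Fin n → Fin (d + 1)) → ℕ)
    (θ : Fin K → FR (Fin n ⊕ Fin k)) (hP : Prt θ) (a : Fin k → ℕ) :
    ∑ i, NSR p c (θ i) a ≤ p ^ n := by
  classical
  haveI := Fact.mk hp
  have h1 : ∑ i, NSR p c (θ i) a = #((univ : Finset (Fin K)).biUnion fun i =>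
      {z ∈ Fintype.piFinset fun _ : Fin n => range p | (∀ l, p ∣ sval (c l) z) ∧
        FP (θ i) p (Sum.elim z a)}) := by
    rw [Finset.card_biUnion]
    · refine Finset.sum_congr rfl fun i _ => ?_
      unfold NSR
      congr
    · intro i _ j _ hij
      rw [Function.onFun, Finset.disjoint_left]
      intro z hz hz'
      rw [mem_filter] at hz hz'
      have e1 := (fp_iff_SR p (θ i) _).1 hz.2.2
      have e2 := (fp_iff_SR p (θ j) _).1 hz'.2.2
      exact hij ((hP (ZMod p) _).unique e1 e2)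
  rw [h1]
  have h2 : ((univ : Finset (Fin K)).biUnion fun i =>
      {z ∈ Fintype.piFinset fun _ : Fin n => range p | (∀ l, p ∣ sval (c l) z) ∧
        FP (θ i) p (Sum.elim z a)}) ⊆ Fintype.piFinset fun _ : Fin n => range p := by
    intro z hz
    rw [mem_biUnion] at hz
    obtain ⟨i, -, hz⟩ := hz
    exact (mem_filter.1 hz).1
  refine (card_le_card h2).trans ?_
  rw [Fintype.card_piFinset]
  simp

private theorem sqf_SR {n : ℕ} {f : (Fin n → ℕ) → ℕ} (hf : DFun n f) :
    Delta0 n (fun v => Squarefree (f v)) := by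
  have h1 : Delta0 (n + 1) (fun w => w 0 * w 0 ∣ f (fun i => w i.succ) → w 0 = 1) :=
    (ECD.delta_dvd ((DFun.proj 0).mul (DFun.proj 0)) hf.weak).imp
      (Delta0.eqFun (DFun.proj 0) (DFun.const 1))
  refine ((Delta0.ltFun (DFun.const 0) hf).and (Delta0.ballFun
    (P := fun x v => x * x ∣ f v → x = 1) hf h1)).of_iff fun v => ?_
  constructor
  · intro h
    exact ⟨Nat.pos_of_ne_zero h.ne_zero, fun x _ hx => Nat.isUnit_iff.1 (h x hx)⟩
  · rintro ⟨h0, h⟩ x hx
    refine Nat.isUnit_iff.2 (h x ?_ hx)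
    have h2 : x * x ≤ f v := Nat.le_of_dvd h0 hx
    exact (Nat.le_mul_self x).trans h2

private theorem cw_congr_SR {K : ℕ} {P : Finset ℕ} {N N' : Fin K → ℕ → ℕ} (B : ℕ)
    (A : Set (Fin K → ℕ)) (h : ∀ i, ∀ p ∈ P, N i p = N' i p) : CW P N B A = CW P N' B A := by
  unfold CW
  refine Finset.sum_congr rfl fun σ _ => ?_
  have h1 : ∏ p : P, N (σ p) p = ∏ p : P, N' (σ p) p :=
    Finset.prod_congr rfl fun p _ => h _ _ p.2
  rw [h1]

private theorem snr_cw {K B m : ℕ} (hm : Squarefree m) (c : Fin r → (Fin n → Fin (d + 1)) → ℕ)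
    (φ : Language.ring.Formula (Fin n ⊕ Fin k)) (a : Fin k → ℕ) {θ : Fin K → FR (Fin n ⊕ Fin k)}
    {A : Set (Fin K → ℕ)} (hP : Prt θ)
    (hA : ∀ m, Squarefree m → ∀ x, rf φ m x ↔ cap B θ m x ∈ A) :
    SNR m c φ a = CW m.primeFactors (fun i p => NSR p c (θ i) a) B A := by
  classical
  have h1 := cw_count (n := n) hm (fun p z => ∀ l, p ∣ sval (c l) z)
    (fun i p z => FP (θ i) p (Sum.elim z a))
    (fun p z z' h => forall_congr' fun l => (sval_modEq_SR p (c l) h).dvd_iff dvd_rfl)
    (fun i p z z' h => fp_mod_SR (θ i) fun j => by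
      rcases j with j | j
      · exact h j
      · exact Nat.ModEq.refl _)
    (fun p hp z => by
      haveI := Fact.mk hp
      obtain ⟨i, hi, hu⟩ := hP (ZMod p) (fun j => ((Sum.elim z a j : ℕ) : ZMod p))
      exact ⟨i, (fp_iff_SR p (θ i) _).2 hi, fun j hj => hu j ((fp_iff_SR p (θ j) _).1 hj)⟩) B A
  have h2 : SNR m c φ a = #{z ∈ Fintype.piFinset fun _ : Fin n => range m |
      (∀ p ∈ m.primeFactors, ∀ l, p ∣ sval (c l) z) ∧
      (fun i => min B #{p ∈ m.primeFactors | FP (θ i) p (Sum.elim z a)}) ∈ A} := by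
    unfold SNR
    refine congrArg card (Finset.filter_congr fun z _ => ?_)
    refine and_congr ?_ (hA m hm _)
    constructor
    · intro h p hp l
      exact (Nat.dvd_of_mem_primeFactors hp).trans (h l)
    · intro h l
      rw [← Nat.prod_primeFactors_of_squarefree hm]
      exact Finset.prod_primes_dvd _ (fun p hp => (Nat.prime_of_mem_primeFactors hp).prime)
        fun p hp => h p hp l
  refine h2.trans (Eq.trans ?_ (h1.trans (cw_congr_SR B A fun i p _ => ?_)))
  · congr
  · unfold NSR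
    congr

open scoped Classical in
theorem snr_def (H : One) {n d r k t : ℕ} {m : (Fin t → ℕ) → ℕ}
    {c : Fin r → (Fin n → Fin (d + 1)) → (Fin t → ℕ) → ℕ} {a : Fin k → (Fin t → ℕ) → ℕ}
    (φ : Language.ring.Formula (Fin n ⊕ Fin k)) (hm : DFun t m) (hc : ∀ l e, DFun t (c l e))
    (ha : ∀ i, DFun t (a i)) : DFun t (fun v => if Squarefree (m v) ∧
      (∀ p, p.Prime → p ∣ m v → Cv p fun l e => c l e v) then
        SNR (m v) (fun l e => c l e v) φ (fun i => a i v) else 0) := by
  obtain ⟨K, B, θ, A, hθ, hP, hA⟩ := rf_fv φ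
  choose N hN h using fun i => nsr_prime H n d r (hθ i)
  have hm' : DFun t (fun v => if Squarefree (m v) then m v else 1) :=
    DFun.ite (sqf_SR hm) hm (DFun.const 1)
  have hN' : ∀ i, DFun (t + 1) (fun w => (fun (i : Fin K) (q : ℕ) (v : Fin t → ℕ) =>
      if Cv q (fun l e => c l e v) then
        N i q (Sum.elim (fun j => c j.1 j.2 v) fun j => a j v) else 0) i (w 0)
        (fun i => w i.succ)) := by
    intro i
    refine DFun.ite (CvH.cv_delta (DFun.proj 0) fun l e => (hc l e).weak) ?_ (DFun.const 0)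
    have h3 := hN i (p := fun w : Fin (t + 1) → ℕ => w 0)
      (a := Sum.elim (fun i (w : Fin (t + 1) → ℕ) => c i.1 i.2 (fun j => w j.succ))
        fun i (w : Fin (t + 1) → ℕ) => a i (fun j => w j.succ)) (DFun.proj 0) (by
        rintro (i | i)
        · exact (hc i.1 i.2).weak
        · exact (ha i).weak)
    have e : (fun v : Fin (t + 1) → ℕ => N i (v 0) fun i =>
        Sum.elim (fun i (w : Fin (t + 1) → ℕ) => c i.1 i.2 (fun j => w j.succ))
          (fun i (w : Fin (t + 1) → ℕ) => a i (fun j => w j.succ)) i v) =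
        fun w => N i (w 0) (Sum.elim (fun i => c i.1 i.2 fun j => w j.succ)
          fun i => a i fun j => w j.succ) := by
      funext w
      refine congrArg (N i (w 0)) ?_
      funext i
      rcases i with i | i <;> rfl
    rw [e] at h3
    exact h3
  have hb : ∀ v : Fin t → ℕ, ∏ q ∈ (if Squarefree (m v) then m v else 1).primeFactors,
      ∑ i, (if Cv q (fun l e => c l e v) then
        N i q (Sum.elim (fun j => c j.1 j.2 v) fun j => a j v) else 0) ≤
        (if Squarefree (m v) then m v else 1) ^ n := by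
    intro v
    have h0 : (if Squarefree (m v) then m v else 1) ≠ 0 := by
      split_ifs with h1
      · exact h1.ne_zero
      · exact one_ne_zero
    calc ∏ q ∈ (if Squarefree (m v) then m v else 1).primeFactors,
          ∑ i, (if Cv q (fun l e => c l e v) then
            N i q (Sum.elim (fun j => c j.1 j.2 v) fun j => a j v) else 0)
        ≤ ∏ q ∈ (if Squarefree (m v) then m v else 1).primeFactors, q ^ n := by
          refine Finset.prod_le_prod' fun q hq => ?_
          by_cases hC : Cv q (fun l e => c l e v)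
          · simp only [if_pos hC]
            have e1 : ∑ i, N i q (Sum.elim (fun j => c j.1 j.2 v) fun j => a j v) =
                ∑ i, NSR q (fun l e => c l e v) (θ i) fun j => a j v :=
              Finset.sum_congr rfl fun i _ => h i q (fun l e => c l e v) (fun j => a j v) hC
            rw [e1]
            exact nsr_sum q (Nat.prime_of_mem_primeFactors hq) _ θ hP _
          · simp only [if_neg hC, Finset.sum_const_zero]
            exact Nat.zero_le _
      _ = (∏ q ∈ (if Squarefree (m v) then m v else 1).primeFactors, q) ^ n :=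
          Finset.prod_pow _ _ _
      _ ≤ (if Squarefree (m v) then m v else 1) ^ n :=
          Nat.pow_le_pow_left (Nat.le_of_dvd (Nat.pos_of_ne_zero h0)
            (Nat.prod_primeFactors_dvd _)) n
  have h2 := cw_def (m := fun v => if Squarefree (m v) then m v else 1)
    (Bd := fun v => (if Squarefree (m v) then m v else 1) ^ n)
    (N := fun (i : Fin K) (q : ℕ) (v : Fin t → ℕ) => if Cv q (fun l e => c l e v) then
        N i q (Sum.elim (fun j => c j.1 j.2 v) fun j => a j v) else 0) hN' hm'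
    (PTr.DFun.powConst hm' n) hb B A
  have h3 : Delta0 (t + 1) (fun w => (w 0).Prime → w 0 ∣ m (fun i => w i.succ) →
      Cv (w 0) fun l e => c l e fun i => w i.succ) :=
    (ECD.delta_prime (DFun.proj 0)).imp ((ECD.delta_dvd (DFun.proj 0) hm.weak).imp
      (CvH.cv_delta (DFun.proj 0) fun l e => (hc l e).weak))
  have h4 : Delta0 t (fun v => Squarefree (m v) ∧
      (∀ p, p.Prime → p ∣ m v → Cv p fun l e => c l e v)) := by
    refine ((sqf_SR hm).and (Delta0.ballFun (P := fun x v => x.Prime → x ∣ m v →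
      Cv x fun l e => c l e v) hm h3)).of_iff fun v => ?_
    refine and_congr_right fun hs => ?_
    constructor
    · intro h3 p _
      exact h3 p
    · intro h3 p hp hd
      exact h3 p (Nat.le_of_dvd (Nat.pos_of_ne_zero hs.ne_zero) hd) hp hd
  have e : (fun v => if Squarefree (m v) ∧
      (∀ p, p.Prime → p ∣ m v → Cv p fun l e => c l e v) then
        SNR (m v) (fun l e => c l e v) φ (fun i => a i v) else 0) = fun v =>
      if Squarefree (m v) ∧ (∀ p, p.Prime → p ∣ m v → Cv p fun l e => c l e v) then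
        CW (if Squarefree (m v) then m v else 1).primeFactors
          (fun i q => if Cv q (fun l e => c l e v) then
            N i q (Sum.elim (fun j => c j.1 j.2 v) fun j => a j v) else 0) B A else 0 := by
    funext v
    by_cases h5 : Squarefree (m v) ∧ (∀ p, p.Prime → p ∣ m v → Cv p fun l e => c l e v)
    · rw [if_pos h5, if_pos h5, if_pos h5.1, snr_cw h5.1 _ φ _ hP hA]
      refine cw_congr_SR B A fun i p hp => ?_
      have hC := h5.2 p (Nat.prime_of_mem_primeFactors hp) (Nat.dvd_of_mem_primeFactors hp)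
      rw [if_pos hC]
      exact (h i p (fun l e => c l e v) (fun j => a j v) hC).symm
    · rw [if_neg h5, if_neg h5]
  rw [e]
  exact DFun.ite h4 h2 (DFun.const 0)

end Pool.Agent.CvQ
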