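import Pool.Agent.CvQ.Defs

/-!
# Package CvQ-TwP: twisting with a permutation

`pu u j c = ∑_{l < m} u_(j,c,l) X ^ l`. `Tw h w π u`: `pu u j c (w(X)) = pu u (π j) c` modulo `h`, for all `j`, `c`.
`p` is a prime, `K` the algebraic closure of `ZMod p`, `h` and `w` are over `ZMod p`, `h ∣ X ^ p - w`.

Complete proofs.

* `tw_frob`: `u` has coordinates in `ZMod p`, so `pu u j c (θ) ^ p = pu u j c (θ ^ p)`
  (`Polynomial.expand_char`-type lemmas, or `map_sum` for the Frobenius map and `x ^ p = x` on `ZMod p`),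
  `θ ^ p = w(θ)` since `h(θ) = 0`, and `pu u j c (w(θ)) = pu u (π j) c (θ)` by `Tw`.
* `tw_exists`: `h` is irreducible of degree `m`, `θ` a root. `(t j c) ^ (p ^ m) = t (π^[m] j) c = t j c`. The
  subfield `(ZMod p)(θ)` of `K` has `p ^ m` elements (`AdjoinRoot`, `minpoly`), so it is the set of all roots of
  `X ^ (p ^ m) - X`, and it consists of the `g(θ)`, `g` of degree less than `m`. So
  `t j c = pu u j c (θ)` for some `u` over `ZMod p`. `Tw`: `pu u j c (w(θ)) = pu u j c (θ ^ p) = (t j c) ^ p =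
  t (π j) c = pu u (π j) c (θ)`, and `h` is (up to a unit) the minimal polynomial of `θ`.
* `tw_fin`: let `θ` be the root for `u` and `θ_i = θ ^ (p ^ i)`, `i < m`: roots of `h`, all different
  (if `θ_i = θ_j`, `i < j < m`, then `θ` is in the field with `p ^ (j - i)` elements, so its degree over
  `ZMod p` is less than `m`). By `Tw` and `w(θ_i) = θ_(i+1)`:
  `pu u j c (θ_(i+1)) = pu u (π j) c (θ_i)`. So `θ` and the values `pu u j c (θ)` determine all the values
  `pu u j c (θ_i)`, hence the polynomials `pu u j c` (degree less than `m`, `m` values), hence `u`. There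
  are finitely many `θ` and the values are in the finite set `S`.
-/

set_option autoImplicit false

noncomputable section

namespace Pool.Agent.CvQ

open Polynomial Pool.Agent.PRc

/-- the polynomials with the coefficients `u` -/
def pu {L : Type} [Field L] {J κ : Type} {m : ℕ} (u : (J × κ) × Fin m → L) (j : J) (c : κ) :
    L[X] := ∑ l : Fin m, C (u ((j, c), l)) * X ^ (l : ℕ)

/-- the twisted condition -/
def Tw {L : Type} [Field L] {J κ : Type} {m : ℕ} (h w : L[X]) (π : J → J)
    (u : (J × κ) × Fin m → L) : Prop := ∀ j c, h ∣ (pu u j c).comp w - pu u (π j) c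

variable {p : ℕ} [Fact p.Prime] {J κ : Type} {m : ℕ} {h w : (ZMod p)[X]} {π : J → J}

private theorem frob_TwP (g : (ZMod p)[X]) (θ : AlgebraicClosure (ZMod p)) :
    (aeval θ g) ^ p = aeval (θ ^ p) g := by
  have h1 := Polynomial.aeval_algHom_apply
    (FiniteField.frobeniusAlgHom (ZMod p) (AlgebraicClosure (ZMod p))) θ g
  have h2 : ∀ x : AlgebraicClosure (ZMod p),
      FiniteField.frobeniusAlgHom (ZMod p) (AlgebraicClosure (ZMod p)) x = x ^ p := by
    intro x
    rw [FiniteField.coe_frobeniusAlgHom]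
    change x ^ Fintype.card (ZMod p) = _
    rw [ZMod.card]
  rw [h2, h2] at h1
  exact h1.symm

private theorem frob_pow_TwP (g : (ZMod p)[X]) (θ : AlgebraicClosure (ZMod p)) (i : ℕ) :
    (aeval θ g) ^ p ^ i = aeval (θ ^ p ^ i) g := by
  induction i with
  | zero => rw [pow_zero, pow_one, pow_one]
  | succ i ih => rw [pow_succ, pow_mul, ih, frob_TwP, ← pow_mul]

private theorem coeff_pu_TwP {L : Type} [Field L] (u : (J × κ) × Fin m → L) (j : J) (c : κ)
    (l : Fin m) : (pu u j c).coeff l = u ((j, c), l) := by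
  unfold pu
  rw [Polynomial.finset_sum_coeff, Finset.sum_eq_single l]
  · rw [Polynomial.coeff_C_mul_X_pow, if_pos rfl]
  · intro l' _ hne
    rw [Polynomial.coeff_C_mul_X_pow, if_neg fun h => hne (Fin.ext h.symm)]
  · intro h
    exact absurd (Finset.mem_univ l) h

private theorem pu_coeff_TwP {L : Type} [Field L] {g : J → κ → L[X]} {j : J} {c : κ}
    (hg : (g j c).degree < m) :
    pu (fun x : (J × κ) × Fin m => (g x.1.1 x.1.2).coeff x.2) j c = g j c := by
  ext k
  by_cases hk : k < m
  · exact coeff_pu_TwP (m := m) _ j c ⟨k, hk⟩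
  · rw [Polynomial.coeff_eq_zero_of_degree_lt, Polynomial.coeff_eq_zero_of_degree_lt]
    · exact hg.trans_le (by exact_mod_cast not_lt.1 hk)
    · exact (Polynomial.degree_sum_fin_lt _).trans_le (by exact_mod_cast not_lt.1 hk)

private theorem natCard_TwP (hd : h.natDegree = m) [Fact (Irreducible h)] :
    Finite (AdjoinRoot h) ∧ Nat.card (AdjoinRoot h) = p ^ m := by
  have h0 : h ≠ 0 := (Fact.out : Irreducible h).ne_zero
  have pb := AdjoinRoot.powerBasis h0
  haveI : Module.Finite (ZMod p) (AdjoinRoot h) := (AdjoinRoot.powerBasis h0).finite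
  have h1 := (AdjoinRoot.powerBasis h0).finrank
  rw [AdjoinRoot.powerBasis_dim, hd] at h1
  refine ⟨Module.finite_of_finite (ZMod p), ?_⟩
  rw [Module.natCard_eq_pow_finrank (K := ZMod p), Nat.card_zmod, h1]

private theorem exists_TwP (hm : h.Monic) (hd : h.natDegree = m) (hi : Irreducible h)
    {θ : AlgebraicClosure (ZMod p)} (hθ : aeval θ h = 0) {x : AlgebraicClosure (ZMod p)}
    (hx : x ^ p ^ m = x) : ∃ g : (ZMod p)[X], g.degree < m ∧ aeval θ g = x := by
  classical
  haveI : Fact (Irreducible h) := ⟨hi⟩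
  obtain ⟨hfin, hcard⟩ := natCard_TwP (p := p) hd
  haveI := Fintype.ofFinite (AdjoinRoot h)
  have hm0 : m ≠ 0 := by
    rw [← hd]
    exact hi.natDegree_pos.ne'
  have hp1 : 1 < p := (Fact.out : p.Prime).one_lt
  let φ : AdjoinRoot h →ₐ[ZMod p] AlgebraicClosure (ZMod p) :=
    AdjoinRoot.liftAlgHom h (Algebra.ofId _ _) θ hθ
  have hφ : Function.Injective φ := φ.toRingHom.injective
  let P : (AlgebraicClosure (ZMod p))[X] := X ^ p ^ m - X
  have hP : P ≠ 0 := FiniteField.X_pow_card_pow_sub_X_ne_zero _ hm0 hp1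
  have hPd : P.natDegree = p ^ m := FiniteField.X_pow_card_pow_sub_X_natDegree_eq _ hm0 hp1
  have hsub : Finset.univ.image φ ⊆ P.roots.toFinset := by
    intro y hy
    obtain ⟨z, -, rfl⟩ := Finset.mem_image.1 hy
    rw [Multiset.mem_toFinset, Polynomial.mem_roots hP, Polynomial.IsRoot.def]
    change (X ^ p ^ m - X : (AlgebraicClosure (ZMod p))[X]).eval (φ z) = 0
    rw [eval_sub, eval_pow, eval_X, ← map_pow, ← hcard, Nat.card_eq_fintype_card,
      FiniteField.pow_card, sub_self]
  have hle : P.roots.toFinset.card ≤ (Finset.univ.image φ).card := by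
    rw [Finset.card_image_of_injective _ hφ, Finset.card_univ, ← Nat.card_eq_fintype_card, hcard,
      ← hPd]
    exact (Multiset.toFinset_card_le _).trans (Polynomial.card_roots' P)
  have heq := Finset.eq_of_subset_of_card_le hsub hle
  have hxm : x ∈ P.roots.toFinset := by
    rw [Multiset.mem_toFinset, Polynomial.mem_roots hP, Polynomial.IsRoot.def]
    change (X ^ p ^ m - X : (AlgebraicClosure (ZMod p))[X]).eval x = 0
    rw [eval_sub, eval_pow, eval_X, hx, sub_self]
  rw [← heq] at hxm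
  obtain ⟨z, -, rfl⟩ := Finset.mem_image.1 hxm
  obtain ⟨g, rfl⟩ := AdjoinRoot.mk_surjective z
  refine ⟨g %ₘ h, ?_, ?_⟩
  · rw [← hd, ← Polynomial.degree_eq_natDegree hi.ne_zero]
    exact Polynomial.degree_modByMonic_lt g hm
  · rw [Polynomial.aeval_modByMonic_eq_self_of_root hθ]
    exact (AdjoinRoot.liftAlgHom_mk _ _ _ _ g).symm

private theorem root_w_TwP (hw : h ∣ X ^ p - w) {θ : AlgebraicClosure (ZMod p)}
    (hθ : aeval θ h = 0) : θ ^ p = aeval θ w := by
  obtain ⟨q, hq⟩ := hw
  have h1 := congrArg (aeval θ) hq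
  rw [map_mul, hθ, zero_mul, map_sub, map_pow, aeval_X] at h1
  exact sub_eq_zero.1 h1

theorem tw_frob (hw : h ∣ X ^ p - w) {θ : AlgebraicClosure (ZMod p)}
    (hθ : (h.map (algebraMap (ZMod p) (AlgebraicClosure (ZMod p)))).eval θ = 0)
    {u : (J × κ) × Fin m → ZMod p} (hu : Tw h w π u) (j : J) (c : κ) :
    ((pu u j c).map (algebraMap (ZMod p) (AlgebraicClosure (ZMod p)))).eval θ ^ p =
      ((pu u (π j) c).map (algebraMap (ZMod p) (AlgebraicClosure (ZMod p)))).eval θ := by
  rw [Polynomial.eval_map_algebraMap] at hθ ⊢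
  rw [Polynomial.eval_map_algebraMap, frob_TwP, root_w_TwP hw hθ]
  obtain ⟨q, hq⟩ := hu j c
  have h1 := congrArg (aeval θ) hq
  rw [map_mul, hθ, zero_mul, map_sub, aeval_comp] at h1
  exact sub_eq_zero.1 h1

theorem tw_exists (hm : h.Monic) (hd : h.natDegree = m) (hi : Irreducible h)
    (hw : h ∣ X ^ p - w) {θ : AlgebraicClosure (ZMod p)}
    (hθ : (h.map (algebraMap (ZMod p) (AlgebraicClosure (ZMod p)))).eval θ = 0)
    (hπ : π^[m] = id) {t : J → κ → AlgebraicClosure (ZMod p)}
    (ht : ∀ j c, t j c ^ p = t (π j) c) : ∃ u : (J × κ) × Fin m → ZMod p, Tw h w π u ∧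
      ∀ j c, t j c = ((pu u j c).map (algebraMap (ZMod p) (AlgebraicClosure (ZMod p)))).eval θ := by
  rw [Polynomial.eval_map_algebraMap] at hθ
  have h1 : ∀ i j c, t j c ^ p ^ i = t (π^[i] j) c := by
    intro i
    induction i with
    | zero =>
      intro j c
      rw [pow_zero, pow_one]
      rfl
    | succ i ih =>
      intro j c
      rw [pow_succ, pow_mul, ih, ht, Function.iterate_succ_apply']
  have h2 : ∀ j c, ∃ g : (ZMod p)[X], g.degree < m ∧ aeval θ g = t j c := fun j c =>
    exists_TwP hm hd hi hθ (by rw [h1, hπ, id])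
  choose g hg hgt using h2
  have h3 : ∀ j c, pu (fun x : (J × κ) × Fin m => (g x.1.1 x.1.2).coeff x.2) j c = g j c :=
    fun j c => pu_coeff_TwP (hg j c)
  have hmin : h = minpoly (ZMod p) θ := minpoly.eq_of_irreducible_of_monic hi hθ hm
  refine ⟨fun x => (g x.1.1 x.1.2).coeff x.2, fun j c => ?_, fun j c => ?_⟩
  · rw [h3, h3, hmin]
    refine minpoly.dvd _ _ ?_
    rw [map_sub, aeval_comp, ← root_w_TwP hw hθ, ← frob_TwP, hgt, hgt, ht, sub_self]
  · rw [h3, Polynomial.eval_map_algebraMap, hgt]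

private theorem root_pow_TwP {θ : AlgebraicClosure (ZMod p)}
    (hθ : (h.map (algebraMap (ZMod p) (AlgebraicClosure (ZMod p)))).eval θ = 0) (i : ℕ) :
    aeval (θ ^ p ^ i) h = 0 := by
  rw [Polynomial.eval_map_algebraMap] at hθ
  rw [← frob_pow_TwP, hθ, zero_pow (pow_pos (Fact.out : p.Prime).pos _).ne']

private theorem conj_TwP (hw : h ∣ X ^ p - w) {θ : AlgebraicClosure (ZMod p)}
    (hθ : (h.map (algebraMap (ZMod p) (AlgebraicClosure (ZMod p)))).eval θ = 0)
    {u : (J × κ) × Fin m → AlgebraicClosure (ZMod p)}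
    (hu : Tw (h.map (algebraMap (ZMod p) (AlgebraicClosure (ZMod p))))
      (w.map (algebraMap (ZMod p) (AlgebraicClosure (ZMod p)))) π u) (i : ℕ) (j : J) (c : κ) :
    (pu u j c).eval (θ ^ p ^ i) = (pu u (π^[i] j) c).eval θ := by
  induction i generalizing j with
  | zero =>
    rw [pow_zero, pow_one]
    rfl
  | succ i ih =>
    obtain ⟨q, hq⟩ := hu j c
    have h1 := congrArg (eval (θ ^ p ^ i)) hq
    rw [eval_mul, Polynomial.eval_map_algebraMap, root_pow_TwP hθ, zero_mul, eval_sub, eval_comp,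
      Polynomial.eval_map_algebraMap, ← root_w_TwP hw (root_pow_TwP hθ i), ← pow_mul,
      ← pow_succ] at h1
    rw [sub_eq_zero.1 h1, ih, Function.iterate_succ_apply]

private theorem frob_inj_TwP (i : ℕ) {x y : AlgebraicClosure (ZMod p)}
    (hxy : x ^ p ^ i = y ^ p ^ i) : x = y := by
  have h1 := iterateFrobenius_inj (AlgebraicClosure (ZMod p)) p i
  exact h1 hxy

private theorem inj_TwP (hm : h.Monic) (hd : h.natDegree = m) (hi : Irreducible h)
    {θ : AlgebraicClosure (ZMod p)}
    (hθ : (h.map (algebraMap (ZMod p) (AlgebraicClosure (ZMod p)))).eval θ = 0) :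
    Set.InjOn (fun i => θ ^ p ^ i) (Finset.range m : Set ℕ) := by
  classical
  have hθ1 : aeval θ h = 0 := by rwa [Polynomial.eval_map_algebraMap] at hθ
  have key : ∀ i j : ℕ, i < j → j < m → θ ^ p ^ i ≠ θ ^ p ^ j := by
    intro i j hij hj he
    obtain ⟨d, rfl⟩ := Nat.exists_eq_add_of_lt hij
    have hd0 : d + 1 ≠ 0 := Nat.succ_ne_zero d
    have hp1 : 1 < p := (Fact.out : p.Prime).one_lt
    have h1 : θ = θ ^ p ^ (d + 1) := by
      refine frob_inj_TwP i ?_
      rw [he, ← pow_mul, ← pow_add]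
      congr 2
      ring
    haveI : Fact (Irreducible h) := ⟨hi⟩
    obtain ⟨hfin, hcard⟩ := natCard_TwP (p := p) hd
    haveI := Fintype.ofFinite (AdjoinRoot h)
    let φ : AdjoinRoot h →ₐ[ZMod p] AlgebraicClosure (ZMod p) :=
      AdjoinRoot.liftAlgHom h (Algebra.ofId _ _) θ hθ1
    have hφ : Function.Injective φ := φ.toRingHom.injective
    let P : (AlgebraicClosure (ZMod p))[X] := X ^ p ^ (d + 1) - X
    have hP : P ≠ 0 := FiniteField.X_pow_card_pow_sub_X_ne_zero _ hd0 hp1
    have hPd : P.natDegree = p ^ (d + 1) :=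
      FiniteField.X_pow_card_pow_sub_X_natDegree_eq _ hd0 hp1
    have hsub : Finset.univ.image φ ⊆ P.roots.toFinset := by
      intro y hy
      obtain ⟨z, -, rfl⟩ := Finset.mem_image.1 hy
      obtain ⟨g, rfl⟩ := AdjoinRoot.mk_surjective z
      have h2 : φ (AdjoinRoot.mk h g) = aeval θ g := AdjoinRoot.liftAlgHom_mk _ _ _ _ g
      rw [Multiset.mem_toFinset, Polynomial.mem_roots hP, Polynomial.IsRoot.def]
      change (X ^ p ^ (d + 1) - X : (AlgebraicClosure (ZMod p))[X]).eval
        (φ (AdjoinRoot.mk h g)) = 0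
      rw [eval_sub, eval_pow, eval_X, h2, frob_pow_TwP, ← h1, sub_self]
    have h3 := Finset.card_le_card hsub
    rw [Finset.card_image_of_injective _ hφ, Finset.card_univ, ← Nat.card_eq_fintype_card,
      hcard] at h3
    have h4 := (h3.trans (Multiset.toFinset_card_le _)).trans (Polynomial.card_roots' P)
    rw [hPd] at h4
    have h5 := (Nat.pow_le_pow_iff_right hp1).1 h4
    omega
  intro i hi' j hj' he
  have h1 : i < m := Finset.mem_range.1 hi'
  have h2 : j < m := Finset.mem_range.1 hj'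
  rcases lt_trichotomy i j with h3 | h3 | h3
  · exact absurd he (key i j h3 h2)
  · exact h3
  · exact absurd he.symm (key j i h3 h1)

theorem tw_fin [Finite J] [Finite κ] (hm : h.Monic) (hd : h.natDegree = m) (hi : Irreducible h)
    (hw : h ∣ X ^ p - w) {S : Set (J → κ → AlgebraicClosure (ZMod p))} (hS : S.Finite) :
    {u : (J × κ) × Fin m → AlgebraicClosure (ZMod p) |
      Tw (h.map (algebraMap (ZMod p) (AlgebraicClosure (ZMod p))))
        (w.map (algebraMap (ZMod p) (AlgebraicClosure (ZMod p)))) π u ∧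
      ∃ θ, (h.map (algebraMap (ZMod p) (AlgebraicClosure (ZMod p)))).eval θ = 0 ∧
        (fun j c => (pu u j c).eval θ) ∈ S}.Finite := by
  classical
  have hm0 : h.map (algebraMap (ZMod p) (AlgebraicClosure (ZMod p))) ≠ 0 :=
    (Polynomial.map_ne_zero_iff (algebraMap (ZMod p) (AlgebraicClosure (ZMod p))).injective).2
      hi.ne_zero
  have hR : {θ : AlgebraicClosure (ZMod p) |
      (h.map (algebraMap (ZMod p) (AlgebraicClosure (ZMod p)))).eval θ = 0}.Finite := by
    refine (Finset.finite_toSet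
      (h.map (algebraMap (ZMod p) (AlgebraicClosure (ZMod p)))).roots.toFinset).subset ?_
    intro θ hθ
    rw [Finset.mem_coe, Multiset.mem_toFinset, Polynomial.mem_roots hm0]
    exact hθ
  refine (hR.biUnion (t := fun θ => {u : (J × κ) × Fin m → AlgebraicClosure (ZMod p) |
    Tw (h.map (algebraMap (ZMod p) (AlgebraicClosure (ZMod p))))
      (w.map (algebraMap (ZMod p) (AlgebraicClosure (ZMod p)))) π u ∧
      (fun j c => (pu u j c).eval θ) ∈ S}) fun θ hθ => ?_).subset ?_
  · have hθ' : (h.map (algebraMap (ZMod p) (AlgebraicClosure (ZMod p)))).eval θ = 0 := hθ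
    refine Set.Finite.of_finite_image (f := fun u => fun (j : J) (c : κ) => (pu u j c).eval θ)
      (hS.subset ?_) ?_
    · rintro _ ⟨u, hu, rfl⟩
      exact hu.2
    · intro u hu u' hu' huu
      have h1 := conj_TwP hw hθ' hu.1
      have h2 := conj_TwP hw hθ' hu'.1
      have h3 : ∀ j c, pu u j c = pu u' j c := by
        intro j c
        refine Polynomial.eq_of_degrees_lt_of_eval_index_eq (Finset.range m)
          (v := fun i => θ ^ p ^ i) (inj_TwP hm hd hi hθ') ?_ ?_ ?_
        · rw [Finset.card_range]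
          exact Polynomial.degree_sum_fin_lt _
        · rw [Finset.card_range]
          exact Polynomial.degree_sum_fin_lt _
        · intro i _
          rw [h1, h2]
          exact congrFun (congrFun huu (π^[i] j)) c
      funext x
      obtain ⟨⟨j, c⟩, l⟩ := x
      rw [← coeff_pu_TwP u j c l, h3, coeff_pu_TwP]
  · rintro u ⟨hu, θ, hθ, hS'⟩
    exact Set.mem_biUnion (show θ ∈ {θ : AlgebraicClosure (ZMod p) |
      (h.map (algebraMap (ZMod p) (AlgebraicClosure (ZMod p)))).eval θ = 0} from hθ) ⟨hu, hS'⟩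

end Pool.Agent.CvQ
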