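import Pool.Agent.CvQ.TwP
import Pool.Agent.CvQ.QQ

/-!
# Package CvQ-TwR: the twisted relation

`P i`, `i : Fin s`, are relations with parameters `β ⊕ Ax M` and unknowns `κ`; `Jn N`: pairs `(i, j)`, `j < N i`.
`En P N K x t`: for each `i` the `t (i, j)` are all the points of the fibre of `P i`, without repetition.
`Zt`: for the index `m` of the auxiliary polynomials `h`, `w`: `u` is twisted by `π`, and the values at some
root `θ` of `h` form an enumeration.

Complete proofs.

* `zt_prq`: `pu`, `hh`, `ww` have coefficients in `PRF` (`PRP`); `comp` is a finite sum of products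
  (`∑ l, C u * w ^ l`); divisibility: `PRD.dvd` (PRc/Gcd); `∃ θ`: `PRQ.ex` with `κ = Unit`; `En`: finite
  conjunctions, `PRQ.all`, `PRQ.exF`, `PRD.eq`.
* `zt_pts`, `K` the algebraic closure of `ZMod p`, `x` over `ZMod p` with valid auxiliary part
  (`Vx`). `→`: `Tw` over `K` for `u` over `ZMod p` gives `Tw` over `ZMod p` (divisibility descends:
  `Polynomial.map_dvd_map`), and `t = ` the values at `θ`: `tw_frob`. `←`: a root `θ` of `h` exists in `K`;
  `tw_exists`.
* `zt_fin`: `tw_fin` with `S` the set of the `t` with `En` (finite: all `t (i, j)` are in the finite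
  fibres).
-/

set_option autoImplicit false

noncomputable section

namespace Pool.Agent.CvQ

open Polynomial Pool.Agent.PRc

/-- indices of enumerations -/
abbrev Jn {s : ℕ} (N : Fin s → ℕ) : Type := Σ i : Fin s, Fin (N i)

/-- enumerations of the fibres -/
def En {α κ : Type} {s : ℕ} (P : Fin s → FR (α ⊕ κ)) (N : Fin s → ℕ) (K : Type) [Field K]
    (x : α → K) (t : Jn N → κ → K) : Prop :=
  ∀ i, (∀ j, P i K (Sum.elim x (t ⟨i, j⟩))) ∧ (∀ j j', t ⟨i, j⟩ = t ⟨i, j'⟩ → j = j') ∧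
    ∀ t', P i K (Sum.elim x t') → ∃ j, t ⟨i, j⟩ = t'

/-- the twisted relation -/
def Zt {β κ : Type} {s M : ℕ} (P : Fin s → FR ((β ⊕ Ax M) ⊕ κ)) (N : Fin s → ℕ)
    (π : Jn N → Jn N) (m : Fin M) :
    FR ((β ⊕ Ax M) ⊕ ((Jn N × κ) × Fin ((m : ℕ) + 1))) := fun K _ x =>
  Tw (hh (fun i => x (Sum.inl (Sum.inr i))) m) (ww (fun i => x (Sum.inl (Sum.inr i))) m) π
      (fun i => x (Sum.inr i)) ∧
    ∃ θ : K, (hh (fun i => x (Sum.inl (Sum.inr i))) m).eval θ = 0 ∧
      En P N K (fun i => x (Sum.inl i)) (fun j c => (pu (fun i => x (Sum.inr i)) j c).eval θ)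

variable {β κ : Type} {s M : ℕ} {P : Fin s → FR ((β ⊕ Ax M) ⊕ κ)} {N : Fin s → ℕ}
  {π : Jn N → Jn N} {m : Fin M}

private theorem hh_prp {γ : Type} {U : Ax M → FF γ} (hU : ∀ i, PRF (U i)) :
    PRP (fun k _ y => hh (fun i => U i k y) m) := by
  unfold hh
  exact (PRP.X.pow _).add (PRP.ofFn fun l => hU ⟨m, Sum.inl l⟩)

private theorem ww_prp {γ : Type} {U : Ax M → FF γ} (hU : ∀ i, PRF (U i)) :
    PRP (fun k _ y => ww (fun i => U i k y) m) := by
  unfold ww
  exact PRP.ofFn fun l => hU ⟨m, Sum.inr l⟩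

private theorem pu_prp {γ J κ : Type} {d : ℕ} {U : (J × κ) × Fin d → FF γ}
    (hU : ∀ i, PRF (U i)) (j : J) (c : κ) :
    PRP (fun k _ y => pu (fun i => U i k y) j c) := by
  unfold pu
  exact PRP.ofFn fun l => hU ((j, c), l)

private theorem comp_prp {γ J κ : Type} {d : ℕ} {U : (J × κ) × Fin d → FF γ} {W : FP γ}
    (hU : ∀ i, PRF (U i)) (hW : PRP W) (j : J) (c : κ) :
    PRP (fun k _ y => (pu (fun i => U i k y) j c).comp (W k y)) := by
  refine (PRP.sum (Finset.univ : Finset (Fin d))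
    (F := fun l k _ y => C (U ((j, c), l) k y) * W k y ^ (l : ℕ))
    fun l _ => (PRP.C (hU _)).mul (hW.pow l)).congr fun k _ y => ?_
  unfold pu
  rw [Polynomial.sum_comp]
  refine Finset.sum_congr rfl fun l _ => ?_
  rw [Polynomial.mul_comp, Polynomial.C_comp, Polynomial.pow_comp, Polynomial.X_comp]

private theorem const_prq {γ : Type} (q : Prop) : PRQ (ι := γ) (fun _ _ _ => q) := by
  by_cases hq : q
  · exact PRQ.true.congr fun k _ y => by simp [hq]
  · exact PRQ.true.not.congr fun k _ y => by simp [hq]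

private theorem fib_prq {γ α : Type} {Q : FR (α ⊕ κ)} (hQ : PRD Q) {A : α → FF γ}
    {T : κ → FF γ} (hA : ∀ i, PRF (A i)) (hT : ∀ c, PRF (T c)) :
    PRQ (fun K _ y => Q K (Sum.elim (fun i => A i K y) fun c => T c K y)) := by
  refine PRQ.base ((PRD.comp hQ (G := fun j => Sum.rec (fun i => A i) (fun c => T c) j)
    ?_).congr fun K _ y => ?_)
  · rintro (i | c)
    · exact hA i
    · exact hT c
  · have e : (Sum.elim (fun i => A i K y) fun c => T c K y) =
        fun j => (Sum.rec (fun i => A i) (fun c => T c) j : FF γ) K y := by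
      funext j
      rcases j with i | c
      · rfl
      · rfl
    rw [e]

private theorem en_prq {γ α : Type} [Finite κ] {Q : Fin s → FR (α ⊕ κ)} (hQ : ∀ i, PRD (Q i))
    {A : α → FF γ} {T : Jn N → κ → FF γ} (hA : ∀ i, PRF (A i)) (hT : ∀ j c, PRF (T j c)) :
    PRQ (fun K _ y => En Q N K (fun i => A i K y) fun j c => T j c K y) := by
  unfold En
  refine PRQ.allF fun i => PRQ.and (PRQ.allF fun j => ?_)
    (PRQ.and (PRQ.allF fun j => PRQ.allF fun j' => ?_) ?_)
  · exact fib_prq (hQ i) hA fun c => hT ⟨i, j⟩ c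
  · refine PRQ.imp ?_ (const_prq _)
    refine (PRQ.allF fun c => PRQ.eq (hT ⟨i, j⟩ c) (hT ⟨i, j'⟩ c)).congr fun K _ y => ?_
    exact ⟨fun h => funext h, fun h c => congrFun h c⟩
  · have h1 : PRQ (ι := γ ⊕ κ) (fun K _ y =>
        Q i K (Sum.elim (fun a => A a K fun g => y (Sum.inl g)) fun c => y (Sum.inr c)) →
          ∃ j, ∀ c, T ⟨i, j⟩ c K (fun g => y (Sum.inl g)) = y (Sum.inr c)) := by
      refine PRQ.imp ?_ (PRQ.exF fun j => PRQ.allF fun c => ?_)
      · exact fib_prq (γ := γ ⊕ κ) (hQ i)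
          (A := fun a K _ y => A a K fun g => y (Sum.inl g)) (T := fun c K _ y => y (Sum.inr c))
          (fun a => PRF.comp (hA a) fun g => PRF.var (Sum.inl g)) fun c => PRF.var (Sum.inr c)
      · exact PRQ.eq (PRF.comp (hT ⟨i, j⟩ c) fun g => PRF.var (Sum.inl g))
          (PRF.var (Sum.inr c))
    refine h1.all.congr fun K _ y => ?_
    constructor
    · intro h t' ht'
      obtain ⟨j, hj⟩ := h t' ht'
      exact ⟨j, funext hj⟩
    · intro h t' ht'
      obtain ⟨j, hj⟩ := h t' ht'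
      exact ⟨j, fun c => congrFun hj c⟩

theorem zt_prq [Finite κ] (hP : ∀ i, PRD (P i)) : PRQ (Zt P N π m) := by
  have hU : ∀ i : Ax M, PRF (ι := (β ⊕ Ax M) ⊕ ((Jn N × κ) × Fin ((m : ℕ) + 1)))
      (fun k _ x => x (Sum.inl (Sum.inr i))) := fun i => PRF.var _
  have hV : ∀ i : (Jn N × κ) × Fin ((m : ℕ) + 1),
      PRF (ι := (β ⊕ Ax M) ⊕ ((Jn N × κ) × Fin ((m : ℕ) + 1)))
        (fun k _ x => x (Sum.inr i)) := fun i => PRF.var _
  unfold Zt
  refine PRQ.and ?_ ?_
  · unfold Tw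
    refine PRQ.allF fun j => PRQ.allF fun c => PRQ.base ?_
    exact PRD.dvd (hh_prp (m := m) hU)
      ((comp_prp hV (ww_prp (m := m) hU) j c).sub (pu_prp hV (π j) c))
  · have hU' : ∀ i : Ax M, PRF (ι := ((β ⊕ Ax M) ⊕ ((Jn N × κ) × Fin ((m : ℕ) + 1))) ⊕ Unit)
        (fun k _ x => x (Sum.inl (Sum.inl (Sum.inr i)))) := fun i => PRF.var _
    have hV' : ∀ i : (Jn N × κ) × Fin ((m : ℕ) + 1),
        PRF (ι := ((β ⊕ Ax M) ⊕ ((Jn N × κ) × Fin ((m : ℕ) + 1))) ⊕ Unit)
          (fun k _ x => x (Sum.inl (Sum.inr i))) := fun i => PRF.var _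
    have hA : ∀ i : β ⊕ Ax M,
        PRF (ι := ((β ⊕ Ax M) ⊕ ((Jn N × κ) × Fin ((m : ℕ) + 1))) ⊕ Unit)
          (fun k _ x => x (Sum.inl (Sum.inl i))) := fun i => PRF.var _
    have hθ : PRF (ι := ((β ⊕ Ax M) ⊕ ((Jn N × κ) × Fin ((m : ℕ) + 1))) ⊕ Unit)
          (fun k _ x => x (Sum.inr ())) := PRF.var _
    have h1 := (PRQ.eq (PRP.eval (hh_prp (m := m) hU') hθ) PRF.zero).and
      (en_prq (N := N) hP hA (T := fun j c k _ x => (pu (fun i => x (Sum.inl (Sum.inr i)))
        j c).eval (x (Sum.inr ()))) fun j c => PRP.eval (pu_prp hV' j c) hθ)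
    refine h1.ex.congr fun K _ x => ?_
    constructor
    · rintro ⟨z, hz⟩
      exact ⟨z (), hz⟩
    · rintro ⟨θ, hz⟩
      exact ⟨fun _ => θ, hz⟩

private theorem hh_map {k L : Type} [Field k] [Field L] (φ : k →+* L) (u : Ax M → k) :
    hh (fun i => φ (u i)) m = (hh u m).map φ := by
  unfold hh
  rw [Polynomial.map_add, Polynomial.map_pow, Polynomial.map_X, Polynomial.map_sum]
  congr 1
  refine Finset.sum_congr rfl fun l _ => ?_
  rw [Polynomial.map_mul, Polynomial.map_C, Polynomial.map_pow, Polynomial.map_X]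

private theorem ww_map {k L : Type} [Field k] [Field L] (φ : k →+* L) (u : Ax M → k) :
    ww (fun i => φ (u i)) m = (ww u m).map φ := by
  unfold ww
  rw [Polynomial.map_sum]
  refine Finset.sum_congr rfl fun l _ => ?_
  rw [Polynomial.map_mul, Polynomial.map_C, Polynomial.map_pow, Polynomial.map_X]

private theorem pu_map {k L : Type} [Field k] [Field L] (φ : k →+* L) {J κ : Type} {d : ℕ}
    (u : (J × κ) × Fin d → k) (j : J) (c : κ) :
    pu (fun i => φ (u i)) j c = (pu u j c).map φ := by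
  unfold pu
  rw [Polynomial.map_sum]
  refine Finset.sum_congr rfl fun l _ => ?_
  rw [Polynomial.map_mul, Polynomial.map_C, Polynomial.map_pow, Polynomial.map_X]

private theorem tw_map {k L : Type} [Field k] [Field L] (φ : k →+* L) {J κ : Type} {d : ℕ}
    {h w : k[X]} {π : J → J} (u : (J × κ) × Fin d → k) :
    Tw (h.map φ) (w.map φ) π (fun i => φ (u i)) ↔ Tw h w π u := by
  unfold Tw
  refine forall_congr' fun j => forall_congr' fun c => ?_
  rw [pu_map, pu_map, ← Polynomial.map_comp, ← Polynomial.map_sub]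
  exact Polynomial.map_dvd_map' φ

private theorem hh_deg {k : Type} [Field k] (u : Ax M → k) :
    (hh u m).natDegree = (m : ℕ) + 1 ∧ (hh u m).Monic := by
  unfold hh
  have h1 := Polynomial.degree_sum_fin_lt
    (fun l : Fin ((m : ℕ) + 1) => u ⟨m, Sum.inl l⟩)
  refine ⟨?_, Polynomial.monic_X_pow_add h1⟩
  rw [Polynomial.natDegree_add_eq_left_of_degree_lt, Polynomial.natDegree_X_pow]
  rw [Polynomial.degree_X_pow]
  exact h1

theorem zt_pts {p : ℕ} [Fact p.Prime] (hπ : π^[(m : ℕ) + 1] = id) {x : β ⊕ Ax M → ZMod p}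
    (hx : Vx p (fun i => x (Sum.inr i))) :
    (∃ u : (Jn N × κ) × Fin ((m : ℕ) + 1) → ZMod p, Zt P N π m (AlgebraicClosure (ZMod p))
      (fun i => algebraMap (ZMod p) (AlgebraicClosure (ZMod p)) (Sum.elim x u i))) ↔
    ∃ t : Jn N → κ → AlgebraicClosure (ZMod p), En P N (AlgebraicClosure (ZMod p))
      (fun i => algebraMap (ZMod p) (AlgebraicClosure (ZMod p)) (x i)) t ∧
        ∀ j c, t j c ^ p = t (π j) c := by
  obtain ⟨hi, hw⟩ := hx m
  obtain ⟨hd, hm⟩ := hh_deg (m := m) (fun i => x (Sum.inr i))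
  constructor
  · rintro ⟨u, hT, θ, hθ, hE⟩
    have e1 := hh_map (m := m) (algebraMap (ZMod p) (AlgebraicClosure (ZMod p)))
      (fun i => x (Sum.inr i))
    have e2 := ww_map (m := m) (algebraMap (ZMod p) (AlgebraicClosure (ZMod p)))
      (fun i => x (Sum.inr i))
    change Tw (hh (fun i => algebraMap (ZMod p) (AlgebraicClosure (ZMod p)) (x (Sum.inr i))) m)
      (ww (fun i => algebraMap (ZMod p) (AlgebraicClosure (ZMod p)) (x (Sum.inr i))) m) π
        (fun i => algebraMap (ZMod p) (AlgebraicClosure (ZMod p)) (u i)) at hT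
    change (hh (fun i => algebraMap (ZMod p) (AlgebraicClosure (ZMod p))
      (x (Sum.inr i))) m).eval θ = 0 at hθ
    rw [e1, e2, tw_map] at hT
    rw [e1] at hθ
    refine ⟨_, hE, fun j c => ?_⟩
    have h1 := tw_frob hw hθ hT j c
    change (pu (fun i => algebraMap (ZMod p) (AlgebraicClosure (ZMod p)) (u i)) j c).eval θ ^ p =
      (pu (fun i => algebraMap (ZMod p) (AlgebraicClosure (ZMod p)) (u i)) (π j) c).eval θ
    rw [pu_map, pu_map]
    exact h1
  · rintro ⟨t, hE, ht⟩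
    obtain ⟨θ, hθ⟩ := IsAlgClosed.exists_root
      ((hh (fun i => x (Sum.inr i)) m).map
        (algebraMap (ZMod p) (AlgebraicClosure (ZMod p)))) (by
          rw [Polynomial.degree_map]
          intro h0
          have h1 : (hh (fun i => x (Sum.inr i)) m).natDegree = 0 :=
            Polynomial.natDegree_eq_of_degree_eq_some h0
          rw [hd] at h1
          exact Nat.succ_ne_zero _ h1)
    have hθ' : ((hh (fun i => x (Sum.inr i)) m).map
        (algebraMap (ZMod p) (AlgebraicClosure (ZMod p)))).eval θ = 0 := hθ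
    obtain ⟨u, hT, hu⟩ := tw_exists hm hd hi hw hθ' hπ ht
    refine ⟨u, ?_, θ, ?_, ?_⟩
    · change Tw (hh (fun i => algebraMap (ZMod p) (AlgebraicClosure (ZMod p))
        (x (Sum.inr i))) m)
        (ww (fun i => algebraMap (ZMod p) (AlgebraicClosure (ZMod p)) (x (Sum.inr i))) m) π
          (fun i => algebraMap (ZMod p) (AlgebraicClosure (ZMod p)) (u i))
      rw [hh_map, ww_map, tw_map]
      exact hT
    · change (hh (fun i => algebraMap (ZMod p) (AlgebraicClosure (ZMod p))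
        (x (Sum.inr i))) m).eval θ = 0
      rw [hh_map]
      exact hθ'
    · have e : t = fun j c => (pu (fun i => algebraMap (ZMod p) (AlgebraicClosure (ZMod p))
          (u i)) j c).eval θ := by
        funext j c
        rw [pu_map]
        exact hu j c
      rw [e] at hE
      exact hE

theorem zt_fin [Finite κ] {p : ℕ} [Fact p.Prime] {b : β → AlgebraicClosure (ZMod p)}
    {u : Ax M → ZMod p} (hu : Vx p u)
    (hf : ∀ i, {t | P i (AlgebraicClosure (ZMod p)) (Sum.elim (Sum.elim b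
      fun i => algebraMap (ZMod p) (AlgebraicClosure (ZMod p)) (u i)) t)}.Finite) :
    {z : (Jn N × κ) × Fin ((m : ℕ) + 1) → AlgebraicClosure (ZMod p) |
      Zt P N π m (AlgebraicClosure (ZMod p)) (Sum.elim (Sum.elim b
        fun i => algebraMap (ZMod p) (AlgebraicClosure (ZMod p)) (u i)) z)}.Finite := by
  obtain ⟨hi, hw⟩ := hu m
  obtain ⟨hd, hm⟩ := hh_deg (m := m) u
  have hS : {t : Jn N → κ → AlgebraicClosure (ZMod p) | En P N (AlgebraicClosure (ZMod p))
      (Sum.elim b fun i => algebraMap (ZMod p) (AlgebraicClosure (ZMod p)) (u i)) t}.Finite := by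
    refine (Set.Finite.pi fun j : Jn N => hf j.1).subset ?_
    rintro t ht ⟨i, j⟩ -
    exact (ht i).1 j
  refine (tw_fin (π := π) hm hd hi hw hS).subset ?_
  rintro z ⟨hT, θ, hθ, hE⟩
  change Tw (hh (fun i => algebraMap (ZMod p) (AlgebraicClosure (ZMod p)) (u i)) m)
    (ww (fun i => algebraMap (ZMod p) (AlgebraicClosure (ZMod p)) (u i)) m) π z at hT
  change (hh (fun i => algebraMap (ZMod p) (AlgebraicClosure (ZMod p)) (u i)) m).eval θ = 0
    at hθ
  rw [hh_map, ww_map] at hT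
  rw [hh_map] at hθ
  exact ⟨hT, θ, hθ, hE⟩

end Pool.Agent.CvQ
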